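import Pool.Agent.H86.CMLib.Y102.AV9

set_option autoImplicit false
set_option linter.unusedSectionVars false

/-!
# Relations between eigenvalues
-/

open Module Function Polynomial TensorProduct

noncomputable section

namespace Pool.Agent.Y102

open Pool.Agent.W516.DR Pool.Agent.H204R3.GP Pool.Agent.W516.KC Pool.Agent.H204R3.SP FT

/-- Independent eigenvalues satisfy only trivial relations. -/
theorem oddRel_of_independent {W : Type} [AddCommGroup W] [Module ℚ W] (X : Module.End ℚ W)
    {J : Type} [Fintype J] [DecidableEq J] (s : J → ℂ) (hs : LinearIndependent ℚ s)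
    (hroot : ∀ z : ℂ, aeval z (minpoly ℚ X) = 0 → z = 0 ∨ ∃ j, z = s j ∨ z = -s j) :
    OddRel X := by
  classical
  intro κ _ x hx hsum f hf
  have hs0 : ∀ j, s j ≠ 0 := fun j => hs.ne_zero j
  have hneg : ∀ i j, s i ≠ -s j := by
    intro i j h
    by_cases hij : i = j
    · subst hij
      apply hs0 i
      have h1 : (2 : ℂ) * s i = 0 := by linear_combination h
      exact (mul_eq_zero.1 h1).resolve_left two_ne_zero
    · have h1 : (1 : ℚ) • s i + (1 : ℚ) • s j = 0 := by rw [one_smul, one_smul, h]; ring
      have h2 := (LinearIndependent.pair_iff.1 (hs.comp ![i, j] (by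
        intro a b hab
        fin_cases a <;> fin_cases b <;> simp_all [Ne.symm hij])
        |> fun h => by
          have h3 : (s ∘ ![i, j]) = ![s i, s j] := by
            funext a; fin_cases a <;> rfl
          rwa [h3] at h)) 1 1 h1
      exact one_ne_zero h2.1
  have hinj : ∀ i j, s i = s j → i = j := fun i j h => hs.injective h
  let δ : κ → J → ℤ := fun k j => (if x k = s j then 1 else 0) - (if x k = -s j then 1 else 0)
  have hδ : ∀ F : ℂ → ℂ, (∀ z, F (-z) = -F z) → ∀ k, F (x k) = ∑ j, (δ k j : ℂ) * F (s j) := by
    intro F hF k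
    have hF0 : F 0 = 0 := by
      have h := hF 0
      rw [neg_zero] at h
      have h1 : (2 : ℂ) * F 0 = 0 := by linear_combination h
      exact (mul_eq_zero.1 h1).resolve_left two_ne_zero
    rcases hroot (x k) (hx k) with h | ⟨i, h | h⟩
    · rw [h, hF0]
      refine (Finset.sum_eq_zero fun j _ => ?_).symm
      have h1 : δ k j = 0 := by
        simp only [δ]
        rw [if_neg (by rw [h]; exact (hs0 j).symm),
          if_neg (by rw [h]; exact fun h' => hs0 j (neg_eq_zero.1 h'.symm)), sub_zero]
      rw [h1, Int.cast_zero, zero_mul]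
    · rw [Finset.sum_eq_single i]
      · have h1 : δ k i = 1 := by
          simp only [δ]
          rw [if_pos h, if_neg (by rw [h]; exact hneg i i), sub_zero]
        rw [h1, h, Int.cast_one, one_mul]
      · intro j _ hj
        have h1 : δ k j = 0 := by
          simp only [δ]
          rw [if_neg (by rw [h]; exact fun h' => hj (hinj i j h').symm),
            if_neg (by rw [h]; exact hneg i j), sub_zero]
        rw [h1, Int.cast_zero, zero_mul]
      · intro h'
        exact absurd (Finset.mem_univ _) h'
    · rw [Finset.sum_eq_single i]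
      · have h1 : δ k i = -1 := by
          simp only [δ]
          rw [if_pos h, if_neg (by rw [h]; exact (hneg i i).symm), zero_sub]
        rw [h1, h, hF]
        push_cast
        ring
      · intro j _ hj
        have h1 : δ k j = 0 := by
          simp only [δ]
          rw [if_neg (by rw [h]; exact (hneg j i).symm),
            if_neg (by rw [h]; exact fun h' => hj (hinj i j (neg_injective h')).symm), sub_zero]
        rw [h1, Int.cast_zero, zero_mul]
      · intro h'
        exact absurd (Finset.mem_univ _) h'
  have hsumF : ∀ F : ℂ → ℂ, (∀ z, F (-z) = -F z) →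
      ∑ k, F (x k) = ∑ j, ((∑ k, δ k j : ℤ) : ℂ) * F (s j) := by
    intro F hF
    rw [Finset.sum_congr rfl fun k _ => hδ F hF k, Finset.sum_comm]
    refine Finset.sum_congr rfl fun j _ => ?_
    rw [← Finset.sum_mul]
    push_cast
    rfl
  have h1 := hsumF id fun z => rfl
  simp only [id] at h1
  rw [hsum] at h1
  have h2 : ∀ j, ((∑ k, δ k j : ℤ) : ℚ) = 0 := by
    rw [Fintype.linearIndependent_iff] at hs
    refine hs _ ?_
    rw [h1]
    refine Finset.sum_congr rfl fun j _ => ?_
    rw [Rat.smul_def]
    push_cast
    rfl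
  rw [hsumF f hf]
  refine Finset.sum_eq_zero fun j _ => ?_
  have h3 : (∑ k, δ k j : ℤ) = 0 := by exact_mod_cast h2 j
  rw [h3, Int.cast_zero, zero_mul]

/-- **Square roots of rational numbers in different classes are independent.** -/
theorem independent_sqrt {J : Type} [Fintype J] (s : J → QBar) (d : J → ℚ)
    (hd0 : ∀ j, d j ≠ 0) (hs : ∀ j, s j ^ 2 = algebraMap ℚ QBar (d j))
    (hd : ∀ i j, i ≠ j → ¬ IsSquare (d i * d j)) : LinearIndependent ℚ s := by
  have hs0 : ∀ j, s j ≠ 0 := by
    intro j h
    have h1 := hs j
    rw [h, zero_pow two_ne_zero] at h1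
    exact hd0 j ((map_eq_zero _).1 h1.symm)
  -- the characters
  let G := QBar ≃ₐ[ℚ] QBar
  have hpm : ∀ (σ : G) j, σ (s j) = s j ∨ σ (s j) = -s j := by
    intro σ j
    apply sq_eq_sq_iff_eq_or_eq_neg.1
    rw [← map_pow, hs, AlgEquiv.commutes]
  let χ : J → (G →* QBar) := fun j =>
    { toFun := fun σ => σ (s j) / s j
      map_one' := by
        change s j / s j = 1
        exact div_self (hs0 j)
      map_mul' := fun σ τ => by
        change σ (τ (s j)) / s j = σ (s j) / s j * (τ (s j) / s j)
        rcases hpm τ j with h | h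
        · rw [h, div_self (hs0 j), mul_one]
        · rw [h, map_neg, neg_div, neg_div, div_self (hs0 j)]
          ring }
  have hχ : ∀ j (σ : G), σ (s j) = χ j σ * s j := by
    intro j σ
    change σ (s j) = σ (s j) / s j * s j
    rw [div_mul_cancel₀ _ (hs0 j)]
  have hinj : Function.Injective χ := by
    intro i j hij
    by_contra hne
    apply hd i j hne
    have h1 : ∀ σ : G, σ (s i * s j) = s i * s j := by
      intro σ
      have h2 : χ i σ = χ j σ := by rw [hij]
      have h3 : χ j σ * χ j σ = 1 := by
        have h4 : χ j σ = σ (s j) / s j := rfl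
        rw [h4]
        rcases hpm σ j with h | h
        · rw [h, div_self (hs0 j), mul_one]
        · rw [h, neg_div, div_self (hs0 j)]
          ring
      rw [map_mul, hχ i, hχ j, h2]
      linear_combination (s i * s j) * h3
    have : IsGalois ℚ QBar := by
      have : IsAlgClosure ℚ QBar := algebraicClosure.isAlgClosure ℚ ℂ
      exact IsAlgClosure.isGalois ℚ QBar
    obtain ⟨q, hq⟩ := (InfiniteGalois.mem_range_algebraMap_iff_fixed (k := ℚ) (s i * s j)).2 h1
    refine ⟨q, ?_⟩
    have h2 : algebraMap ℚ QBar (d i * d j) = algebraMap ℚ QBar (q * q) := by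
      rw [map_mul, map_mul, ← hs, ← hs, hq]
      ring
    exact (algebraMap ℚ QBar).injective h2
  have hli : LinearIndependent QBar (fun j => (χ j : G → QBar)) :=
    (linearIndependent_monoidHom G QBar).comp χ hinj
  rw [Fintype.linearIndependent_iff]
  intro a ha j
  rw [Fintype.linearIndependent_iff] at hli
  have h1 : algebraMap ℚ QBar (a j) * s j = 0 := by
    refine hli (fun j => algebraMap ℚ QBar (a j) * s j) ?_ j
    funext σ
    have h2 := congrArg σ ha
    rw [map_sum, map_zero] at h2
    rw [Finset.sum_apply, Pi.zero_apply, ← h2]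
    refine Finset.sum_congr rfl fun i _ => ?_
    rw [Pi.smul_apply, smul_eq_mul, Algebra.smul_def, map_mul, AlgEquiv.commutes, hχ i]
    ring
  exact (map_eq_zero _).1 ((mul_eq_zero.1 h1).resolve_right (hs0 j))

end Pool.Agent.Y102
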