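import Pool.Agent.H86.CMLib.Y102.AV10

set_option autoImplicit false
set_option linter.unusedSectionVars false

/-!
# Complex multiplication by imaginary quadratic fields, and abelian surfaces
-/

open Module Function Polynomial TensorProduct

noncomputable section

namespace Pool.Agent.Y102

open Pool.Agent.W516.DR Pool.Agent.H204R3.GP Pool.Agent.W516.KC Pool.Agent.H204R3.SP FT

/-- Independent complex square roots. -/
theorem exists_sqrt {J : Type} [Fintype J] (d : J → ℚ) (hd0 : ∀ j, d j ≠ 0)
    (hd : ∀ i j, i ≠ j → ¬ IsSquare (d i * d j)) :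
    ∃ s : J → ℂ, LinearIndependent ℚ s ∧ ∀ j, s j ^ 2 = (d j : ℂ) := by
  have h1 : ∀ j, ∃ x : QBar, x ^ 2 = algebraMap ℚ QBar (d j) := fun j =>
    IsAlgClosed.exists_pow_nat_eq _ two_pos
  choose x hx using h1
  have h2 := independent_sqrt x d hd0 hx hd
  refine ⟨fun j => algebraMap QBar ℂ (x j), ?_, fun j => ?_⟩
  · have h3 := h2.map' ((IsScalarTower.toAlgHom ℚ QBar ℂ).toLinearMap) (by
      rw [LinearMap.ker_eq_bot]
      exact (algebraMap QBar ℂ).injective)
    exact h3
  · rw [← map_pow, hx, ← IsScalarTower.algebraMap_apply]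
    rfl

theorem oddRel_of_quadratic {W : Type} [AddCommGroup W] [Module ℚ W] {r : ℕ}
    (R : Fin r → Module.End ℚ W) (d : Fin r → ℚ) (hd : ∀ j, 0 < d j)
    (hR : ∀ j, R j * R j * R j = -(d j • R j)) (hRR : ∀ i j, i ≠ j → R i * R j = 0)
    (hsq : ∀ i j, i ≠ j → ¬ IsSquare (d i * d j)) {X : Module.End ℚ W}
    (hX : X ∈ Submodule.span ℚ (Set.range R)) : OddRel X := by
  classical
  obtain ⟨c, rfl⟩ := (Submodule.mem_span_range_iff_exists_fun ℚ).1 hX
  set X := ∑ i, c i • R i with hXdef
  have hRX : ∀ j, R j * X = c j • (R j * R j) := by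
    intro j
    rw [hXdef, Finset.mul_sum, Finset.sum_eq_single j]
    · rw [mul_smul_comm]
    · intro i _ hi
      rw [mul_smul_comm, hRR j i (Ne.symm hi), smul_zero]
    · intro h
      exact absurd (Finset.mem_univ _) h
  have hRXX : ∀ j, R j * (X * X) = -((c j ^ 2 * d j) • R j) := by
    intro j
    rw [← mul_assoc, hRX, smul_mul_assoc, mul_assoc, hRX, mul_smul_comm, ← mul_assoc, hR,
      smul_neg, smul_neg, smul_smul, smul_smul]
    congr 2
    ring
  -- the polynomial
  have hroot : ∀ z : ℂ, aeval z (minpoly ℚ X) = 0 → z = 0 ∨ ∃ j, z ^ 2 = -((c j ^ 2 * d j : ℚ) : ℂ) := by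
    intro z hz
    let q : ℚ[X] := Polynomial.X * ∏ j, (Polynomial.X ^ 2 + C (c j ^ 2 * d j))
    have hq : aeval X q = 0 := by
      simp only [q]
      rw [map_mul, aeval_X]
      conv_lhs => rw [hXdef]
      rw [Finset.sum_mul]
      refine Finset.sum_eq_zero fun j _ => ?_
      rw [← Finset.mul_prod_erase _ _ (Finset.mem_univ j), map_mul, map_add, map_pow, aeval_X,
        aeval_C, ← mul_assoc, smul_mul_assoc, mul_add, pow_two, hRXX,
        Algebra.algebraMap_eq_smul_one, mul_smul_comm, mul_one, neg_add_cancel, smul_zero, zero_mul]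
    have h1 : aeval z q = 0 := by
      obtain ⟨p, hp⟩ := minpoly.dvd ℚ X hq
      rw [hp, map_mul, hz, zero_mul]
    simp only [q] at h1
    rw [map_mul, aeval_X, map_prod] at h1
    rcases mul_eq_zero.1 h1 with h2 | h2
    · exact Or.inl h2
    · obtain ⟨j, -, hj⟩ := Finset.prod_eq_zero_iff.1 h2
      right
      refine ⟨j, ?_⟩
      rw [map_add, map_pow, aeval_X, aeval_C] at hj
      have h3 : algebraMap ℚ ℂ (c j ^ 2 * d j) = ((c j ^ 2 * d j : ℚ) : ℂ) := rfl
      rw [h3] at hj
      linear_combination hj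
  obtain ⟨s, hs, hs2⟩ := exists_sqrt (fun j : {j // c j ≠ 0} => -(c j ^ 2 * d j)) (fun j => by
      have h1 : 0 < c j ^ 2 * d j := mul_pos (by positivity [j.2]) (hd j)
      exact neg_ne_zero.2 h1.ne') (fun i j hij => by
      rintro ⟨q, hq⟩
      apply hsq i j (fun h => hij (Subtype.ext h))
      refine ⟨q / (c i * c j), ?_⟩
      have hi := i.2
      have hj := j.2
      field_simp
      linear_combination hq)
  refine oddRel_of_independent X s hs fun z hz => ?_
  rcases hroot z hz with h | ⟨j, hj⟩
  · exact Or.inl h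
  · by_cases hcj : c j = 0
    · left
      rw [hcj] at hj
      simpa using hj
    · right
      refine ⟨⟨j, hcj⟩, sq_eq_sq_iff_eq_or_eq_neg.1 ?_⟩
      rw [hs2, hj]
      push_cast
      ring

namespace AbVar

/-- **Products of abelian varieties without complex multiplication and of elliptic curves with
complex multiplication.** -/
theorem products_of_quadratic {g : ℕ} (A : AbVar g) (P : Fin g → Module.End ℚ A.H1)
    (hP : ∀ i, IsDeRhamBettiEnd QBar A.dR (P i))
    (hcomm : ∀ i j, P i * P j = P j * P i) (hsym : ∀ i u v, A.om (P i u) v = A.om u (P i v))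
    (hli : LinearIndependent ℚ P) {r : ℕ}
    (R : Fin r → Module.End ℚ A.H1) (d : Fin r → ℚ) (hd : ∀ j, 0 < d j)
    (hR : ∀ j, R j * R j * R j = -(d j • R j)) (hRR : ∀ i j, i ≠ j → R i * R j = 0)
    (hsq : ∀ i j, i ≠ j → ¬ IsSquare (d i * d j))
    (hspan : ∀ X, IsDeRhamBettiEnd QBar A.dR X → (∀ u v, A.om (X u) v = -A.om u (X v)) →
      (∀ Q, IsDeRhamBettiEnd QBar A.dR Q → X * Q = Q * X) → X ∈ Submodule.span ℚ (Set.range R))
    {m : ℕ} (φ : MultilinearMap ℚ (fun _ : Fin m × Fin 2 => A.H1) ℚ)
    (hφ : IsDeRhamBettiForm QBar A.dR tau m φ) :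
    φ ∈ Submodule.span ℚ (LefProd A A.EA m) := by
  refine A.products_of_rel P hP hcomm hsym hli (fun X hX _ => ?_) φ hφ
  refine oddRel_of_quadratic R d hd hR hRR hsq (hspan X (A.mem_EA.1 hX.1) (fun u v => ?_)
    fun Q hQ => hX.2.2 Q (A.mem_EA.2 hQ))
  linear_combination hX.2.1 u v

/-- Kernels are subobjects. -/
theorem ker_sub {g : ℕ} (A : AbVar g) {N : Module.End ℚ A.H1} (hN : N ∈ A.EA) :
    IsDeRhamBettiSubspace QBar A.dR (LinearMap.ker N) := by
  rw [← coe_basis]
  refine sub_of_stable A.basis (τ := tau) _ fun D lam u hu => ?_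
  have h1 : X0 (A.basis : Basis _ ℂ (A.H1 →ₗ[ℚ] ℂ)) tau D lam ∈ A.LA := by
    rw [LA_eq]
    exact X0_mem A.basis tau_ne D lam
  rw [LinearMap.mem_ker] at hu ⊢
  have h2 := congrArg (fun T : Module.End ℚ A.H1 => T u) (hN _ h1)
  simp only [Module.End.mul_apply] at h2
  rw [← h2, hu, map_zero]

/-- The minimal polynomials of the endomorphisms of a simple abelian variety are irreducible. -/
theorem irreducible_minpoly {g : ℕ} (A : AbVar g) (hg : 0 < g)
    (hs : ∀ U, IsDeRhamBettiSubspace QBar A.dR U → U = ⊥ ∨ U = ⊤) {X : Module.End ℚ A.H1}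
    (hX : X ∈ A.EA) : Irreducible (minpoly ℚ X) := by
  have hint : IsIntegral ℚ X := Algebra.IsIntegral.isIntegral X
  have hm0 : minpoly ℚ X ≠ 0 := minpoly.ne_zero hint
  have hnz : (1 : Module.End ℚ A.H1) ≠ 0 := by
    intro h
    have h1 := congrArg (fun T : Module.End ℚ A.H1 => T (A.bas ⟨0, by omega⟩)) h
    simp only [Module.End.one_apply, LinearMap.zero_apply] at h1
    exact A.bas.ne_zero _ h1
  have hdiv : ∀ N ∈ A.EA, ∀ N' : Module.End ℚ A.H1, N * N' = 0 → N = 0 ∨ N' = 0 := by
    intro N hN N' h
    rcases hs _ (A.ker_sub hN) with h1 | h1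
    · right
      refine LinearMap.ext fun w => ?_
      have h2 : N' w ∈ LinearMap.ker N := congrArg (fun T : Module.End ℚ A.H1 => T w) h
      rw [h1, Submodule.mem_bot] at h2
      exact h2
    · left
      exact LinearMap.ker_eq_top.1 h1
  rw [irreducible_iff]
  refine ⟨?_, fun {a b} hab => ?_⟩
  · intro hu
    obtain ⟨u, hu⟩ := hu.exists_right_inv
    apply hnz
    have h1 := congrArg (aeval X) hu
    rw [map_mul, minpoly.aeval, zero_mul, map_one] at h1
    exact h1.symm
  · have ha0 : a ≠ 0 := by rintro rfl; rw [zero_mul] at hab; exact hm0 hab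
    have hb0 : b ≠ 0 := by rintro rfl; rw [mul_zero] at hab; exact hm0 hab
    have h1 : aeval X a * aeval X b = 0 := by rw [← map_mul, ← hab, minpoly.aeval]
    have hdeg : (minpoly ℚ X).natDegree = a.natDegree + b.natDegree := by
      rw [hab, natDegree_mul ha0 hb0]
    rcases hdiv _ (A.aeval_mem hX a) _ h1 with h2 | h2
    · right
      have h3 := Polynomial.natDegree_le_of_dvd (minpoly.dvd ℚ X h2) ha0
      rw [Polynomial.isUnit_iff_degree_eq_zero, Polynomial.degree_eq_natDegree hb0]
      have h4 : b.natDegree = 0 := by omega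
      rw [h4]; rfl
    · left
      have h3 := Polynomial.natDegree_le_of_dvd (minpoly.dvd ℚ X h2) hb0
      rw [Polynomial.isUnit_iff_degree_eq_zero, Polynomial.degree_eq_natDegree ha0]
      have h4 : a.natDegree = 0 := by omega
      rw [h4]; rfl

/-- Two roots of an irreducible rational polynomial are not rational multiples of each other. -/
theorem rat_mul_root {p : ℚ[X]} (hp : Irreducible p) {z : ℂ} (hz : z ≠ 0) (h : aeval z p = 0)
    {q : ℚ} (hq : aeval ((q : ℂ) * z) p = 0) (hq0 : q ≠ 0) : q = 1 ∨ q = -1 := by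
  -- all `q ^ n z` are roots
  have hall : ∀ w : ℂ, aeval w p = 0 → aeval ((q : ℂ) * w) p = 0 := by
    intro w hw
    have h1 : aeval z (p.comp (C q * Polynomial.X)) = 0 := by
      rw [aeval_comp, map_mul, aeval_C, aeval_X]
      exact hq
    have h2 : p ∣ p.comp (C q * Polynomial.X) := by
      have h3 := minpoly.dvd ℚ z h1
      have h4 := minpoly.dvd ℚ z h
      obtain ⟨c, hc⟩ := h4
      have h5 : IsUnit c := (hp.isUnit_or_isUnit hc).resolve_left (minpoly.not_isUnit ℚ z)
      have h6 : Associated (minpoly ℚ z) p := by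
        rw [hc]
        exact (associated_mul_unit_right _ _ h5)
      exact h6.symm.dvd.trans h3
    obtain ⟨c, hc⟩ := h2
    have h3 : aeval w (p.comp (C q * Polynomial.X)) = 0 := by rw [hc, map_mul, hw, zero_mul]
    rw [aeval_comp, map_mul, aeval_C, aeval_X] at h3
    exact h3
  have hpow : ∀ n : ℕ, aeval ((q : ℂ) ^ n * z) p = 0 := by
    intro n
    induction n with
    | zero => rw [pow_zero, one_mul]; exact h
    | succ n ih =>
      have h1 := hall _ ih
      rwa [← mul_assoc, ← pow_succ'] at h1
  by_contra hne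
  push Not at hne
  have hinj : Function.Injective (fun n : ℕ => (q : ℂ) ^ n * z) := by
    intro a b hab
    have h1 : (q : ℂ) ^ a = (q : ℂ) ^ b := mul_right_cancel₀ hz hab
    have h2 : q ^ a = q ^ b := by exact_mod_cast h1
    have h3 : |q| ≠ 1 := by
      intro h3
      rcases abs_eq (zero_le_one) |>.1 h3 with h4 | h4
      · exact hne.1 h4
      · exact hne.2 h4
    have h4 : |q| ^ a = |q| ^ b := by rw [← abs_pow, ← abs_pow, h2]
    exact (pow_right_injective₀ (abs_pos.2 hq0) h3) h4
  have hfin : (p.rootSet ℂ).Finite := p.rootSet_finite ℂ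
  have h1 : Set.range (fun n : ℕ => (q : ℂ) ^ n * z) ⊆ p.rootSet ℂ := by
    rintro _ ⟨n, rfl⟩
    rw [mem_rootSet]
    exact ⟨hp.ne_zero, hpow n⟩
  exact Set.infinite_range_of_injective hinj (hfin.subset h1)

/-- The relations for a polynomial with at most two pairs of roots. -/
theorem oddRel_of_degree {W : Type} [AddCommGroup W] [Module ℚ W] (X : Module.End ℚ W)
    (hirr : Irreducible (minpoly ℚ X)) (hdeg : (minpoly ℚ X).natDegree ≤ 4)
    (hneg : ∀ z : ℂ, aeval z (minpoly ℚ X) = 0 → aeval (-z) (minpoly ℚ X) = 0) : OddRel X := by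
  classical
  by_cases h0 : aeval (0 : ℂ) (minpoly ℚ X) = 0
  · -- `X = 0`
    refine oddRel_of_independent X (J := Empty) Empty.elim linearIndependent_empty_type ?_
    intro z hz
    left
    have h1 := minpoly.dvd ℚ (0 : ℂ) h0
    have h2 : minpoly ℚ (0 : ℂ) = Polynomial.X := minpoly.zero ℚ ℂ
    rw [h2] at h1
    obtain ⟨c, hc⟩ := h1
    have hu : IsUnit c := (hirr.isUnit_or_isUnit hc).resolve_left Polynomial.not_isUnit_X
    rw [hc, map_mul, aeval_X] at hz
    refine (mul_eq_zero.1 hz).resolve_right ?_
    exact (hu.map (aeval z)).ne_zero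
  · have hnz : ∀ z : ℂ, aeval z (minpoly ℚ X) = 0 → z ≠ 0 := by
      rintro z hz rfl
      exact h0 hz
    have hm0 : minpoly ℚ X ≠ 0 := hirr.ne_zero
    obtain ⟨z₁, hz₁⟩ : ∃ z : ℂ, aeval z (minpoly ℚ X) = 0 :=
      IsAlgClosed.exists_aeval_eq_zero ℂ _ (degree_pos_of_irreducible hirr).ne'
    have hz₁0 := hnz z₁ hz₁
    by_cases hone : ∀ z : ℂ, aeval z (minpoly ℚ X) = 0 → z = z₁ ∨ z = -z₁
    · refine oddRel_of_independent X (fun _ : Unit => z₁) ?_ fun z hz => Or.inr ⟨(), hone z hz⟩
      rw [linearIndependent_unique_iff]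
      exact hz₁0
    · push Not at hone
      obtain ⟨z₂, hz₂, hne1, hne2⟩ := hone
      have hz₂0 := hnz z₂ hz₂
      have hall : ∀ z : ℂ, aeval z (minpoly ℚ X) = 0 → z = z₁ ∨ z = -z₁ ∨ z = z₂ ∨ z = -z₂ := by
        intro z hz
        by_contra hc
        push Not at hc
        have hzz : ∀ w : ℂ, w ≠ 0 → w ≠ -w := by
          intro w hw h
          apply hw
          have h1 : (2 : ℂ) * w = 0 := by linear_combination h
          exact (mul_eq_zero.1 h1).resolve_left two_ne_zero
        let S : Finset ℂ := {z, z₁, -z₁, z₂, -z₂}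
        have hS : S.card = 5 := by
          simp only [S]
          have e1 := hzz z₁ hz₁0
          have e2 := hzz z₂ hz₂0
          have e3 : -z₁ ≠ z₂ := fun h => hne2 h.symm
          have e4 : z₁ ≠ z₂ := fun h => hne1 h.symm
          have e5 : z₁ ≠ -z₂ := fun h => hne2 (by rw [h, neg_neg])
          have e6 : -z₁ ≠ -z₂ := fun h => hne1 (neg_injective h).symm
          rw [Finset.card_insert_of_notMem, Finset.card_insert_of_notMem,
            Finset.card_insert_of_notMem, Finset.card_insert_of_notMem, Finset.card_singleton]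
          · simpa using e2
          · simp only [Finset.mem_insert, Finset.mem_singleton, not_or]
            exact ⟨e3, e6⟩
          · simp only [Finset.mem_insert, Finset.mem_singleton, not_or]
            exact ⟨e1, e4, e5⟩
          · simp only [Finset.mem_insert, Finset.mem_singleton, not_or]
            exact ⟨hc.1, hc.2.1, hc.2.2.1, hc.2.2.2⟩
        have hsub : (S : Set ℂ) ⊆ (minpoly ℚ X).rootSet ℂ := by
          intro w hw
          simp only [S, Finset.coe_insert, Finset.coe_singleton, Set.mem_insert_iff,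
            Set.mem_singleton_iff] at hw
          rw [mem_rootSet]
          refine ⟨hm0, ?_⟩
          rcases hw with rfl | rfl | rfl | rfl | rfl
          · exact hz
          · exact hz₁
          · exact hneg _ hz₁
          · exact hz₂
          · exact hneg _ hz₂
        have hcard : S.card ≤ (minpoly ℚ X).natDegree := by
          have h1 : S ⊆ ((minpoly ℚ X).aroots ℂ).toFinset := by
            intro w hw
            have h2 := hsub hw
            rw [mem_rootSet] at h2
            rw [Multiset.mem_toFinset, mem_aroots]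
            exact h2
          refine (Finset.card_le_card h1).trans ((Multiset.toFinset_card_le _).trans ?_)
          have h3 := Polynomial.card_roots' ((minpoly ℚ X).map (algebraMap ℚ ℂ))
          rwa [Polynomial.natDegree_map] at h3
        omega
      refine oddRel_of_independent X ![z₁, z₂] ?_ fun z hz => Or.inr ?_
      · rw [LinearIndependent.pair_iff]
        intro a b hab
        rw [Rat.smul_def, Rat.smul_def] at hab
        by_cases ha : a = 0
        · refine ⟨ha, ?_⟩
          rw [ha, Rat.cast_zero, zero_mul, zero_add] at hab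
          exact_mod_cast (mul_eq_zero.1 hab).resolve_right hz₂0
        · exfalso
          have ha' : (a : ℂ) ≠ 0 := by exact_mod_cast ha
          have h1 : z₁ = ((-b / a : ℚ) : ℂ) * z₂ := by
            push_cast
            field_simp
            linear_combination hab
          have hb : -b / a ≠ 0 := by
            intro h
            rw [h, Rat.cast_zero, zero_mul] at h1
            exact hz₁0 h1
          rcases rat_mul_root hirr hz₂0 hz₂ (q := -b / a) (by rw [← h1]; exact hz₁) hb with h | h
          · rw [h, Rat.cast_one, one_mul] at h1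
            exact hne1 h1.symm
          · rw [h, Rat.cast_neg, Rat.cast_one, neg_one_mul] at h1
            exact hne2 (by rw [h1, neg_neg])
      · rcases hall z hz with h | h | h | h
        · exact ⟨0, Or.inl h⟩
        · exact ⟨0, Or.inr h⟩
        · exact ⟨1, Or.inl h⟩
        · exact ⟨1, Or.inr h⟩

/-- The roots of the minimal polynomial of a skew-symmetric endomorphism. -/
theorem neg_root {g : ℕ} (A : AbVar g) {X : Module.End ℚ A.H1} (hX : IsSkew A.om X) {z : ℂ}
    (hz : aeval z (minpoly ℚ X) = 0) : aeval (-z) (minpoly ℚ X) = 0 := by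
  have h1 : aeval (-X) (minpoly ℚ X) = 0 := by
    refine LinearMap.ext fun v => ?_
    apply A.om_nondeg
    intro u
    rw [A.om_anti, ← A.aeval_adj hX, minpoly.aeval, LinearMap.zero_apply, map_zero,
      LinearMap.zero_apply, neg_zero]
  have h2 : aeval X ((minpoly ℚ X).comp (-Polynomial.X)) = 0 := by
    rw [aeval_comp, map_neg, aeval_X]
    exact h1
  obtain ⟨c, hc⟩ := minpoly.dvd ℚ X h2
  have h3 : aeval z ((minpoly ℚ X).comp (-Polynomial.X)) = 0 := by rw [hc, map_mul, hz, zero_mul]
  rwa [aeval_comp, map_neg, aeval_X] at h3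

/-- **Simple abelian surfaces.** -/
theorem products_of_surface (A : AbVar 2)
    (hs : ∀ U, IsDeRhamBettiSubspace QBar A.dR U → U = ⊥ ∨ U = ⊤)
    (B : A.H1 →ₗ[ℚ] A.H1 →ₗ[ℚ] ℚ) (hB : IsDeRhamBettiBilinear QBar A.dR tau B)
    (hanti : ∀ u v, B u v = -B v u) (hne : ∀ c : ℚ, B ≠ c • A.om)
    {m : ℕ} (φ : MultilinearMap ℚ (fun _ : Fin m × Fin 2 => A.H1) ℚ)
    (hφ : IsDeRhamBettiForm QBar A.dR tau m φ) :
    φ ∈ Submodule.span ℚ (LefProd A A.EA m) := by
  -- the endomorphism
  choose F hF using fun u => A.om_surj (f := B u)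
  let S : Module.End ℚ A.H1 :=
    { toFun := F
      map_add' := fun u u' => by
        rw [← sub_eq_zero]
        apply A.om_nondeg
        intro v
        rw [map_sub, map_add, LinearMap.sub_apply, LinearMap.add_apply, hF, hF, hF, map_add,
          LinearMap.add_apply, sub_self]
      map_smul' := fun c u => by
        rw [← sub_eq_zero]
        apply A.om_nondeg
        intro v
        rw [map_sub, RingHom.id_apply, map_smul, LinearMap.sub_apply, LinearMap.smul_apply, hF, hF,
          map_smul, LinearMap.smul_apply, sub_self] }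
  have hS : ∀ u v, A.om (S u) v = B u v := hF
  have hSE : S ∈ A.EA := by
    intro X hX
    have h1 : Kills X (one2 B) := by
      have h2 := one2_drb B A.dR tau hB
      exact A.kills_of_mem h2 hX
    have h2 := (kills_one2 B X).1 h1
    refine LinearMap.ext fun u => ?_
    rw [← sub_eq_zero]
    apply A.om_nondeg
    intro v
    have h3 := h2 u v
    have h4 := A.LA_skew hX (S u) v
    rw [map_sub, LinearMap.sub_apply, Module.End.mul_apply, Module.End.mul_apply, hS]
    rw [hS] at h4
    linear_combination h4 - h3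
  have hSs : ∀ u v, A.om (S u) v = A.om u (S v) := by
    intro u v
    rw [hS, hanti, ← hS, A.om_anti u]
  refine A.products_of_rel ![1, S] (fun i => ?_) (fun i j => ?_) (fun i u v => ?_) ?_
    (fun X hX _ => ?_) φ hφ
  · fin_cases i
    · exact A.mem_EA.1 A.EA_one
    · exact A.mem_EA.1 hSE
  · fin_cases i <;> fin_cases j <;> simp
  · fin_cases i
    · rfl
    · exact hSs u v
  · rw [LinearIndependent.pair_iff]
    intro a b hab
    by_cases hb : b = 0
    · refine ⟨?_, hb⟩
      rw [hb, zero_smul, add_zero] at hab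
      by_contra ha
      have h1 := congrArg (fun T : Module.End ℚ A.H1 => T (A.bas 0)) hab
      simp only [LinearMap.smul_apply, Module.End.one_apply, LinearMap.zero_apply] at h1
      exact A.bas.ne_zero 0 ((smul_eq_zero.1 h1).resolve_left ha)
    · exfalso
      apply hne (-a / b)
      refine LinearMap.ext fun u => LinearMap.ext fun v => ?_
      have h1 := congrArg (fun T : Module.End ℚ A.H1 => A.om (T u) v) hab
      simp only [LinearMap.add_apply, LinearMap.smul_apply, Module.End.one_apply, map_add,
        map_smul, LinearMap.zero_apply, map_zero, hS, smul_eq_mul] at h1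
      rw [LinearMap.smul_apply, LinearMap.smul_apply, smul_eq_mul]
      field_simp
      linear_combination h1
  · refine oddRel_of_degree X (A.irreducible_minpoly two_pos hs hX.1) ?_
      fun z hz => A.neg_root hX.2.1 hz
    have h1 := Polynomial.natDegree_le_of_dvd (LinearMap.minpoly_dvd_charpoly X)
      (LinearMap.charpoly_monic X).ne_zero
    rw [LinearMap.charpoly_natDegree, Module.finrank_pi, Fintype.card_fin] at h1
    exact h1

end AbVar

end Pool.Agent.Y102
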