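import Pool.Agent.H86.CMLib.Y102.AV11

set_option autoImplicit false
set_option linter.unusedSectionVars false

/-!
# The statements for the results files
-/

open Module Function Polynomial TensorProduct

noncomputable section

namespace Pool.Agent.Y102

open Pool.Agent.W516.DR Pool.Agent.H204R3.GP Pool.Agent.W516.KC Pool.Agent.H204R3.SP FT

/-- The formulation of the relations with multiplicities. -/
theorem oddRel_of_finsupp {W : Type} [AddCommGroup W] [Module ℚ W] {X : Module.End ℚ W}
    (h : ∀ n : ℂ →₀ ℤ, (∀ z ∈ n.support, aeval z (minpoly ℚ X) = 0) →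
      n.sum (fun z k => (k : ℂ) * z) = 0 → ∀ z, n z = n (-z)) : OddRel X := by
  classical
  intro κ _ x hx hsum f hf
  let n : ℂ →₀ ℤ := ∑ k, Finsupp.single (x k) 1
  have hn : ∀ F : ℂ → ℂ, n.sum (fun z k => (k : ℂ) * F z) = ∑ k, F (x k) := by
    intro F
    simp only [n]
    rw [← Finsupp.sum_finsetSum_index (fun z => by rw [Int.cast_zero, zero_mul])
      (fun z a b => by rw [Int.cast_add, add_mul])]
    refine Finset.sum_congr rfl fun k _ => ?_
    rw [Finsupp.sum_single_index (by rw [Int.cast_zero, zero_mul]), Int.cast_one, one_mul]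
  have hsupp : ∀ z ∈ n.support, aeval z (minpoly ℚ X) = 0 := by
    intro z hz
    have h1 : n.support ⊆ Finset.univ.biUnion fun k => (Finsupp.single (x k) (1 : ℤ)).support :=
      Finsupp.support_finsetSum
    obtain ⟨k, -, hk⟩ := Finset.mem_biUnion.1 (h1 hz)
    have h2 := Finsupp.support_single_subset hk
    rw [Finset.mem_singleton] at h2
    rw [h2]
    exact hx k
  have h1 := h n hsupp (by
    have h2 := hn id
    simp only [id] at h2
    rw [h2]
    exact hsum)
  have h2 : n.sum (fun z k => (k : ℂ) * f z) = -n.sum (fun z k => (k : ℂ) * f z) := by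
    rw [Finsupp.sum, ← Finset.sum_neg_distrib]
    refine Finset.sum_bij (fun z _ => -z) (fun z hz => ?_) (fun a _ b _ hab => neg_injective hab)
      (fun z hz => ⟨-z, ?_, neg_neg z⟩) fun z _ => ?_
    · rw [Finsupp.mem_support_iff] at hz ⊢
      rwa [← h1]
    · rw [Finsupp.mem_support_iff] at hz ⊢
      rwa [← h1]
    · rw [hf, ← h1 z]
      ring
  rw [hn] at h2
  have h3 : (2 : ℂ) * ∑ k, f (x k) = 0 := by linear_combination h2
  exact (mul_eq_zero.1 h3).resolve_left two_ne_zero

namespace AbVar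

variable {g : ℕ} (A : AbVar g)

theorem rf_eq (u v : A.H1) : riemannForm A.lam A.η (A.per u) (A.per v) = ((A.om u v : ℚ) : ℂ) := by
  rw [← E_coe, ← om_coe]
  norm_cast

theorem lef_sub {m : ℕ} {φ : MultilinearMap ℚ (fun _ : Fin m × Fin 2 => A.H1) ℚ}
    (h : φ ∈ Submodule.span ℚ (LefProd A A.EA m)) :
    φ ∈ Submodule.span ℚ {ψ | IsProductOfHodgeBilinear (A.per : A.H1 →+ (Fin g → ℂ)) ψ} := by
  refine Submodule.span_mono ?_ h
  intro ψ hψ
  exact LefProd_hodge A.endAlg.hodge hψ

end AbVar

end Pool.Agent.Y102
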