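import Pool.Agent.H86.CMLib.Y102.AV12
import Pool.Agent.H86.CMLib.W516.MT.Casimir2

set_option autoImplicit false
set_option linter.unusedSectionVars false

/-!
# The Lie algebra of the Hodge classes and positivity of the trace form
-/

open Module Function

noncomputable section

namespace Pool.Agent.Y102

open Pool.Agent.W516.DR Pool.Agent.H204R3.GP Pool.Agent.W516.KC Pool.Agent.H204R3.SP

namespace AbVar

variable {g : ℕ} (A : AbVar g)

/-- multiplication by the imaginary unit -/
def JJ : (Fin g → ℂ) →ₗ[ℝ] (Fin g → ℂ) where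
  toFun u := Complex.I • u
  map_add' _ _ := smul_add _ _ _
  map_smul' _ _ := smul_comm _ _ _

theorem JJ_apply (u : Fin g → ℂ) : (JJ : (Fin g → ℂ) →ₗ[ℝ] (Fin g → ℂ)) u = Complex.I • u := rfl

/-- the positive definite symmetric form -/
def PF : (Fin g → ℂ) →ₗ[ℝ] (Fin g → ℂ) →ₗ[ℝ] ℝ := (A.E.flip.comp JJ).flip

theorem PF_apply (u v : Fin g → ℂ) : A.PF u v = A.E u (Complex.I • v) := rfl

theorem PF_symm (u v : Fin g → ℂ) : A.PF u v = A.PF v u := by
  rw [PF_apply, PF_apply, ← (A.E_I u _).1, A.E_anti]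
  rw [smul_smul, Complex.I_mul_I, neg_one_smul, map_neg, LinearMap.neg_apply, neg_neg]

theorem PF_pos {u : Fin g → ℂ} (hu : u ≠ 0) : 0 < A.PF u u := by
  rw [PF_apply]
  exact A.E_pos hu

theorem trace_real {X : Module.End ℚ A.H1} {M : (Fin g → ℂ) →ₗ[ℝ] (Fin g → ℂ)}
    (hM : ∀ w, M (A.per w) = A.per (X w)) :
    ((LinearMap.trace ℚ A.H1 X : ℚ) : ℝ) = LinearMap.trace ℝ (Fin g → ℂ) M := by
  rw [LinearMap.trace_eq_matrix_trace ℚ A.bas, LinearMap.trace_eq_matrix_trace ℝ A.lam,
    Matrix.trace, Matrix.trace, Rat.cast_sum]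
  refine Finset.sum_congr rfl fun j _ => ?_
  rw [Matrix.diag_apply, Matrix.diag_apply, LinearMap.toMatrix_apply, LinearMap.toMatrix_apply,
    ← per_bas, hM, repr_per]
  rfl

/-- Positivity of the trace form. -/
theorem trace_sq {X : Module.End ℚ A.H1} {M : (Fin g → ℂ) →ₗ[ℂ] (Fin g → ℂ)}
    (hM : ∀ w, M (A.per w) = A.per (X w)) (hs : IsSkew A.om X)
    (h0 : LinearMap.trace ℚ A.H1 (X * X) = 0) : X = 0 := by
  classical
  have hsk : ∀ u v, A.E (M u) v = -A.E u (M v) := by
    have h2 : A.E.comp (M.restrictScalars ℝ) = -(A.E.flip.comp (M.restrictScalars ℝ)).flip := by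
      refine A.ext_per fun u => A.ext_per fun v => ?_
      change A.E (M (A.per u)) (A.per v) = -A.E (A.per u) (M (A.per v))
      rw [hM, hM, ← om_coe, ← om_coe, ← Rat.cast_neg]
      congr 1
      linear_combination hs u v
    intro u v
    exact congrArg (fun F : (Fin g → ℂ) →ₗ[ℝ] (Fin g → ℂ) →ₗ[ℝ] ℝ => F u v) h2
  have hPF : ∀ u v, A.PF (M u) v = -A.PF u (M v) := fun u v => by
    rw [PF_apply, PF_apply, hsk, map_smul]
  have htr : LinearMap.trace ℝ (Fin g → ℂ) ((M.comp M).restrictScalars ℝ) = 0 := by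
    rw [← A.trace_real (X := X * X) (M := (M.comp M).restrictScalars ℝ), h0, Rat.cast_zero]
    intro w
    change M (M (A.per w)) = A.per (X (X w))
    rw [hM, hM]
  have hsym : LinearMap.IsSymm (A.PF) := ⟨fun u v => by rw [RingHom.id_apply]; exact A.PF_symm u v⟩
  obtain ⟨v, hv⟩ := LinearMap.BilinForm.exists_orthogonal_basis hsym
  have hrepr : ∀ x i, v.repr x i * A.PF (v i) (v i) = A.PF x (v i) := by
    intro x i
    conv_rhs => rw [← v.sum_repr x]
    rw [map_sum, LinearMap.sum_apply, Finset.sum_eq_single i]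
    · rw [map_smul, LinearMap.smul_apply, smul_eq_mul]
    · intro j _ hj
      rw [map_smul, LinearMap.smul_apply]
      have h1 : A.PF (v j) (v i) = 0 := hv hj
      rw [h1, smul_zero]
    · intro h
      exact absurd (Finset.mem_univ _) h
  have hpos : ∀ i, 0 < A.PF (v i) (v i) := fun i => A.PF_pos (v.ne_zero i)
  have hterm : ∀ i, v.repr (M (M (v i))) i = -(A.PF (M (v i)) (M (v i)) / A.PF (v i) (v i)) := by
    intro i
    have h1 := hrepr (M (M (v i))) i
    rw [hPF] at h1
    rw [eq_neg_iff_add_eq_zero, ← mul_right_inj' (hpos i).ne', mul_zero, mul_add,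
      mul_div_cancel₀ _ (hpos i).ne']
    linear_combination h1
  rw [LinearMap.trace_eq_matrix_trace ℝ v, Matrix.trace] at htr
  have hsum : ∑ i, A.PF (M (v i)) (M (v i)) / A.PF (v i) (v i) = 0 := by
    rw [← neg_eq_zero, ← Finset.sum_neg_distrib, ← htr]
    refine Finset.sum_congr rfl fun i _ => ?_
    rw [Matrix.diag_apply, LinearMap.toMatrix_apply]
    exact (hterm i).symm
  have hnn : ∀ i ∈ Finset.univ, 0 ≤ A.PF (M (v i)) (M (v i)) / A.PF (v i) (v i) := by
    intro i _
    refine div_nonneg ?_ (hpos i).le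
    by_cases h : M (v i) = 0
    · rw [h, map_zero]
    · exact (A.PF_pos h).le
  have hM0 : ∀ i, M (v i) = 0 := by
    intro i
    have h1 := (Finset.sum_eq_zero_iff_of_nonneg hnn).1 hsum i (Finset.mem_univ _)
    by_contra hne
    rw [div_eq_zero_iff] at h1
    rcases h1 with h1 | h1
    · exact (A.PF_pos hne).ne' h1
    · exact (hpos i).ne' h1
  have hM1 : M.restrictScalars ℝ = 0 := v.ext fun i => hM0 i
  refine LinearMap.ext fun w => A.per_inj ?_
  rw [← hM, LinearMap.zero_apply, map_zero]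
  exact congrArg (fun F : (Fin g → ℂ) →ₗ[ℝ] (Fin g → ℂ) => F (A.per w)) hM1

/-- the endomorphisms killing all Hodge classes: the Lie algebra of the Hodge group -/
def MA : Submodule ℚ (Module.End ℚ A.H1) where
  carrier := {X | ∀ (m : ℕ) (ψ : MultilinearMap ℚ (fun _ : Fin m × Fin 2 => A.H1) ℚ),
    IsHodgeTensor (A.per : A.H1 →+ (Fin g → ℂ)) ψ → Kills X ψ}
  zero_mem' := by
    intro m φ _ v
    refine Finset.sum_eq_zero fun k _ => ?_
    rw [LinearMap.zero_apply]
    exact φ.map_coord_zero k (Function.update_self _ _ _)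
  add_mem' := by
    intro X Y hX hY m φ hφ v
    have h1 := hX m φ hφ v
    have h2 := hY m φ hφ v
    have h3 := congrArg₂ (fun x y : ℚ => x + y) h1 h2
    simp only [add_zero] at h3
    rw [← h3, ← Finset.sum_add_distrib]
    refine Finset.sum_congr rfl fun k _ => ?_
    rw [LinearMap.add_apply, MultilinearMap.map_update_add]
  smul_mem' := by
    intro c X hX m φ hφ v
    have h1 := hX m φ hφ v
    rw [← mul_zero c, ← h1, Finset.mul_sum]
    refine Finset.sum_congr rfl fun k _ => ?_
    rw [LinearMap.smul_apply, MultilinearMap.map_update_smul, smul_eq_mul]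

theorem MA_bracket {X Y : Module.End ℚ A.H1} (hX : X ∈ A.MA) (hY : Y ∈ A.MA) :
    X * Y - Y * X ∈ A.MA := fun m ψ hψ => kills_bracket (hX m ψ hψ) (hY m ψ hψ)

theorem MA_skew {X : Module.End ℚ A.H1} (hX : X ∈ A.MA) : IsSkew A.om X :=
  (kills_one2 A.om X).1 (hX 1 _ (one2_hodge _ A.om A.isHodge_om))

theorem MA_comm {X P : Module.End ℚ A.H1} (hX : X ∈ A.MA)
    (hP : IsHodgeEnd (A.per : A.H1 →+ (Fin g → ℂ)) P) : X * P = P * X :=
  comm_hodgeEnd _ A.om (fun _ hu => A.om_nondeg hu) A.isHodge_om X hX hP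

/-- The components of the complex structure are in the Lie algebra. -/
theorem J_mem (f : ℝ →ₗ[ℚ] ℚ) : A.cmpE f JJ ∈ A.MA := by
  intro m ψ hψ v
  obtain ⟨Ψ, hΨ, hinv⟩ := hψ
  have hΨ' : Ψ = A.Phi ψ := by
    refine Basis.ext_multilinear (fun _ => A.lam) fun J => ?_
    have h2 : (fun p => A.lam (J p)) = fun p => A.per (A.bas (J p)) := by
      funext p
      rw [per_bas]
    rw [h2, Phi_per]
    exact hΨ _
  have hder : ∀ u, ∑ j, Ψ (update u j (Complex.I • u j)) = 0 := by
    intro u
    have h1 := hasDeriv_exp Ψ u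
    have h2 : (fun θ : ℝ => Ψ (fun l => Complex.exp (θ * Complex.I) • u l)) = fun _ => Ψ u := by
      funext θ
      exact hinv _ (Complex.norm_exp_ofReal_mul_I θ) u
    rw [h2] at h1
    exact h1.unique (hasDerivAt_const _ _)
  have h3 := congrArg f (hder fun p => A.per (v p))
  rw [map_sum, map_zero, hΨ'] at h3
  rw [← h3]
  refine Finset.sum_congr rfl fun p _ => ?_
  rw [Phi_cmp]
  rfl

/-- The endomorphisms in the commutant are endomorphisms of the Hodge structure. -/
theorem hodgeEnd_of_comm {P : Module.End ℚ A.H1} (h : ∀ X ∈ A.MA, X * P = P * X) :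
    ∃ M : (Fin g → ℂ) →ₗ[ℂ] (Fin g → ℂ), ∀ w, M (A.per w) = A.per (P w) := by
  have h1 : ∀ u, A.ext P (Complex.I • u) = Complex.I • A.ext P u := by
    have h2 : (A.ext P).comp JJ = JJ.comp (A.ext P) := by
      refine A.ext_per fun w => ?_
      change A.ext P (Complex.I • A.per w) = Complex.I • A.ext P (A.per w)
      rw [ext_apply, ← sub_eq_zero]
      apply A.cmp_sep
      intro f
      have h3 := congrArg (fun T : Module.End ℚ A.H1 => T w) (h _ (A.J_mem f))
      simp only [Module.End.mul_apply, cmpE_apply, JJ_apply] at h3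
      rw [map_sub, cmp_ext, h3, sub_self]
    intro u
    exact congrArg (fun F : (Fin g → ℂ) →ₗ[ℝ] (Fin g → ℂ) => F u) h2
  refine ⟨{ toFun := fun u => A.ext P u
            map_add' := fun u v => map_add _ u v
            map_smul' := fun c u => ?_ }, fun w => A.ext_apply P w⟩
  have h3 : c • u = c.re • u + c.im • (Complex.I • u) := by
    conv_lhs => rw [← Complex.re_add_im c]
    rw [add_smul, mul_smul]
    rfl
  have h4 : c • A.ext P u = c.re • A.ext P u + c.im • (Complex.I • A.ext P u) := by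
    conv_lhs => rw [← Complex.re_add_im c]
    rw [add_smul, mul_smul]
    rfl
  rw [h3, map_add, map_smul, map_smul, h1, RingHom.id_apply, h4]

/-- The Lie algebra acts semisimply. -/
theorem semi_MA : Semi A.MA := by
  intro U hU
  let U' : Submodule ℚ A.H1 :=
    { carrier := {v | ∀ u ∈ U, A.om u v = 0}
      zero_mem' := fun u _ => map_zero _
      add_mem' := fun {v w} hv hw u hu => by rw [map_add, hv u hu, hw u hu, add_zero]
      smul_mem' := fun c v hv u hu => by rw [map_smul, hv u hu, smul_zero] }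
  have hstab : ∀ X ∈ A.MA, ∀ u ∈ U', X u ∈ U' := by
    intro X hX v hv u hu
    have h1 := A.MA_skew hX u v
    have h2 : A.om (X u) v = 0 := hv _ (hU X hX u hu)
    rwa [h2, zero_add] at h1
  have hdisj : U ⊓ U' = ⊥ := by
    rw [eq_bot_iff]
    rintro u ⟨hu, hu'⟩
    rw [Submodule.mem_bot]
    have h1 : A.E (Complex.I • A.per u) (A.per u) = 0 := by
      apply exists_sep
      intro f
      rw [← om_cmp]
      exact hu' _ (hU _ (A.J_mem f) u hu)
    apply A.per_inj
    rw [map_zero]
    by_contra hne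
    have h2 := A.E_pos hne
    rw [A.E_anti, h1, neg_zero] at h2
    exact lt_irrefl _ h2
  have hU' : U' = LinearMap.BilinForm.orthogonal (A.om : LinearMap.BilinForm ℚ A.H1) U := by
    ext v
    rw [LinearMap.BilinForm.mem_orthogonal_iff]
    rfl
  refine ⟨U', hstab, ?_⟩
  rw [hU', LinearMap.BilinForm.isCompl_orthogonal_iff_disjoint A.om_isRefl, disjoint_iff, ← hU']
  exact hdisj

end AbVar

end Pool.Agent.Y102
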