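import Pool.Agent.H86.CMLib.Y102.AV14
import Pool.Agent.H86.CMLib.H340R2.LW

set_option autoImplicit false
set_option linter.unusedSectionVars false

/-!
# Weights of de Rham-Betti classes
-/

open Module Function TensorProduct

noncomputable section

namespace Pool.Agent.Y102

open Pool.Agent.W516.DR Pool.Agent.H204R3.GP Pool.Agent.W516.KC Pool.Agent.H204R3.SP

/-- The endomorphism `X` acts on the form `φ` by the scalar `c`. -/
def ActsBy {R W κ : Type} [CommRing R] [AddCommGroup W] [Module R W] [Fintype κ] [DecidableEq κ]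
    (X : Module.End R W) (φ : MultilinearMap R (fun _ : κ => W) R) (c : R) : Prop :=
  ∀ v : κ → W, ∑ k, φ (update v k (X (v k))) = c * φ v

section Acts

variable {R W κ : Type} [CommRing R] [AddCommGroup W] [Module R W] [Fintype κ] [DecidableEq κ]
  {φ : MultilinearMap R (fun _ : κ => W) R} {X Y : Module.End R W} {c d : R}

theorem ActsBy.add (hX : ActsBy X φ c) (hY : ActsBy Y φ d) : ActsBy (X + Y) φ (c + d) := by
  intro v
  rw [add_mul, ← hX v, ← hY v, ← Finset.sum_add_distrib]
  refine Finset.sum_congr rfl fun k _ => ?_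
  rw [LinearMap.add_apply, MultilinearMap.map_update_add]

theorem ActsBy.smul (a : R) (hX : ActsBy X φ c) : ActsBy (a • X) φ (a * c) := by
  intro v
  rw [mul_assoc, ← hX v, Finset.mul_sum]
  refine Finset.sum_congr rfl fun k _ => ?_
  rw [LinearMap.smul_apply, MultilinearMap.map_update_smul, smul_eq_mul]

theorem actsBy_one : ActsBy (1 : Module.End R W) φ (Fintype.card κ) := by
  intro v
  have h1 : ∀ k, φ (update v k ((1 : Module.End R W) (v k))) = φ v := by
    intro k
    rw [Module.End.one_apply, update_eq_self]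
  rw [Finset.sum_congr rfl fun k _ => h1 k, Finset.sum_const, Finset.card_univ, nsmul_eq_mul]

end Acts

theorem actsBy_zero_iff {k W κ : Type} [Field k] [AddCommGroup W] [Module k W]
    [Fintype κ] [DecidableEq κ] {φ : MultilinearMap k (fun _ : κ => W) k} {X : Module.End k W} :
    ActsBy X φ 0 ↔ Kills X φ :=
  ⟨fun h v => by rw [h v, zero_mul], fun h v => by rw [h v, zero_mul]⟩

theorem actsBy_bracket {k W κ : Type} [Field k] [CharZero k] [AddCommGroup W] [Module k W]
    [Fintype κ] [DecidableEq κ] {φ : MultilinearMap k (fun _ : κ => W) k} {X Y : Module.End k W}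
    {c d : k} (hX : ActsBy X φ c) (hY : ActsBy Y φ d) : Kills (X * Y - Y * X) φ := by
  by_cases hκ : Fintype.card κ = 0
  · intro v
    have := Fintype.card_eq_zero_iff.1 hκ
    exact Finset.sum_of_isEmpty _
  · have hr : (Fintype.card κ : k) ≠ 0 := Nat.cast_ne_zero.2 hκ
    have h1 : ∀ {X : Module.End k W} {c : k}, ActsBy X φ c →
        Kills (X + (-(c / Fintype.card κ)) • (1 : Module.End k W)) φ := by
      intro X c hX
      rw [← actsBy_zero_iff]
      have h2 := hX.add (actsBy_one.smul (-(c / Fintype.card κ)))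
      have h3 : c + -(c / Fintype.card κ) * Fintype.card κ = 0 := by
        field_simp
        ring
      rwa [h3] at h2
    have h2 := kills_bracket (h1 hX) (h1 hY)
    have h3 : (X + (-(c / Fintype.card κ)) • (1 : Module.End k W)) *
        (Y + (-(d / Fintype.card κ)) • (1 : Module.End k W)) -
        (Y + (-(d / Fintype.card κ)) • (1 : Module.End k W)) *
        (X + (-(c / Fintype.card κ)) • (1 : Module.End k W)) = X * Y - Y * X := by
      simp only [add_mul, mul_add, smul_mul_assoc, mul_smul_comm, one_mul, mul_one]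
      module
    rwa [h3] at h2

/-- A general form of the decomposition into commutators and central elements. -/
theorem le_of_trace {k W : Type} [Field k] [CharZero k] [AddCommGroup W] [Module k W]
    [FiniteDimensional k W] (𝔥 : Submodule k (Module.End k W))
    (hnt : Pool.Agent.W516.KC2.TraceNondeg 𝔥) (hbr : ∀ X ∈ 𝔥, ∀ Y ∈ 𝔥, X * Y - Y * X ∈ 𝔥)
    (hpos : ∀ X ∈ 𝔥, (∀ Y ∈ 𝔥, Y * X = X * Y) → LinearMap.trace k W (X * X) = 0 → X = 0)
    {S : Submodule k (Module.End k W)} (h1 : ∀ X ∈ 𝔥, ∀ Y ∈ 𝔥, X * Y - Y * X ∈ S)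
    (h2 : ∀ X ∈ 𝔥, (∀ Y ∈ 𝔥, Y * X = X * Y) → X ∈ S) : 𝔥 ≤ S := by
  intro Z hZ
  by_contra hcon
  let T : Submodule k (Module.End k W) := S ⊓ 𝔥
  have hZT : Z ∉ T := fun h => hcon h.1
  obtain ⟨f, hf1, hf2⟩ := Submodule.exists_dual_map_eq_bot_of_notMem hZT inferInstance
  let f' : Module.Dual k 𝔥 := f.comp 𝔥.subtype
  let U := (Pool.Agent.W516.KC2.trE 𝔥 hnt).symm f'
  have hU : ∀ X : 𝔥, LinearMap.trace k W (U.1 * X.1) = f X.1 := fun X =>
    Pool.Agent.W516.KC2.trE_symm 𝔥 hnt f' X
  have hf0 : ∀ X ∈ T, f X = 0 := by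
    intro X hX
    have h3 : f X ∈ Submodule.map f T := Submodule.mem_map_of_mem hX
    rwa [hf2, Submodule.mem_bot] at h3
  have hcen : ∀ Y ∈ 𝔥, Y * U.1 = U.1 * Y := by
    intro Y hY
    have h4 : U.1 * Y - Y * U.1 = 0 := by
      refine hnt _ (hbr _ U.2 _ hY) fun X hX => ?_
      have h5 := hU ⟨_, hbr _ hY _ hX⟩
      rw [hf0 _ ⟨h1 Y hY X hX, hbr _ hY _ hX⟩] at h5
      rw [← h5, sub_mul, mul_sub, map_sub, map_sub, mul_assoc U.1 Y X, mul_assoc Y U.1 X,
        LinearMap.trace_mul_comm k Y (U.1 * X), mul_assoc U.1 X Y]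
    rw [sub_eq_zero] at h4
    exact h4.symm
  have h6 := hU U
  rw [hf0 _ ⟨h2 U.1 U.2 hcen, U.2⟩] at h6
  have hU0 : U.1 = 0 := hpos _ U.2 hcen h6
  apply hf1
  rw [← hU ⟨Z, hZ⟩, hU0, zero_mul, map_zero]

namespace AbVar

variable {g : ℕ} (A : AbVar g)

/-- A nonzero real form on which a skew-symmetric endomorphism acts by a scalar is killed. -/
theorem scalar_zero {κ : Type} [Fintype κ] [DecidableEq κ]
    {Φ : MultilinearMap ℝ (fun _ : κ => Fin g → ℂ) ℝ} (hΦ : Φ ≠ 0)
    {M : (Fin g → ℂ) →ₗ[ℝ] (Fin g → ℂ)} (hM : ∀ u v, A.PF (M u) v = -A.PF u (M v)) {c : ℝ}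
    (h : ∀ u, ∑ k, Φ (update u k (M (u k))) = c * Φ u) : c = 0 := by
  classical
  have hsym : LinearMap.IsSymm (A.PF) := ⟨fun u v => by rw [RingHom.id_apply]; exact A.PF_symm u v⟩
  obtain ⟨v₀, hv₀⟩ := LinearMap.BilinForm.exists_orthogonal_basis hsym
  have hpos : ∀ i, 0 < A.PF (v₀ i) (v₀ i) := fun i => A.PF_pos (v₀.ne_zero i)
  let s : Fin (finrank ℝ (Fin g → ℂ)) → ℝˣ := fun i =>
    Units.mk0 (Real.sqrt (A.PF (v₀ i) (v₀ i)))⁻¹ (inv_ne_zero (Real.sqrt_pos.2 (hpos i)).ne')
  obtain ⟨v, hv⟩ : ∃ v : Basis (Fin (finrank ℝ (Fin g → ℂ))) ℝ (Fin g → ℂ),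
      ∀ i, v i = (Real.sqrt (A.PF (v₀ i) (v₀ i)))⁻¹ • v₀ i :=
    ⟨v₀.unitsSMul s, fun i => Basis.unitsSMul_apply i⟩
  have hvv : ∀ i j, A.PF (v i) (v j) = if i = j then 1 else 0 := by
    intro i j
    rw [hv, hv, map_smul, map_smul, LinearMap.smul_apply]
    by_cases hij : i = j
    · subst hij
      rw [if_pos rfl, smul_eq_mul, smul_eq_mul]
      have h1 := Real.mul_self_sqrt (hpos i).le
      have h2 := (Real.sqrt_pos.2 (hpos i)).ne'
      field_simp
      rw [Real.sq_sqrt (hpos i).le]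
    · rw [if_neg hij]
      have h1 : A.PF (v₀ i) (v₀ j) = 0 := hv₀ hij
      rw [h1, smul_zero, smul_zero]
  have hrepr : ∀ x i, v.repr x i = A.PF x (v i) := by
    intro x i
    conv_rhs => rw [← v.sum_repr x]
    rw [map_sum, LinearMap.sum_apply, Finset.sum_eq_single i]
    · rw [map_smul, LinearMap.smul_apply, smul_eq_mul, hvv, if_pos rfl, mul_one]
    · intro j _ hj
      rw [map_smul, LinearMap.smul_apply, hvv, if_neg hj, smul_zero]
    · intro h
      exact absurd (Finset.mem_univ _) h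
  let m : Fin (finrank ℝ (Fin g → ℂ)) → Fin (finrank ℝ (Fin g → ℂ)) → ℝ := fun l j =>
    A.PF (M (v j)) (v l)
  have hm : ∀ l j, m l j = -m j l := fun l j => by
    simp only [m]
    rw [hM, A.PF_symm]
  have hMv : ∀ j, M (v j) = ∑ l, m l j • v l := by
    intro j
    conv_lhs => rw [← v.sum_repr (M (v j))]
    exact Finset.sum_congr rfl fun l _ => by rw [hrepr]
  let d := finrank ℝ (Fin g → ℂ)
  -- the sums vanish
  have hT : ∀ k : κ, ∑ J : κ → Fin d, Φ (fun p => v (J p)) *
      Φ (update (fun p => v (J p)) k (M (v (J k)))) = 0 := by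
    intro k
    let F : (κ → Fin d) × Fin d → ℝ := fun q => Φ (fun p => v (q.1 p)) *
      (m q.2 (q.1 k) * Φ (fun p => v (update q.1 k q.2 p)))
    have h1 : ∀ J : κ → Fin d, Φ (fun p => v (J p)) *
        Φ (update (fun p => v (J p)) k (M (v (J k)))) = ∑ l, F (J, l) := by
      intro J
      rw [hMv, MultilinearMap.map_update_sum, Finset.mul_sum]
      refine Finset.sum_congr rfl fun l _ => ?_
      simp only [F]
      rw [MultilinearMap.map_update_smul, smul_eq_mul]
      congr 3
      funext p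
      by_cases hp : p = k
      · subst hp
        rw [update_self, update_self]
      · rw [update_of_ne hp, update_of_ne hp]
    rw [Finset.sum_congr rfl fun J _ => h1 J, ← Fintype.sum_prod_type]
    let e : (κ → Fin d) × Fin d ≃ (κ → Fin d) × Fin d :=
      { toFun := fun q => (update q.1 k q.2, q.1 k)
        invFun := fun q => (update q.1 k q.2, q.1 k)
        left_inv := fun q => by simp
        right_inv := fun q => by simp }
    have h3 : ∀ q, F (e q) = -F q := by
      intro q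
      have e1 : (e q).1 = update q.1 k q.2 := rfl
      have e2 : (e q).2 = q.1 k := rfl
      simp only [F]
      rw [e1, e2, update_self, update_idem, update_eq_self, hm (q.1 k) q.2]
      ring
    have h2 : ∑ q, F q = -∑ q, F q := by
      conv_lhs => rw [← Equiv.sum_comp e F]
      rw [Finset.sum_congr rfl fun q _ => h3 q, Finset.sum_neg_distrib]
    linarith
  have hsum : c * ∑ J : κ → Fin d, Φ (fun p => v (J p)) ^ 2 = 0 := by
    rw [Finset.mul_sum]
    have h1 : ∀ J : κ → Fin d, c * Φ (fun p => v (J p)) ^ 2 =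
        ∑ k, Φ (fun p => v (J p)) * Φ (update (fun p => v (J p)) k (M (v (J k)))) := by
      intro J
      rw [← Finset.mul_sum, h]
      ring
    rw [Finset.sum_congr rfl fun J _ => h1 J, Finset.sum_comm]
    exact Finset.sum_eq_zero fun k _ => hT k
  by_contra hc
  have h4 := (mul_eq_zero.1 hsum).resolve_left hc
  rw [Finset.sum_eq_zero_iff_of_nonneg fun J _ => sq_nonneg _] at h4
  apply hΦ
  refine Basis.ext_multilinear (fun _ => v) fun J => ?_
  rw [zero_apply]
  exact pow_eq_zero_iff two_ne_zero |>.1 (h4 J (Finset.mem_univ _))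

end AbVar

end Pool.Agent.Y102
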