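import Pool.Agent.H86.CMLib.Y102.AV16

set_option autoImplicit false
set_option linter.unusedSectionVars false

/-!
# Purity of the weights of de Rham-Betti classes
-/

open Module Function TensorProduct

noncomputable section

namespace Pool.Agent.Y102

open Pool.Agent.W516.DR Pool.Agent.H204R3.GP Pool.Agent.W516.KC Pool.Agent.H204R3.SP

namespace AbVar

variable {g : ℕ} (A : AbVar g)

section Real

variable {κ : Type} [Fintype κ] [DecidableEq κ]

theorem Phi_acts {φ : MultilinearMap ℚ (fun _ : κ => A.H1) ℚ} {X : Module.End ℚ A.H1}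
    {M : (Fin g → ℂ) →ₗ[ℝ] (Fin g → ℂ)} (hM : ∀ w, M (A.per w) = A.per (X w)) {c : ℚ}
    (h : ActsBy X φ c) (u : κ → (Fin g → ℂ)) :
    ∑ k, A.Phi φ (update u k (M (u k))) = c * A.Phi φ u := by
  let D : MultilinearMap ℝ (fun _ : κ => Fin g → ℂ) ℝ :=
    ∑ p, (A.Phi φ).compLinearMap (fun p' => if p' = p then M else LinearMap.id)
  have hD : ∀ u, D u = ∑ p, A.Phi φ (update u p (M (u p))) := by
    intro u
    simp only [D]
    rw [sum_apply]
    refine Finset.sum_congr rfl fun p _ => ?_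
    rw [MultilinearMap.compLinearMap_apply]
    congr 1
    funext p'
    by_cases hp : p' = p
    · subst hp
      rw [if_pos rfl, update_self]
    · rw [if_neg hp, update_of_ne hp, LinearMap.id_apply]
  have hD0 : D = (c : ℝ) • A.Phi φ := by
    refine Basis.ext_multilinear (fun _ => A.lam) fun J => ?_
    rw [hD, smul_apply, smul_eq_mul]
    have h2 : (fun p => A.lam (J p)) = fun p => A.per (A.bas (J p)) := by
      funext p
      rw [per_bas]
    rw [h2, Phi_per]
    have h3 := h (fun p => A.bas (J p))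
    have h4 := congrArg (fun x : ℚ => (x : ℝ)) h3
    push_cast at h4
    rw [← h4]
    refine Finset.sum_congr rfl fun p _ => ?_
    rw [← Phi_per]
    congr 1
    funext p'
    by_cases hp : p' = p
    · subst hp
      rw [update_self, update_self, ← hM, per_bas]
    · rw [update_of_ne hp, update_of_ne hp]
  rw [← hD, hD0, smul_apply, smul_eq_mul]

theorem scalar_zero' {φ : MultilinearMap ℚ (fun _ : κ => A.H1) ℚ} (hφ : φ ≠ 0)
    {X : Module.End ℚ A.H1} (hX : IsDeRhamBettiEnd QBar A.dR X) (hs : IsSkew A.om X) {c : ℚ}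
    (h : ActsBy X φ c) : c = 0 := by
  obtain ⟨M, hM⟩ := A.hodge_end hX
  have hsk : ∀ u v, A.E (M u) v = -A.E u (M v) := by
    have h2 : A.E.comp (M.restrictScalars ℝ) = -(A.E.flip.comp (M.restrictScalars ℝ)).flip := by
      refine A.ext_per fun u => A.ext_per fun v => ?_
      change A.E (M (A.per u)) (A.per v) = -A.E (A.per u) (M (A.per v))
      have e1 : ∀ w, M (A.per w) = A.per (X w) := hM
      rw [e1, e1, ← om_coe, ← om_coe, ← Rat.cast_neg]
      congr 1
      linear_combination hs u v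
    intro u v
    exact congrArg (fun F : (Fin g → ℂ) →ₗ[ℝ] (Fin g → ℂ) →ₗ[ℝ] ℝ => F u v) h2
  have hPF : ∀ u v, A.PF (M u) v = -A.PF u (M v) := fun u v => by
    rw [PF_apply, PF_apply, hsk, map_smul]
  have h1 := A.scalar_zero (Φ := A.Phi φ) (M := M.restrictScalars ℝ) (c := (c : ℝ))
    (fun h0 => hφ ?_) hPF (A.Phi_acts hM h)
  · exact_mod_cast h1
  · refine MultilinearMap.ext fun v => ?_
    have h3 := A.Phi_per φ v
    rw [h0, zero_apply] at h3
    rw [zero_apply]
    exact_mod_cast h3.symm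

/-- the elements of the Lie algebra which act on a form by a scalar -/
def KA (φ : MultilinearMap ℚ (fun _ : κ => A.H1) ℚ) : Submodule ℚ (Module.End ℚ A.H1) where
  carrier := {X | X ∈ A.LA ∧ ∃ c, ActsBy X φ c}
  zero_mem' := by
    refine ⟨A.LA.zero_mem, 0, fun v => ?_⟩
    rw [zero_mul]
    exact Finset.sum_eq_zero fun k _ => φ.map_coord_zero k (update_self _ _ _)
  add_mem' := fun ⟨h1, c, h2⟩ ⟨h3, d, h4⟩ => ⟨A.LA.add_mem h1 h3, c + d, h2.add h4⟩
  smul_mem' := fun a _ ⟨h1, c, h2⟩ => ⟨A.LA.smul_mem a h1, a * c, h2.smul a⟩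

/-- the elements which kill a form -/
def Ker0 (φ : MultilinearMap ℚ (fun _ : κ => A.H1) ℚ) : Submodule ℚ (Module.End ℚ A.H1) where
  carrier := {X | ActsBy X φ 0}
  zero_mem' := fun v => by
    rw [zero_mul]
    exact Finset.sum_eq_zero fun k _ => φ.map_coord_zero k (update_self _ _ _)
  add_mem' := fun {X Y} h1 h2 => by
    have h3 := ActsBy.add h1 h2
    rwa [add_zero] at h3
  smul_mem' := fun a X h1 => by
    have h3 := ActsBy.smul a h1
    rwa [mul_zero] at h3

end Real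

theorem semi_of_le {𝔥 : Submodule ℚ (Module.End ℚ A.H1)} (hle : 𝔥 ≤ A.LA)
    (h0 : ∀ (D : Derivation QBar ℂ ℂ) (lam : ℂ →ₗ[ℚ] ℚ), X0 A.basis tau D lam ∈ 𝔥) : Semi 𝔥 := by
  intro U hU
  have h1 : IsDeRhamBettiSubspace QBar A.dR U := by
    rw [← coe_basis]
    exact sub_of_stable A.basis (τ := tau) U fun D lam u hu => hU _ (h0 D lam) u hu
  obtain ⟨U', h2, h3⟩ := A.semisimple U h1
  exact ⟨U', fun X hX u hu => A.LA_stable h2 (hle hX) hu, h3⟩

theorem end_of_central {𝔥 : Submodule ℚ (Module.End ℚ A.H1)}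
    (h0 : ∀ (D : Derivation QBar ℂ ℂ) (lam : ℂ →ₗ[ℚ] ℚ), X0 A.basis tau D lam ∈ 𝔥)
    {P : Module.End ℚ A.H1} (hP : ∀ Y ∈ 𝔥, Y * P = P * Y) : IsDeRhamBettiEnd QBar A.dR P := by
  rw [← coe_basis]
  exact end_of_comm A.basis P fun D lam => hP _ (h0 D lam)

/-- **Purity**: the weights of de Rham-Betti classes. -/
theorem weight {κ : Type} [Fintype κ] [DecidableEq κ] {w : ℤ} {a : (κ → Fin g ⊕ Fin g) → QBar}
    {φ : MultilinearMap ℚ (fun _ : κ => A.H1) ℚ} (h : Compat A.dR tau w a φ) (hφ : φ ≠ 0) :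
    (Fintype.card κ : ℤ) = 2 * w := by
  have h0 : ∀ (D : Derivation QBar ℂ ℂ) (lam : ℂ →ₗ[ℚ] ℚ), X0 A.basis tau D lam ∈ A.KA φ :=
    fun D lam => ⟨by rw [LA_eq]; exact X0_mem A.basis tau_ne D lam, _, A.X0_acts h D lam⟩
  have hbr : ∀ X ∈ A.KA φ, ∀ Y ∈ A.KA φ, X * Y - Y * X ∈ A.KA φ := by
    rintro X ⟨hX, c, hc⟩ Y ⟨hY, d, hd⟩
    exact ⟨A.LA_bracket hX hY, 0, actsBy_zero_iff.2 (actsBy_bracket hc hd)⟩
  have hle : A.KA φ ≤ A.LA := fun X hX => hX.1
  have hcen : ∀ X ∈ A.KA φ, (∀ Y ∈ A.KA φ, Y * X = X * Y) → LinearMap.trace ℚ A.H1 (X * X) = 0 →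
      X = 0 := by
    intro X hX hc htr
    obtain ⟨M, hM⟩ := A.hodge_end (A.end_of_central h0 hc)
    exact A.trace_sq hM (A.LA_skew (hle hX)) htr
  have hnt : Pool.Agent.W516.KC2.TraceNondeg (A.KA φ) := by
    intro X hX htr
    exact hcen X hX (central_of_trace (A.KA φ) (A.semi_of_le hle h0) hbr hX htr) (htr X hX)
  have hmain : A.KA φ ≤ A.Ker0 φ := by
    refine le_of_trace (A.KA φ) hnt hbr hcen (fun X hX Y hY => ?_) fun X hX hc => ?_
    · obtain ⟨hX, c, hc⟩ := hX
      obtain ⟨hY, d, hd⟩ := hY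
      exact actsBy_zero_iff.2 (actsBy_bracket hc hd)
    · obtain ⟨hX, c, hcX⟩ := hX
      have h1 := A.scalar_zero' hφ (A.end_of_central h0 hc) (A.LA_skew hX) hcX
      rw [h1] at hcX
      exact hcX
  obtain ⟨v, hv⟩ : ∃ v, φ v ≠ 0 := by
    by_contra hcon
    exact hφ (MultilinearMap.ext fun v => not_not.1 fun h1 => hcon ⟨v, h1⟩)
  have hD : ∀ D : Derivation QBar ℂ ℂ,
      ((w : ℂ) - Fintype.card κ / 2) * (D tau / tau) = 0 := by
    intro D
    have h1 : ∀ lam : ℂ →ₗ[ℚ] ℚ, lam (((w : ℂ) - Fintype.card κ / 2) * (D tau / tau)) = 0 := by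
      intro lam
      have h2 := A.X0_acts h D lam v
      have h3 := hmain (h0 D lam) v
      rw [h2, zero_mul] at h3
      exact (mul_eq_zero.1 h3).resolve_right hv
    by_contra hne
    obtain ⟨f, hf⟩ := exists_lin (F := ℚ) (v := fun _ : Unit =>
      ((w : ℂ) - Fintype.card κ / 2) * (D tau / tau)) (by
        rw [linearIndependent_unique_iff]
        exact hne) (fun _ => (1 : ℚ))
    have h2 := hf ()
    rw [h1 f] at h2
    exact zero_ne_one h2
  by_contra hne
  have hne' : ((w : ℂ) - Fintype.card κ / 2) ≠ 0 := by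
    intro h1
    apply hne
    have h2 : ((Fintype.card κ : ℤ) : ℂ) = ((2 * w : ℤ) : ℂ) := by
      push_cast
      linear_combination (-2 : ℂ) * h1
    exact_mod_cast h2
  have htau : (tau : ℂ) ≠ 0 := tau_ne
  have hconst : ∀ D : Derivation QBar ℂ ℂ, D tau = 0 := by
    intro D
    have h1 := (mul_eq_zero.1 (hD D)).resolve_left hne'
    exact (div_eq_zero_iff.1 h1).resolve_right htau
  obtain ⟨x, hx⟩ := mem_of_derivation hconst
  have halg : IsAlgebraic ℚ (tau : ℂ) := by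
    rw [← hx]
    exact QBar.alg x
  have h2I : IsAlgebraic ℚ ((2 * Complex.I)⁻¹ : ℂ) := by
    refine IsAlgebraic.inv ?_
    refine IsAlgebraic.mul ?_ ?_
    · exact_mod_cast (isAlgebraic_natCast (R := ℚ) (A := ℂ) 2)
    · exact Pool.Agent.H340R2.LW.isAlgebraic_I
  have h3 := halg.mul h2I
  have h4 : (tau : ℂ) * (2 * Complex.I)⁻¹ = Real.pi := by
    have hI := Complex.I_ne_zero
    unfold tau
    field_simp
  rw [h4] at h3
  exact Pool.Agent.H340R2.LW.transcendental_pi_complex h3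

end AbVar

end Pool.Agent.Y102
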