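import Pool.Agent.H86.CMLib.Y102.AV12
import Pool.Agent.H86.CMLib.Y102.AV17

set_option autoImplicit false
set_option linter.unusedSectionVars false

/-!
# The torsor cut out by the classes of divisors
-/

open Module Function TensorProduct

noncomputable section

namespace Pool.Agent.Y102

open Pool.Agent.W516.DR Pool.Agent.H204R3.GP Pool.Agent.W516.KC Pool.Agent.H204R3.SP

section Gen

variable {ι W κ : Type} [Fintype ι] [AddCommGroup W] [Module ℚ W] [Fintype κ] [DecidableEq κ]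
  {F : ι → (W →ₗ[ℚ] ℂ)} {t : ℂ} {w : ℤ} {a b : (κ → ι) → QBar}
  {φ ψ : MultilinearMap ℚ (fun _ : κ => W) ℚ}

theorem Compat.add (h1 : Compat F t w a φ) (h2 : Compat F t w b ψ) :
    Compat F t w (a + b) (φ + ψ) := by
  intro v
  rw [add_apply, Rat.cast_add, mul_add, h1 v, h2 v, ← Finset.sum_add_distrib]
  refine Finset.sum_congr rfl fun J _ => ?_
  rw [Pi.add_apply, map_add, add_mul]

theorem Compat.smul (c : ℚ) (h1 : Compat F t w a φ) : Compat F t w (c • a) (c • φ) := by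
  intro v
  rw [smul_apply, smul_eq_mul, Rat.cast_mul, mul_left_comm, h1 v, Finset.mul_sum]
  refine Finset.sum_congr rfl fun J _ => ?_
  rw [Pi.smul_apply, Algebra.smul_def, map_mul, ← IsScalarTower.algebraMap_apply, ← mul_assoc]
  rfl

theorem Compat.zero : Compat F t w (0 : (κ → ι) → QBar)
    (0 : MultilinearMap ℚ (fun _ : κ => W) ℚ) := by
  intro v
  rw [zero_apply, Rat.cast_zero, mul_zero]
  refine (Finset.sum_eq_zero fun J _ => ?_).symm
  rw [Pi.zero_apply, map_zero, zero_mul]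

variable {κ' : Type} [Fintype κ'] [DecidableEq κ']

theorem Compat.reindex (e : κ ≃ κ') :
    Compat F t w (fun J => a (J ∘ e)) (φ.domDomCongr e) ↔ Compat F t w a φ := by
  have key : ∀ v : κ' → W, ∑ J : κ' → ι, algebraMap QBar ℂ (a (J ∘ e)) * ∏ l, F (J l) (v l) =
      ∑ J : κ → ι, algebraMap QBar ℂ (a J) * ∏ l, F (J l) (v (e l)) := by
    intro v
    refine Fintype.sum_equiv (Equiv.arrowCongr e.symm (Equiv.refl ι)) _ _ fun J => ?_
    congr 1
    rw [← Equiv.prod_comp e]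
    rfl
  constructor
  · intro h v
    have h1 := h (v ∘ e.symm)
    rw [key, MultilinearMap.domDomCongr_apply] at h1
    simp only [comp_apply, Equiv.symm_apply_apply] at h1
    exact h1
  · intro h v
    rw [key, MultilinearMap.domDomCongr_apply]
    exact h _

end Gen

section Prod

variable {ι W : Type} [Fintype ι] [AddCommGroup W] [Module ℚ W]
  {F : ι → (W →ₗ[ℚ] ℂ)} {t : ℂ} {m : ℕ}

/-- Products of bilinear classes. -/
theorem Compat.prod (σ : Equiv.Perm (Fin m × Fin 2)) (B : Fin m → (W →ₗ[ℚ] W →ₗ[ℚ] ℚ))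
    (b : Fin m → ι → ι → QBar)
    (h : ∀ l u v, t * (B l u v : ℂ) = ∑ i, ∑ j, algebraMap QBar ℂ (b l i j) * (F i u * F j v))
    (ψ : MultilinearMap ℚ (fun _ : Fin m × Fin 2 => W) ℚ)
    (hψ : ∀ v, ψ v = ∏ l, B l (v (σ (l, 0))) (v (σ (l, 1)))) :
    Compat F t m (fun J => ∏ l, b l (J (σ (l, 0))) (J (σ (l, 1)))) ψ := by
  classical
  intro v
  rw [hψ, zpow_natCast, Rat.cast_prod, ← Fin.prod_const, ← Finset.prod_mul_distrib,
    Finset.prod_congr rfl fun l _ => h l _ _]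
  have h1 : ∀ l : Fin m, ∑ i, ∑ j, algebraMap QBar ℂ (b l i j) *
      (F i (v (σ (l, 0))) * F j (v (σ (l, 1)))) =
      ∑ q : Fin 2 → ι, algebraMap QBar ℂ (b l (q 0) (q 1)) *
      (F (q 0) (v (σ (l, 0))) * F (q 1) (v (σ (l, 1)))) := by
    intro l
    rw [← Fintype.sum_prod_type']
    refine (Fintype.sum_equiv (finTwoArrowEquiv ι) _ _ fun q => ?_).symm
    rfl
  rw [Finset.prod_congr rfl fun l _ => h1 l, Finset.prod_univ_sum]
  rw [Fintype.piFinset_univ]
  refine (Fintype.sum_equiv ((Equiv.arrowCongr σ.symm (Equiv.refl ι)).trans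
    (Equiv.curry (Fin m) (Fin 2) ι)) _ _ fun J => ?_).symm
  have h2 : ∀ (l : Fin m) (k : Fin 2), ((Equiv.arrowCongr σ.symm (Equiv.refl ι)).trans
      (Equiv.curry (Fin m) (Fin 2) ι)) J l k = J (σ (l, k)) := fun l k => rfl
  simp only [h2]
  rw [map_prod, ← Equiv.prod_comp σ, Fintype.prod_prod_type, ← Finset.prod_mul_distrib]
  refine Finset.prod_congr rfl fun l _ => ?_
  rw [Fin.prod_univ_two]

end Prod

namespace AbVar

variable {g : ℕ} (A : AbVar g)

theorem compat_unique {κ : Type} [Fintype κ] [DecidableEq κ] {w : ℤ}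
    {a b : (κ → Fin g ⊕ Fin g) → QBar} {φ : MultilinearMap ℚ (fun _ : κ => A.H1) ℚ}
    (h1 : Compat A.dR tau w a φ) (h2 : Compat A.dR tau w b φ) : a = b := by
  funext J
  apply (algebraMap QBar ℂ).injective
  have e1 := coef_unique A.basis (Module.finBasis ℚ A.H1) φ (tau ^ w)
    (fun J => algebraMap QBar ℂ (a J)) (fun v => by rw [coe_basis]; exact h1 v) J
  have e2 := coef_unique A.basis (Module.finBasis ℚ A.H1) φ (tau ^ w)
    (fun J => algebraMap QBar ℂ (b J)) (fun v => by rw [coe_basis]; exact h2 v) J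
  rw [← e1, ← e2]

/-- the forms for which the point `(F, t)` is compatible with the class -/
def Good (κ : Type) [Fintype κ] [DecidableEq κ] (F : Fin g ⊕ Fin g → (A.H1 →ₗ[ℚ] ℂ)) (t : ℂ)
    (w : ℤ) : Submodule ℚ (MultilinearMap ℚ (fun _ : κ => A.H1) ℚ) where
  carrier := {φ | ∃ a, Compat A.dR tau w a φ ∧ Compat F t w a φ}
  zero_mem' := ⟨0, Compat.zero, Compat.zero⟩
  add_mem' := fun ⟨a, h1, h2⟩ ⟨b, h3, h4⟩ => ⟨a + b, h1.add h3, h2.add h4⟩
  smul_mem' := fun c _ ⟨a, h1, h2⟩ => ⟨c • a, h1.smul c, h2.smul c⟩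

/-- The bilinear forms given by the endomorphisms are de Rham-Betti classes. -/
theorem lef_drb {Q : Module.End ℚ A.H1} (hQ : Q ∈ A.EA) :
    ∃ b : Fin g ⊕ Fin g → Fin g ⊕ Fin g → QBar, ∀ u v, tau * ((A.om (Q u) v : ℚ) : ℂ) =
      ∑ i, ∑ j, algebraMap QBar ℂ (b i j) * (A.dR i u * A.dR j v) := by
  obtain ⟨c, hc⟩ := A.om_drb'
  obtain ⟨q, hq⟩ := A.mem_EA.1 hQ
  refine ⟨fun i j => ∑ k, c k j * q k i, fun u v => ?_⟩
  have h1 := hc (Q u) v
  rw [coe_basis] at h1
  have h2 : ((A.om (Q u) v : ℚ) : ℂ) = algebraMap ℚ ℂ (A.om (Q u) v) := rfl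
  rw [h2, h1]
  have h3 : ∀ k j, algebraMap QBar ℂ (c k j) * (A.dR k (Q u) * A.dR j v) =
      ∑ i, algebraMap QBar ℂ (c k j * q k i) * (A.dR i u * A.dR j v) := by
    intro k j
    rw [hq, Finset.sum_mul, Finset.mul_sum]
    refine Finset.sum_congr rfl fun i _ => ?_
    rw [map_mul]
    ring
  simp only [h3]
  rw [Finset.sum_congr rfl fun k _ => Finset.sum_comm, Finset.sum_comm]
  refine Finset.sum_congr rfl fun i _ => ?_
  rw [Finset.sum_comm]
  refine Finset.sum_congr rfl fun j _ => ?_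
  rw [map_sum, Finset.sum_mul]

/-- a bilinear form as a form in two variables -/
def two (B : A.H1 →ₗ[ℚ] A.H1 →ₗ[ℚ] ℚ) : MultilinearMap ℚ (fun _ : Fin 2 => A.H1) ℚ :=
  (one2 B).domDomCongr (Equiv.uniqueProd (Fin 2) (Fin 1))

theorem two_apply (B : A.H1 →ₗ[ℚ] A.H1 →ₗ[ℚ] ℚ) (v : Fin 2 → A.H1) :
    A.two B v = B (v 0) (v 1) := by
  unfold two
  rw [MultilinearMap.domDomCongr_apply, one2_apply]
  rfl

theorem two_compat {B : A.H1 →ₗ[ℚ] A.H1 →ₗ[ℚ] ℚ} {F : Fin g ⊕ Fin g → (A.H1 →ₗ[ℚ] ℂ)} {t : ℂ}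
    {b : Fin g ⊕ Fin g → Fin g ⊕ Fin g → QBar} :
    Compat F t 1 (fun J => b (J 0) (J 1)) (A.two B) ↔ ∀ u v, t * ((B u v : ℚ) : ℂ) =
      ∑ i, ∑ j, algebraMap QBar ℂ (b i j) * (F i u * F j v) := by
  have key : ∀ v : Fin 2 → A.H1, ∑ J : Fin 2 → Fin g ⊕ Fin g, algebraMap QBar ℂ (b (J 0) (J 1)) *
      ∏ l, F (J l) (v l) = ∑ i, ∑ j, algebraMap QBar ℂ (b i j) * (F i (v 0) * F j (v 1)) := by
    intro v
    rw [← Fintype.sum_prod_type']
    refine Fintype.sum_equiv (finTwoArrowEquiv _) _ _ fun q => ?_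
    rw [Fin.prod_univ_two]
    rfl
  constructor
  · intro h u v
    have h1 := h ![u, v]
    rw [key, two_apply, zpow_one] at h1
    exact h1
  · intro h v
    rw [key, two_apply, zpow_one]
    exact h _ _

/-- **The torsors coincide** if the de Rham-Betti classes are combinations of products. -/
theorem torsor (hA : ∀ (m : ℕ) (φ : MultilinearMap ℚ (fun _ : Fin m × Fin 2 => A.H1) ℚ),
      IsDeRhamBettiForm QBar A.dR tau m φ → φ ∈ Submodule.span ℚ (LefProd A A.EA m))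
    {F : Fin g ⊕ Fin g → (A.H1 →ₗ[ℚ] ℂ)} {t : ℂ}
    (hF : ∀ (a : (Fin 2 → Fin g ⊕ Fin g) → QBar)
      (φ : MultilinearMap ℚ (fun _ : Fin 2 => A.H1) ℚ), Compat A.dR tau 1 a φ →
      IsHodgeTensor (A.per : A.H1 →+ (Fin g → ℂ)) φ → Compat F t 1 a φ)
    {r : ℕ} {w : ℤ} {a : (Fin r → Fin g ⊕ Fin g) → QBar}
    {φ : MultilinearMap ℚ (fun _ : Fin r => A.H1) ℚ} (h : Compat A.dR tau w a φ) :
    Compat F t w a φ := by
  by_cases hφ : φ = 0
  · subst hφ
    have h1 : a = 0 := A.compat_unique h Compat.zero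
    rw [h1]
    exact Compat.zero
  have hw := A.weight h hφ
  rw [Fintype.card_fin] at hw
  obtain ⟨m, rfl⟩ : ∃ m : ℕ, w = m := ⟨w.toNat, by omega⟩
  have hr : r = m * 2 := by omega
  subst hr
  let e : Fin (m * 2) ≃ Fin m × Fin 2 := finProdFinEquiv.symm
  rw [← Compat.reindex e]
  have h1 := (Compat.reindex e).2 h
  have h2 : IsDeRhamBettiForm QBar A.dR tau m (φ.domDomCongr e) := by
    refine ⟨fun J => a (J ∘ e), fun v => ?_⟩
    have h3 := h1 v
    rw [zpow_natCast] at h3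
    exact h3
  have h3 : φ.domDomCongr e ∈ A.Good (Fin m × Fin 2) F t m := by
    refine (Submodule.span_le.2 ?_) (hA m _ h2)
    rintro ψ ⟨σ, Q, hQ, hψ⟩
    choose b hb using fun l => A.lef_drb (hQ l)
    have hb' : ∀ l u v, t * ((A.om (Q l u) v : ℚ) : ℂ) =
        ∑ i, ∑ j, algebraMap QBar ℂ (b l i j) * (F i u * F j v) := by
      intro l
      have h4 := (A.two_compat (B := A.om.comp (Q l)) (F := A.dR) (t := tau) (b := b l)).2 (hb l)
      refine (A.two_compat (B := A.om.comp (Q l)) (F := F) (t := t) (b := b l)).1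
        (hF _ _ h4 ?_)
      obtain ⟨P', hP'⟩ := A.hodge_end (A.mem_EA.1 (hQ l))
      refine ⟨(MultilinearMap.mk' (fun u : Fin 2 → (Fin g → ℂ) => A.E (P' (u 0)) (u 1)) ?_ ?_),
        fun v => ?_, fun z hz u => ?_⟩
      · intro u i x y
        fin_cases i
        · simp [Function.update]
        · simp [Function.update]
      · intro u i c x
        fin_cases i
        · simp [Function.update]
        · simp [Function.update]
      · change A.E (P' (A.per (v 0))) (A.per (v 1)) = _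
        rw [two_apply]
        have h1 : P' (A.per (v 0)) = A.per (Q l (v 0)) := hP' (v 0)
        rw [h1, ← om_coe]
        rfl
      · change A.E (P' (z • u 0)) (z • u 1) = A.E (P' (u 0)) (u 1)
        rw [P'.map_smul, A.E_unit z hz]
    exact ⟨_, Compat.prod σ (fun l => A.om.comp (Q l)) b hb ψ hψ,
      Compat.prod σ (fun l => A.om.comp (Q l)) b hb' ψ hψ⟩
  obtain ⟨a', h4, h5⟩ := h3
  rw [A.compat_unique h1 h4]
  exact h5

end AbVar

end Pool.Agent.Y102
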