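import Pool.Agent.H86.CMLib.Y102.AV18

set_option autoImplicit false
set_option linter.unusedSectionVars false

/-!
# The torsor of the de Rham-Betti classes: homotheties, Hodge classes
-/

open Module Function TensorProduct

noncomputable section

namespace Pool.Agent.Y102

open Pool.Agent.W516.DR Pool.Agent.H204R3.GP Pool.Agent.W516.KC Pool.Agent.H204R3.SP

namespace AbVar

variable {g : ℕ} (A : AbVar g)

/-- The torsor is stable under the homotheties. -/
theorem homothety {r : ℕ} {w : ℤ} {a : (Fin r → Fin g ⊕ Fin g) → QBar}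
    {φ : MultilinearMap ℚ (fun _ : Fin r => A.H1) ℚ} (h : Compat A.dR tau w a φ)
    {F : Fin g ⊕ Fin g → (A.H1 →ₗ[ℚ] ℂ)} {t : ℂ} (h1 : Compat F t w a φ) (c : ℂ) :
    Compat (c • F) (c ^ 2 * t) w a φ := by
  by_cases hφ : φ = 0
  · subst hφ
    rw [A.compat_unique h Compat.zero]
    exact Compat.zero
  have hw := A.weight h hφ
  rw [Fintype.card_fin] at hw
  intro v
  have h2 : ∀ J : Fin r → Fin g ⊕ Fin g, algebraMap QBar ℂ (a J) * ∏ l, (c • F) (J l) (v l) =
      (c ^ 2) ^ w * (algebraMap QBar ℂ (a J) * ∏ l, F (J l) (v l)) := by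
    intro J
    have h3 : ∏ l, (c • F) (J l) (v l) = c ^ r * ∏ l, F (J l) (v l) := by
      rw [← Fin.prod_const, ← Finset.prod_mul_distrib]
      rfl
    have h4 : (c ^ 2) ^ w = c ^ r := by
      rw [← zpow_natCast c 2, ← zpow_mul, ← zpow_natCast c r, hw]
      norm_cast
    rw [h3, h4]
    ring
  rw [Finset.sum_congr rfl fun J _ => h2 J, ← Finset.mul_sum, ← h1 v, mul_zpow, mul_assoc]

theorem hodge_reindex {κ κ' : Type} (e : κ ≃ κ') {φ : MultilinearMap ℚ (fun _ : κ => A.H1) ℚ}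
    (h : IsHodgeTensor (A.per : A.H1 →+ (Fin g → ℂ)) (φ.domDomCongr e)) :
    IsHodgeTensor (A.per : A.H1 →+ (Fin g → ℂ)) φ := by
  obtain ⟨Ψ, h1, h2⟩ := h
  refine ⟨Ψ.domDomCongr e.symm, fun v => ?_, fun z hz u => ?_⟩
  · rw [MultilinearMap.domDomCongr_apply, h1 (fun l => v (e.symm l)),
      MultilinearMap.domDomCongr_apply]
    simp only [Equiv.symm_apply_apply]
  · rw [MultilinearMap.domDomCongr_apply, MultilinearMap.domDomCongr_apply]
    exact h2 z hz _

theorem hodge_of_product {m : ℕ} {ψ : MultilinearMap ℚ (fun _ : Fin m × Fin 2 => A.H1) ℚ}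
    (h : IsProductOfHodgeBilinear (A.per : A.H1 →+ (Fin g → ℂ)) ψ) :
    IsHodgeTensor (A.per : A.H1 →+ (Fin g → ℂ)) ψ := by
  obtain ⟨σ, B, hB, hψ⟩ := h
  choose E h1 h2 using hB
  refine ⟨mmG σ E, fun v => ?_, fun z hz u => ?_⟩
  · rw [mmG_apply, hψ, Rat.cast_prod]
    exact Finset.prod_congr rfl fun l _ => h1 l _ _
  · rw [mmG_apply, mmG_apply]
    exact Finset.prod_congr rfl fun l _ => h2 l z hz _ _

theorem hodge_all (hA : ∀ (m : ℕ) (φ : MultilinearMap ℚ (fun _ : Fin m × Fin 2 => A.H1) ℚ),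
      IsDeRhamBettiForm QBar A.dR tau m φ → φ ∈ Submodule.span ℚ (LefProd A A.EA m))
    {r : ℕ} {w : ℤ} {a : (Fin r → Fin g ⊕ Fin g) → QBar}
    {φ : MultilinearMap ℚ (fun _ : Fin r => A.H1) ℚ} (h : Compat A.dR tau w a φ) :
    IsHodgeTensor (A.per : A.H1 →+ (Fin g → ℂ)) φ := by
  by_cases hφ : φ = 0
  · subst hφ
    exact ⟨0, fun v => by rw [zero_apply, zero_apply, Rat.cast_zero], fun z _ u => by
      rw [zero_apply, zero_apply]⟩
  have hw := A.weight h hφ
  rw [Fintype.card_fin] at hw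
  obtain ⟨m, rfl⟩ : ∃ m : ℕ, w = m := ⟨w.toNat, by omega⟩
  have hr : r = m * 2 := by omega
  subst hr
  let e : Fin (m * 2) ≃ Fin m × Fin 2 := finProdFinEquiv.symm
  have h1 := (Compat.reindex e).2 h
  have h2 : IsDeRhamBettiForm QBar A.dR tau m (φ.domDomCongr e) := by
    refine ⟨fun J => a (J ∘ e), fun v => ?_⟩
    have h3 := h1 v
    rw [zpow_natCast] at h3
    exact h3
  apply A.hodge_reindex e
  let S : Submodule ℚ (MultilinearMap ℚ (fun _ : Fin m × Fin 2 => A.H1) ℚ) :=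
    { carrier := {ψ | IsHodgeTensor (A.per : A.H1 →+ (Fin g → ℂ)) ψ}
      zero_mem' := ⟨0, fun v => by rw [zero_apply, zero_apply, Rat.cast_zero], fun z _ u => by
        rw [zero_apply, zero_apply]⟩
      add_mem' := fun ⟨Ψ, h1, h2⟩ ⟨Ψ', h3, h4⟩ => ⟨Ψ + Ψ', fun v => by
        rw [add_apply, add_apply, h1, h3, Rat.cast_add], fun z hz u => by
        rw [add_apply, add_apply, h2 z hz, h4 z hz]⟩
      smul_mem' := fun c _ ⟨Ψ, h1, h2⟩ => ⟨(c : ℝ) • Ψ, fun v => by
        rw [smul_apply, smul_apply, h1, smul_eq_mul, smul_eq_mul, Rat.cast_mul], fun z hz u => by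
        rw [smul_apply, smul_apply, h2 z hz]⟩ }
  have h3 := hA m _ h2
  have h4 : Submodule.span ℚ (LefProd A A.EA m) ≤ S := by
    rw [Submodule.span_le]
    intro ψ hψ
    exact A.hodge_of_product (LefProd_hodge A.endAlg.hodge hψ)
  exact h4 h3

end AbVar

end Pool.Agent.Y102
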