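import Pool.Agent.H86.CMLib.Y102.AV1

set_option autoImplicit false
set_option linter.unusedSectionVars false

/-!
# Simultaneous diagonalization of symmetric endomorphisms
-/

open Module Module.End

noncomputable section

namespace Pool.Agent.Y102

theorem joint_top {T : Type} [AddCommGroup T] [Module ℂ T] [FiniteDimensional ℂ T]
    (cd : InnerProductSpace.Core ℂ T) {n : ℕ} (P : Fin n → (T →ₗ[ℂ] T))
    (hcomm : ∀ i j, P i * P j = P j * P i)
    (hsym : ∀ i u v, cd.inner (P i u) v = cd.inner u (P i v)) :
    ⨆ χ : Fin n → ℂ, ⨅ i, eigenspace (P i) (χ i) = ⊤ := by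
  let _ : NormedAddCommGroup T := cd.toNormedAddCommGroup
  let _ : InnerProductSpace ℂ T := InnerProductSpace.ofCore cd.toCore
  exact LinearMap.IsSymmetric.iSup_iInf_eq_top_of_commute (T := P)
    (fun i u v => hsym i u v) (fun i j _ => hcomm i j)

namespace AbVar

variable {g : ℕ} (A : AbVar g)

theorem E_self (u : Fin g → ℂ) : A.E u u = 0 := by
  have h := A.E_anti u u
  linarith

/-- the Hermitian form -/
@[reducible] def core : InnerProductSpace.Core ℂ (Fin g → ℂ) where
  inner x y := (A.E x (Complex.I • y) : ℂ) + Complex.I * (A.E x y : ℂ)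
  conj_inner_symm x y := by
    have h1 := (A.E_I x y).2
    have h2 := A.E_anti y (Complex.I • x)
    have h3 := A.E_anti y x
    rw [map_add, map_mul, Complex.conj_ofReal, Complex.conj_ofReal, Complex.conj_I, h2, h3, h1]
    push_cast
    ring
  re_inner_nonneg x := by
    rw [E_self]
    simp only [Complex.ofReal_zero, mul_zero, add_zero]
    rw [RCLike.re_eq_complex_re, Complex.ofReal_re]
    by_cases hx : x = 0
    · rw [hx]; simp
    · exact (A.E_pos hx).le
  add_left x y z := by
    simp only [map_add, LinearMap.add_apply]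
    push_cast
    ring
  smul_left x y r := by
    have h3 : r • x = r.re • x + r.im • (Complex.I • x) := by
      conv_lhs => rw [← Complex.re_add_im r]
      rw [add_smul, mul_smul]
      rfl
    have h4 : (starRingEnd ℂ) r = r.re - r.im * Complex.I := by
      apply Complex.ext <;> simp
    have h1 := A.E_I x y
    rw [h3, h4]
    simp only [map_add, map_smul, LinearMap.add_apply, LinearMap.smul_apply, h1.1, h1.2,
      smul_eq_mul]
    push_cast
    linear_combination (r.im : ℂ) * (A.E x y : ℂ) * Complex.I_mul_I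
  definite x h := by
    by_contra hx
    have h1 := A.E_pos hx
    have h2 := congrArg Complex.re h
    simp at h2
    linarith

/-- **Simultaneous diagonalization.** -/
theorem exists_eigenbasis {n : ℕ} (P : Fin n → ((Fin g → ℂ) →ₗ[ℂ] (Fin g → ℂ)))
    (hcomm : ∀ i j, P i * P j = P j * P i) (hsym : ∀ i u v, A.E (P i u) v = A.E u (P i v)) :
    ∃ (e : Basis (Fin g) ℂ (Fin g → ℂ)) (r : Fin n → Fin g → ℝ),
      ∀ i k, P i (e k) = (r i k : ℂ) • e k := by
  have htop := joint_top A.core P hcomm (fun i u v => by
    change (A.E (P i u) (Complex.I • v) : ℂ) + Complex.I * (A.E (P i u) v : ℂ) =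
      (A.E u (Complex.I • P i v) : ℂ) + Complex.I * (A.E u (P i v) : ℂ)
    rw [hsym, hsym, map_smul])
  -- the joint eigenvectors
  let S : Set (Fin g → ℂ) := {v | ∃ χ : Fin n → ℂ, ∀ i, P i v = χ i • v}
  have hS : Submodule.span ℂ S = ⊤ := by
    rw [eq_top_iff, ← htop, iSup_le_iff]
    intro χ v hv
    refine Submodule.subset_span ⟨χ, fun i => ?_⟩
    exact mem_eigenspace_iff.1 ((Submodule.mem_iInf _).1 hv i)
  obtain ⟨b, hbS, hbspan, hbli⟩ := exists_linearIndependent ℂ S
  rw [hS] at hbspan
  let B : Basis b ℂ (Fin g → ℂ) := Basis.mk hbli (by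
    rw [Subtype.range_coe, hbspan])
  have : Fintype b := FiniteDimensional.fintypeBasisIndex B
  have hcard : Fintype.card b = g := by
    rw [← Module.finrank_eq_card_basis B, Module.finrank_pi, Fintype.card_fin]
  let eqv : b ≃ Fin g := Fintype.equivFinOfCardEq hcard
  let e : Basis (Fin g) ℂ (Fin g → ℂ) := B.reindex eqv
  have he : ∀ k, e k ∈ S := by
    intro k
    have h1 : e k = ((eqv.symm k : b) : Fin g → ℂ) := by
      rw [Basis.reindex_apply, Basis.mk_apply]
    rw [h1]
    exact hbS (eqv.symm k).2
  choose χ hχ using he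
  refine ⟨e, fun i k => (χ k i).re, fun i k => ?_⟩
  have hne : e k ≠ 0 := e.ne_zero k
  have him : (χ k i).im = 0 := by
    have h1 := hsym i (e k) (e k)
    rw [hχ k i] at h1
    have h3 : χ k i • e k = (χ k i).re • e k + (χ k i).im • (Complex.I • e k) := by
      conv_lhs => rw [← Complex.re_add_im (χ k i)]
      rw [add_smul, mul_smul]
      rfl
    rw [h3] at h1
    simp only [map_add, map_smul, LinearMap.add_apply, LinearMap.smul_apply, (A.E_I _ _).2,
      E_self, smul_eq_mul, mul_zero, zero_add] at h1
    have h4 := A.E_pos hne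
    have h5 : (χ k i).im * A.E (e k) (Complex.I • e k) = 0 := by linarith
    exact (mul_eq_zero.1 h5).resolve_right h4.ne'
  rw [hχ k i]
  congr 1
  apply Complex.ext
  · rw [Complex.ofReal_re]
  · rw [him, Complex.ofReal_im]

end AbVar

end Pool.Agent.Y102
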