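import Pool.Agent.H86.CMLib.Y102.AV2

set_option autoImplicit false
set_option linter.unusedSectionVars false

/-!
# Real extensions and rational components
-/

open Module Function

noncomputable section

namespace Pool.Agent.Y102

open Pool.Agent.W516.DR Pool.Agent.H204R3.GP Pool.Agent.W516.KC

theorem exists_sep {x : ℝ} (h : ∀ f : ℝ →ₗ[ℚ] ℚ, f x = 0) : x = 0 :=
  (Module.forall_dual_apply_eq_zero_iff ℚ x).1 h

namespace AbVar

variable {g : ℕ} (A : AbVar g)

/-- the real extension of an endomorphism -/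
def ext (X : A.H1 →ₗ[ℚ] A.H1) : (Fin g → ℂ) →ₗ[ℝ] (Fin g → ℂ) :=
  A.lam.constr ℝ fun j => A.per (X (A.bas j))

theorem ext_lam (X : A.H1 →ₗ[ℚ] A.H1) (j : Fin (2 * g)) :
    A.ext X (A.lam j) = A.per (X (A.bas j)) := A.lam.constr_basis ℝ _ _

theorem ext_apply (X : A.H1 →ₗ[ℚ] A.H1) (w : A.H1) : A.ext X (A.per w) = A.per (X w) := by
  have h1 : w = ∑ j, w j • A.bas j := by
    conv_lhs => rw [← A.bas.sum_repr w]
    rfl
  have h2 : A.per (X w) = ∑ j, w j • A.per (X (A.bas j)) := by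
    conv_lhs => rw [h1]
    rw [map_sum, map_sum]
    exact Finset.sum_congr rfl fun j _ => by rw [map_smul, map_smul]
  rw [h2, per_apply, map_sum]
  refine Finset.sum_congr rfl fun j _ => ?_
  rw [rat_smul, rat_smul, map_smul, ext_lam]

/-- the rational components of a vector -/
def cmp (f : ℝ →ₗ[ℚ] ℚ) : (Fin g → ℂ) →ₗ[ℚ] A.H1 where
  toFun x j := f (A.lam.repr x j)
  map_add' x y := by
    funext j
    simp
  map_smul' c x := by
    funext j
    rw [rat_smul, map_smul, Finsupp.smul_apply, smul_eq_mul]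
    have h1 : (c : ℝ) * A.lam.repr x j = c • A.lam.repr x j := (Rat.smul_def _ _).symm
    rw [h1, map_smul]
    rfl

theorem cmp_apply (f : ℝ →ₗ[ℚ] ℚ) (x : Fin g → ℂ) (j : Fin (2 * g)) :
    A.cmp f x j = f (A.lam.repr x j) := rfl

theorem cmp_real_smul_lam (f : ℝ →ₗ[ℚ] ℚ) (r : ℝ) (j : Fin (2 * g)) :
    A.cmp f (r • A.lam j) = f r • A.bas j := by
  funext i
  rw [cmp_apply, map_smul, Finsupp.smul_apply, Basis.repr_self]
  unfold bas
  rw [Pi.smul_apply, Pi.basisFun_apply]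
  by_cases h : j = i
  · subst h
    simp
  · rw [Finsupp.single_eq_of_ne (Ne.symm h), Pi.single_eq_of_ne (Ne.symm h)]
    simp

theorem repr_per (w : A.H1) (j : Fin (2 * g)) : A.lam.repr (A.per w) j = w j := by
  rw [per_apply, map_sum, Finsupp.finsetSum_apply, Finset.sum_eq_single j]
  · rw [rat_smul, map_smul, Finsupp.smul_apply, Basis.repr_self, Finsupp.single_eq_same,
      smul_eq_mul, mul_one]
  · intro i _ hi
    rw [rat_smul, map_smul, Finsupp.smul_apply, Basis.repr_self, Finsupp.single_eq_of_ne (Ne.symm hi),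
      smul_zero]
  · intro h
    exact absurd (Finset.mem_univ _) h

theorem cmp_smul_per (f : ℝ →ₗ[ℚ] ℚ) (r : ℝ) (w : A.H1) :
    A.cmp f (r • A.per w) = f r • w := by
  funext j
  rw [cmp_apply, map_smul, Finsupp.smul_apply, repr_per, smul_eq_mul, Pi.smul_apply, smul_eq_mul]
  have h1 : r * (w j : ℝ) = w j • r := by rw [Rat.smul_def, mul_comm]
  rw [h1, map_smul, smul_eq_mul, mul_comm]

theorem eq_sum (x : Fin g → ℂ) : x = ∑ j, A.lam.repr x j • A.per (A.bas j) := by
  conv_lhs => rw [← A.lam.sum_repr x]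
  exact Finset.sum_congr rfl fun j _ => by rw [per_bas]

theorem cmp_ext (f : ℝ →ₗ[ℚ] ℚ) (X : A.H1 →ₗ[ℚ] A.H1) (x : Fin g → ℂ) :
    A.cmp f (A.ext X x) = X (A.cmp f x) := by
  rw [A.eq_sum x]
  simp only [map_sum, map_smul, ext_apply, cmp_smul_per]

theorem om_cmp (f : ℝ →ₗ[ℚ] ℚ) (x : Fin g → ℂ) (v : A.H1) :
    A.om (A.cmp f x) v = f (A.E x (A.per v)) := by
  rw [A.eq_sum x]
  simp only [map_sum, map_smul, cmp_smul_per, LinearMap.sum_apply, LinearMap.smul_apply,
    smul_eq_mul, ← om_coe]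
  refine Finset.sum_congr rfl fun j _ => ?_
  have h1 : A.lam.repr x j * ((A.om (A.bas j) v : ℚ) : ℝ) =
      (A.om (A.bas j) v) • A.lam.repr x j := by rw [Rat.smul_def, mul_comm]
  rw [h1, map_smul, smul_eq_mul, mul_comm]

theorem cmp_sep {x : Fin g → ℂ} (h : ∀ f, A.cmp f x = 0) : x = 0 := by
  rw [A.eq_sum x]
  refine Finset.sum_eq_zero fun j _ => ?_
  have h1 : A.lam.repr x j = 0 := exists_sep fun f => congrFun (h f) j
  rw [h1, zero_smul]

theorem per_inj {v w : A.H1} (h : A.per v = A.per w) : v = w := by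
  funext j
  have h1 := A.repr_per v j
  rw [h, repr_per] at h1
  exact_mod_cast h1.symm

/-- the rational components of an endomorphism -/
def cmpE (f : ℝ →ₗ[ℚ] ℚ) (Y : (Fin g → ℂ) →ₗ[ℝ] (Fin g → ℂ)) : A.H1 →ₗ[ℚ] A.H1 :=
  (A.cmp f).comp ((Y.restrictScalars ℚ).comp A.per)

theorem cmpE_apply (f : ℝ →ₗ[ℚ] ℚ) (Y : (Fin g → ℂ) →ₗ[ℝ] (Fin g → ℂ)) (w : A.H1) :
    A.cmpE f Y w = A.cmp f (Y (A.per w)) := rfl

/-- Commutation of the components. -/
theorem cmpE_comm (f : ℝ →ₗ[ℚ] ℚ) {Y : (Fin g → ℂ) →ₗ[ℝ] (Fin g → ℂ)} {X : A.H1 →ₗ[ℚ] A.H1}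
    (h : ∀ u, Y (A.ext X u) = A.ext X (Y u)) : A.cmpE f Y * X = X * A.cmpE f Y := by
  refine LinearMap.ext fun w => ?_
  rw [Module.End.mul_apply, Module.End.mul_apply, cmpE_apply, cmpE_apply, ← ext_apply, h, cmp_ext]

theorem cmpE_skew (f : ℝ →ₗ[ℚ] ℚ) {Y : (Fin g → ℂ) →ₗ[ℝ] (Fin g → ℂ)}
    (h : ∀ u v, A.E (Y u) v + A.E u (Y v) = 0) (u v : A.H1) :
    A.om (A.cmpE f Y u) v + A.om u (A.cmpE f Y v) = 0 := by
  rw [A.om_anti u, cmpE_apply, cmpE_apply, om_cmp, om_cmp, A.E_anti (Y (A.per v)), map_neg,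
    neg_neg, ← map_add, h, map_zero]

theorem cmpE_sym (f : ℝ →ₗ[ℚ] ℚ) {Y : (Fin g → ℂ) →ₗ[ℝ] (Fin g → ℂ)}
    (h : ∀ u v, A.E (Y u) v = A.E u (Y v)) (u v : A.H1) :
    A.om (A.cmpE f Y u) v = A.om u (A.cmpE f Y v) := by
  rw [A.om_anti u, cmpE_apply, cmpE_apply, om_cmp, om_cmp, A.E_anti (Y (A.per v)), map_neg,
    neg_neg, h]

/-- Symmetry can be tested on the components. -/
theorem sym_of_cmpE {Y : (Fin g → ℂ) →ₗ[ℝ] (Fin g → ℂ)}
    (h : ∀ f u v, A.om (A.cmpE f Y u) v = A.om u (A.cmpE f Y v)) (u v : Fin g → ℂ) :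
    A.E (Y u) v = A.E u (Y v) := by
  have h1 : ∀ u v : A.H1, A.E (Y (A.per u)) (A.per v) = A.E (A.per u) (Y (A.per v)) := by
    intro u v
    rw [← sub_eq_zero]
    apply exists_sep
    intro f
    have h2 := h f u v
    rw [A.om_anti u, cmpE_apply, cmpE_apply, om_cmp, om_cmp, A.E_anti (Y (A.per v)), map_neg,
      neg_neg] at h2
    rw [map_sub, h2, sub_self]
  have h2 : A.E.comp Y = (A.E.flip.comp Y).flip := by
    refine A.ext_per fun u => A.ext_per fun v => ?_
    exact h1 u v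
  exact congrArg (fun F : (Fin g → ℂ) →ₗ[ℝ] (Fin g → ℂ) →ₗ[ℝ] ℝ => F u v) h2

section Multi

variable {κ : Type} [Fintype κ] [DecidableEq κ]

/-- the real extension of a multilinear form -/
def Phi (φ : MultilinearMap ℚ (fun _ : κ => A.H1) ℚ) : MultilinearMap ℝ (fun _ : κ => Fin g → ℂ) ℝ :=
  ∑ J : κ → Fin (2 * g), ((φ fun p => A.bas (J p) : ℚ) : ℝ) •
    (MultilinearMap.mkPiAlgebra ℝ κ ℝ).compLinearMap fun p => A.lam.coord (J p)

theorem Phi_per (φ : MultilinearMap ℚ (fun _ : κ => A.H1) ℚ) (v : κ → A.H1) :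
    A.Phi φ (fun p => A.per (v p)) = φ v := by
  have h1 : v = fun p => ∑ j, v p j • A.bas j := by
    funext p
    conv_lhs => rw [← A.bas.sum_repr (v p)]
    rfl
  have h2 : φ v = ∑ J : κ → Fin (2 * g), (∏ p, v p (J p)) * φ fun p => A.bas (J p) := by
    conv_lhs => rw [h1]
    rw [MultilinearMap.map_sum]
    refine Finset.sum_congr rfl fun J _ => ?_
    rw [MultilinearMap.map_smul_univ, smul_eq_mul]
  rw [h2]
  unfold Phi
  rw [sum_apply]
  push_cast
  refine Finset.sum_congr rfl fun J _ => ?_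
  rw [Pi.smul_apply, MultilinearMap.compLinearMap_apply,
    MultilinearMap.mkPiAlgebra_apply, smul_eq_mul, mul_comm]
  congr 1
  refine Finset.prod_congr rfl fun p _ => ?_
  rw [Basis.coord_apply, repr_per]

theorem Phi_cmp (φ : MultilinearMap ℚ (fun _ : κ => A.H1) ℚ) (f : ℝ →ₗ[ℚ] ℚ) (v : κ → A.H1)
    (p : κ) (x : Fin g → ℂ) :
    f (A.Phi φ (update (fun p => A.per (v p)) p x)) = φ (update v p (A.cmp f x)) := by
  have hup : ∀ w : A.H1, update (fun p => A.per (v p)) p (A.per w) =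
      fun p' => A.per (update v p w p') := by
    intro w
    funext p'
    by_cases h : p' = p
    · subst h
      rw [update_self, update_self]
    · rw [update_of_ne h, update_of_ne h]
  have h1 : A.Phi φ (update (fun p => A.per (v p)) p x) =
      ∑ j, A.lam.repr x j * ((φ (update v p (A.bas j)) : ℚ) : ℝ) := by
    conv_lhs => rw [A.eq_sum x]
    rw [MultilinearMap.map_update_sum]
    refine Finset.sum_congr rfl fun j _ => ?_
    rw [MultilinearMap.map_update_smul, hup, Phi_per, smul_eq_mul]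
  have h2 : φ (update v p (A.cmp f x)) = ∑ j, A.cmp f x j * φ (update v p (A.bas j)) := by
    have h3 : A.cmp f x = ∑ j, A.cmp f x j • A.bas j := by
      conv_lhs => rw [← A.bas.sum_repr (A.cmp f x)]
      rfl
    conv_lhs => rw [h3]
    rw [MultilinearMap.map_update_sum]
    refine Finset.sum_congr rfl fun j _ => ?_
    rw [MultilinearMap.map_update_smul, smul_eq_mul]
  rw [h1, h2, map_sum]
  refine Finset.sum_congr rfl fun j _ => ?_
  have h3 : A.lam.repr x j * ((φ (update v p (A.bas j)) : ℚ) : ℝ) =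
      (φ (update v p (A.bas j))) • A.lam.repr x j := by rw [Rat.smul_def, mul_comm]
  rw [h3, map_smul, smul_eq_mul, mul_comm, cmp_apply]

/-- An endomorphism kills the real extension of a form if its components kill the form. -/
theorem Phi_kills (φ : MultilinearMap ℚ (fun _ : κ => A.H1) ℚ)
    (Y : (Fin g → ℂ) →ₗ[ℝ] (Fin g → ℂ))
    (h : ∀ f (v : κ → A.H1), ∑ p, φ (update v p (A.cmpE f Y (v p))) = 0) (u : κ → (Fin g → ℂ)) :
    ∑ p, A.Phi φ (update u p (Y (u p))) = 0 := by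
  let D : MultilinearMap ℝ (fun _ : κ => Fin g → ℂ) ℝ :=
    ∑ p, (A.Phi φ).compLinearMap (fun p' => if p' = p then Y else LinearMap.id)
  have hD : ∀ u, D u = ∑ p, A.Phi φ (update u p (Y (u p))) := by
    intro u
    simp only [D]
    rw [sum_apply]
    refine Finset.sum_congr rfl fun p _ => ?_
    rw [MultilinearMap.compLinearMap_apply]
    congr 1
    funext p'
    by_cases hp : p' = p
    · subst hp
      rw [if_pos rfl, update_self]
    · rw [if_neg hp, update_of_ne hp, LinearMap.id_apply]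
  have hD0 : D = 0 := by
    refine Basis.ext_multilinear (fun _ => A.lam) fun J => ?_
    rw [hD, zero_apply]
    apply exists_sep
    intro f
    have h1 := h f (fun p => A.bas (J p))
    rw [map_sum, ← h1]
    refine Finset.sum_congr rfl fun p _ => ?_
    have h2 : (fun p => A.lam (J p)) = fun p => A.per (A.bas (J p)) := by
      funext p
      rw [per_bas]
    rw [h2, Phi_cmp, cmpE_apply, per_bas]
  rw [← hD, hD0, zero_apply]

end Multi

end AbVar

end Pool.Agent.Y102
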