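import Pool.Agent.H86.CMLib.Y102.FFT

set_option autoImplicit false
set_option linter.unusedSectionVars false

/-!
# Real multilinear forms invariant under products of groups `SL(2)` and `U(1)`
-/

open Function Module

noncomputable section

namespace Pool.Agent.Y102.FT

section PM

variable {κ Q : Type*} [DecidableEq κ] [DecidableEq Q] {c : κ → Q} {cm : Q → Prop}

/-- The products of the basic invariants in terms of functions. -/
theorem PM.exists_fun {m : ℕ} {S : Finset κ} {f : (κ → ℂ) → ℝ} (h : PM c cm m S f) :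
    ∃ (e : Fin m × Fin 2 → κ) (b : Fin m → ℂ → ℂ → ℝ), Function.Injective e ∧ (∀ x, e x ∈ S) ∧
      (∀ x ∈ S, ∃ y, e y = x) ∧
      (∀ l, c (e (l, 0)) = c (e (l, 1)) ∧ (b l = dt ∨ (b l = rr ∧ cm (c (e (l, 0)))))) ∧
      f = fun z => ∏ l, b l (z (e (l, 0))) (z (e (l, 1))) := by
  have key : ∀ (m : ℕ) (S : Finset κ) (f : (κ → ℂ) → ℝ) (p q : κ) (b₀ : ℂ → ℂ → ℝ), p ∉ S →
      q ∉ S → p ≠ q → c p = c q → (b₀ = dt ∨ (b₀ = rr ∧ cm (c p))) →
      (∃ (e : Fin m × Fin 2 → κ) (b : Fin m → ℂ → ℂ → ℝ), Function.Injective e ∧ (∀ x, e x ∈ S) ∧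
      (∀ x ∈ S, ∃ y, e y = x) ∧
      (∀ l, c (e (l, 0)) = c (e (l, 1)) ∧ (b l = dt ∨ (b l = rr ∧ cm (c (e (l, 0)))))) ∧
      f = fun z => ∏ l, b l (z (e (l, 0))) (z (e (l, 1)))) →
      ∃ (e : Fin (m + 1) × Fin 2 → κ) (b : Fin (m + 1) → ℂ → ℂ → ℝ), Function.Injective e ∧
      (∀ x, e x ∈ insert p (insert q S)) ∧
      (∀ x ∈ insert p (insert q S), ∃ y, e y = x) ∧
      (∀ l, c (e (l, 0)) = c (e (l, 1)) ∧ (b l = dt ∨ (b l = rr ∧ cm (c (e (l, 0)))))) ∧
      (fun z => b₀ (z p) (z q) * f z) = fun z => ∏ l, b l (z (e (l, 0))) (z (e (l, 1))) := by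
    rintro m S f p q b₀ hp hq hpq hc hb ⟨e, b, he, heS, hSe, hcb, rfl⟩
    refine ⟨fun x => Fin.cases (if x.2 = 0 then p else q) (fun l => e (l, x.2)) x.1,
      Fin.cons b₀ b, ?_, ?_, ?_, ?_, ?_⟩
    · rintro ⟨l, s⟩ ⟨l', s'⟩ hll
      refine Fin.cases ?_ (fun l => ?_) l hll <;> refine Fin.cases ?_ (fun l' => ?_) l'
      · intro h
        simp only [Fin.cases_zero] at h
        have : s = s' := by
          fin_cases s <;> fin_cases s'
          · rfl
          · exact absurd (by simpa using h) hpq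
          · exact absurd (by simpa using h.symm) hpq
          · rfl
        rw [this]
      · intro h
        simp only [Fin.cases_zero, Fin.cases_succ] at h
        exfalso
        have h1 := heS (l', s')
        rw [← h] at h1
        split_ifs at h1
        · exact hp h1
        · exact hq h1
      · intro h
        simp only [Fin.cases_zero, Fin.cases_succ] at h
        exfalso
        have h1 := heS (l, s)
        rw [h] at h1
        split_ifs at h1
        · exact hp h1
        · exact hq h1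
      · intro h
        simp only [Fin.cases_succ] at h
        have h1 := he h
        rw [Prod.mk.injEq] at h1
        rw [h1.1, h1.2]
    · rintro ⟨l, s⟩
      refine Fin.cases ?_ (fun l => ?_) l
      · simp only [Fin.cases_zero]
        split_ifs
        · exact Finset.mem_insert_self _ _
        · exact Finset.mem_insert_of_mem (Finset.mem_insert_self _ _)
      · simp only [Fin.cases_succ]
        exact Finset.mem_insert_of_mem (Finset.mem_insert_of_mem (heS _))
    · intro x hx
      rcases Finset.mem_insert.1 hx with rfl | hx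
      · exact ⟨(0, 0), by simp⟩
      rcases Finset.mem_insert.1 hx with rfl | hx
      · exact ⟨(0, 1), by simp⟩
      obtain ⟨⟨l, s⟩, hy⟩ := hSe x hx
      exact ⟨(l.succ, s), by simpa using hy⟩
    · intro l
      refine Fin.cases ?_ (fun l => ?_) l
      · simpa using ⟨hc, hb⟩
      · simpa using hcb l
    · funext z
      rw [Fin.prod_univ_succ]
      simp
  induction h with
  | nil =>
    refine ⟨fun x => x.1.elim0, fun l => l.elim0, fun x => x.1.elim0, fun x => x.1.elim0,
      fun x hx => absurd hx (Finset.notMem_empty x), fun l => l.elim0, ?_⟩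
    funext z
    simp
  | det m S f p q hf hp hq hpq hc ih => exact key m S f p q dt hp hq hpq hc (Or.inl rfl) ih
  | re m S f p q hf hp hq hpq hc hcm ih =>
    exact key m S f p q rr hp hq hpq hc (Or.inr ⟨rfl, hcm⟩) ih

end PM

variable {T : Type*} [AddCommGroup T] [Module ℂ T] {I : Type*} [Fintype I] [DecidableEq I]
  (e : Basis I ℂ T) {Q : Type*} [DecidableEq Q] (cl : I → Q) (cm : Q → Prop)

/-- The action of an element of `sl(2)` on the coordinates of a class. -/
def Ysl (q : Q) (a b : ℂ) (u : T) : T :=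
  ∑ k, if cl k = q then (dt a (e.repr u k) • b + dt b (e.repr u k) • a) • e k else 0

/-- The action of an element of `u(1)` on the coordinates of a class. -/
def Yu (q : Q) (u : T) : T :=
  ∑ k, if cl k = q then (Complex.I * e.repr u k) • e k else 0

theorem Ysl_smul (q : Q) (a b z : ℂ) (k : I) : Ysl e cl q a b (z • e k) =
    if cl k = q then (dt a z • b + dt b z • a) • e k else 0 := by
  unfold Ysl
  rw [Finset.sum_eq_single k]
  · simp
  · intro l _ hl
    rw [map_smul, Basis.repr_self, Finsupp.smul_apply, Finsupp.single_eq_of_ne hl, smul_zero]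
    simp [dt]
  · intro h
    exact absurd (Finset.mem_univ _) h

theorem Yu_smul (q : Q) (z : ℂ) (k : I) : Yu e cl q (z • e k) =
    if cl k = q then (Complex.I * z) • e k else 0 := by
  unfold Yu
  rw [Finset.sum_eq_single k]
  · simp
  · intro l _ hl
    rw [map_smul, Basis.repr_self, Finsupp.smul_apply, Finsupp.single_eq_of_ne hl, smul_zero]
    simp
  · intro h
    exact absurd (Finset.mem_univ _) h

variable {m : ℕ}

/-- **The first fundamental theorem for forms on a complex vector space.** -/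
theorem core (ℬ : Submodule ℝ (T →ₗ[ℝ] T →ₗ[ℝ] ℝ))
    (hdt : ∀ k l, cl k = cl l → ∃ B ∈ ℬ, ∀ u v, B u v = dt (e.repr u k) (e.repr v l))
    (hrr : ∀ k l, cl k = cl l → cm (cl k) → ∃ B ∈ ℬ, ∀ u v, B u v = rr (e.repr u k) (e.repr v l))
    (Φ : MultilinearMap ℝ (fun _ : Fin m × Fin 2 => T) ℝ)
    (hsl : ∀ q, ¬ cm q → ∀ (a b : ℂ) (u : Fin m × Fin 2 → T),
      ∑ p, Φ (update u p (Ysl e cl q a b (u p))) = 0)
    (hu : ∀ q, cm q → ∀ u : Fin m × Fin 2 → T, ∑ p, Φ (update u p (Yu e cl q (u p))) = 0) :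
    (Φ : (Fin m × Fin 2 → T) → ℝ) ∈ Submodule.span ℝ {f | ∃ (σ : Equiv.Perm (Fin m × Fin 2))
      (B : Fin m → (T →ₗ[ℝ] T →ₗ[ℝ] ℝ)), (∀ l, B l ∈ ℬ) ∧
        f = fun u => ∏ l, B l (u (σ (l, 0))) (u (σ (l, 1)))} := by
  classical
  -- the components
  let Ft : (Fin m × Fin 2 → I) → (Fin m × Fin 2 → ℂ) → ℝ := fun t z => Φ fun p => z p • e (t p)
  have hupd : ∀ (t : Fin m × Fin 2 → I) (z : Fin m × Fin 2 → ℂ) (p : Fin m × Fin 2) (x : ℂ),
      (fun p' => update z p x p' • e (t p')) = update (fun p' => z p' • e (t p')) p (x • e (t p)) := by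
    intro t z p x
    funext p'
    by_cases h : p' = p
    · subst h
      rw [update_self, update_self]
    · rw [update_of_ne h, update_of_ne h]
  have hML : ∀ t, ML Finset.univ (Ft t) := by
    intro t
    refine ⟨fun p _ z a b x y => ?_, fun p hp => absurd (Finset.mem_univ _) hp⟩
    simp only [Ft, hupd]
    rw [add_smul, smul_assoc, smul_assoc, Φ.map_update_add, Φ.map_update_smul,
      Φ.map_update_smul, smul_eq_mul, smul_eq_mul]
  have hIv : ∀ t, Iv (fun p => cl (t p)) cm Finset.univ (Ft t) := by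
    intro t
    refine ⟨fun q hq a b z => ?_, fun q hq z => ?_⟩
    · have h1 := hsl q hq a b (fun p => z p • e (t p))
      rw [Finset.sum_filter]
      refine Eq.trans (Finset.sum_congr rfl fun p _ => ?_) h1
      rw [Ysl_smul]
      by_cases h : cl (t p) = q
      · rw [if_pos h, if_pos h, ← hupd]
        exact ((hML t).lin p (Finset.mem_univ _) z _ _ _ _).symm
      · rw [if_neg h, if_neg h, Φ.map_update_zero]
    · have h1 := hu q hq (fun p => z p • e (t p))
      rw [Finset.sum_filter]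
      refine Eq.trans (Finset.sum_congr rfl fun p _ => ?_) h1
      rw [Yu_smul]
      by_cases h : cl (t p) = q
      · rw [if_pos h, if_pos h, ← hupd]
      · rw [if_neg h, if_neg h, Φ.map_update_zero]
  -- the decomposition
  have hdec : (Φ : (Fin m × Fin 2 → T) → ℝ) =
      ∑ t : Fin m × Fin 2 → I, fun u => Ft t (fun p => e.repr (u p) (t p)) := by
    funext u
    rw [Finset.sum_apply]
    have h1 : u = fun p => ∑ k, e.repr (u p) k • e k := by
      funext p
      rw [e.sum_repr]
    conv_lhs => rw [h1]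
    rw [MultilinearMap.map_sum]
  rw [hdec]
  refine Submodule.sum_mem _ fun t _ => ?_
  have h2 := fft (fun p => cl (t p)) cm m Finset.univ (Ft t) (by simp [mul_comm]) (hML t) (hIv t)
  -- the pull back
  let L : ((Fin m × Fin 2 → ℂ) → ℝ) →ₗ[ℝ] ((Fin m × Fin 2 → T) → ℝ) :=
    { toFun := fun f u => f (fun p => e.repr (u p) (t p))
      map_add' := fun _ _ => rfl
      map_smul' := fun _ _ => rfl }
  have h3 : L (Ft t) ∈ Submodule.map L (Submodule.span ℝ
      {f | PM (fun p => cl (t p)) cm m Finset.univ f}) := Submodule.mem_map_of_mem h2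
  rw [Submodule.map_span] at h3
  refine Submodule.span_mono ?_ h3
  rintro _ ⟨f, hf, rfl⟩
  obtain ⟨ee, b, hinj, -, -, hcb, rfl⟩ := hf.exists_fun
  let σ : Equiv.Perm (Fin m × Fin 2) :=
    Equiv.ofBijective ee (Finite.injective_iff_bijective.1 hinj)
  have hB : ∀ l, ∃ B ∈ ℬ, ∀ u v, B u v =
      b l (e.repr u (t (ee (l, 0)))) (e.repr v (t (ee (l, 1)))) := by
    intro l
    obtain ⟨h4, h5 | ⟨h5, h6⟩⟩ := hcb l
    · rw [h5]
      exact hdt _ _ h4
    · rw [h5]
      exact hrr _ _ h4 h6
  choose B hB1 hB2 using hB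
  refine ⟨σ, B, hB1, ?_⟩
  funext u
  change ∏ l, b l (e.repr (u (ee (l, 0))) (t (ee (l, 0)))) (e.repr (u (ee (l, 1))) (t (ee (l, 1))))
    = _
  refine Finset.prod_congr rfl fun l _ => ?_
  rw [hB2]
  rfl

end Pool.Agent.Y102.FT
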