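import Pool.Agent.H86.CMLib.Y102.AV5

set_option autoImplicit false
set_option linter.unusedSectionVars false

/-!
# Abelian varieties with many symmetric endomorphisms: the Lefschetz classes
-/

open Module Function

noncomputable section

namespace Pool.Agent.Y102

open Pool.Agent.W516.DR Pool.Agent.H204R3.GP Pool.Agent.W516.KC Pool.Agent.H204R3.SP FT

section Act

variable {g : ℕ} (e : Basis (Fin g) ℂ (Fin g → ℂ)) {Q : Type} [DecidableEq Q] (cl : Fin g → Q)

theorem repr_real_smul (c : ℝ) (u : Fin g → ℂ) (k : Fin g) :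
    e.repr (c • u) k = c * e.repr u k := by
  have h1 : c • u = (c : ℂ) • u := rfl
  rw [h1, map_smul, Finsupp.smul_apply, smul_eq_mul]

/-- the action of `sl(2)` as a linear map -/
def YslL (q : Q) (a b : ℂ) : (Fin g → ℂ) →ₗ[ℝ] (Fin g → ℂ) where
  toFun := Ysl e cl q a b
  map_add' u v := by
    unfold Ysl
    rw [← Finset.sum_add_distrib]
    refine Finset.sum_congr rfl fun k _ => ?_
    split_ifs
    · rw [← add_smul, map_add, Finsupp.add_apply]
      congr 1
      simp only [dt, Complex.add_re, Complex.add_im, Complex.real_smul]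
      push_cast
      ring
    · rw [add_zero]
  map_smul' c u := by
    unfold Ysl
    rw [RingHom.id_apply, Finset.smul_sum]
    refine Finset.sum_congr rfl fun k _ => ?_
    split_ifs
    · have h2 : ∀ x : ℂ, c • (x • e k) = (c : ℂ) • (x • e k) := fun _ => rfl
      rw [h2, smul_smul, repr_real_smul]
      congr 1
      simp only [dt, Complex.real_smul, Complex.mul_re, Complex.mul_im, Complex.ofReal_re,
        Complex.ofReal_im]
      push_cast
      ring
    · rw [smul_zero]

/-- the action of `u(1)` as a linear map -/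
def YuL (q : Q) : (Fin g → ℂ) →ₗ[ℝ] (Fin g → ℂ) where
  toFun := Yu e cl q
  map_add' u v := by
    unfold Yu
    rw [← Finset.sum_add_distrib]
    refine Finset.sum_congr rfl fun k _ => ?_
    split_ifs
    · rw [← add_smul, map_add, Finsupp.add_apply, mul_add]
    · rw [add_zero]
  map_smul' c u := by
    unfold Yu
    rw [RingHom.id_apply, Finset.smul_sum]
    refine Finset.sum_congr rfl fun k _ => ?_
    split_ifs
    · have h2 : ∀ x : ℂ, c • (x • e k) = (c : ℂ) • (x • e k) := fun _ => rfl
      rw [h2, smul_smul, repr_real_smul]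
      congr 1
      ring
    · rw [smul_zero]

theorem YslL_apply (q : Q) (a b : ℂ) (u : Fin g → ℂ) : YslL e cl q a b u = Ysl e cl q a b u := rfl

theorem YuL_apply (q : Q) (u : Fin g → ℂ) : YuL e cl q u = Yu e cl q u := rfl

theorem repr_Ysl (q : Q) (a b : ℂ) (u : Fin g → ℂ) (k : Fin g) : e.repr (Ysl e cl q a b u) k =
    if cl k = q then (dt a (e.repr u k) • b + dt b (e.repr u k) • a) else 0 := by
  unfold Ysl
  rw [map_sum, Finsupp.finsetSum_apply, Finset.sum_eq_single k]
  · split_ifs
    · rw [repr_smul_self, if_pos rfl]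
    · rw [map_zero, Finsupp.zero_apply]
  · intro l _ hl
    split_ifs
    · rw [repr_smul_self, if_neg (Ne.symm hl)]
    · rw [map_zero, Finsupp.zero_apply]
  · intro h
    exact absurd (Finset.mem_univ _) h

theorem repr_Yu (q : Q) (u : Fin g → ℂ) (k : Fin g) : e.repr (Yu e cl q u) k =
    if cl k = q then Complex.I * e.repr u k else 0 := by
  unfold Yu
  rw [map_sum, Finsupp.finsetSum_apply, Finset.sum_eq_single k]
  · split_ifs
    · rw [repr_smul_self, if_pos rfl]
    · rw [map_zero, Finsupp.zero_apply]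
  · intro l _ hl
    split_ifs
    · rw [repr_smul_self, if_neg (Ne.symm hl)]
    · rw [map_zero, Finsupp.zero_apply]
  · intro h
    exact absurd (Finset.mem_univ _) h

end Act

namespace AbVar

variable {g : ℕ} {A : AbVar g} {C : Submodule ℚ (Module.End ℚ A.H1)} (hC : A.EndAlg C)
  {e : Basis (Fin g) ℂ (Fin g → ℂ)} (he : Adapted C e)
  (hn : ∀ k l, Rel A C e k l → El e k l 1 ∈ A.CR C)

/-- the products of the forms given by the endomorphisms -/
def LefProd (A : AbVar g) (C : Submodule ℚ (Module.End ℚ A.H1)) (m : ℕ) :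
    Set (MultilinearMap ℚ (fun _ : Fin m × Fin 2 => A.H1) ℚ) :=
  {ψ | ∃ (σ : Equiv.Perm (Fin m × Fin 2)) (Q : Fin m → Module.End ℚ A.H1), (∀ l, Q l ∈ C) ∧
    ∀ v, ψ v = ∏ l, A.om (Q l (v (σ (l, 0)))) (v (σ (l, 1)))}

theorem LefProd_hodge (hH : ∀ Q ∈ C, IsHodgeEnd (A.per : A.H1 →+ (Fin g → ℂ)) Q) {m : ℕ}
    {ψ : MultilinearMap ℚ (fun _ : Fin m × Fin 2 => A.H1) ℚ} (h : ψ ∈ LefProd A C m) :
    IsProductOfHodgeBilinear (A.per : A.H1 →+ (Fin g → ℂ)) ψ := by
  obtain ⟨σ, Q, hQ, h⟩ := h
  refine ⟨σ, fun l => A.om.comp (Q l), fun l => ?_, h⟩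
  obtain ⟨P', hP'⟩ := hH _ (hQ l)
  refine ⟨A.E.comp (P'.restrictScalars ℝ), fun x y => ?_, fun z hz u v => ?_⟩
  · have h1 : P' (A.per x) = A.per (Q l x) := hP' x
    rw [LinearMap.comp_apply, LinearMap.comp_apply, LinearMap.restrictScalars_apply]
    change A.E (P' (A.per x)) (A.per y) = _
    rw [h1, ← om_coe]
  · rw [LinearMap.comp_apply, LinearMap.comp_apply, LinearMap.restrictScalars_apply,
      LinearMap.restrictScalars_apply, P'.map_smul, A.E_unit z hz]

/-- A rational form whose real extension is a real combination of products is a rational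
combination. -/
theorem descent {m : ℕ} (φ : MultilinearMap ℚ (fun _ : Fin m × Fin 2 => A.H1) ℚ)
    (h : (A.Phi φ : (Fin m × Fin 2 → (Fin g → ℂ)) → ℝ) ∈ Submodule.span ℝ
      {f | ∃ (σ : Equiv.Perm (Fin m × Fin 2))
        (B : Fin m → ((Fin g → ℂ) →ₗ[ℝ] (Fin g → ℂ) →ₗ[ℝ] ℝ)),
        (∀ l, B l ∈ Submodule.span ℝ {B | ∃ Q ∈ C, B = A.E.comp (A.ext Q)}) ∧
        f = fun u => ∏ l, B l (u (σ (l, 0))) (u (σ (l, 1)))}) :
    φ ∈ Submodule.span ℚ (LefProd A C m) := by
  classical
  -- the functions on the rational homology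
  let R : ((Fin m × Fin 2 → (Fin g → ℂ)) → ℝ) →ₗ[ℝ] ((Fin m × Fin 2 → A.H1) → ℝ) :=
    { toFun := fun f v => f (fun p => A.per (v p))
      map_add' := fun _ _ => rfl
      map_smul' := fun _ _ => rfl }
  let S : Set ((Fin m × Fin 2 → A.H1) → ℝ) :=
    {f | ∃ ψ ∈ LefProd A C m, f = fun v => ((ψ v : ℚ) : ℝ)}
  have hR : R (A.Phi φ) ∈ Submodule.span ℝ S := by
    have h1 : R (A.Phi φ) ∈ Submodule.map R (Submodule.span ℝ
      {f | ∃ (σ : Equiv.Perm (Fin m × Fin 2))
        (B : Fin m → ((Fin g → ℂ) →ₗ[ℝ] (Fin g → ℂ) →ₗ[ℝ] ℝ)),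
        (∀ l, B l ∈ Submodule.span ℝ {B | ∃ Q ∈ C, B = A.E.comp (A.ext Q)}) ∧
        f = fun u => ∏ l, B l (u (σ (l, 0))) (u (σ (l, 1)))}) := Submodule.mem_map_of_mem h
    rw [Submodule.map_span, ] at h1
    refine (Submodule.span_le.2 ?_) h1
    rintro _ ⟨_, ⟨σ, B, hB, rfl⟩, rfl⟩
    -- expand the product
    have key : ∀ (s : Finset (Fin m)) (G : ((Fin m × Fin 2 → A.H1) → ℝ)),
        (∀ B : Fin m → ((Fin g → ℂ) →ₗ[ℝ] (Fin g → ℂ) →ₗ[ℝ] ℝ), (∀ l ∈ s, ∃ Q ∈ C,
          B l = A.E.comp (A.ext Q)) → (∀ l ∉ s, B l ∈ Submodule.span ℝ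
            {B | ∃ Q ∈ C, B = A.E.comp (A.ext Q)}) →
          (fun v : Fin m × Fin 2 → A.H1 => ∏ l, B l (A.per (v (σ (l, 0)))) (A.per (v (σ (l, 1)))))
            ∈ Submodule.span ℝ S) := by
      intro s G
      induction hs : (Finset.univ \ s).card generalizing s with
      | zero =>
        intro B hB1 _
        have hsu : ∀ l, l ∈ s := by
          intro l
          by_contra hl
          have : l ∈ Finset.univ \ s := Finset.mem_sdiff.2 ⟨Finset.mem_univ _, hl⟩
          rw [Finset.card_eq_zero.1 hs] at this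
          exact Finset.notMem_empty _ this
        choose Q hQ1 hQ2 using fun l => hB1 l (hsu l)
        refine Submodule.subset_span ⟨mmG σ (fun l => A.om.comp (Q l)), ⟨σ, Q, hQ1, fun v => ?_⟩, ?_⟩
        · rw [mmG_apply]
          rfl
        · funext v
          rw [mmG_apply]
          push_cast
          refine Finset.prod_congr rfl fun l _ => ?_
          rw [hQ2 l, LinearMap.comp_apply, ext_apply, ← om_coe]
          rfl
      | succ n ih =>
        intro B hB1 hB2
        obtain ⟨l₀, hl₀⟩ : (Finset.univ \ s).Nonempty := Finset.card_pos.1 (by omega)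
        have hl₀s : l₀ ∉ s := (Finset.mem_sdiff.1 hl₀).2
        have hcard : (Finset.univ \ insert l₀ s).card = n := by
          rw [Finset.sdiff_insert, Finset.card_erase_of_mem hl₀, hs]
          rfl
        have h2 : ∀ b ∈ Submodule.span ℝ {B | ∃ Q ∈ C, B = A.E.comp (A.ext Q)},
            (fun v : Fin m × Fin 2 → A.H1 => ∏ l, (update B l₀ b) l (A.per (v (σ (l, 0))))
              (A.per (v (σ (l, 1))))) ∈ Submodule.span ℝ S := by
          have hprod : ∀ b, (fun v : Fin m × Fin 2 → A.H1 => ∏ l, (update B l₀ b) l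
              (A.per (v (σ (l, 0)))) (A.per (v (σ (l, 1))))) =
              fun v => b (A.per (v (σ (l₀, 0)))) (A.per (v (σ (l₀, 1)))) *
                ∏ l ∈ Finset.univ.erase l₀, B l (A.per (v (σ (l, 0)))) (A.per (v (σ (l, 1)))) := by
            intro b
            funext v
            rw [← Finset.mul_prod_erase _ _ (Finset.mem_univ l₀), update_self]
            congr 1
            exact Finset.prod_congr rfl fun l hl => by rw [update_of_ne (Finset.ne_of_mem_erase hl)]
          intro b hb
          induction hb using Submodule.span_induction with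
          | mem b hb =>
            refine ih (insert l₀ s) hcard _ (fun l hl => ?_) fun l hl => ?_
            · by_cases h : l = l₀
              · subst h
                rw [update_self]
                exact hb
              · rw [update_of_ne h]
                exact hB1 l ((Finset.mem_insert.1 hl).resolve_left h)
            · have h : l ≠ l₀ := fun h => hl (h ▸ Finset.mem_insert_self _ _)
              rw [update_of_ne h]
              exact hB2 l fun h' => hl (Finset.mem_insert_of_mem h')
          | zero =>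
            rw [hprod]
            have h3 : (fun v : Fin m × Fin 2 → A.H1 =>
                (0 : (Fin g → ℂ) →ₗ[ℝ] (Fin g → ℂ) →ₗ[ℝ] ℝ) (A.per (v (σ (l₀, 0))))
                (A.per (v (σ (l₀, 1)))) *
                ∏ l ∈ Finset.univ.erase l₀, B l (A.per (v (σ (l, 0)))) (A.per (v (σ (l, 1))))) =
                0 := by
              funext v
              simp
            rw [h3]
            exact Submodule.zero_mem _
          | add a b _ _ ha hb =>
            rw [hprod] at ha hb ⊢
            have h3 := Submodule.add_mem _ ha hb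
            refine (congrArg (· ∈ Submodule.span ℝ S) ?_).mp h3
            funext v
            simp [add_mul]
          | smul c a _ ha =>
            rw [hprod] at ha ⊢
            have h3 := Submodule.smul_mem _ c ha
            refine (congrArg (· ∈ Submodule.span ℝ S) ?_).mp h3
            funext v
            simp [mul_assoc]
        have h3 := h2 (B l₀) (hB2 l₀ hl₀s)
        rwa [update_eq_self] at h3
    exact key ∅ 0 B (fun l hl => absurd hl (Finset.notMem_empty l)) fun l _ => hB l
  -- descent to the rational numbers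
  obtain ⟨lam, hlam⟩ : ∃ lam : ℝ →ₗ[ℚ] ℚ, lam 1 = 1 := by
    obtain ⟨G, hG⟩ := exists_lin (F := ℚ) (v := fun _ : Unit => (1 : ℝ)) (by
      rw [linearIndependent_unique_iff]
      exact one_ne_zero) (fun _ => (1 : ℚ))
    exact ⟨G, hG ()⟩
  let Lm : ((Fin m × Fin 2 → A.H1) → ℝ) →ₗ[ℚ] ((Fin m × Fin 2 → A.H1) → ℚ) :=
    { toFun := fun f v => lam (f v)
      map_add' := fun _ _ => by funext v; exact map_add lam _ _
      map_smul' := fun c f => by funext v; exact map_smul lam c _ }
  let inc : MultilinearMap ℚ (fun _ : Fin m × Fin 2 => A.H1) ℚ →ₗ[ℚ]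
      ((Fin m × Fin 2 → A.H1) → ℚ) :=
    { toFun := fun ψ v => ψ v
      map_add' := fun _ _ => rfl
      map_smul' := fun _ _ => rfl }
  have hinc : Function.Injective inc := fun ψ ψ' h => MultilinearMap.ext fun v => congrFun h v
  have h2 : ∀ f ∈ Submodule.span ℝ S, Lm f ∈ Submodule.map inc (Submodule.span ℚ (LefProd A C m)) := by
    intro f hf
    have key : ∀ r : ℝ, Lm (r • f) ∈ Submodule.map inc (Submodule.span ℚ (LefProd A C m)) := by
      induction hf using Submodule.span_induction with
      | mem f hf =>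
        obtain ⟨ψ, hψ, rfl⟩ := hf
        intro r
        refine ⟨lam r • ψ, Submodule.smul_mem _ _ (Submodule.subset_span hψ), ?_⟩
        funext v
        change lam r * ψ v = lam (r * ((ψ v : ℚ) : ℝ))
        have h3 : r * ((ψ v : ℚ) : ℝ) = (ψ v) • r := by rw [Rat.smul_def, mul_comm]
        rw [h3, map_smul, smul_eq_mul, mul_comm]
      | zero =>
        intro r
        rw [smul_zero, map_zero]
        exact Submodule.zero_mem _
      | add a b _ _ ha hb =>
        intro r
        rw [smul_add, map_add]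
        exact Submodule.add_mem _ (ha r) (hb r)
      | smul c a _ ha =>
        intro r
        rw [smul_smul]
        exact ha _
    have h3 := key 1
    rwa [one_smul] at h3
  obtain ⟨ψ, hψ, hψ'⟩ := h2 _ hR
  have h3 : ψ = φ := by
    apply hinc
    rw [hψ']
    funext v
    change lam (A.Phi φ (fun p => A.per (v p))) = φ v
    rw [Phi_per]
    have h4 : ((φ v : ℚ) : ℝ) = (φ v) • (1 : ℝ) := by rw [Rat.smul_def, mul_one]
    rw [h4, map_smul, hlam, smul_eq_mul, mul_one]
  rwa [← h3]

include hC he hn in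
/-- **Lefschetz classes**: a form killed by all skew-symmetric endomorphisms of the homology which
commute with the endomorphisms is a combination of products of forms given by endomorphisms. -/
theorem lefschetz {m : ℕ} (φ : MultilinearMap ℚ (fun _ : Fin m × Fin 2 => A.H1) ℚ)
    (hφ : ∀ Z : Module.End ℚ A.H1, IsSkew A.om Z → (∀ Q ∈ C, Z * Q = Q * Z) → Kills Z φ) :
    φ ∈ Submodule.span ℚ (LefProd A C m) := by
  classical
  let s : Setoid (Fin g) := ⟨Rel A C e, rel_equiv hC he⟩
  let cl : Fin g → Fin g := fun k => (Quotient.mk s k).out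
  have hcl : ∀ k l, cl k = cl l ↔ Rel A C e k l := by
    intro k l
    constructor
    · intro h
      have h1 : Quotient.mk s k = Quotient.mk s l := Quotient.out_injective h
      exact Quotient.exact h1
    · intro h
      exact congrArg Quotient.out (Quotient.sound h : Quotient.mk s k = Quotient.mk s l)
  let cm : Fin g → Prop := fun q => ∃ k, cl k = q ∧ ∃ x : ℂ, x.im ≠ 0 ∧ El e k k x ∈ A.CR C
  -- the links
  have hself : ∀ k l x, cl k = cl l → El e k l x ∈ A.CR C → El e k k x ∈ A.CR C := by
    intro k l x hkl h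
    have h1 := CR_mul hC (hn l k ((hcl _ _).1 hkl.symm)) h
    rwa [El_comp, one_mul] at h1
  have hmove : ∀ k l x, cl k = cl l → El e k k x ∈ A.CR C → El e l l x ∈ A.CR C := by
    intro k l x hkl h
    have h1 := CR_mul hC (hn k l ((hcl _ _).1 hkl))
      (CR_mul hC h (hn l k ((hcl _ _).1 hkl.symm)))
    rwa [El_comp, El_comp, one_mul, mul_one] at h1
  have hreal : ∀ k l x, ¬ cm (cl k) → El e k l x ∈ A.CR C → x ≠ 0 → x.im = 0 := by
    intro k l x hk h hx
    by_contra him
    have hkl : cl k = cl l := (hcl k l).2 ⟨x, hx, h⟩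
    exact hk ⟨k, rfl, x, him, hself k l x hkl h⟩
  have hI : ∀ k l, cl k = cl l → cm (cl k) → El e k l Complex.I ∈ A.CR C := by
    rintro k l hkl ⟨j, hj, x, hx, h⟩
    have h1 := hmove j k x hj h
    have h2 : El e k k Complex.I ∈ A.CR C := by
      have h3 := (A.CR C).smul_mem (x.im)⁻¹
        ((A.CR C).add_mem h1 ((A.CR C).smul_mem (-x.re) (proj_mem hC he k)))
      rw [El_smul, El_add, El_smul, mul_one] at h3
      have h4 : (((x.im)⁻¹ : ℝ) : ℂ) * (x + ((-x.re : ℝ) : ℂ)) = Complex.I := by
        have h5 : x + ((-x.re : ℝ) : ℂ) = x.im * Complex.I := by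
          apply Complex.ext <;> simp
        rw [h5, ← mul_assoc, ← Complex.ofReal_mul, inv_mul_cancel₀ hx, Complex.ofReal_one,
          one_mul]
      rwa [h4] at h3
    have h3 := CR_mul hC (hn k l ((hcl _ _).1 hkl)) h2
    rwa [El_comp, one_mul] at h3
  -- commutation
  have hcommX : ∀ (Y : (Fin g → ℂ) →ₗ[ℝ] (Fin g → ℂ)), (∀ k l x, El e k l x ∈ A.CR C → ∀ u,
      Y (El e k l x u) = El e k l x (Y u)) → ∀ X ∈ A.CR C, ∀ u, Y (X u) = X (Y u) := by
    intro Y hY X hX u
    have h1 := sum_El e (fun z u => CR_complex hC hX z u)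
    rw [h1]
    simp only [LinearMap.sum_apply, map_sum]
    exact Finset.sum_congr rfl fun k _ => Finset.sum_congr rfl fun l _ =>
      hY k l _ (entry_mem hC he hX k l) u
  have hkill : ∀ (Y : (Fin g → ℂ) →ₗ[ℝ] (Fin g → ℂ)), (∀ k l x, El e k l x ∈ A.CR C → ∀ u,
      Y (El e k l x u) = El e k l x (Y u)) → (∀ u v, A.E (Y u) v + A.E u (Y v) = 0) →
      ∀ u : Fin m × Fin 2 → (Fin g → ℂ), ∑ p, A.Phi φ (update u p (Y (u p))) = 0 := by
    intro Y hY hsk
    refine A.Phi_kills φ Y fun f v => ?_
    refine hφ (A.cmpE f Y) (fun u v => A.cmpE_skew f hsk u v) (fun Q hQ => ?_) v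
    refine A.cmpE_comm f fun u => ?_
    exact hcommX Y hY _ (Submodule.subset_span ⟨Q, hQ, rfl⟩) u
  apply descent φ
  refine FT.core e cl cm _ (fun k l hkl => ?_) (fun k l hkl hk => ?_) (A.Phi φ)
    (fun q hq a b u => ?_) fun q hq u => ?_
  · -- the determinant
    have hmem : ∀ X ∈ A.CR C, A.E.comp X ∈
        Submodule.span ℝ {B | ∃ Q ∈ C, B = A.E.comp (A.ext Q)} := by
      intro X hX
      unfold CR at hX
      induction hX using Submodule.span_induction with
      | mem X hX =>
        obtain ⟨Q, hQ, rfl⟩ := hX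
        exact Submodule.subset_span ⟨Q, hQ, rfl⟩
      | zero => rw [LinearMap.comp_zero]; exact Submodule.zero_mem _
      | add a b _ _ ha hb => rw [LinearMap.comp_add]; exact Submodule.add_mem _ ha hb
      | smul c a _ ha => rw [LinearMap.comp_smul]; exact Submodule.smul_mem _ _ ha
    have h1 := hmem _ (hn k l ((hcl _ _).1 hkl))
    have hpos := norm_pos' (A := A) (e := e) l
    refine ⟨_, Submodule.smul_mem _ (A.E (e l) (Complex.I • e l))⁻¹ h1, fun u v => ?_⟩
    rw [LinearMap.smul_apply, LinearMap.smul_apply, LinearMap.comp_apply, E_El he, one_mul,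
      smul_eq_mul, ← mul_assoc, inv_mul_cancel₀ hpos.ne', one_mul]
  · -- the real part
    have hmem : ∀ X ∈ A.CR C, A.E.comp X ∈
        Submodule.span ℝ {B | ∃ Q ∈ C, B = A.E.comp (A.ext Q)} := by
      intro X hX
      unfold CR at hX
      induction hX using Submodule.span_induction with
      | mem X hX =>
        obtain ⟨Q, hQ, rfl⟩ := hX
        exact Submodule.subset_span ⟨Q, hQ, rfl⟩
      | zero => rw [LinearMap.comp_zero]; exact Submodule.zero_mem _
      | add a b _ _ ha hb => rw [LinearMap.comp_add]; exact Submodule.add_mem _ ha hb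
      | smul c a _ ha => rw [LinearMap.comp_smul]; exact Submodule.smul_mem _ _ ha
    have h1 := hmem _ (hI k l hkl hk)
    have hpos := norm_pos' (A := A) (e := e) l
    refine ⟨_, Submodule.smul_mem _ (-(A.E (e l) (Complex.I • e l))⁻¹) h1, fun u v => ?_⟩
    rw [LinearMap.smul_apply, LinearMap.smul_apply, LinearMap.comp_apply, E_El he, smul_eq_mul]
    have h2 : dt (Complex.I * e.repr u k) (e.repr v l) = -rr (e.repr u k) (e.repr v l) := by
      simp only [dt, rr, Complex.mul_re, Complex.mul_im, Complex.I_re, Complex.I_im]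
      ring
    rw [h2]
    field_simp
  · -- `sl(2)`
    refine hkill (YslL e cl q a b) (fun k l x hx u => ?_) (fun u v => ?_) u
    · rw [YslL_apply, YslL_apply, El_apply, El_apply, Ysl_smul, repr_Ysl]
      by_cases hx0 : x = 0
      · subst hx0
        simp [dt]
      have hkl : cl k = cl l := (hcl k l).2 ⟨x, hx0, hx⟩
      by_cases hk : cl k = q
      · rw [if_pos (hkl ▸ hk), if_pos hk]
        have him := hreal k l x (hk ▸ hq) hx hx0
        congr 1
        simp only [dt, Complex.real_smul, Complex.mul_re, Complex.mul_im, him]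
        apply Complex.ext <;> simp [him] <;> ring
      · rw [if_neg (hkl ▸ hk), if_neg hk, mul_zero, zero_smul]
    · rw [YslL_apply, YslL_apply, E_expand he, E_expand he, ← Finset.sum_add_distrib]
      refine Finset.sum_eq_zero fun k _ => ?_
      rw [repr_Ysl, repr_Ysl]
      split_ifs
      · simp only [dt, Complex.add_re, Complex.add_im, Complex.smul_re, Complex.smul_im,
          smul_eq_mul]
        ring
      · simp [dt]
  · -- `u(1)`
    refine hkill (YuL e cl q) (fun k l x hx u => ?_) (fun u v => ?_) u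
    · rw [YuL_apply, YuL_apply, El_apply, El_apply, Yu_smul, repr_Yu]
      by_cases hx0 : x = 0
      · subst hx0
        simp
      have hkl : cl k = cl l := (hcl k l).2 ⟨x, hx0, hx⟩
      by_cases hk : cl k = q
      · rw [if_pos (hkl ▸ hk), if_pos hk]
        congr 1
        ring
      · rw [if_neg (hkl ▸ hk), if_neg hk, mul_zero, zero_smul]
    · rw [YuL_apply, YuL_apply, E_expand he, E_expand he, ← Finset.sum_add_distrib]
      refine Finset.sum_eq_zero fun k _ => ?_
      rw [repr_Yu, repr_Yu]
      split_ifs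
      · simp only [dt, Complex.mul_re, Complex.mul_im, Complex.I_re, Complex.I_im]
        ring
      · simp [dt]

end AbVar

end Pool.Agent.Y102
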