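import Pool.Agent.H86.CMLib.W516.RankTwo

set_option autoImplicit false
set_option linter.unusedSectionVars false

/-!
# Lie algebras acting with symmetric part of the bicommutant central: a direct factor
-/

open Module

noncomputable section

namespace Pool.Agent.Y102

open Pool.Agent.W516.KC Pool.Agent.H204R3.SP Pool.Agent.H204R3.GP

variable {k W : Type*} [Field k] [CharZero k] [AddCommGroup W] [Module k W] [FiniteDimensional k W]

/-- The version for a central idempotent. -/
theorem mem_of_idem (𝔥 : Submodule k (Module.End k W)) (hss : Semi 𝔥)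
    (hbr : ∀ X ∈ 𝔥, ∀ Y ∈ 𝔥, X * Y - Y * X ∈ 𝔥) (ω : W →ₗ[k] W →ₗ[k] k)
    (hsp : ∀ X ∈ 𝔥, IsSkew ω X) (hnd : ∀ u, (∀ v, ω u v = 0) → u = 0)
    (ε : Module.End k W) (hε : ε * ε = ε) (hεc : ∀ X ∈ 𝔥, X * ε = ε * X)
    (hεcc : CommComm 𝔥 ε) (hεs : ∀ u v, ω (ε u) v = ω u (ε v))
    (h2 : ∀ X : Module.End k W, ε * X = X → X * ε = X → CommComm 𝔥 X →
      (∀ u v, ω (X u) v = ω u (X v)) → ∀ Y ∈ 𝔥, Y * X = X * Y)
    (hc : ∀ Z : Module.End k W, ε * Z = Z → Z * ε = Z → IsSkew ω Z →
      (∀ X ∈ 𝔥, X * Z = Z * X) → CommComm 𝔥 Z → Z = 0)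
    {Z : Module.End k W} (hZ : IsSkew ω Z) (hZc : CommComm 𝔥 Z) (hZε : ε * Z = Z) :
    Z ∈ Submodule.span k {Y | ∃ A ∈ 𝔥, ∃ B ∈ 𝔥, Y = ε * (A * B - B * A)} := by
  classical
  let W' : Submodule k W := LinearMap.range ε
  let i : W' →ₗ[k] W := W'.subtype
  let π : W →ₗ[k] W' := ε.rangeRestrict
  have hiπ : ∀ w, i (π w) = ε w := fun w => rfl
  have hεi : ∀ w : W', ε (i w) = i w := by
    rintro ⟨w, u, rfl⟩
    exact congrArg (fun T : Module.End k W => T u) hε
  have hπi : ∀ w : W', π (i w) = w := fun w => Subtype.ext (hεi w)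
  have hi0 : ∀ {x y : W'}, i x = i y → x = y := fun h => Subtype.ext h
  have hcomm : ∀ X ∈ 𝔥, ∀ w, X (ε w) = ε (X w) := fun X hX w =>
    congrArg (fun T : Module.End k W => T w) (hεc X hX)
  have hPε : ∀ P : Module.End k W, (∀ X ∈ 𝔥, X * P = P * X) → ∀ w, ε (P w) = P (ε w) :=
    fun P hP w => congrArg (fun T : Module.End k W => T w) (hεcc P hP)
  let r : Module.End k W →ₗ[k] Module.End k W' :=
    { toFun := fun X => π ∘ₗ X ∘ₗ i
      map_add' := fun X Y => by
        refine LinearMap.ext fun w => ?_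
        simp
      map_smul' := fun c X => by
        refine LinearMap.ext fun w => ?_
        simp }
  have hr : ∀ X w, r X w = π (X (i w)) := fun X w => rfl
  let d : Module.End k W' → Module.End k W := fun X => i ∘ₗ X ∘ₗ π
  have hd : ∀ X w, d X w = i (X (π w)) := fun X w => rfl
  have hir : ∀ X ∈ 𝔥, ∀ w : W', i (r X w) = X (i w) := by
    intro X hX w
    rw [hr, hiπ, ← hcomm X hX, hεi]
  have hrπ : ∀ X ∈ 𝔥, ∀ w : W, r X (π w) = π (X w) := by
    intro X hX w
    rw [hr, hiπ, hcomm X hX]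
    exact hi0 (by rw [hiπ, hiπ, ← hiπ (X w), hεi])
  let 𝔥' : Submodule k (Module.End k W') := 𝔥.map r
  let ω' : W' →ₗ[k] W' →ₗ[k] k := ω.compl₁₂ i i
  have hω' : ∀ u v, ω' u v = ω (i u) (i v) := fun u v => rfl
  have hωε : ∀ (u : W') (v : W), ω (i u) v = ω' u (π v) := by
    intro u v
    rw [hω', hiπ, ← hεs, hεi]
  have hωε' : ∀ (u : W) (v : W'), ω u (i v) = ω' (π u) v := by
    intro u v
    rw [hω', hiπ, hεs, hεi]
  have hnd' : ∀ u, (∀ v, ω' u v = 0) → u = 0 := by
    intro u hu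
    apply hi0
    rw [map_zero]
    apply hnd
    intro v
    rw [hωε, hu]
  have hsp' : ∀ X ∈ 𝔥', IsSkew ω' X := by
    rintro _ ⟨X, hX, rfl⟩ u v
    rw [hω', hω', hir X hX, hir X hX]
    exact hsp X hX _ _
  have hbr' : ∀ X ∈ 𝔥', ∀ Y ∈ 𝔥', X * Y - Y * X ∈ 𝔥' := by
    rintro _ ⟨X, hX, rfl⟩ _ ⟨Y, hY, rfl⟩
    refine ⟨X * Y - Y * X, hbr X hX Y hY, ?_⟩
    refine LinearMap.ext fun w => hi0 ?_
    rw [hir _ (hbr X hX Y hY), LinearMap.sub_apply, LinearMap.sub_apply, map_sub,
      Module.End.mul_apply, Module.End.mul_apply, Module.End.mul_apply, Module.End.mul_apply,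
      hir X hX, hir Y hY, hir Y hY, hir X hX]
  have hss' : Semi 𝔥' := by
    intro U hU
    obtain ⟨V₁, hV₁, hcompl⟩ := hss (U.map i) (by
      rintro X hX _ ⟨u, hu, rfl⟩
      exact ⟨r X u, hU _ ⟨X, hX, rfl⟩ u hu, hir X hX u⟩)
    refine ⟨V₁.comap i, ?_, ?_⟩
    · rintro _ ⟨X, hX, rfl⟩ v hv
      rw [Submodule.mem_comap, hir X hX]
      exact hV₁ X hX _ hv
    · constructor
      · rw [Submodule.disjoint_def]
        intro x hx hx'
        have h1 := Submodule.disjoint_def.1 hcompl.disjoint (i x) ⟨x, hx, rfl⟩ hx'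
        exact hi0 (by rw [h1, map_zero])
      · rw [codisjoint_iff_le_sup]
        intro w _
        have h1 : i w ∈ U.map i ⊔ V₁ := by
          rw [hcompl.sup_eq_top]
          trivial
        obtain ⟨_, ⟨u, hu, rfl⟩, v, hv, huv⟩ := Submodule.mem_sup.1 h1
        refine Submodule.mem_sup.2 ⟨u, hu, w - u, ?_, by abel⟩
        rw [Submodule.mem_comap, map_sub, ← huv, add_sub_cancel_left]
        exact hv
  -- the commutants
  have hPr : ∀ P : Module.End k W, (∀ X ∈ 𝔥, X * P = P * X) → ∀ X' ∈ 𝔥', X' * r P = r P * X' := by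
    rintro P hP _ ⟨X, hX, rfl⟩
    refine LinearMap.ext fun w => hi0 ?_
    have h1 : X (P (i w)) = P (X (i w)) :=
      congrArg (fun T : Module.End k W => T (i w)) (hP X hX)
    rw [Module.End.mul_apply, Module.End.mul_apply, hir X hX, hr P, hr P, hiπ, hiπ, hir X hX,
      hcomm X hX, h1]
  have hPd : ∀ P' : Module.End k W', (∀ X' ∈ 𝔥', X' * P' = P' * X') →
      ∀ X ∈ 𝔥, X * d P' = d P' * X := by
    intro P' hP' X hX
    refine LinearMap.ext fun w => ?_
    have h1 : r X (P' (π w)) = P' (r X (π w)) :=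
      congrArg (fun T : Module.End k W' => T (π w)) (hP' _ ⟨X, hX, rfl⟩)
    rw [Module.End.mul_apply, Module.End.mul_apply, hd, hd, ← hir X hX, h1, hrπ X hX]
  have hcc : ∀ X' : Module.End k W', CommComm 𝔥' X' → CommComm 𝔥 (d X') := by
    intro X' hX' P hP
    refine LinearMap.ext fun w => ?_
    have h1 : X' (r P (π w)) = r P (X' (π w)) :=
      congrArg (fun T : Module.End k W' => T (π w)) (hX' _ (hPr P hP))
    rw [Module.End.mul_apply, Module.End.mul_apply, hd, hd]
    have h2 : π (P w) = r P (π w) := by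
      rw [hr, hiπ, ← hPε P hP]
      exact hi0 (by rw [hiπ, hiπ, ← hiπ (P w), hεi])
    have h3 : i (r P (X' (π w))) = P (i (X' (π w))) := by
      rw [hr, hiπ, hPε P hP, hεi]
    rw [h2, h1, h3]
  have hεd : ∀ X' : Module.End k W', ε * d X' = d X' := by
    intro X'
    refine LinearMap.ext fun w => ?_
    rw [Module.End.mul_apply, hd, hεi]
  have hdε : ∀ X' : Module.End k W', d X' * ε = d X' := by
    intro X'
    refine LinearMap.ext fun w => ?_
    rw [Module.End.mul_apply, hd, hd]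
    congr 2
    exact hi0 (by rw [hiπ, hiπ, ← hiπ w, hεi])
  have hcen' : CenterTrivial 𝔥' ω' := by
    intro Z' hZs hZc' hZcc
    have h1 : d Z' = 0 := by
      refine hc _ (hεd Z') (hdε Z') (fun u v => ?_) (hPd Z' hZc') (hcc Z' hZcc)
      rw [hd, hd, hωε, hωε']
      exact hZs _ _
    refine LinearMap.ext fun w => hi0 ?_
    have h2 := congrArg (fun T : Module.End k W => T (i w)) h1
    simp only [hd, hπi, LinearMap.zero_apply] at h2
    rw [h2, LinearMap.zero_apply, map_zero]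
  have h2' : ∀ X' : Module.End k W', CommComm 𝔥' X' → (∀ u v, ω' (X' u) v = ω' u (X' v)) →
      ∀ Y' ∈ 𝔥', Y' * X' = X' * Y' := by
    rintro X' hX' hXs _ ⟨Y, hY, rfl⟩
    have h1 := h2 (d X') (hεd X') (hdε X') (hcc X' hX') (fun u v => by
      rw [hd, hd, hωε, hωε', hXs]) Y hY
    refine LinearMap.ext fun w => hi0 ?_
    have h3 := congrArg (fun T : Module.End k W => T (i w)) h1
    simp only [Module.End.mul_apply, hd, hπi] at h3
    rw [Module.End.mul_apply, Module.End.mul_apply, hir Y hY, h3, hr]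
  -- the element
  have hZs' : IsSkew ω' (r Z) := by
    intro u v
    have h3 : ∀ w : W', i (r Z w) = Z (i w) := by
      intro w
      rw [hr, hiπ]
      exact congrArg (fun T : Module.End k W => T (i w)) hZε
    rw [hω', hω', h3, h3]
    exact hZ _ _
  have hZcc' : CommComm 𝔥' (r Z) := by
    intro P' hP'
    have h1 := hZc (d P') (hPd P' hP')
    refine LinearMap.ext fun w => ?_
    have h3 := congrArg (fun T : Module.End k W => π (T (i w))) h1
    simp only [Module.End.mul_apply, hd, hπi] at h3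
    rw [Module.End.mul_apply, Module.End.mul_apply, hr, hr]
    exact h3
  have h3 := mem_of_rank_two 𝔥' hss' hbr' ω' hsp' hcen' hnd' h2' hZs' hZcc'
  have h4 := perfect 𝔥' hss' hbr' ω' hsp' hcen' h3
  -- back
  let dL : Module.End k W' →ₗ[k] Module.End k W :=
    { toFun := fun X => d X
      map_add' := fun X Y => by
        refine LinearMap.ext fun w => ?_
        simp [hd]
      map_smul' := fun c X => by
        refine LinearMap.ext fun w => ?_
        simp [hd] }
  have h5 : dL (r Z) = Z := by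
    refine LinearMap.ext fun w => ?_
    change d (r Z) w = Z w
    rw [hd, hr, hiπ, hiπ]
    have h6 : ε (Z (ε w)) = Z (ε w) := congrArg (fun T : Module.End k W => T (ε w)) hZε
    have h7 : ε (Z w) = Z (ε w) := by
      have := hZc ε hεc
      exact (congrArg (fun T : Module.End k W => T w) this).symm
    have h8 : ε (Z w) = Z w := congrArg (fun T : Module.End k W => T w) hZε
    rw [h6, ← h7, h8]
  rw [← h5]
  have h6 := Submodule.mem_map_of_mem (f := dL) h4
  rw [Submodule.map_span] at h6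
  refine Submodule.span_mono ?_ h6
  rintro _ ⟨_, ⟨_, ⟨A, hA, rfl⟩, _, ⟨B, hB, rfl⟩, rfl⟩, rfl⟩
  refine ⟨A, hA, B, hB, ?_⟩
  refine LinearMap.ext fun w => ?_
  change d (r A * r B - r B * r A) w = (ε * (A * B - B * A)) w
  rw [hd, LinearMap.sub_apply, Module.End.mul_apply, Module.End.mul_apply, map_sub, hir A hA,
    hir B hB, hir B hB, hir A hA, hiπ, Module.End.mul_apply, LinearMap.sub_apply,
    Module.End.mul_apply, Module.End.mul_apply, map_sub, hcomm B hB, hcomm A hA, hcomm A hA,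
    hcomm B hB]

end Pool.Agent.Y102
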