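import Pool.Agent.H86.CMLib.Y102.AV7
import Pool.Agent.H86.CMLib.Y102.Restr

set_option autoImplicit false
set_option linter.unusedSectionVars false

/-!
# The part with complex multiplication: the central idempotent
-/

open Module Function Polynomial

noncomputable section

namespace Pool.Agent.Y102

open Pool.Agent.W516.DR Pool.Agent.H204R3.GP Pool.Agent.W516.KC Pool.Agent.H204R3.SP FT

namespace AbVar

variable {g : ℕ} (A : AbVar g)

/-- the central skew-symmetric endomorphisms -/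
def ZA : Submodule ℚ (Module.End ℚ A.H1) where
  carrier := {R | R ∈ A.EA ∧ IsSkew A.om R ∧ ∀ Q ∈ A.EA, R * Q = Q * R}
  zero_mem' := ⟨A.EA.zero_mem, fun u v => by simp, fun Q _ => by rw [zero_mul, mul_zero]⟩
  add_mem' := by
    rintro R R' ⟨h1, h2, h3⟩ ⟨h1', h2', h3'⟩
    refine ⟨A.EA.add_mem h1 h1', fun u v => ?_, fun Q hQ => by
      rw [add_mul, mul_add, h3 Q hQ, h3' Q hQ]⟩
    have e1 := h2 u v
    have e2 := h2' u v
    simp only [LinearMap.add_apply, map_add]
    linear_combination e1 + e2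
  smul_mem' := by
    rintro c R ⟨h1, h2, h3⟩
    refine ⟨A.EA.smul_mem c h1, fun u v => ?_, fun Q hQ => by
      rw [smul_mul_assoc, mul_smul_comm, h3 Q hQ]⟩
    have e1 := h2 u v
    simp only [LinearMap.smul_apply, map_smul, smul_eq_mul]
    linear_combination c * e1

theorem mem_ZA {R : Module.End ℚ A.H1} :
    R ∈ A.ZA ↔ R ∈ A.EA ∧ IsSkew A.om R ∧ ∀ Q ∈ A.EA, R * Q = Q * R := Iff.rfl

/-- Positivity of the Rosati involution. -/
theorem eq_zero_of_adj {N N' : Module.End ℚ A.H1} (hN : N ∈ A.EA)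
    (hadj : ∀ u v, A.om (N u) v = A.om u (N' v)) (h0 : N' * N = 0) : N = 0 := by
  obtain ⟨M, hM⟩ := A.hodge_end (A.mem_EA.1 hN)
  have hext : ∀ u, A.ext N u = M u := by
    intro u
    have h1 : A.ext N = M.restrictScalars ℝ := A.ext_per fun w => by
      rw [ext_apply]
      exact (hM w).symm
    rw [h1]
    rfl
  have h2 : A.E.comp (A.ext N) = (A.E.flip.comp (A.ext N')).flip := by
    refine A.ext_per fun u => A.ext_per fun v => ?_
    change A.E (A.ext N (A.per u)) (A.per v) = A.E (A.per u) (A.ext N' (A.per v))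
    rw [ext_apply, ext_apply, ← om_coe, ← om_coe, hadj]
  have h3 : ∀ u v, A.E (M u) v = A.E u (A.ext N' v) := fun u v => by
    have h4 := congrArg (fun F : (Fin g → ℂ) →ₗ[ℝ] (Fin g → ℂ) →ₗ[ℝ] ℝ => F u v) h2
    rw [← hext]
    exact h4
  have hN'I : ∀ v, A.ext N' (Complex.I • v) = Complex.I • A.ext N' v := by
    intro v
    rw [← sub_eq_zero]
    apply A.E_nondeg
    intro u
    have e1 := h3 u (Complex.I • v)
    have e2 := (A.E_I (M u) v).2
    have e3 := (A.E_I u (A.ext N' v)).2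
    have e4 := h3 (Complex.I • u) v
    rw [map_smul] at e4
    rw [A.E_anti, map_sub]
    linear_combination e1 - e2 + e3 + e4
  have h4 : ∀ u, A.ext N' (M u) = 0 := by
    intro u
    have h5 := ext_mul (A := A) N' N
    rw [h0] at h5
    have h6 := congrArg (fun F : (Fin g → ℂ) →ₗ[ℝ] (Fin g → ℂ) => F u) h5
    simp only [LinearMap.comp_apply, hext] at h6
    rw [← h6]
    have h7 : A.ext (0 : Module.End ℚ A.H1) = 0 := A.ext_per fun w => by
      rw [ext_apply, LinearMap.zero_apply, map_zero, LinearMap.zero_apply]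
    rw [h7, LinearMap.zero_apply]
  refine LinearMap.ext fun w => A.per_inj ?_
  have h8 : A.per (N w) = M (A.per w) := (hM w).symm
  rw [LinearMap.zero_apply, map_zero, h8]
  by_contra hne
  have h5 := A.E_pos hne
  rw [h3, hN'I, h4, smul_zero, map_zero] at h5
  exact lt_irrefl _ h5

theorem mul_neg_self (R : Module.End ℚ A.H1) : R * (-R) = (-R) * R := by
  refine LinearMap.ext fun w => ?_
  rw [Module.End.mul_apply, Module.End.mul_apply, LinearMap.neg_apply, LinearMap.neg_apply, map_neg]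

theorem EA_mul {P Q : Module.End ℚ A.H1} (hP : P ∈ A.EA) (hQ : Q ∈ A.EA) : P * Q ∈ A.EA :=
  A.endAlg.mul P hP Q hQ

theorem EA_one : (1 : Module.End ℚ A.H1) ∈ A.EA := A.endAlg.one

/-- polynomials -/
theorem aeval_mem {R : Module.End ℚ A.H1} (hR : R ∈ A.EA) (p : ℚ[X]) : aeval R p ∈ A.EA := by
  induction p using Polynomial.induction_on' with
  | add p q hp hq => rw [map_add]; exact A.EA.add_mem hp hq
  | monomial n a =>
    rw [← C_mul_X_pow_eq_monomial, map_mul, aeval_C, map_pow, aeval_X]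
    have h1 : ∀ n, R ^ n ∈ A.EA := by
      intro n
      induction n with
      | zero => rw [pow_zero]; exact A.EA_one
      | succ n ih => rw [pow_succ]; exact A.EA_mul ih hR
    rw [Algebra.algebraMap_eq_smul_one, smul_mul_assoc, one_mul]
    exact A.EA.smul_mem _ (h1 n)

theorem aeval_comm {R Q : Module.End ℚ A.H1} (h : R * Q = Q * R) (p : ℚ[X]) :
    aeval R p * Q = Q * aeval R p := by
  induction p using Polynomial.induction_on' with
  | add p q hp hq => rw [map_add, add_mul, mul_add, hp, hq]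
  | monomial n a =>
    rw [← C_mul_X_pow_eq_monomial, map_mul, aeval_C, map_pow, aeval_X]
    have h1 : ∀ n, R ^ n * Q = Q * R ^ n := fun n => Commute.pow_left h n
    rw [Algebra.algebraMap_eq_smul_one, smul_mul_assoc, one_mul, smul_mul_assoc, h1, mul_smul_comm]

/-- the adjoint of a polynomial -/
theorem aeval_adj {R : Module.End ℚ A.H1} (hR : IsSkew A.om R) (p : ℚ[X]) (u v : A.H1) :
    A.om (aeval R p u) v = A.om u (aeval (-R) p v) := by
  induction p using Polynomial.induction_on' generalizing u v with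
  | add p q hp hq =>
    rw [map_add, map_add, LinearMap.add_apply, LinearMap.add_apply, map_add, map_add,
      LinearMap.add_apply, hp, hq]
  | monomial n a =>
    rw [← C_mul_X_pow_eq_monomial, map_mul, aeval_C, map_pow, aeval_X, map_mul, aeval_C, map_pow,
      aeval_X]
    have h1 : ∀ n u v, A.om ((R ^ n) u) v = A.om u (((-R) ^ n) v) := by
      intro n
      induction n with
      | zero => intro u v; simp
      | succ n ih =>
        intro u v
        have h2 := hR u (((-R) ^ n) v)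
        rw [pow_succ, pow_succ', Module.End.mul_apply, Module.End.mul_apply, ih,
          LinearMap.neg_apply, map_neg]
        linear_combination h2
    rw [Algebra.algebraMap_eq_smul_one, smul_mul_assoc, one_mul, smul_mul_assoc, one_mul,
      LinearMap.smul_apply, LinearMap.smul_apply, map_smul, map_smul, LinearMap.smul_apply, h1]

/-- The algebra generated by a skew-symmetric endomorphism is reduced. -/
theorem aeval_reduced {R : Module.End ℚ A.H1} (hR : R ∈ A.EA) (hs : IsSkew A.om R) (p : ℚ[X])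
    (h : aeval R p * aeval R p = 0) : aeval R p = 0 := by
  set N := aeval R p with hN
  set N' := aeval (-R) p with hN'
  have hNm : N ∈ A.EA := A.aeval_mem hR p
  have hN'm : N' ∈ A.EA := A.aeval_mem (by
    rw [← neg_one_smul ℚ R]
    exact A.EA.smul_mem _ hR) p
  have hcomm : N * N' = N' * N := by
    have h1 := A.mul_neg_self R
    have h2 := A.aeval_comm h1 p
    exact (A.aeval_comm h2.symm p).symm
  have hadj : ∀ u v, A.om (N u) v = A.om u (N' v) := fun u v => A.aeval_adj hs p u v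
  have hadj' : ∀ u v, A.om (N' u) v = A.om u (N v) := fun u v => by
    rw [A.om_anti, ← hadj, A.om_anti (N v), neg_neg]
  apply A.eq_zero_of_adj hNm hadj
  apply A.eq_zero_of_adj (A.EA_mul hN'm hNm) (N' := N' * N) (fun u v => by
    rw [Module.End.mul_apply, Module.End.mul_apply, hadj', hadj])
  calc N' * N * (N' * N) = N' * (N * N') * N := by simp only [mul_assoc]
    _ = N' * N' * (N * N) := by rw [hcomm]; simp only [mul_assoc]
    _ = 0 := by rw [h, mul_zero]

/-- von Neumann regularity -/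
theorem exists_reg {R : Module.End ℚ A.H1} (hR : R ∈ A.EA) (hs : IsSkew A.om R) :
    ∃ p : ℚ[X], R * R * aeval R p = R := by
  have hint : IsIntegral ℚ R := Algebra.IsIntegral.isIntegral R
  set m := minpoly ℚ R with hm
  have hm0 : m ≠ 0 := minpoly.ne_zero hint
  have haev : aeval R m = 0 := minpoly.aeval ℚ R
  by_cases hX : (X : ℚ[X]) ∣ m
  · obtain ⟨m₁, hm₁⟩ := hX
    have hm₁0 : m₁ ≠ 0 := by rintro rfl; rw [mul_zero] at hm₁; exact hm0 hm₁
    by_cases hX1 : (X : ℚ[X]) ∣ m₁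
    · exfalso
      obtain ⟨m₂, hm₂⟩ := hX1
      have h1 : aeval R m₁ = 0 := by
        apply A.aeval_reduced hR hs
        have h2 : m₁ * m₁ = m * m₂ := by rw [hm₁, hm₂]; ring
        rw [← map_mul, h2, map_mul, haev, zero_mul]
      have h2 := Polynomial.natDegree_le_of_dvd (minpoly.dvd ℚ R h1) hm₁0
      rw [← hm, hm₁, natDegree_X_mul hm₁0] at h2
      omega
    · have h1 : IsCoprime (X : ℚ[X]) m₁ :=
        (Polynomial.irreducible_X.coprime_iff_not_dvd).2 hX1
      obtain ⟨a, b, hab⟩ := h1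
      refine ⟨a, ?_⟩
      have h2 : X * X * a = X - b * m := by
        rw [hm₁]
        linear_combination X * hab
      have h3 := congrArg (aeval R) h2
      rw [map_mul, map_mul, aeval_X, map_sub, map_mul, haev, mul_zero, sub_zero, aeval_X] at h3
      exact h3
  · have h1 : IsCoprime (X : ℚ[X]) m := (Polynomial.irreducible_X.coprime_iff_not_dvd).2 hX
    obtain ⟨a, b, hab⟩ := h1
    refine ⟨a, ?_⟩
    have h2 : X * X * a = X - X * b * m := by
      linear_combination X * hab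
    have h3 := congrArg (aeval R) h2
    rw [map_mul, map_mul, aeval_X, map_sub, map_mul, haev, mul_zero, sub_zero, aeval_X] at h3
    exact h3

/-- central symmetric idempotents whose complement has complex multiplication -/
structure Idem (ε : Module.End ℚ A.H1) : Prop where
  mem : ε ∈ A.EA
  idem : ε * ε = ε
  cen : ∀ Q ∈ A.EA, ε * Q = Q * ε
  sym : ∀ u v, A.om (ε u) v = A.om u (ε v)
  comp : ∀ Z : Module.End ℚ A.H1, IsSkew A.om Z → (∀ Q ∈ A.EA, Z * Q = Q * Z) →
    (1 - ε) * Z ∈ A.ZA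

theorem idem_one : A.Idem 1 where
  mem := A.EA_one
  idem := mul_one 1
  cen Q _ := by rw [one_mul, mul_one]
  sym u v := rfl
  comp Z _ _ := by rw [sub_self, zero_mul]; exact A.ZA.zero_mem

theorem idem_mul {e : Basis (Fin g) ℂ (Fin g → ℂ)} (he : Adapted A.EA e)
    {ε : Module.End ℚ A.H1} (hε : A.Idem ε) {R : Module.End ℚ A.H1} (hR : R ∈ A.ZA) :
    ∃ ε₁ : Module.End ℚ A.H1, A.Idem (ε * ε₁) ∧ R * ε₁ = 0 := by
  obtain ⟨hR1, hR2, hR3⟩ := hR
  obtain ⟨p, hp⟩ := A.exists_reg hR1 hR2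
  obtain ⟨a, ha⟩ : ∃ a, a = aeval R p := ⟨_, rfl⟩
  rw [← ha] at hp
  have haR : a * R = R * a := ha ▸ A.aeval_comm rfl p
  have haE : a ∈ A.EA := ha ▸ A.aeval_mem hR1 p
  have hac : ∀ Q ∈ A.EA, a * Q = Q * a := fun Q hQ => ha ▸ A.aeval_comm (hR3 Q hQ) p
  obtain ⟨e₁, he₁⟩ : ∃ e₁, e₁ = R * a := ⟨_, rfl⟩
  have he₁E : e₁ ∈ A.EA := he₁ ▸ A.EA_mul hR1 haE
  have he₁c : ∀ Q ∈ A.EA, e₁ * Q = Q * e₁ := fun Q hQ => by
    rw [he₁, mul_assoc, hac Q hQ, ← mul_assoc, hR3 Q hQ, mul_assoc]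
  have he₁i : e₁ * e₁ = e₁ := by
    calc e₁ * e₁ = R * (a * R) * a := by rw [he₁]; simp only [mul_assoc]
      _ = (R * R * a) * a := by rw [haR]; simp only [mul_assoc]
      _ = e₁ := by rw [hp, he₁]
  -- the adjoint
  obtain ⟨a', ha'⟩ : ∃ a', a' = aeval (-R) p := ⟨_, rfl⟩
  have hnR : -R ∈ A.EA := by
    rw [← neg_one_smul ℚ R]
    exact A.EA.smul_mem _ hR1
  have ha'E : a' ∈ A.EA := ha' ▸ A.aeval_mem hnR p
  have hadj : ∀ u v, A.om (a u) v = A.om u (a' v) := fun u v => by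
    rw [ha, ha']
    exact A.aeval_adj hR2 p u v
  have ha'R : ∀ w, a' (R w) = R (a' w) := fun w =>
    congrArg (fun T : Module.End ℚ A.H1 => T w) (hR3 a' ha'E).symm
  have haR' : ∀ w, a (R w) = R (a w) := fun w =>
    congrArg (fun T : Module.End ℚ A.H1 => T w) haR
  have h2 : ∀ x y, A.om (R x) y = - A.om x (R y) := fun x y => by
    linear_combination hR2 x y
  have hadj2 : ∀ u v, A.om (e₁ u) v = -A.om u (R (a' v)) := by
    intro u v
    rw [he₁, Module.End.mul_apply, h2, hadj, ha'R]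
  have hRe₂ : ∀ w, R (R (a' w)) = -R w := by
    intro w
    rw [← sub_eq_zero, sub_neg_eq_add]
    apply A.om_nondeg
    intro v
    have h1 : R (R (a v)) = R v := congrArg (fun T : Module.End ℚ A.H1 => T v) hp
    rw [A.om_anti, map_add, ← ha'R, ← ha'R]
    have h3 : A.om v (a' (R (R w))) = A.om (R (R (a v))) w := by
      rw [← hadj, h2, h2, neg_neg]
    rw [h3, h1, h2]
    ring
  have hsym : ∀ u v, A.om (e₁ u) v = A.om u (e₁ v) := by
    have h3 : ∀ u v, A.om (e₁ u) (e₁ v) = A.om u (e₁ v) := by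
      intro u v
      rw [hadj2]
      have h6 : R (a' (e₁ v)) = -e₁ v := by
        rw [he₁, Module.End.mul_apply, ha'R, hRe₂]
      rw [h6, map_neg, neg_neg]
    intro u v
    have e1 := h3 u v
    have e2 := h3 v u
    have e3 := A.om_anti (e₁ u) (e₁ v)
    have e4 := A.om_anti v (e₁ u)
    linear_combination e4 + e2 - e3 + e1
  refine ⟨1 - e₁, ⟨?_, ?_, ?_, ?_, ?_⟩, ?_⟩
  · exact A.EA_mul hε.mem (A.EA.sub_mem A.EA_one he₁E)
  · have h1 : ε * e₁ = e₁ * ε := hε.cen _ he₁E
    have h2 : (1 - e₁) * ε = ε * (1 - e₁) := by rw [sub_mul, mul_sub, one_mul, mul_one, h1]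
    have h3 : (1 - e₁) * (1 - e₁) = 1 - e₁ := by
      rw [sub_mul, mul_sub, mul_sub, one_mul, one_mul, mul_one, he₁i, sub_self, sub_zero]
    calc ε * (1 - e₁) * (ε * (1 - e₁)) = ε * ((1 - e₁) * ε) * (1 - e₁) := by
          simp only [mul_assoc]
      _ = (ε * ε) * ((1 - e₁) * (1 - e₁)) := by rw [h2]; simp only [mul_assoc]
      _ = ε * (1 - e₁) := by rw [h3, hε.idem]
  · intro Q hQ
    have h1 : (1 - e₁) * Q = Q * (1 - e₁) := by
      rw [sub_mul, mul_sub, one_mul, mul_one, he₁c Q hQ]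
    rw [mul_assoc, h1, ← mul_assoc, hε.cen Q hQ, mul_assoc]
  · intro u v
    have h1 : ε * e₁ = e₁ * ε := hε.cen _ he₁E
    have h2 : ε * (1 - e₁) = (1 - e₁) * ε := by rw [sub_mul, mul_sub, one_mul, mul_one, h1]
    have h3 : ∀ u v, A.om ((1 - e₁) u) v = A.om u ((1 - e₁) v) := by
      intro u v
      simp only [LinearMap.sub_apply, map_sub, Module.End.one_apply, hsym]
    conv_lhs => rw [Module.End.mul_apply, hε.sym, h3]
    rw [h2, Module.End.mul_apply]
  · intro Z hZ hZc
    have h1 : (1 - ε * (1 - e₁)) * Z = (1 - ε) * Z + ε * e₁ * Z := by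
      rw [mul_sub, mul_one, sub_mul, sub_mul, sub_mul, one_mul]
      abel
    rw [h1]
    refine A.ZA.add_mem (hε.comp Z hZ hZc) ?_
    have hRZ : R * Z ∈ A.EA := by
      refine A.mem_EA_of_sym he (fun u v => ?_) fun Q hQ => ?_
      · rw [Module.End.mul_apply, Module.End.mul_apply]
        have h2 := hR2 (Z u) v
        have h3 := hZ u (R v)
        have h4 : Z (R v) = R (Z v) := congrArg (fun T : Module.End ℚ A.H1 => T v) (hZc R hR1)
        rw [h4] at h3
        linear_combination h2 - h3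
      · rw [mul_assoc, hZc Q hQ, ← mul_assoc, hR3 Q hQ, mul_assoc]
    have h2 : ε * e₁ * Z = ε * a * (R * Z) := by
      rw [he₁, ← haR]
      simp only [mul_assoc]
    refine ⟨?_, ?_, ?_⟩
    · rw [h2]
      exact A.EA_mul (A.EA_mul hε.mem haE) hRZ
    · intro u v
      have h3 : ∀ u v, A.om ((ε * e₁) u) v = A.om u ((ε * e₁) v) := by
        intro u v
        rw [Module.End.mul_apply, hε.sym, hsym]
        have h4 : (e₁ * ε) v = (ε * e₁) v := by rw [hε.cen _ he₁E]
        rw [← Module.End.mul_apply, h4]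
      have h4 : (ε * e₁) (Z v) = Z ((ε * e₁) v) :=
        congrArg (fun T : Module.End ℚ A.H1 => T v) (hZc _ (A.EA_mul hε.mem he₁E)).symm
      have h5 := h3 (Z u) v
      have h6 := hZ u ((ε * e₁) v)
      rw [← h4] at h6
      change A.om ((ε * e₁) (Z u)) v + A.om u ((ε * e₁) (Z v)) = 0
      rw [h5, ← h6, h4]
    · intro Q hQ
      rw [mul_assoc, hZc Q hQ, ← mul_assoc, mul_assoc ε, he₁c Q hQ, ← mul_assoc, hε.cen Q hQ]
      simp only [mul_assoc]
  · rw [mul_sub, mul_one, he₁, ← mul_assoc, hp, sub_self]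

/-- The idempotent of the part without complex multiplication. -/
theorem exists_idem {e : Basis (Fin g) ℂ (Fin g → ℂ)} (he : Adapted A.EA e) :
    ∃ ε : Module.End ℚ A.H1, A.Idem ε ∧ ∀ R ∈ A.ZA, R * ε = 0 := by
  classical
  have hex : ∃ n : ℕ, ∃ ε : Module.End ℚ A.H1, A.Idem ε ∧ finrank ℚ (LinearMap.range ε) = n :=
    ⟨_, 1, A.idem_one, rfl⟩
  obtain ⟨ε, hε, hn⟩ := Nat.find_spec hex
  refine ⟨ε, hε, fun R hR => ?_⟩
  obtain ⟨ε₁, hε₁, hR0⟩ := A.idem_mul he hε hR
  have hle : LinearMap.range (ε * ε₁) ≤ LinearMap.range ε := by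
    rintro _ ⟨w, rfl⟩
    exact ⟨ε₁ w, rfl⟩
  have h1 : Nat.find hex ≤ finrank ℚ (LinearMap.range (ε * ε₁)) :=
    Nat.find_min' hex ⟨_, hε₁, rfl⟩
  have h2 : LinearMap.range (ε * ε₁) = LinearMap.range ε :=
    Submodule.eq_of_le_of_finrank_le hle (by rw [hn]; exact h1)
  refine LinearMap.ext fun w => ?_
  have h3 : ε w ∈ LinearMap.range (ε * ε₁) := by rw [h2]; exact ⟨w, rfl⟩
  obtain ⟨x, hx⟩ := h3
  rw [Module.End.mul_apply, ← hx, LinearMap.zero_apply]
  have h4 : (R * (ε * ε₁)) x = 0 := by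
    rw [← mul_assoc, hR.2.2 ε hε.mem, mul_assoc, hR0, mul_zero, LinearMap.zero_apply]
  exact h4

/-- The part without complex multiplication is in the Lie algebra. -/
theorem idem_mem {e : Basis (Fin g) ℂ (Fin g → ℂ)} (he : Adapted A.EA e)
    {ε : Module.End ℚ A.H1} (hε : A.Idem ε) (h0 : ∀ R ∈ A.ZA, R * ε = 0)
    {Z : Module.End ℚ A.H1} (hZ : IsSkew A.om Z) (hZc : ∀ Q ∈ A.EA, Z * Q = Q * Z) :
    ε * Z ∈ A.LA := by
  have hεs : ∀ u v, A.om (ε u) v = A.om u (ε v) := hε.sym
  have hZε : ε * Z = Z * ε := (hZc ε hε.mem).symm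
  have h1 := mem_of_idem A.LA A.semi_LA (fun X hX Y hY => A.LA_bracket hX hY) A.om
    (fun X hX => A.LA_skew hX) (fun u hu => A.om_nondeg hu) ε hε.idem (fun X hX => hε.mem X hX)
    (fun Q hQ => hε.cen Q hQ) hεs
    (fun X _ _ hX hXs Y hY => A.mem_EA_of_sym he hXs (fun Q hQ => hX Q hQ) Y hY)
    (fun Z h1 h2 hZs hZc hZcc => by
      have h3 : Z ∈ A.ZA := ⟨hZc, hZs, fun Q hQ => hZcc Q hQ⟩
      rw [← h2, h0 Z h3])
    (Z := ε * Z) (fun u v => by
      rw [Module.End.mul_apply, hεs, Module.End.mul_apply]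
      have h3 := congrArg (fun T : Module.End ℚ A.H1 => T v) hZε
      have h4 := hZ u (ε v)
      simp only [Module.End.mul_apply] at h3
      rw [h3]
      exact h4)
    (fun Q hQ => by rw [mul_assoc, hZc Q hQ, ← mul_assoc, hε.cen Q hQ, mul_assoc])
    (by rw [← mul_assoc, hε.idem])
  refine (Submodule.span_le.2 ?_) h1
  rintro _ ⟨X, hX, Y, hY, rfl⟩
  have hXc : (1 - ε) * X ∈ A.ZA := hε.comp X (A.LA_skew hX) fun Q hQ => hQ X hX
  have h2 : ε * (X * Y - Y * X) = X * Y - Y * X := by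
    have h3 : ((1 - ε) * X) * Y = Y * ((1 - ε) * X) := (hXc.1 Y hY).symm
    have h4 : (1 - ε) * (X * Y - Y * X) = 0 := by
      have h5 : (1 - ε) * Y = Y * (1 - ε) := by
        rw [sub_mul, mul_sub, one_mul, mul_one, hε.mem Y hY]
      rw [mul_sub, ← mul_assoc, h3, ← mul_assoc, ← mul_assoc, h5, sub_self]
    rw [sub_mul, one_mul, sub_eq_zero] at h4
    exact h4.symm
  rw [h2]
  exact A.LA_bracket hX hY

/-- It suffices to find the central elements. -/
theorem mem_LA_of_ZA {e : Basis (Fin g) ℂ (Fin g → ℂ)} (he : Adapted A.EA e)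
    (h : A.ZA ≤ A.LA) {Z : Module.End ℚ A.H1} (hZ : IsSkew A.om Z)
    (hZc : ∀ Q ∈ A.EA, Z * Q = Q * Z) : Z ∈ A.LA := by
  obtain ⟨ε, hε, h0⟩ := A.exists_idem he
  have h1 := A.idem_mem he hε h0 hZ hZc
  have h2 := h (hε.comp Z hZ hZc)
  have h3 := A.LA.add_mem h1 h2
  have h4 : ε * Z + (1 - ε) * Z = Z := by rw [sub_mul, one_mul]; abel
  rwa [h4] at h3

end AbVar

end Pool.Agent.Y102
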