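import Pool.Agent.H86.CMLib.Y102.AV8

set_option autoImplicit false
set_option linter.unusedSectionVars false

/-!
# The part with complex multiplication: joint eigenvectors
-/

open Module Function Polynomial TensorProduct

noncomputable section

namespace Pool.Agent.Y102

open Pool.Agent.W516.DR Pool.Agent.H204R3.GP Pool.Agent.W516.KC Pool.Agent.H204R3.SP FT

/-- A commuting family of semisimple endomorphisms has a joint eigenbasis. -/
theorem exists_joint_basis {ι : Type} {V : Type} [AddCommGroup V] [Module ℂ V]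
    [FiniteDimensional ℂ V] (f : ι → Module.End ℂ V) (hcomm : ∀ i j, Commute (f i) (f j))
    (hss : ∀ i, (f i).IsSemisimple) :
    ∃ (n : ℕ) (b : Basis (Fin n) ℂ V), ∀ k i, ∃ c : ℂ, f i (b k) = c • b k := by
  have htop := Module.End.iSup_iInf_maxGenEigenspace_eq_top_of_iSup_maxGenEigenspace_eq_top_of_commute
    f (fun i j _ => hcomm i j) (fun i => Module.End.iSup_maxGenEigenspace_eq_top _)
  let S : Set V := {v | ∃ χ : ι → ℂ, ∀ i, f i v = χ i • v}
  have hS : Submodule.span ℂ S = ⊤ := by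
    rw [eq_top_iff, ← htop, iSup_le_iff]
    intro χ v hv
    refine Submodule.subset_span ⟨χ, fun i => ?_⟩
    have h1 := (Submodule.mem_iInf _).1 hv i
    rw [(hss i).isFinitelySemisimple.maxGenEigenspace_eq_eigenspace] at h1
    exact Module.End.mem_eigenspace_iff.1 h1
  obtain ⟨b, hbS, hbspan, hbli⟩ := exists_linearIndependent ℂ S
  rw [hS] at hbspan
  let B : Basis b ℂ V := Basis.mk hbli (by
    rw [Subtype.range_coe, hbspan])
  have : Fintype b := FiniteDimensional.fintypeBasisIndex B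
  let eqv : b ≃ Fin (Fintype.card b) := Fintype.equivFin b
  refine ⟨_, B.reindex eqv, fun k i => ?_⟩
  have h1 : B.reindex eqv k = ((eqv.symm k : b) : V) := by
    rw [Basis.reindex_apply, Basis.mk_apply]
  obtain ⟨χ, hχ⟩ := hbS (eqv.symm k).2
  exact ⟨χ i, by rw [h1, hχ]⟩

theorem aeval_baseChange {W : Type} [AddCommGroup W] [Module ℚ W] (R : Module.End ℚ W)
    (p : ℚ[X]) : aeval (R.baseChange ℂ) p = (aeval R p).baseChange ℂ := by
  induction p using Polynomial.induction_on' with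
  | add p q hp hq => rw [map_add, map_add, hp, hq, LinearMap.baseChange_add]
  | monomial n a =>
    rw [← C_mul_X_pow_eq_monomial, map_mul, map_mul, aeval_C, aeval_C, map_pow, map_pow, aeval_X,
      aeval_X, Algebra.algebraMap_eq_smul_one, Algebra.algebraMap_eq_smul_one, smul_mul_assoc,
      one_mul, smul_mul_assoc, one_mul, LinearMap.baseChange_smul]
    congr 1
    induction n with
    | zero =>
      rw [pow_zero, pow_zero]
      exact (LinearMap.baseChange_id (R := ℚ) (A := ℂ) (M := W)).symm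
    | succ n ih =>
      rw [pow_succ, pow_succ, ih]
      exact (LinearMap.baseChange_comp (A := ℂ) R (R ^ n)).symm

/-- An endomorphism that generates a reduced algebra is semisimple over the complex numbers. -/
theorem semisimple_of_reduced {W : Type} [AddCommGroup W] [Module ℚ W] [FiniteDimensional ℚ W]
    (R : Module.End ℚ W)
    (h : ∀ p : ℚ[X], aeval R p * aeval R p = 0 → aeval R p = 0) :
    Module.End.IsSemisimple (R := ℂ) (M := ℂ ⊗[ℚ] W) (R.baseChange ℂ) := by
  have hint : IsIntegral ℚ R := Algebra.IsIntegral.isIntegral R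
  have hm0 : minpoly ℚ R ≠ 0 := minpoly.ne_zero hint
  have hsf : Squarefree (minpoly ℚ R) := by
    intro x hx
    obtain ⟨y, hy⟩ := hx
    have hxy : x * y ≠ 0 := by
      intro h0
      apply hm0
      rw [hy, mul_assoc, h0, mul_zero]
    have h1 : aeval R (x * y) = 0 := by
      apply h
      have h2 : x * y * (x * y) = minpoly ℚ R * y := by rw [hy]; ring
      rw [← map_mul, h2, map_mul, minpoly.aeval, zero_mul]
    have h2 := Polynomial.natDegree_le_of_dvd (minpoly.dvd ℚ R h1) hxy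
    have hx0 : x ≠ 0 := left_ne_zero_of_mul hxy
    have h3 : (minpoly ℚ R).natDegree = x.natDegree + (x * y).natDegree := by
      rw [hy, mul_assoc, natDegree_mul hx0 hxy]
    rw [Polynomial.isUnit_iff_degree_eq_zero, Polynomial.degree_eq_natDegree hx0]
    have h4 : x.natDegree = 0 := by omega
    rw [h4]
    rfl
  have hsep : (minpoly ℚ R).Separable := PerfectField.separable_iff_squarefree.2 hsf
  refine Module.End.isSemisimple_of_squarefree_aeval_eq_zero
    (p := (minpoly ℚ R).map (algebraMap ℚ ℂ)) hsep.map.squarefree ?_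
  rw [aeval_map_algebraMap, aeval_baseChange, minpoly.aeval, LinearMap.baseChange_zero]

/-- The numbers satisfy no linear relations except the trivial ones. -/
def OddRel {W : Type} [AddCommGroup W] [Module ℚ W] (X : Module.End ℚ W) : Prop :=
  ∀ (κ : Type) [Fintype κ] (x : κ → ℂ), (∀ k, aeval (x k) (minpoly ℚ X) = 0) → ∑ k, x k = 0 →
    ∀ f : ℂ → ℂ, (∀ z, f (-z) = -f z) → ∑ k, f (x k) = 0

namespace AbVar

variable {g : ℕ} (A : AbVar g)

/-- the eigenvectors of the central elements -/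
theorem exists_basis : ∃ (n : ℕ) (b : Basis (Fin n) ℂ (ℂ ⊗[ℚ] A.H1)) (χ : Fin n → (A.ZA →ₗ[ℚ] ℂ)),
    ∀ k (R : A.ZA), (R : Module.End ℚ A.H1).baseChange ℂ (b k) = χ k R • b k := by
  obtain ⟨n, b, hb⟩ := exists_joint_basis
    (fun R : A.ZA => (R : Module.End ℚ A.H1).baseChange ℂ) (fun R R' => by
      change (R : Module.End ℚ A.H1).baseChange ℂ ∘ₗ (R' : Module.End ℚ A.H1).baseChange ℂ =
        (R' : Module.End ℚ A.H1).baseChange ℂ ∘ₗ (R : Module.End ℚ A.H1).baseChange ℂ
      rw [← LinearMap.baseChange_comp, ← LinearMap.baseChange_comp]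
      congr 1
      exact R.2.2.2 _ R'.2.1)
    (fun R => semisimple_of_reduced _ fun p => A.aeval_reduced R.2.1 R.2.2.1 p)
  choose c hc using hb
  refine ⟨n, b, fun k =>
    { toFun := c k
      map_add' := fun R R' => ?_
      map_smul' := fun a R => ?_ }, fun k R => hc k R⟩
  · have h1 := hc k (R + R')
    have h2 : ((R + R' : A.ZA) : Module.End ℚ A.H1).baseChange ℂ (b k) =
        (c k R + c k R') • b k := by
      rw [Submodule.coe_add, LinearMap.baseChange_add, LinearMap.add_apply, hc, hc, add_smul]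
    rw [h2] at h1
    have h3 : (c k R + c k R' - c k (R + R')) • b k = 0 := by rw [sub_smul, h1, sub_self]
    exact (sub_eq_zero.1 ((smul_eq_zero.1 h3).resolve_right (b.ne_zero k))).symm
  · have h1 := hc k (a • R)
    have h2 : ((a • R : A.ZA) : Module.End ℚ A.H1).baseChange ℂ (b k) =
        (a • c k R) • b k := by
      rw [Submodule.coe_smul, LinearMap.baseChange_smul, LinearMap.smul_apply, hc, smul_assoc]
    rw [h2] at h1
    have h3 : (a • c k R - c k (a • R)) • b k = 0 := by rw [sub_smul, h1, sub_self]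
    rw [RingHom.id_apply]
    exact (sub_eq_zero.1 ((smul_eq_zero.1 h3).resolve_right (b.ne_zero k))).symm

/-- the characters come in opposite pairs -/
theorem exists_neg {n : ℕ} {b : Basis (Fin n) ℂ (ℂ ⊗[ℚ] A.H1)} {χ : Fin n → (A.ZA →ₗ[ℚ] ℂ)}
    (hb : ∀ k (R : A.ZA), (R : Module.End ℚ A.H1).baseChange ℂ (b k) = χ k R • b k) (i : Fin n) :
    ∃ j, χ j = -χ i := by
  let ω : ℂ ⊗[ℚ] A.H1 →ₗ[ℂ] ℂ ⊗[ℚ] A.H1 →ₗ[ℂ] ℂ := LinearMap.BilinForm.baseChange ℂ A.om
  have hωω : ∀ u v : A.H1, ω ((1 : ℂ) ⊗ₜ[ℚ] u) ((1 : ℂ) ⊗ₜ[ℚ] v) = algebraMap ℚ ℂ (A.om u v) := by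
    intro u v
    change LinearMap.BilinForm.baseChange ℂ A.om _ _ = _
    rw [LinearMap.BilinForm.baseChange_tmul]
    simp
  obtain ⟨j, hj⟩ : ∃ j, ω (b i) (b j) ≠ 0 := by
    by_contra hne
    push Not at hne
    apply b.ne_zero i
    refine nondeg_ext A.om ω hωω (fun u hu => A.om_nondeg hu) _ fun z => ?_
    have h1 : ω (b i) = 0 := b.ext fun j => by rw [hne, LinearMap.zero_apply]
    rw [h1, LinearMap.zero_apply]
  refine ⟨j, LinearMap.ext fun R => ?_⟩
  have h1 := skew_ext A.om ω hωω R.2.2.1 (b i) (b j)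
  rw [hb, hb, map_smul, LinearMap.smul_apply, map_smul, smul_eq_mul, smul_eq_mul, ← add_mul] at h1
  rw [LinearMap.neg_apply]
  have h2 := (mul_eq_zero.1 h1).resolve_right hj
  linear_combination h2

/-- **Separation**: different characters are different on the Lie algebra. -/
theorem separated {e : Basis (Fin g) ℂ (Fin g → ℂ)} (he : Adapted A.EA e) {n : ℕ}
    {b : Basis (Fin n) ℂ (ℂ ⊗[ℚ] A.H1)} {χ : Fin n → (A.ZA →ₗ[ℚ] ℂ)}
    (hb : ∀ k (R : A.ZA), (R : Module.End ℚ A.H1).baseChange ℂ (b k) = χ k R • b k)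
    {i j : Fin n} (hi : χ i ≠ 0) (hj : χ j ≠ 0)
    (hL : ∀ R : A.ZA, (R : Module.End ℚ A.H1) ∈ A.LA → χ i R = χ j R) : χ i = χ j := by
  classical
  obtain ⟨ε, hε, h0⟩ := A.exists_idem he
  -- the Lie algebra on the eigenvectors
  have hact : ∀ k, χ k ≠ 0 → ∀ X ∈ A.LA, ∃ R : A.ZA, (R : Module.End ℚ A.H1) ∈ A.LA ∧
      (R : Module.End ℚ A.H1) = (1 - ε) * X ∧ X.baseChange ℂ (b k) = χ k R • b k := by
    intro k hk X hX
    have hXs := A.LA_skew hX
    have hXc : ∀ Q ∈ A.EA, X * Q = Q * X := fun Q hQ => hQ X hX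
    have h1 : (1 - ε) * X ∈ A.ZA := hε.comp X hXs hXc
    have h2 : ε * X ∈ A.LA := A.idem_mem he hε h0 hXs hXc
    refine ⟨⟨_, h1⟩, ?_, rfl, ?_⟩
    · change (1 - ε) * X ∈ A.LA
      rw [sub_mul, one_mul]
      exact A.LA.sub_mem hX h2
    · obtain ⟨R₀, hR₀⟩ : ∃ R₀, χ k R₀ ≠ 0 := by
        by_contra hne
        push Not at hne
        exact hk (LinearMap.ext hne)
      have h3 : ε.baseChange ℂ (b k) = 0 := by
        have h4 : ε * (R₀ : Module.End ℚ A.H1) = 0 := by
          rw [← h0 R₀ R₀.2, R₀.2.2.2 ε hε.mem]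
        have h5 : ε.baseChange ℂ ((R₀ : Module.End ℚ A.H1).baseChange ℂ (b k)) = 0 := by
          rw [← LinearMap.comp_apply, ← LinearMap.baseChange_comp]
          have h6 : ε ∘ₗ (R₀ : Module.End ℚ A.H1) = 0 := h4
          rw [h6, LinearMap.baseChange_zero, LinearMap.zero_apply]
        rw [hb, map_smul] at h5
        exact (smul_eq_zero.1 h5).resolve_left hR₀
      rw [← hb k ⟨_, h1⟩]
      have h7 : X = (1 - ε) * X + X * ε := by
        rw [sub_mul, one_mul, hXc ε hε.mem]
        abel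
      conv_lhs => rw [h7]
      rw [LinearMap.baseChange_add, LinearMap.add_apply]
      have h8 : (X * ε).baseChange ℂ (b k) = 0 := by
        have h9 : (X * ε : Module.End ℚ A.H1) = X ∘ₗ ε := rfl
        rw [h9, LinearMap.baseChange_comp, LinearMap.comp_apply, h3, map_zero]
      rw [h8, add_zero]
  -- the operator between the eigenvectors
  let T : Module.End ℂ (ℂ ⊗[ℚ] A.H1) :=
    { toFun := fun v => b.repr v i • b j
      map_add' := fun u v => by rw [map_add, Finsupp.add_apply, add_smul]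
      map_smul' := fun c v => by
        rw [map_smul, Finsupp.smul_apply, smul_eq_mul, mul_smul, RingHom.id_apply] }
  have hT : ∀ v, T v = b.repr v i • b j := fun v => rfl
  have hTb : ∀ k, T (b k) = if k = i then b j else 0 := by
    intro k
    rw [hT, Basis.repr_self, Finsupp.single_apply]
    split_ifs
    · rw [one_smul]
    · rw [zero_smul]
  have hTX : ∀ X ∈ A.LA, T * X.baseChange ℂ = X.baseChange ℂ * T := by
    intro X hX
    refine b.ext fun k => ?_
    rw [Module.End.mul_apply, Module.End.mul_apply, hTb]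
    by_cases hk : χ k = 0
    · have hki : k ≠ i := fun h => hi (h ▸ hk)
      rw [if_neg hki, map_zero, hT]
      obtain ⟨R₀, hR₀⟩ : ∃ R₀, χ i R₀ ≠ 0 := by
        by_contra hne
        push Not at hne
        exact hi (LinearMap.ext hne)
      have h1 : (R₀ : Module.End ℚ A.H1).baseChange ℂ (X.baseChange ℂ (b k)) = 0 := by
        have h2 : (R₀ : Module.End ℚ A.H1) * X = X * R₀ := (R₀.2.1 X hX).symm
        have h3 : (R₀ : Module.End ℚ A.H1) ∘ₗ X = X ∘ₗ (R₀ : Module.End ℚ A.H1) := h2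
        rw [← LinearMap.comp_apply, ← LinearMap.baseChange_comp, h3, LinearMap.baseChange_comp,
          LinearMap.comp_apply, hb, hk, LinearMap.zero_apply, zero_smul, map_zero]
      have h2 : ∀ v, b.repr ((R₀ : Module.End ℚ A.H1).baseChange ℂ v) i = χ i R₀ * b.repr v i := by
        intro v
        have h3 : (Finsupp.lapply i ∘ₗ b.repr.toLinearMap) ∘ₗ
            ((R₀ : Module.End ℚ A.H1).baseChange ℂ) =
            (χ i R₀) • (Finsupp.lapply i ∘ₗ b.repr.toLinearMap) := by
          refine b.ext fun l => ?_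
          rw [LinearMap.comp_apply, hb, map_smul, LinearMap.smul_apply, LinearMap.comp_apply,
            LinearEquiv.coe_coe, Basis.repr_self, Finsupp.lapply_apply, Finsupp.single_apply,
            smul_eq_mul, smul_eq_mul]
          by_cases hl : l = i
          · rw [if_pos hl, hl]
          · rw [if_neg hl, mul_zero, mul_zero]
        exact congrArg (fun F : ℂ ⊗[ℚ] A.H1 →ₗ[ℂ] ℂ => F v) h3
      have h3 := h2 (X.baseChange ℂ (b k))
      rw [h1, map_zero, Finsupp.zero_apply] at h3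
      rw [(mul_eq_zero.1 h3.symm).resolve_left hR₀, zero_smul]
    · obtain ⟨R, hRL, hR, hXk⟩ := hact k hk X hX
      rw [hXk, map_smul, hTb]
      split_ifs with hki
      · obtain ⟨R', hRL', hR', hXj⟩ := hact j hj X hX
        have h1 : R' = R := Subtype.ext (hR'.trans hR.symm)
        rw [hXj, h1, hki, hL R hRL]
      · rw [map_zero, smul_zero]
  have hTR : ∀ R : A.ZA, T * (R : Module.End ℚ A.H1).baseChange ℂ =
      (R : Module.End ℚ A.H1).baseChange ℂ * T := by
    intro R
    rw [← comm_iff]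
    intro lam
    have h1 : Pool.Agent.W516.DR.cmpE lam T ∈ A.EA := fun X hX =>
      (((comm_iff X T).2 (hTX X hX)) lam).symm
    exact (R.2.2.2 _ h1).symm
  refine LinearMap.ext fun R => ?_
  have h1 := congrArg (fun F : Module.End ℂ (ℂ ⊗[ℚ] A.H1) => F (b i)) (hTR R)
  simp only [Module.End.mul_apply] at h1
  rw [hb, map_smul, hTb, if_pos rfl, hb] at h1
  have h2 : (χ i R - χ j R) • b j = 0 := by rw [sub_smul, h1, sub_self]
  exact sub_eq_zero.1 ((smul_eq_zero.1 h2).resolve_right (b.ne_zero j))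

/-- There is a generic element. -/
theorem exists_generic {e : Basis (Fin g) ℂ (Fin g → ℂ)} (he : Adapted A.EA e) {n : ℕ}
    {b : Basis (Fin n) ℂ (ℂ ⊗[ℚ] A.H1)} {χ : Fin n → (A.ZA →ₗ[ℚ] ℂ)}
    (hb : ∀ k (R : A.ZA), (R : Module.End ℚ A.H1).baseChange ℂ (b k) = χ k R • b k) :
    ∃ R : A.ZA, (R : Module.End ℚ A.H1) ∈ A.LA ∧ ∀ i j, χ i R = χ j R → χ i = χ j := by
  classical
  obtain ⟨L, hLle, hLdef⟩ : ∃ L : Submodule ℚ (Module.End ℚ A.H1), L ≤ A.ZA ∧
      ∀ R, R ∈ L ↔ R ∈ A.LA ∧ R ∈ A.ZA :=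
    ⟨A.LA ⊓ A.ZA, inf_le_right, fun R => Iff.rfl⟩
  obtain ⟨K, hKdef⟩ : ∃ K : {p : Fin n × Fin n // χ p.1 ≠ χ p.2} → Subspace ℚ L,
      ∀ p (R : L), R ∈ K p ↔ χ p.1.1 ⟨R, hLle R.2⟩ = χ p.1.2 ⟨R, hLle R.2⟩ :=
    ⟨fun p => LinearMap.ker ((χ p.1.1 - χ p.1.2) ∘ₗ Submodule.inclusion hLle),
      fun p R => sub_eq_zero⟩
  have hK0 : ∀ i, χ i ≠ 0 → ¬ ∀ R : A.ZA, (R : Module.End ℚ A.H1) ∈ A.LA → χ i R = 0 := by
    intro i hi h
    obtain ⟨j, hj⟩ := A.exists_neg hb i
    have hj0 : χ j ≠ 0 := by rw [hj]; exact neg_ne_zero.2 hi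
    have h1 := A.separated he hb hj0 hi fun R hR => by
      rw [hj, LinearMap.neg_apply, h R hR, neg_zero]
    rw [hj] at h1
    apply hi
    refine LinearMap.ext fun R => ?_
    have h2 := congrArg (fun F : A.ZA →ₗ[ℚ] ℂ => F R) h1
    simp only [LinearMap.neg_apply] at h2
    rw [LinearMap.zero_apply]
    have h3 : (2 : ℂ) * χ i R = 0 := by linear_combination -h2
    exact (mul_eq_zero.1 h3).resolve_left two_ne_zero
  have hK : ∀ p, K p ≠ ⊤ := by
    rintro ⟨⟨i, j⟩, hij⟩ htop
    have h1 : ∀ R : A.ZA, (R : Module.End ℚ A.H1) ∈ A.LA → χ i R = χ j R := by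
      intro R hR
      have h2 : (⟨R, (hLdef R).2 ⟨hR, R.2⟩⟩ : L) ∈ K ⟨⟨i, j⟩, hij⟩ := by rw [htop]; trivial
      exact (hKdef _ _).1 h2
    by_cases hi : χ i = 0
    · by_cases hj : χ j = 0
      · exact hij (hi.trans hj.symm)
      · refine hK0 j hj fun R hR => ?_
        rw [← h1 R hR, hi, LinearMap.zero_apply]
    · by_cases hj : χ j = 0
      · refine hK0 i hi fun R hR => ?_
        rw [h1 R hR, hj, LinearMap.zero_apply]
      · exact hij (A.separated he hb hi hj h1)
  by_contra hne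
  push Not at hne
  have hcov : ⋃ p, (K p : Set L) = Set.univ := by
    rw [Set.eq_univ_iff_forall]
    intro R
    obtain ⟨i, j, h1, h2⟩ := hne ⟨R.1, hLle R.2⟩ ((hLdef _).1 R.2).1
    exact Set.mem_iUnion.2 ⟨⟨(i, j), h2⟩, (hKdef _ _).2 h1⟩
  obtain ⟨p, hp⟩ := Subspace.exists_eq_top_of_iUnion_eq_univ (k := ℚ) (E := L) (p := K) hcov
  exact hK p hp

theorem aeval_eigen {W : Type} [AddCommGroup W] [Module ℚ W]
    {f : Module.End ℂ (ℂ ⊗[ℚ] W)} {v : ℂ ⊗[ℚ] W} {μ : ℂ}
    (h : f v = μ • v) (p : ℚ[X]) : aeval f p v = aeval μ p • v := by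
  induction p using Polynomial.induction_on' with
  | add p q hp hq => rw [map_add, map_add, LinearMap.add_apply, hp, hq, add_smul]
  | monomial n a =>
    rw [← C_mul_X_pow_eq_monomial, map_mul, map_mul, aeval_C, aeval_C, map_pow, map_pow, aeval_X,
      aeval_X, Algebra.algebraMap_eq_smul_one, Algebra.algebraMap_eq_smul_one, smul_mul_assoc,
      one_mul, smul_mul_assoc, one_mul, LinearMap.smul_apply, smul_assoc]
    congr 1
    induction n with
    | zero => rw [pow_zero, pow_zero, one_smul, Module.End.one_apply]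
    | succ n ih => rw [pow_succ', pow_succ', Module.End.mul_apply, ih, map_smul, h, smul_smul,
        mul_comm]

/-- **The central elements belong to the Lie algebra**, if the eigenvalues satisfy only trivial
relations. -/
theorem ZA_le {e : Basis (Fin g) ℂ (Fin g → ℂ)} (he : Adapted A.EA e)
    (hrel : ∀ X ∈ A.ZA, (∀ T : Module.End ℚ A.H1, T * X = X * T → ∀ R ∈ A.ZA, T * R = R * T) →
      OddRel X) : A.ZA ≤ A.LA := by
  classical
  obtain ⟨n, b, χ, hb⟩ := A.exists_basis
  obtain ⟨X, hXL, hX⟩ := A.exists_generic he hb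
  have hrepr : ∀ (R : A.ZA) v i, b.repr ((R : Module.End ℚ A.H1).baseChange ℂ v) i =
      χ i R * b.repr v i := by
    intro R v i
    have h3 : (Finsupp.lapply i ∘ₗ b.repr.toLinearMap) ∘ₗ
        ((R : Module.End ℚ A.H1).baseChange ℂ) =
        (χ i R) • (Finsupp.lapply i ∘ₗ b.repr.toLinearMap) := by
      refine b.ext fun l => ?_
      rw [LinearMap.comp_apply, hb, map_smul, LinearMap.smul_apply, LinearMap.comp_apply,
        LinearEquiv.coe_coe, Basis.repr_self, Finsupp.lapply_apply, Finsupp.single_apply,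
        smul_eq_mul, smul_eq_mul]
      by_cases hl : l = i
      · rw [if_pos hl, hl]
      · rw [if_neg hl, mul_zero, mul_zero]
    exact congrArg (fun F : ℂ ⊗[ℚ] A.H1 →ₗ[ℂ] ℂ => F v) h3
  have hOdd : OddRel (X : Module.End ℚ A.H1) := by
    refine hrel X X.2 fun T hT R hR => ?_
    have h1 : T.baseChange ℂ * R.baseChange ℂ = R.baseChange ℂ * T.baseChange ℂ := by
      refine b.ext fun i => ?_
      rw [Module.End.mul_apply, Module.End.mul_apply, hb i ⟨R, hR⟩, map_smul]
      apply b.ext_elem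
      intro l
      rw [hrepr ⟨R, hR⟩, map_smul, Finsupp.smul_apply, smul_eq_mul]
      by_cases hl : b.repr (T.baseChange ℂ (b i)) l = 0
      · rw [hl, mul_zero, mul_zero]
      · have h2 : T.baseChange ℂ ((X : Module.End ℚ A.H1).baseChange ℂ (b i)) =
            (X : Module.End ℚ A.H1).baseChange ℂ (T.baseChange ℂ (b i)) := by
          rw [← LinearMap.comp_apply, ← LinearMap.comp_apply, ← LinearMap.baseChange_comp,
            ← LinearMap.baseChange_comp]
          have h3 : T ∘ₗ (X : Module.End ℚ A.H1) = (X : Module.End ℚ A.H1) ∘ₗ T := hT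
          rw [h3]
        have h3 := congrArg (fun v => b.repr v l) h2
        rw [hb, map_smul] at h3
        change b.repr (χ i X • _) l = b.repr _ l at h3
        rw [map_smul, Finsupp.smul_apply, smul_eq_mul, hrepr] at h3
        have h4 := hX i l (mul_right_cancel₀ hl h3)
        rw [h4]
    have h2 := (comm_iff (L := ℂ) R (T.baseChange ℂ)).2 h1
    obtain ⟨lam, hlam⟩ : ∃ lam : ℂ →ₗ[ℚ] ℚ, lam 1 = 1 := by
      obtain ⟨G, hG⟩ := exists_lin (F := ℚ) (v := fun _ : Unit => (1 : ℂ)) (by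
        rw [linearIndependent_unique_iff]
        exact one_ne_zero) (fun _ => (1 : ℚ))
      exact ⟨G, hG ()⟩
    have h3 : Pool.Agent.W516.DR.cmpE lam (T.baseChange ℂ) = T := by
      refine LinearMap.ext fun w => ?_
      rw [Pool.Agent.W516.DR.cmpE_apply, LinearMap.baseChange_tmul,
        Pool.Agent.W516.DR.cmp_tmul, hlam, one_smul]
    have h4 := h2 lam
    rwa [h3] at h4
  intro R hR m φ hφ
  let β := Module.finBasis ℚ A.H1
  have hcmp : ∀ (lam : ℂ →ₗ[ℚ] ℚ) (Y : Module.End ℚ A.H1),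
      Pool.Agent.W516.DR.cmpE lam (Y.baseChange ℂ) = lam 1 • Y := by
    intro lam Y
    refine LinearMap.ext fun w => ?_
    rw [Pool.Agent.W516.DR.cmpE_apply, LinearMap.baseChange_tmul, Pool.Agent.W516.DR.cmp_tmul,
      LinearMap.smul_apply]
  have h1 : Kills ((X : Module.End ℚ A.H1).baseChange ℂ) (bcm (Ω := ℂ) β φ) :=
    (kills_bcm_iff β φ _).2 fun lam => by
      rw [hcmp]
      exact (A.LA.smul_mem _ hXL) m φ hφ
  -- the interpolating function
  let f : ℂ → ℂ := fun z => if h : ∃ i, χ i X = z then χ (Classical.choose h) ⟨R, hR⟩ else 0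
  have hf : ∀ i, f (χ i X) = χ i ⟨R, hR⟩ := by
    intro i
    have h2 : ∃ i', χ i' X = χ i X := ⟨i, rfl⟩
    simp only [f]
    rw [dif_pos h2, hX _ _ (Classical.choose_spec h2)]
  have hfodd : ∀ z, f (-z) = -f z := by
    intro z
    by_cases h2 : ∃ i, χ i X = z
    · obtain ⟨i, rfl⟩ := h2
      obtain ⟨j, hj⟩ := A.exists_neg hb i
      have h3 : χ j X = -χ i X := by rw [hj]; rfl
      rw [← h3, hf, hf, hj]
      rfl
    · have h3 : ¬ ∃ i, χ i X = -z := by
        rintro ⟨i, hi⟩
        obtain ⟨j, hj⟩ := A.exists_neg hb i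
        exact h2 ⟨j, by rw [hj, LinearMap.neg_apply, hi, neg_neg]⟩
      simp only [f]
      rw [dif_neg h2, dif_neg h3, neg_zero]
  have h2 : Kills (R.baseChange ℂ) (bcm (Ω := ℂ) β φ) := by
    refine kills_of_basis b _ _ fun I => ?_
    have h3 : ∀ (R : A.ZA), ∑ k, bcm (Ω := ℂ) β φ (update (fun l => b (I l)) k
        ((R : Module.End ℚ A.H1).baseChange ℂ (b (I k)))) =
        (∑ k, χ (I k) R) * bcm (Ω := ℂ) β φ (fun l => b (I l)) := by
      intro R
      rw [Finset.sum_mul]
      refine Finset.sum_congr rfl fun k _ => ?_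
      rw [hb, MultilinearMap.map_update_smul, smul_eq_mul]
      congr 2
      exact update_eq_self k (fun l => b (I l))
    rw [h3 ⟨R, hR⟩]
    by_cases h0 : bcm (Ω := ℂ) β φ (fun l => b (I l)) = 0
    · rw [h0, mul_zero]
    · have h4 := h1 (fun l => b (I l))
      rw [h3 X] at h4
      have h5 := (mul_eq_zero.1 h4).resolve_right h0
      have h6 := hOdd (Fin m × Fin 2) (fun k => χ (I k) X) (fun k => by
        have h7 := aeval_eigen (hb (I k) X) (minpoly ℚ (X : Module.End ℚ A.H1))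
        rw [aeval_baseChange, minpoly.aeval, LinearMap.baseChange_zero, LinearMap.zero_apply] at h7
        exact (smul_eq_zero.1 h7.symm).resolve_right (b.ne_zero _)) h5 f hfodd
      simp only [hf] at h6
      rw [h6, zero_mul]
  obtain ⟨lam, hlam⟩ : ∃ lam : ℂ →ₗ[ℚ] ℚ, lam 1 = 1 := by
    obtain ⟨G, hG⟩ := exists_lin (F := ℚ) (v := fun _ : Unit => (1 : ℂ)) (by
      rw [linearIndependent_unique_iff]
      exact one_ne_zero) (fun _ => (1 : ℚ))
    exact ⟨G, hG ()⟩
  have h3 := (kills_bcm_iff β φ _).1 h2 lam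
  rwa [hcmp, hlam, one_smul] at h3

/-- **General theorem**: de Rham-Betti classes are combinations of products of Lefschetz classes. -/
theorem products_of_rel (P : Fin g → Module.End ℚ A.H1)
    (hP : ∀ i, IsDeRhamBettiEnd QBar A.dR (P i))
    (hcomm : ∀ i j, P i * P j = P j * P i) (hsym : ∀ i u v, A.om (P i u) v = A.om u (P i v))
    (hli : LinearIndependent ℚ P)
    (hrel : ∀ X ∈ A.ZA, (∀ T : Module.End ℚ A.H1, T * X = X * T → ∀ R ∈ A.ZA, T * R = R * T) →
      OddRel X)
    {m : ℕ} (φ : MultilinearMap ℚ (fun _ : Fin m × Fin 2 => A.H1) ℚ)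
    (hφ : IsDeRhamBettiForm QBar A.dR tau m φ) :
    φ ∈ Submodule.span ℚ (LefProd A A.EA m) := by
  obtain ⟨e, he, -⟩ := exists_adapted A.endAlg P (fun i => A.mem_EA.2 (hP i)) hcomm hsym hli
  obtain ⟨e', he', -, hn⟩ := exists_normalized A.endAlg he
  refine lefschetz A.endAlg he' hn φ fun Z hZ hZc => A.kills_of_mem hφ ?_
  exact A.mem_LA_of_ZA he (A.ZA_le he hrel) hZ hZc

end AbVar

end Pool.Agent.Y102
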