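import Pool.Agent.H86.CMLib.Y102.Dat

set_option autoImplicit false
set_option linter.unusedSectionVars false

/-!
# The product of two sets of data
-/

open Filter Topology Module MvPolynomial

noncomputable section

namespace Pool.Agent.Y102

theorem gr_comp' {ι ι' : Type} [Fintype ι] [Fintype ι'] {f : (ι → ℂ) → ℂ} (hf : Gr f)
    (M : (ι' → ℂ) →L[ℂ] (ι → ℂ)) : Gr (fun x => f (M x)) := by
  obtain ⟨C, hC, h⟩ := hf
  refine ⟨C * (1 + ‖M‖) ^ 3, by positivity, fun z => (h _).trans (Real.exp_le_exp.2 ?_)⟩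
  have h1 : ‖M z‖ ≤ (1 + ‖M‖) * ‖z‖ := (M.le_opNorm z).trans
    (mul_le_mul_of_nonneg_right (by linarith) (norm_nonneg _))
  have h2 : ‖M z‖ ^ 3 ≤ (1 + ‖M‖) ^ 3 * ‖z‖ ^ 3 := by
    rw [← mul_pow]
    exact pow_le_pow_left₀ (norm_nonneg _) h1 3
  have h3 : (1 : ℝ) ≤ (1 + ‖M‖) ^ 3 := one_le_pow₀ (by linarith [norm_nonneg M])
  rw [mul_assoc]
  apply mul_le_mul_of_nonneg_left _ hC
  nlinarith [norm_nonneg z]

theorem coeff_rename_alg {V V' : Type} (e : V → V') (he : Function.Injective e)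
    {p : MvPolynomial V ℂ} (hp : ∀ m, IsAlgebraic ℚ (p.coeff m)) (m : V' →₀ ℕ) :
    IsAlgebraic ℚ ((rename e p).coeff m) := by
  by_cases h : (rename e p).coeff m = 0
  · rw [h]; exact isAlgebraic_zero
  · obtain ⟨u, hu, -⟩ := coeff_rename_ne_zero _ _ _ h
    rw [← hu, coeff_rename_mapDomain e he]
    exact hp u

section Proj

variable (ι ι' : Type) [Fintype ι] [Fintype ι']

/-- the first projection -/
def P1 : (ι ⊕ ι' → ℂ) →L[ℂ] (ι → ℂ) := ContinuousLinearMap.pi fun i =>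
  ContinuousLinearMap.proj (Sum.inl i)

/-- the second projection -/
def P2 : (ι ⊕ ι' → ℂ) →L[ℂ] (ι' → ℂ) := ContinuousLinearMap.pi fun i =>
  ContinuousLinearMap.proj (Sum.inr i)

variable {ι ι'}

@[simp] theorem P1_apply (z : ι ⊕ ι' → ℂ) (i : ι) : P1 ι ι' z i = z (Sum.inl i) := rfl

@[simp] theorem P2_apply (z : ι ⊕ ι' → ℂ) (i : ι') : P2 ι ι' z i = z (Sum.inr i) := rfl

variable [DecidableEq ι] [DecidableEq ι']

theorem P1_single_inl (j : ι) : P1 ι ι' (Pi.single (Sum.inl j) 1) = Pi.single j 1 := by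
  funext i
  rw [P1_apply]
  by_cases h : i = j
  · subst h; simp
  · rw [Pi.single_eq_of_ne h, Pi.single_eq_of_ne (by simpa using h)]

theorem P1_single_inr (j : ι') : P1 ι ι' (Pi.single (Sum.inr j) 1) = 0 := by
  funext i
  rw [P1_apply, Pi.single_eq_of_ne (by simp)]
  rfl

theorem P2_single_inr (j : ι') : P2 ι ι' (Pi.single (Sum.inr j) 1) = Pi.single j 1 := by
  funext i
  rw [P2_apply]
  by_cases h : i = j
  · subst h; simp
  · rw [Pi.single_eq_of_ne h, Pi.single_eq_of_ne (by simpa using h)]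

theorem P2_single_inl (j : ι) : P2 ι ι' (Pi.single (Sum.inl j) 1) = 0 := by
  funext i
  rw [P2_apply, Pi.single_eq_of_ne (by simp)]
  rfl

omit [DecidableEq ι] [DecidableEq ι'] in
theorem fderiv_P1 {f : (ι → ℂ) → ℂ} {z : ι ⊕ ι' → ℂ} (hf : AnalyticAt ℂ f (P1 ι ι' z))
    (v : ι ⊕ ι' → ℂ) : fderiv ℂ (fun z => f (P1 ι ι' z)) z v =
      fderiv ℂ f (P1 ι ι' z) (P1 ι ι' v) := by
  have h1 := (hf.differentiableAt.hasFDerivAt).comp z (P1 ι ι').hasFDerivAt
  have h2 : fderiv ℂ (fun z => f (P1 ι ι' z)) z = (fderiv ℂ f (P1 ι ι' z)).comp (P1 ι ι') :=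
    h1.fderiv
  rw [h2]
  rfl

omit [DecidableEq ι] [DecidableEq ι'] in
theorem fderiv_P2 {f : (ι' → ℂ) → ℂ} {z : ι ⊕ ι' → ℂ} (hf : AnalyticAt ℂ f (P2 ι ι' z))
    (v : ι ⊕ ι' → ℂ) : fderiv ℂ (fun z => f (P2 ι ι' z)) z v =
      fderiv ℂ f (P2 ι ι' z) (P2 ι ι' v) := by
  have h1 := (hf.differentiableAt.hasFDerivAt).comp z (P2 ι ι').hasFDerivAt
  have h2 : fderiv ℂ (fun z => f (P2 ι ι' z)) z = (fderiv ℂ f (P2 ι ι' z)).comp (P2 ι ι') :=
    h1.fderiv
  rw [h2]
  rfl

end Proj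

namespace Dat

variable {ι κ ι' κ' : Type} [Fintype ι] [Fintype κ] [DecidableEq ι] [DecidableEq κ]
  [Fintype ι'] [Fintype κ'] [DecidableEq ι'] [DecidableEq κ']
  {W W' : Type} [AddCommGroup W] [Module ℚ W] [AddCommGroup W'] [Module ℚ W']

/-- combination of linear maps to spaces of functions -/
def sumMap {α β : Type} (p : W →ₗ[ℚ] (α → ℂ)) (p' : W' →ₗ[ℚ] (β → ℂ)) :
    W × W' →ₗ[ℚ] (α ⊕ β → ℂ) where
  toFun w := Sum.elim (p w.1) (p' w.2)
  map_add' w w' := by
    funext i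
    rcases i with i | i <;> simp
  map_smul' c w := by
    funext i
    rcases i with i | i <;> simp

@[simp] theorem sumMap_inl {α β : Type} (p : W →ₗ[ℚ] (α → ℂ)) (p' : W' →ₗ[ℚ] (β → ℂ))
    (w : W × W') (i : α) : sumMap p p' w (Sum.inl i) = p w.1 i := rfl

@[simp] theorem sumMap_inr {α β : Type} (p : W →ₗ[ℚ] (α → ℂ)) (p' : W' →ₗ[ℚ] (β → ℂ))
    (w : W × W') (i : β) : sumMap p p' w (Sum.inr i) = p' w.2 i := rfl

/-- the product -/
def prod (d : Dat ι κ W) (d' : Dat ι' κ' W') : Dat (ι ⊕ ι') (κ ⊕ κ') (W × W') where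
  per := sumMap d.per d'.per
  eta := sumMap d.eta d'.eta
  Λ := d.Λ.prod d'.Λ
  full := by
    rintro ⟨w, w'⟩
    obtain ⟨m, hm, h⟩ := d.full w
    obtain ⟨m', hm', h'⟩ := d'.full w'
    refine ⟨m * m', Nat.mul_pos hm hm', ?_, ?_⟩
    · change (m * m') • w ∈ d.Λ
      rw [mul_comm, mul_smul]
      exact d.Λ.nsmul_mem h _
    · change (m * m') • w' ∈ d'.Λ
      rw [mul_smul]
      exact d'.Λ.nsmul_mem h' _
  V := d.V ⊕ d'.V
  f := Sum.elim (fun p z => d.f p (P1 ι ι' z)) (fun p z => d'.f p (P2 ι ι' z))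
  h := Sum.elim (fun p z => d.h p (P1 ι ι' z)) (fun p z => d'.h p (P2 ι ι' z))
  O := (P1 ι ι') ⁻¹' d.O ∩ (P2 ι ι') ⁻¹' d'.O
  isOpen_O := (d.isOpen_O.preimage (P1 ι ι').continuous).inter
    (d'.isOpen_O.preimage (P2 ι ι').continuous)
  zero_mem := ⟨by rw [Set.mem_preimage, map_zero]; exact d.zero_mem,
    by rw [Set.mem_preimage, map_zero]; exact d'.zero_mem⟩
  add_mem := by
    rintro ⟨w, w'⟩ ⟨hw, hw'⟩ z ⟨hz, hz'⟩
    refine ⟨?_, ?_⟩
    · rw [Set.mem_preimage, map_add]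
      exact d.add_mem w hw _ hz
    · rw [Set.mem_preimage, map_add]
      exact d'.add_mem w' hw' _ hz'
  an_f := by
    rintro (p | p) z ⟨hz, hz'⟩
    · exact (d.an_f p _ hz).comp ((P1 ι ι').analyticAt z)
    · exact (d'.an_f p _ hz').comp ((P2 ι ι').analyticAt z)
  an_h := by
    rintro (p | p) z ⟨hz, hz'⟩
    · exact (d.an_h p _ hz).comp ((P1 ι ι').analyticAt z)
    · exact (d'.an_h p _ hz').comp ((P2 ι ι').analyticAt z)
  f_per := by
    rintro ⟨w, w'⟩ ⟨hw, hw'⟩ z ⟨hz, hz'⟩ (p | p)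
    · simp only [Sum.elim_inl, map_add]
      exact d.f_per w hw _ hz p
    · simp only [Sum.elim_inr, map_add]
      exact d'.f_per w' hw' _ hz' p
  h_per := by
    rintro ⟨w, w'⟩ ⟨hw, hw'⟩ z ⟨hz, hz'⟩ (p | p)
    · simp only [Sum.elim_inl, map_add]
      exact d.h_per w hw _ hz p
    · simp only [Sum.elim_inr, map_add]
      exact d'.h_per w' hw' _ hz' p
  δ := Sum.elim
    (fun j => Sum.elim (fun p => rename Sum.inl (d.δ j p)) (fun _ => 0))
    (fun j => Sum.elim (fun _ => 0) (fun p => rename Sum.inr (d'.δ j p)))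
  δ_alg := by
    rintro (j | j) (p | p) m
    · exact coeff_rename_alg _ Sum.inl_injective (d.δ_alg j p) m
    · change IsAlgebraic ℚ (coeff m (0 : MvPolynomial (d.V ⊕ d'.V) ℂ))
      rw [coeff_zero]
      exact isAlgebraic_zero
    · change IsAlgebraic ℚ (coeff m (0 : MvPolynomial (d.V ⊕ d'.V) ℂ))
      rw [coeff_zero]
      exact isAlgebraic_zero
    · exact coeff_rename_alg _ Sum.inr_injective (d'.δ_alg j p) m
  δ_deg := by
    rintro (j | j) (p | p)
    · exact (totalDegree_rename_le _ _).trans (d.δ_deg j p)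
    · change totalDegree (0 : MvPolynomial (d.V ⊕ d'.V) ℂ) ≤ 2
      rw [totalDegree_zero]
      exact Nat.zero_le _
    · change totalDegree (0 : MvPolynomial (d.V ⊕ d'.V) ℂ) ≤ 2
      rw [totalDegree_zero]
      exact Nat.zero_le _
    · exact (totalDegree_rename_le _ _).trans (d'.δ_deg j p)
  δ_D := by
    rintro (j | j) (p | p) z ⟨hz, hz'⟩
    · simp only [Sum.elim_inl]
      rw [fderiv_P1 (d.an_f p _ hz), P1_single_inl, d.δ_D j p _ hz, eval_rename]
      rfl
    · simp only [Sum.elim_inl, Sum.elim_inr]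
      rw [fderiv_P2 (d'.an_f p _ hz'), P2_single_inl, map_zero, map_zero]
    · simp only [Sum.elim_inl, Sum.elim_inr]
      rw [fderiv_P1 (d.an_f p _ hz), P1_single_inr, map_zero, map_zero]
    · simp only [Sum.elim_inr]
      rw [fderiv_P2 (d'.an_f p _ hz'), P2_single_inr, d'.δ_D j p _ hz', eval_rename]
      rfl
  ε := Sum.elim
    (fun j => Sum.elim (fun p => rename Sum.inl (d.ε j p)) (fun _ => 0))
    (fun j => Sum.elim (fun _ => 0) (fun p => rename Sum.inr (d'.ε j p)))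
  ε_alg := by
    rintro (j | j) (p | p) m
    · exact coeff_rename_alg _ Sum.inl_injective (d.ε_alg j p) m
    · change IsAlgebraic ℚ (coeff m (0 : MvPolynomial (d.V ⊕ d'.V) ℂ))
      rw [coeff_zero]
      exact isAlgebraic_zero
    · change IsAlgebraic ℚ (coeff m (0 : MvPolynomial (d.V ⊕ d'.V) ℂ))
      rw [coeff_zero]
      exact isAlgebraic_zero
    · exact coeff_rename_alg _ Sum.inr_injective (d'.ε_alg j p) m
  ε_deg := by
    rintro (j | j) (p | p)
    · exact (totalDegree_rename_le _ _).trans (d.ε_deg j p)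
    · change totalDegree (0 : MvPolynomial (d.V ⊕ d'.V) ℂ) ≤ 2
      rw [totalDegree_zero]
      exact Nat.zero_le _
    · change totalDegree (0 : MvPolynomial (d.V ⊕ d'.V) ℂ) ≤ 2
      rw [totalDegree_zero]
      exact Nat.zero_le _
    · exact (totalDegree_rename_le _ _).trans (d'.ε_deg j p)
  ε_D := by
    rintro (j | j) (p | p) z ⟨hz, hz'⟩
    · simp only [Sum.elim_inl]
      rw [fderiv_P1 (d.an_h p _ hz), P1_single_inl, d.ε_D j p _ hz, eval_rename]
      rfl
    · simp only [Sum.elim_inl, Sum.elim_inr]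
      rw [fderiv_P2 (d'.an_h p _ hz'), P2_single_inl, map_zero, map_zero]
    · simp only [Sum.elim_inl, Sum.elim_inr]
      rw [fderiv_P1 (d.an_h p _ hz), P1_single_inr, map_zero, map_zero]
    · simp only [Sum.elim_inr]
      rw [fderiv_P2 (d'.an_h p _ hz'), P2_single_inr, d'.ε_D j p _ hz', eval_rename]
      rfl
  f_zero := by
    rintro (p | p)
    · simp only [Sum.elim_inl, map_zero]
      exact d.f_zero p
    · simp only [Sum.elim_inr, map_zero]
      exact d'.f_zero p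
  h_zero := by
    rintro (p | p)
    · simp only [Sum.elim_inl, map_zero]
      exact d.h_zero p
    · simp only [Sum.elim_inr, map_zero]
      exact d'.h_zero p
  Th := Sum.elim
    (Sum.elim (fun p z => d.Th (Sum.inl p) (P1 ι ι' z)) (fun p z => d'.Th (Sum.inl p) (P2 ι ι' z)))
    (Sum.elim (fun p z => d.Th (Sum.inr p) (P1 ι ι' z)) (fun p z => d'.Th (Sum.inr p) (P2 ι ι' z)))
  A := Sum.elim
    (Sum.elim (fun p z => d.A (Sum.inl p) (P1 ι ι' z)) (fun p z => d'.A (Sum.inl p) (P2 ι ι' z)))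
    (Sum.elim (fun p z => d.A (Sum.inr p) (P1 ι ι' z)) (fun p z => d'.A (Sum.inr p) (P2 ι ι' z)))
  Th_ent := by
    rintro ((p | p) | (p | p)) z -
    · exact (d.Th_ent _ _ trivial).comp ((P1 ι ι').analyticAt z)
    · exact (d'.Th_ent _ _ trivial).comp ((P2 ι ι').analyticAt z)
    · exact (d.Th_ent _ _ trivial).comp ((P1 ι ι').analyticAt z)
    · exact (d'.Th_ent _ _ trivial).comp ((P2 ι ι').analyticAt z)
  A_ent := by
    rintro ((p | p) | (p | p)) z -
    · exact (d.A_ent _ _ trivial).comp ((P1 ι ι').analyticAt z)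
    · exact (d'.A_ent _ _ trivial).comp ((P2 ι ι').analyticAt z)
    · exact (d.A_ent _ _ trivial).comp ((P1 ι ι').analyticAt z)
    · exact (d'.A_ent _ _ trivial).comp ((P2 ι ι').analyticAt z)
  Th_gr := by
    rintro ((p | p) | (p | p))
    · exact gr_comp' (d.Th_gr _) _
    · exact gr_comp' (d'.Th_gr _) _
    · exact gr_comp' (d.Th_gr _) _
    · exact gr_comp' (d'.Th_gr _) _
  A_gr := by
    rintro ((p | p) | (p | p))
    · exact gr_comp' (d.A_gr _) _
    · exact gr_comp' (d'.A_gr _) _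
    · exact gr_comp' (d.A_gr _) _
    · exact gr_comp' (d'.A_gr _) _
  Th_ne := by
    rintro ((p | p) | (p | p)) z ⟨hz, hz'⟩
    · exact d.Th_ne _ _ hz
    · exact d'.Th_ne _ _ hz'
    · exact d.Th_ne _ _ hz
    · exact d'.Th_ne _ _ hz'
  Th_mul := by
    rintro ((p | p) | (p | p)) z ⟨hz, hz'⟩
    · exact d.Th_mul (Sum.inl p) _ hz
    · exact d'.Th_mul (Sum.inl p) _ hz'
    · exact d.Th_mul (Sum.inr p) _ hz
    · exact d'.Th_mul (Sum.inr p) _ hz'
  imm := by
    intro v hv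
    have h1 : P1 ι ι' v = 0 := by
      apply d.imm
      intro p
      have h := hv (Sum.inl p)
      simp only [Sum.elim_inl] at h
      rw [fderiv_P1 (by rw [map_zero]; exact d.an_f p _ d.zero_mem), map_zero] at h
      exact h
    have h2 : P2 ι ι' v = 0 := by
      apply d'.imm
      intro p
      have h := hv (Sum.inr p)
      simp only [Sum.elim_inr] at h
      rw [fderiv_P2 (by rw [map_zero]; exact d'.an_f p _ d'.zero_mem), map_zero] at h
      exact h
    funext i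
    rcases i with i | i
    · exact congrFun h1 i
    · exact congrFun h2 i

end Dat

end Pool.Agent.Y102
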