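import Pool.Agent.H86.CMLib.Y102.DRB
import Pool.Agent.H86.CMLib.Y102.Prod

set_option autoImplicit false
set_option linter.unusedSectionVars false

/-!
# Bost's theorem: de Rham-Betti subspaces and endomorphisms
-/

open Filter Topology Module MvPolynomial

noncomputable section

namespace Pool.Agent.Y102

open Pool.Agent.W516.DR

/-- a linear map defined on an independent family -/
theorem exists_lin {F T S ν : Type*} [Field F] [AddCommGroup T] [Module F T] [AddCommGroup S]
    [Module F S] {v : ν → T} (hv : LinearIndependent F v) (s : ν → S) :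
    ∃ G : T →ₗ[F] S, ∀ i, G (v i) = s i := by
  obtain ⟨G, hG⟩ := LinearMap.exists_extend ((Basis.span hv).constr F s)
  refine ⟨G, fun i => ?_⟩
  have h1 : (v i) = ((Submodule.span F (Set.range v)).subtype (Basis.span hv i)) := by
    rw [Submodule.subtype_apply, Basis.span_apply]
  rw [h1, ← LinearMap.comp_apply, hG, Basis.constr_basis]

namespace Dat

variable {ι κ : Type} [Fintype ι] [Fintype κ] [DecidableEq ι] [DecidableEq κ] {W : Type}
  [AddCommGroup W] [Module ℚ W] (d : Dat ι κ W)

theorem indepR {ν : Type} (b : Basis ν ℚ W)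
    (hb : LinearIndependent ℝ (fun i => d.per (b i))) (m : ℕ) (w : Fin m → W)
    (hw : LinearIndependent ℚ w) : LinearIndependent ℝ (fun i => d.per (w i)) := by
  classical
  rw [Fintype.linearIndependent_iff]
  intro c hc k
  obtain ⟨F, hF⟩ := exists_lin hw (fun i => if i = k then (1 : ℝ) else 0)
  obtain ⟨G, hG⟩ := exists_lin hb (fun j => F (b j))
  have h1 : ∀ v, G (d.per v) = F v := by
    have h2 : (G.restrictScalars ℚ).comp d.per = F := b.ext fun j => hG j
    exact fun v => congrArg (fun H : W →ₗ[ℚ] ℝ => H v) h2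
  have h2 := congrArg G hc
  rw [map_sum, map_zero, Finset.sum_eq_single k] at h2
  · rw [map_smul, h1, hF, if_pos rfl, smul_eq_mul, mul_one] at h2
    exact h2
  · intro j _ hj
    rw [map_smul, h1, hF, if_neg hj, smul_zero]
  · intro h
    exact absurd (Finset.mem_univ _) h

theorem indepC (hsp : Submodule.span ℂ (Set.range d.pp) = ⊤) (m : ℕ) (w : Fin m → W)
    (hw : LinearIndependent ℚ w) : LinearIndependent ℂ (fun i => (d.per (w i), d.eta (w i))) := by
  classical
  rw [Fintype.linearIndependent_iff]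
  intro c hc k
  obtain ⟨F, hF⟩ := exists_lin hw (fun i => if i = k then (1 : ℂ) else 0)
  have h1 : F ∈ Submodule.span ℂ (Set.range d.pp) := by rw [hsp]; trivial
  obtain ⟨a, ha⟩ := (Submodule.mem_span_range_iff_exists_fun ℂ).1 h1
  have h2 : ∀ i, ∑ j, c j * d.pp i (w j) = 0 := by
    rintro (i | i)
    · have h3 := congrFun (congrArg Prod.fst hc) i
      rw [Prod.fst_sum, Finset.sum_apply] at h3
      simpa using h3
    · have h3 := congrFun (congrArg Prod.snd hc) i
      rw [Prod.snd_sum, Finset.sum_apply] at h3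
      simpa using h3
  have h3 : ∑ j, c j * F (w j) = 0 := by
    rw [← ha]
    simp only [LinearMap.sum_apply, LinearMap.smul_apply, smul_eq_mul, Finset.mul_sum]
    rw [Finset.sum_comm]
    refine Finset.sum_eq_zero fun i _ => ?_
    have h4 : ∀ j, c j * (a i * d.pp i (w j)) = a i * (c j * d.pp i (w j)) := fun j => by ring
    rw [Finset.sum_congr rfl fun j _ => h4 j, ← Finset.mul_sum, h2, mul_zero]
  rw [Finset.sum_eq_single k] at h3
  · rw [hF, if_pos rfl, mul_one] at h3
    exact h3
  · intro j _ hj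
    rw [hF, if_neg hj, mul_zero]
  · intro h
    exact absurd (Finset.mem_univ _) h

variable {K : Type} [Field K] [Algebra K ℂ] (hK : ∀ x : K, IsAlgebraic ℚ (algebraMap K ℂ x))

include hK in
/-- **A de Rham-Betti subspace is a complex subspace.** -/
theorem hodge_sub [FiniteDimensional ℚ W] {ν : Type} (b : Basis ν ℚ W)
    (hb : LinearIndependent ℝ (fun i => d.per (b i)))
    (hdim : finrank ℚ W = 2 * Fintype.card ι)
    (hsp : Submodule.span ℂ (Set.range d.pp) = ⊤)
    (U : Submodule ℚ W) (hU : IsDeRhamBettiSubspace K d.pp U) :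
    ∃ T : Submodule ℂ (ι → ℂ), finrank ℚ U = 2 * finrank ℂ T ∧ ∀ w, w ∈ U ↔ d.per w ∈ T := by
  rcases Nat.eq_zero_or_pos (finrank ℚ U) with h0 | h0
  · refine ⟨⊥, by rw [h0, finrank_bot], fun w => ?_⟩
    rw [Submodule.finrank_eq_zero.1 h0, Submodule.mem_bot, Submodule.mem_bot]
    constructor
    · rintro rfl
      exact map_zero _
    · intro h
      by_contra hw
      have h1 := d.indepR b hb 1 (fun _ => w) (by
        rw [linearIndependent_unique_iff]
        exact hw)
      rw [linearIndependent_unique_iff] at h1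
      exact h1 h
  · obtain ⟨s, hs⟩ := d.exists_Sb hK hsp U hU h0
    obtain ⟨h1, h2, h3⟩ := s.main hdim (d.indepR b hb) (d.indepC hsp)
    refine ⟨s.T, h1, fun w => ?_⟩
    rw [← s.mem_W', h3, hs]

/-! ### Products -/

variable {ι' κ' : Type} [Fintype ι'] [Fintype κ'] [DecidableEq ι'] [DecidableEq κ'] {W' : Type}
  [AddCommGroup W'] [Module ℚ W'] (d' : Dat ι' κ' W')

theorem indep_prod {ν ν' : Type} [Fintype ν] [Fintype ν'] (b : Basis ν ℚ W) (b' : Basis ν' ℚ W')
    (hb : LinearIndependent ℝ (fun i => d.per (b i)))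
    (hb' : LinearIndependent ℝ (fun i => d'.per (b' i))) :
    LinearIndependent ℝ (fun i => (d.prod d').per ((b.prod b') i)) := by
  rw [Fintype.linearIndependent_iff]
  intro c hc
  have h0 : ∀ i, (b.prod b') (Sum.inl i) = (b i, 0) := fun i => by simp
  have h0' : ∀ i, (b.prod b') (Sum.inr i) = (0, b' i) := fun i => by simp
  rw [Fintype.sum_sum_type] at hc
  simp only [h0, h0'] at hc
  have h1 : ∑ i, c (Sum.inl i) • d.per (b i) = 0 := by
    funext j
    have h2 := congrFun hc (Sum.inl j)
    rw [Pi.add_apply, Finset.sum_apply, Finset.sum_apply] at h2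
    rw [Finset.sum_apply]
    change ∑ i, c (Sum.inl i) • d.per (b i) j + ∑ i, c (Sum.inr i) • d.per 0 j = 0 at h2
    rw [map_zero] at h2
    simpa using h2
  have h2 : ∑ i, c (Sum.inr i) • d'.per (b' i) = 0 := by
    funext j
    have h2 := congrFun hc (Sum.inr j)
    rw [Pi.add_apply, Finset.sum_apply, Finset.sum_apply] at h2
    rw [Finset.sum_apply]
    change ∑ i, c (Sum.inl i) • d'.per 0 j + ∑ i, c (Sum.inr i) • d'.per (b' i) j = 0 at h2
    rw [map_zero] at h2
    simpa using h2
  rintro (i | i)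
  · exact Fintype.linearIndependent_iff.1 hb _ h1 i
  · exact Fintype.linearIndependent_iff.1 hb' _ h2 i

theorem span_prod (hsp : Submodule.span ℂ (Set.range d.pp) = ⊤)
    (hsp' : Submodule.span ℂ (Set.range d'.pp) = ⊤) :
    Submodule.span ℂ (Set.range (d.prod d').pp) = ⊤ := by
  rw [eq_top_iff]
  rintro F -
  have h1 : F.comp (LinearMap.inl ℚ W W') ∈ Submodule.span ℂ (Set.range d.pp) := by
    rw [hsp]; trivial
  have h2 : F.comp (LinearMap.inr ℚ W W') ∈ Submodule.span ℂ (Set.range d'.pp) := by
    rw [hsp']; trivial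
  obtain ⟨a, ha⟩ := (Submodule.mem_span_range_iff_exists_fun ℂ).1 h1
  obtain ⟨a', ha'⟩ := (Submodule.mem_span_range_iff_exists_fun ℂ).1 h2
  have h3 : F = ∑ i, a i • (d.prod d').pp (Sum.map Sum.inl Sum.inl i) +
      ∑ i, a' i • (d.prod d').pp (Sum.map Sum.inr Sum.inr i) := by
    refine LinearMap.ext fun w => ?_
    have h4 : F w = F.comp (LinearMap.inl ℚ W W') w.1 + F.comp (LinearMap.inr ℚ W W') w.2 := by
      rw [LinearMap.comp_apply, LinearMap.comp_apply, ← map_add]
      congr 1
      ext <;> simp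
    rw [h4, ← ha, ← ha', LinearMap.add_apply, LinearMap.sum_apply, LinearMap.sum_apply,
      LinearMap.sum_apply, LinearMap.sum_apply]
    congr 1
    · refine Finset.sum_congr rfl fun i _ => ?_
      rcases i with i | i <;> rfl
    · refine Finset.sum_congr rfl fun i _ => ?_
      rcases i with i | i <;> rfl
  rw [h3]
  exact Submodule.add_mem _
    (Submodule.sum_mem _ fun i _ => Submodule.smul_mem _ _ (Submodule.subset_span ⟨_, rfl⟩))
    (Submodule.sum_mem _ fun i _ => Submodule.smul_mem _ _ (Submodule.subset_span ⟨_, rfl⟩))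

/-- The graph of a homomorphism of de Rham-Betti objects. -/
theorem graph_drb [FiniteDimensional ℚ W] (hli : LinearIndependent ℂ d.pp)
    (hsp : Submodule.span ℂ (Set.range d.pp) = ⊤) (P : W →ₗ[ℚ] W')
    (hP : ∃ a : ι' ⊕ κ' → ι ⊕ κ → K, ∀ i w, d'.pp i (P w) =
      ∑ j, algebraMap K ℂ (a i j) * d.pp j w) :
    IsDeRhamBettiSubspace K (d.prod d').pp P.graph := by
  classical
  obtain ⟨a, ha⟩ := hP
  -- the parametrization of the graph
  let e : W ≃ₗ[ℚ] P.graph := LinearEquiv.ofBijective
    ((LinearMap.id.prod P).codRestrict P.graph fun w => by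
      rw [LinearMap.mem_graph_iff]; rfl) ⟨by
        intro w w' h
        exact congrArg (fun x : P.graph => x.1.1) h, by
        rintro ⟨⟨w, w'⟩, h⟩
        rw [LinearMap.mem_graph_iff] at h
        exact ⟨w, Subtype.ext (Prod.ext rfl h.symm)⟩⟩
  have he : ∀ w, (e w : W × W') = (w, P w) := fun w => rfl
  have hfin : finrank ℚ P.graph = finrank ℚ W := e.finrank_eq.symm
  have hfinW : finrank ℚ W = Fintype.card (ι ⊕ κ) := by
    have h1 := Module.finrank_eq_card_basis (Basis.mk hli hsp.ge)
    rwa [Module.finrank_linearMap_self] at h1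
  let s : ι ⊕ κ → P.graph → ℂ := fun i u => d.pp i u.1.1
  have hs : LinearIndependent K s := by
    rw [Fintype.linearIndependent_iff]
    intro c hc i
    have h1 : ∑ i, algebraMap K ℂ (c i) • d.pp i = 0 := by
      refine LinearMap.ext fun w => ?_
      have h2 := congrFun hc (e w)
      rw [Finset.sum_apply] at h2
      simp only [Pi.smul_apply, Algebra.smul_def] at h2
      rw [LinearMap.sum_apply]
      exact h2
    have h2 := Fintype.linearIndependent_iff.1 hli _ h1 i
    exact (map_eq_zero _).1 h2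
  have hspan : Submodule.span K (Set.range fun (i : (ι ⊕ ι') ⊕ (κ ⊕ κ')) (u : P.graph) =>
      (d.prod d').pp i u) = Submodule.span K (Set.range s) := by
    have hP2 : ∀ i (u : P.graph), d'.pp i u.1.2 = ∑ j, algebraMap K ℂ (a i j) * d.pp j u.1.1 := by
      intro i u
      have h1 : u.1.2 = P u.1.1 := (LinearMap.mem_graph_iff P _).1 u.2
      rw [h1, ha]
    have hmem : ∀ i, (fun (u : P.graph) => d'.pp i u.1.2) ∈ Submodule.span K (Set.range s) := by
      intro i
      have h1 : (fun (u : P.graph) => d'.pp i u.1.2) = ∑ j, a i j • s j := by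
        funext u
        rw [Finset.sum_apply, hP2]
        simp only [Pi.smul_apply, Algebra.smul_def, s]
      rw [h1]
      exact Submodule.sum_mem _ fun j _ => Submodule.smul_mem _ _ (Submodule.subset_span ⟨j, rfl⟩)
    apply le_antisymm
    · rw [Submodule.span_le]
      rintro _ ⟨(i | i) | (i | i), rfl⟩
      · exact Submodule.subset_span ⟨Sum.inl i, rfl⟩
      · exact hmem (Sum.inl i)
      · exact Submodule.subset_span ⟨Sum.inr i, rfl⟩
      · exact hmem (Sum.inr i)
    · apply Submodule.span_mono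
      rintro _ ⟨i | i, rfl⟩
      · exact ⟨Sum.inl (Sum.inl i), rfl⟩
      · exact ⟨Sum.inr (Sum.inl i), rfl⟩
  unfold IsDeRhamBettiSubspace
  rw [hspan, finrank_span_eq_card hs, hfin, hfinW]

include hK in
/-- **A homomorphism of de Rham-Betti objects is a homomorphism of Hodge structures.** -/
theorem hodge_hom [FiniteDimensional ℚ W] [FiniteDimensional ℚ W'] {ν ν' : Type} [Fintype ν]
    [Fintype ν'] (b : Basis ν ℚ W) (b' : Basis ν' ℚ W')
    (hb : LinearIndependent ℝ (fun i => d.per (b i)))
    (hb' : LinearIndependent ℝ (fun i => d'.per (b' i)))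
    (hdim : finrank ℚ W = 2 * Fintype.card ι) (hdim' : finrank ℚ W' = 2 * Fintype.card ι')
    (hli : LinearIndependent ℂ d.pp)
    (hsp : Submodule.span ℂ (Set.range d.pp) = ⊤)
    (hsp' : Submodule.span ℂ (Set.range d'.pp) = ⊤) (P : W →ₗ[ℚ] W')
    (hP : ∃ a : ι' ⊕ κ' → ι ⊕ κ → K, ∀ i w, d'.pp i (P w) =
      ∑ j, algebraMap K ℂ (a i j) * d.pp j w) :
    ∃ Q : (ι → ℂ) →ₗ[ℂ] (ι' → ℂ), ∀ w, d'.per (P w) = Q (d.per w) := by
  classical
  have hfin : finrank ℚ P.graph = finrank ℚ W := by
    let e : W ≃ₗ[ℚ] P.graph := LinearEquiv.ofBijective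
      ((LinearMap.id.prod P).codRestrict P.graph fun w => by
        rw [LinearMap.mem_graph_iff]; rfl) ⟨by
          intro w w' h
          exact congrArg (fun x : P.graph => x.1.1) h, by
          rintro ⟨⟨w, w'⟩, h⟩
          rw [LinearMap.mem_graph_iff] at h
          exact ⟨w, Subtype.ext (Prod.ext rfl h.symm)⟩⟩
    exact e.finrank_eq.symm
  obtain ⟨T, hT1, hT2⟩ := (d.prod d').hodge_sub hK (b.prod b') (d.indep_prod d' b b' hb hb')
    (by rw [Module.finrank_prod, hdim, hdim', Fintype.card_sum]; ring)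
    (d.span_prod d' hsp hsp') P.graph (d.graph_drb d' hli hsp P hP)
  have hTdim : finrank ℂ T = Fintype.card ι := by
    rw [hfin, hdim] at hT1
    omega
  -- the first projection is an isomorphism
  let p : T →ₗ[ℂ] (ι → ℂ) := (P1 ι ι').toLinearMap.comp T.subtype
  have hsurj : Function.Surjective p := by
    rw [← LinearMap.range_eq_top]
    have h1 : ∀ w, d.per w ∈ LinearMap.range p := by
      intro w
      have h2 : (d.prod d').per (w, P w) ∈ T := by
        rw [← hT2, LinearMap.mem_graph_iff]
      exact ⟨⟨_, h2⟩, rfl⟩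
    have h2 : finrank ℝ (Submodule.span ℝ (Set.range fun i => d.per (b i))) =
        2 * Fintype.card ι := by
      rw [finrank_span_eq_card hb, ← hdim, Module.finrank_eq_card_basis b]
    have h3 : Submodule.span ℝ (Set.range fun i => d.per (b i)) = ⊤ := by
      apply Submodule.eq_top_of_finrank_eq
      rw [h2, ← Module.finrank_mul_finrank ℝ ℂ (ι → ℂ), Complex.finrank_real_complex,
        Module.finrank_pi]
    have h4 : Submodule.span ℝ (Set.range fun i => d.per (b i)) ≤
        (LinearMap.range p).restrictScalars ℝ := by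
      rw [Submodule.span_le]
      rintro _ ⟨i, rfl⟩
      exact h1 _
    rw [h3] at h4
    rw [eq_top_iff]
    intro x _
    exact h4 (Submodule.mem_top : x ∈ (⊤ : Submodule ℝ (ι → ℂ)))
  have hbij : Function.Bijective p := by
    refine ⟨?_, hsurj⟩
    rw [LinearMap.injective_iff_surjective_of_finrank_eq_finrank]
    · exact hsurj
    · rw [hTdim, Module.finrank_pi]
  let q := LinearEquiv.ofBijective p hbij
  refine ⟨((P2 ι ι').toLinearMap.comp T.subtype).comp q.symm.toLinearMap, fun w => ?_⟩
  have h2 : (d.prod d').per (w, P w) ∈ T := by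
    rw [← hT2, LinearMap.mem_graph_iff]
  have h3 : q ⟨_, h2⟩ = d.per w := rfl
  rw [← h3]
  simp only [LinearMap.comp_apply, LinearEquiv.coe_coe, LinearEquiv.symm_apply_apply]
  rfl

end Dat

end Pool.Agent.Y102
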