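import Mathlib

set_option autoImplicit false

/-!
# Real lines in the closures of subgroups, and algebraic independence of functions with
# linearly independent differentials
-/

open Filter Topology Module

noncomputable section

namespace Pool.Agent.Y102

/-- The closure of a subgroup with small nonzero elements contains a line. -/
theorem exists_line {E : Type*} [NormedAddCommGroup E] [NormedSpace ℝ E] [FiniteDimensional ℝ E]
    (G : AddSubgroup E) (h : ∀ ε : ℝ, 0 < ε → ∃ q ∈ G, q ≠ 0 ∧ ‖q‖ < ε) :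
    ∃ w : E, w ≠ 0 ∧ ∀ s : ℝ, s • w ∈ closure (G : Set E) := by
  have h1 : ∀ n : ℕ, ∃ q ∈ G, q ≠ 0 ∧ ‖q‖ < 1 / ((n : ℝ) + 1) := fun n =>
    h _ Nat.one_div_pos_of_nat
  choose q hqG hq0 hq using h1
  have hpos : ∀ n, 0 < ‖q n‖ := fun n => norm_pos_iff.2 (hq0 n)
  have hu : ∀ n, (‖q n‖⁻¹ • q n) ∈ Metric.sphere (0 : E) 1 := by
    intro n
    rw [mem_sphere_zero_iff_norm, norm_smul, norm_inv, norm_norm,
      inv_mul_cancel₀ (hpos n).ne']
  obtain ⟨w, hw, φ, hφ, hlim⟩ := (isCompact_sphere (0 : E) 1).tendsto_subseq hu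
  have hqlim : Tendsto (fun n => ‖q n‖) atTop (𝓝 0) :=
    squeeze_zero (fun n => norm_nonneg _) (fun n => (hq n).le)
      tendsto_one_div_add_atTop_nhds_zero_nat
  refine ⟨w, ?_, fun s => ?_⟩
  · intro hw0
    rw [hw0, mem_sphere_zero_iff_norm, norm_zero] at hw
    exact zero_ne_one hw
  · refine mem_closure_of_tendsto (f := fun n => ⌊s / ‖q (φ n)‖⌋ • q (φ n)) (b := atTop) ?_
      (Eventually.of_forall fun n => G.zsmul_mem (hqG _) _)
    have h2 : Tendsto (fun n => s • (‖q (φ n)‖⁻¹ • q (φ n)) +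
        (⌊s / ‖q (φ n)‖⌋ • q (φ n) - s • (‖q (φ n)‖⁻¹ • q (φ n)))) atTop (𝓝 (s • w + 0)) := by
      refine (hlim.const_smul s).add ?_
      refine squeeze_zero_norm (fun n => ?_) (hqlim.comp hφ.tendsto_atTop)
      have h3 : ⌊s / ‖q (φ n)‖⌋ • q (φ n) - s • (‖q (φ n)‖⁻¹ • q (φ n)) =
          (-Int.fract (s / ‖q (φ n)‖)) • q (φ n) := by
        rw [← Int.cast_smul_eq_zsmul ℝ, smul_smul, ← sub_smul, ← div_eq_mul_inv]
        congr 1
        rw [Int.fract]
        ring
      rw [h3, norm_smul, norm_neg, Real.norm_eq_abs, abs_of_nonneg (Int.fract_nonneg _)]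
      calc Int.fract (s / ‖q (φ n)‖) * ‖q (φ n)‖ ≤ 1 * ‖q (φ n)‖ :=
            mul_le_mul_of_nonneg_right (Int.fract_lt_one _).le (norm_nonneg _)
        _ = _ := one_mul _
    simpa using h2

/-- A subgroup of large rank contains small nonzero elements. -/
theorem exists_small {E : Type*} [NormedAddCommGroup E] [NormedSpace ℝ E] [FiniteDimensional ℝ E]
    (G : AddSubgroup E) {N : ℕ} (y : Fin N → E) (hy : ∀ i, y i ∈ G) (hli : LinearIndependent ℤ y)
    (hN : finrank ℝ E < N) (ε : ℝ) (hε : 0 < ε) : ∃ q ∈ G, q ≠ 0 ∧ ‖q‖ < ε := by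
  by_contra hcon
  push Not at hcon
  have hsub : ∀ x ∈ Submodule.span ℤ (Set.range y), x ∈ G := by
    intro x hx
    induction hx using Submodule.span_induction with
    | mem x hx =>
      obtain ⟨i, rfl⟩ := hx
      exact hy i
    | zero => exact G.zero_mem
    | add a b _ _ ha hb => exact G.add_mem ha hb
    | smul c a _ ha => exact G.zsmul_mem ha c
  have hdisc : DiscreteTopology (Submodule.span ℤ (Set.range y)) := by
    apply discreteTopology_of_isOpen_singleton_zero
    rw [Metric.isOpen_iff]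
    intro x hx
    rw [Set.mem_singleton_iff] at hx
    refine ⟨ε, hε, fun z hz => ?_⟩
    rw [Set.mem_singleton_iff]
    rw [hx, mem_ball_zero_iff] at hz
    by_contra hz0
    have h1 := hcon z (hsub z z.2) (fun h => hz0 (Subtype.ext h))
    exact absurd hz (not_lt.2 h1)
  have h1 := Real.finrank_eq_int_finrank_of_discrete hdisc
  have h2 : Set.finrank ℤ (Set.range y) = N := by
    rw [Set.finrank, finrank_span_eq_card hli, Fintype.card_fin]
  have h3 : Set.finrank ℝ (Set.range y) ≤ finrank ℝ E := Submodule.finrank_le _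
  omega

/-- Functions with linearly independent differentials satisfy no polynomial relation. -/
theorem poly_zero_of_indep {E : Type*} [NormedAddCommGroup E] [NormedSpace ℂ E]
    [FiniteDimensional ℂ E] {I : Type} [Fintype I] (hm : finrank ℂ E = Fintype.card I)
    (F : I → E → ℂ)
    (hF : ∀ i, AnalyticAt ℂ (F i) 0) (hli : ∀ v : E, (∀ i, fderiv ℂ (F i) 0 v = 0) → v = 0)
    (P : MvPolynomial I ℂ)
    (hP : ∀ᶠ c in 𝓝 (0 : E), MvPolynomial.eval (fun i => F i c) P = 0) : P = 0 := by
  have _ : CompleteSpace E := FiniteDimensional.complete ℂ E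
  let Φ : E → (I → ℂ) := fun c i => F i c
  let Φ' : E →L[ℂ] (I → ℂ) := ContinuousLinearMap.pi fun i => fderiv ℂ (F i) 0
  have h1 : HasStrictFDerivAt Φ Φ' 0 := by
    rw [hasStrictFDerivAt_pi']
    intro i
    exact (hF i).hasStrictFDerivAt
  have hinj : Function.Injective Φ'.toLinearMap := by
    rw [injective_iff_map_eq_zero]
    intro v hv
    exact hli v fun i => congrFun hv i
  have hsurj : Φ'.toLinearMap.range = ⊤ := by
    rw [LinearMap.range_eq_top]
    exact (LinearMap.injective_iff_surjective_of_finrank_eq_finrank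
      (by rw [hm, Module.finrank_fintype_fun_eq_card])).1 hinj
  have h2 := h1.map_nhds_eq_of_surj hsurj
  have h3 : ∀ᶠ y in 𝓝 (Φ 0), MvPolynomial.eval y P = 0 := by
    rw [← h2, Filter.eventually_map]
    exact hP
  obtain ⟨ε, hε, hball⟩ := Metric.eventually_nhds_iff_ball.1 h3
  refine MvPolynomial.funext_set (fun i => Metric.ball (Φ 0 i) ε)
    (fun i => ?_) (fun x hx => ?_)
  · exact infinite_of_mem_nhds (Φ 0 i) (Metric.ball_mem_nhds _ hε)
  · rw [map_zero]
    apply hball
    rw [Metric.mem_ball, dist_pi_lt_iff hε]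
    intro i
    exact hx i (Set.mem_univ i)

/-- Extraction of a basis of functionals. -/
theorem exists_J {V : Type} {E : Type*} [AddCommGroup E] [Module ℂ E] [FiniteDimensional ℂ E]
    (l : V → Module.Dual ℂ E) (h : ∀ v : E, (∀ p, l p v = 0) → v = 0) {m : ℕ}
    (hm : finrank ℂ E = m) : ∃ J : Fin m → V, Function.Injective J ∧
      ∀ v : E, (∀ i, l (J i) v = 0) → v = 0 := by
  obtain ⟨κ, f, hf, hsp, hli⟩ := exists_linearIndependent' ℂ l
  have htop : Submodule.span ℂ (Set.range l) = ⊤ := by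
    by_contra hne
    obtain ⟨φ, hφ0, hφ⟩ := Submodule.exists_dual_map_eq_bot_of_lt_top (lt_top_iff_ne_top.2 hne)
      inferInstance
    obtain ⟨v, rfl⟩ := (Module.evalEquiv ℂ E).surjective φ
    apply hφ0
    have h1 : v = 0 := by
      apply h
      intro p
      have h2 : (Module.evalEquiv ℂ E v) (l p) ∈
          Submodule.map (Module.evalEquiv ℂ E v) (Submodule.span ℂ (Set.range l)) :=
        Submodule.mem_map_of_mem (Submodule.subset_span ⟨p, rfl⟩)
      rw [hφ, Submodule.mem_bot] at h2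
      exact h2
    rw [h1, map_zero]
  rw [htop] at hsp
  have hfin : Finite κ := hli.finite
  have _ : Fintype κ := Fintype.ofFinite κ
  let b : Basis κ ℂ (Module.Dual ℂ E) := Basis.mk hli hsp.ge
  have hcard : Fintype.card κ = m := by
    rw [← Module.finrank_eq_card_basis b, Subspace.dual_finrank_eq, hm]
  let e : Fin m ≃ κ := (Fintype.equivFinOfCardEq hcard).symm
  refine ⟨f ∘ e, hf.comp e.injective, fun v hv => ?_⟩
  have h1 : ∀ φ : Module.Dual ℂ E, φ v = 0 := by
    intro φ
    have h2 : φ ∈ Submodule.span ℂ (Set.range (l ∘ f)) := by rw [hsp]; trivial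
    induction h2 using Submodule.span_induction with
    | mem φ h =>
      obtain ⟨k, rfl⟩ := h
      have := hv (e.symm k)
      simpa using this
    | zero => rfl
    | add a b _ _ ha hb => rw [LinearMap.add_apply, ha, hb, add_zero]
    | smul c a _ ha => rw [LinearMap.smul_apply, ha, smul_zero]
  exact (Module.forall_dual_apply_eq_zero_iff ℂ v).1 h1

end Pool.Agent.Y102
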