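import Pool.Agent.H86.CMLib.Y102.SL
import Pool.Agent.H86.CMLib.Y102.Line

set_option autoImplicit false

/-!
# Abelian functions and quasi-periodic functions: abstract data, and the theorem of Schneider
# and Lang for them
-/

open Filter Topology Module MvPolynomial

noncomputable section

namespace Pool.Agent.Y102

open Pool.Agent.W245.EB

/-- growth of order at most three -/
def Gr {ι : Type} [Fintype ι] (f : (ι → ℂ) → ℂ) : Prop :=
  ∃ C : ℝ, 0 ≤ C ∧ ∀ z, ‖f z‖ ≤ Real.exp (C * (1 + ‖z‖ ^ 3))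

/-- A group of vectors `w` in a rational vector space `W`, with periods `per w` and quasi-periods
`eta w`, functions `f p` near the origin with the periods `per w`, and functions `h k` with
quasi-periods `eta w`; these satisfy algebraic differential equations. -/
structure Dat (ι κ : Type) [Fintype ι] [Fintype κ] [DecidableEq ι] [DecidableEq κ] (W : Type)
    [AddCommGroup W] [Module ℚ W] where
  per : W →ₗ[ℚ] (ι → ℂ)
  eta : W →ₗ[ℚ] (κ → ℂ)
  Λ : AddSubgroup W
  full : ∀ w : W, ∃ m : ℕ, 0 < m ∧ m • w ∈ Λ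
  V : Type
  [fV : Fintype V]
  f : V → (ι → ℂ) → ℂ
  h : κ → (ι → ℂ) → ℂ
  O : Set (ι → ℂ)
  isOpen_O : IsOpen O
  zero_mem : (0 : ι → ℂ) ∈ O
  add_mem : ∀ w ∈ Λ, ∀ z ∈ O, z + per w ∈ O
  an_f : ∀ p, AnalyticOnNhd ℂ (f p) O
  an_h : ∀ k, AnalyticOnNhd ℂ (h k) O
  f_per : ∀ w ∈ Λ, ∀ z ∈ O, ∀ p, f p (z + per w) = f p z
  h_per : ∀ w ∈ Λ, ∀ z ∈ O, ∀ k, h k (z + per w) = h k z + eta w k
  δ : ι → V → MvPolynomial V ℂ
  δ_alg : ∀ j p m, IsAlgebraic ℚ ((δ j p).coeff m)
  δ_deg : ∀ j p, (δ j p).totalDegree ≤ 2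
  δ_D : ∀ j p, ∀ z ∈ O, fderiv ℂ (f p) z (Pi.single j 1) = eval (fun q => f q z) (δ j p)
  ε : ι → κ → MvPolynomial V ℂ
  ε_alg : ∀ j k m, IsAlgebraic ℚ ((ε j k).coeff m)
  ε_deg : ∀ j k, (ε j k).totalDegree ≤ 2
  ε_D : ∀ j k, ∀ z ∈ O, fderiv ℂ (h k) z (Pi.single j 1) = eval (fun q => f q z) (ε j k)
  f_zero : ∀ p, IsAlgebraic ℚ (f p 0)
  h_zero : ∀ k, IsAlgebraic ℚ (h k 0)
  Th : V ⊕ κ → (ι → ℂ) → ℂ
  A : V ⊕ κ → (ι → ℂ) → ℂ
  Th_ent : ∀ i, AnalyticOnNhd ℂ (Th i) Set.univ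
  A_ent : ∀ i, AnalyticOnNhd ℂ (A i) Set.univ
  Th_gr : ∀ i, Gr (Th i)
  A_gr : ∀ i, Gr (A i)
  Th_ne : ∀ i, ∀ z ∈ O, Th i z ≠ 0
  Th_mul : ∀ i, ∀ z ∈ O, Th i z * Sum.elim f h i z = A i z
  imm : ∀ v : ι → ℂ, (∀ p, fderiv ℂ (f p) 0 v = 0) → v = 0

attribute [instance] Dat.fV

theorem isAlgebraic_sum {κ : Type*} (s : Finset κ) (f : κ → ℂ) (h : ∀ i ∈ s, IsAlgebraic ℚ (f i)) :
    IsAlgebraic ℚ (∑ i ∈ s, f i) := by
  classical
  induction s using Finset.induction_on with
  | empty =>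
    rw [Finset.sum_empty]
    exact isAlgebraic_zero
  | insert a s ha ih =>
    rw [Finset.sum_insert ha]
    exact (h a (Finset.mem_insert_self _ _)).add
      (ih fun i hi => h i (Finset.mem_insert_of_mem hi))

/-- growth of compositions with linear maps -/
theorem gr_comp {ι : Type} [Fintype ι] {n : ℕ} {f : (ι → ℂ) → ℂ} (hf : Gr f)
    (M : (Fin n → ℂ) →L[ℂ] (ι → ℂ)) : GrE (fun x => f (M x)) := by
  obtain ⟨C, hC, h⟩ := hf
  refine ⟨C * (1 + ‖M‖) ^ 3, by positivity, fun z => (h _).trans (Real.exp_le_exp.2 ?_)⟩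
  have h1 : ‖M z‖ ≤ (1 + ‖M‖) * ‖z‖ := (M.le_opNorm z).trans
    (mul_le_mul_of_nonneg_right (by linarith) (norm_nonneg _))
  have h2 : ‖M z‖ ^ 3 ≤ (1 + ‖M‖) ^ 3 * ‖z‖ ^ 3 := by
    rw [← mul_pow]
    exact pow_le_pow_left₀ (norm_nonneg _) h1 3
  have h3 : (1 : ℝ) ≤ (1 + ‖M‖) ^ 3 := one_le_pow₀ (by linarith [norm_nonneg M])
  rw [mul_assoc]
  apply mul_le_mul_of_nonneg_left _ hC
  nlinarith [norm_nonneg z]

/-- growth of products -/
theorem GrE.mul {n : ℕ} {f g : (Fin n → ℂ) → ℂ} (hf : GrE f) (hg : GrE g) :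
    GrE (fun z => f z * g z) := by
  obtain ⟨C, hC, h⟩ := hf
  obtain ⟨C', hC', h'⟩ := hg
  refine ⟨C + C', by positivity, fun z => ?_⟩
  rw [norm_mul, add_mul, Real.exp_add]
  exact mul_le_mul (h z) (h' z) (norm_nonneg _) (Real.exp_nonneg _)

theorem GrE.add {n : ℕ} {f g : (Fin n → ℂ) → ℂ} (hf : GrE f) (hg : GrE g) :
    GrE (fun z => f z + g z) := by
  obtain ⟨C, hC, h⟩ := hf
  obtain ⟨C', hC', h'⟩ := hg
  refine ⟨C + C' + 1, by positivity, fun z => (norm_add_le _ _).trans ?_⟩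
  have h0 : 0 ≤ 1 + ‖z‖ ^ 3 := by positivity
  have h1 : Real.exp (C * (1 + ‖z‖ ^ 3)) ≤ Real.exp ((C + C') * (1 + ‖z‖ ^ 3)) :=
    Real.exp_le_exp.2 (mul_le_mul_of_nonneg_right (by linarith) h0)
  have h2 : Real.exp (C' * (1 + ‖z‖ ^ 3)) ≤ Real.exp ((C + C') * (1 + ‖z‖ ^ 3)) :=
    Real.exp_le_exp.2 (mul_le_mul_of_nonneg_right (by linarith) h0)
  have h3 : (2 : ℝ) ≤ Real.exp (1 * (1 + ‖z‖ ^ 3)) := by
    have h4 := Real.add_one_le_exp (1 * (1 + ‖z‖ ^ 3))
    have h5 : 0 ≤ ‖z‖ ^ 3 := by positivity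
    linarith
  calc ‖f z‖ + ‖g z‖ ≤ 2 * Real.exp ((C + C') * (1 + ‖z‖ ^ 3)) := by
        linarith [h z, h' z]
    _ ≤ Real.exp (1 * (1 + ‖z‖ ^ 3)) * Real.exp ((C + C') * (1 + ‖z‖ ^ 3)) :=
        mul_le_mul_of_nonneg_right h3 (Real.exp_nonneg _)
    _ = _ := by
        rw [← Real.exp_add]
        congr 1
        ring

/-- linear functions have small growth -/
theorem grE_linear {n : ℕ} (l : (Fin n → ℂ) →L[ℂ] ℂ) : GrE (fun z => l z) := by
  refine ⟨1 + ‖l‖, by positivity, fun z => ?_⟩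
  have h1 : ‖l z‖ ≤ ‖l‖ * ‖z‖ := l.le_opNorm z
  have h2 : ‖z‖ ≤ 1 + ‖z‖ ^ 3 := by
    have h0 := norm_nonneg z
    rcases le_total ‖z‖ 1 with h | h
    · have : 0 ≤ ‖z‖ ^ 3 := by positivity
      linarith
    · have : ‖z‖ ≤ ‖z‖ ^ 3 := by
        calc ‖z‖ = ‖z‖ ^ 1 := (pow_one _).symm
          _ ≤ ‖z‖ ^ 3 := pow_le_pow_right₀ h (by norm_num)
      linarith
  have h3 : ‖l z‖ ≤ (1 + ‖l‖) * (1 + ‖z‖ ^ 3) := by
    refine h1.trans ?_
    exact mul_le_mul (by linarith) h2 (norm_nonneg _) (by positivity)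
  have h4 := Real.add_one_le_exp ((1 + ‖l‖) * (1 + ‖z‖ ^ 3))
  linarith

namespace Dat

variable {ι κ : Type} [Fintype ι] [Fintype κ] [DecidableEq ι] [DecidableEq κ] {W : Type}
  [AddCommGroup W] [Module ℚ W] (d : Dat ι κ W)

/-- the functions on the parameter space of a subspace -/
def fn {n : ℕ} (M : (Fin n → ℂ) →L[ℂ] (ι → ℂ)) (M' : (Fin n → ℂ) →L[ℂ] (κ → ℂ)) :
    d.V ⊕ κ → (Fin n → ℂ) → ℂ
  | Sum.inl p => fun x => d.f p (M x)
  | Sum.inr k => fun x => d.h k (M x) - M' x k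

/-- **The theorem of Schneider and Lang for the data.** -/
theorem sl {n : ℕ} (hn : 0 < n) (M : (Fin n → ℂ) →L[ℂ] (ι → ℂ))
    (M' : (Fin n → ℂ) →L[ℂ] (κ → ℂ))
    (hM : ∀ s i, IsAlgebraic ℚ (M (Pi.single s 1) i))
    (hM' : ∀ s k, IsAlgebraic ℚ (M' (Pi.single s 1) k))
    (U : Fin n → Fin n → ℂ) (hU : LinearIndependent ℂ U) (w : Fin n → W) (hw : ∀ k, w k ∈ d.Λ)
    (hMU : ∀ k, M (U k) = d.per (w k)) (hMU' : ∀ k, M' (U k) = d.eta (w k))
    {I : Type} [Fintype I] (hI : Fintype.card I = n + 1) (b : I → d.V ⊕ κ)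
    (hb : Function.Injective b) :
    ∃ P : MvPolynomial I ℂ, P ≠ 0 ∧ ∀ x, M x ∈ d.O →
      MvPolynomial.eval (fun i => d.fn M M' (b i) x) P = 0 := by
  classical
  -- the points
  have hper : ∀ s : Fin n → ℕ, M (∑ k, (s k : ℂ) • U k) = d.per (∑ k, s k • w k) ∧
      M' (∑ k, (s k : ℂ) • U k) = d.eta (∑ k, s k • w k) := by
    intro s
    rw [map_sum, map_sum, map_sum, map_sum]
    constructor
    · refine Finset.sum_congr rfl fun k _ => ?_
      rw [map_smul, hMU, map_nsmul, Nat.cast_smul_eq_nsmul]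
    · refine Finset.sum_congr rfl fun k _ => ?_
      rw [map_smul, hMU', map_nsmul, Nat.cast_smul_eq_nsmul]
  have hΛ : ∀ s : Fin n → ℕ, (∑ k, s k • w k) ∈ d.Λ := fun s =>
    sum_mem fun k _ => AddSubgroup.nsmul_mem _ (hw k) _
  have hO : ∀ s : Fin n → ℕ, M (∑ k, (s k : ℂ) • U k) ∈ d.O := by
    intro s
    rw [(hper s).1]
    have := d.add_mem _ (hΛ s) 0 d.zero_mem
    rwa [zero_add] at this
  have hval : ∀ p, ∀ s : Fin n → ℕ, d.fn M M' p (∑ k, (s k : ℂ) • U k) = d.fn M M' p 0 := by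
    intro p s
    rcases p with p | k
    · simp only [fn]
      rw [(hper s).1, map_zero]
      have := d.f_per _ (hΛ s) 0 d.zero_mem p
      rwa [zero_add] at this
    · simp only [fn]
      rw [(hper s).1, (hper s).2, map_zero, map_zero]
      have := d.h_per _ (hΛ s) 0 d.zero_mem k
      rw [zero_add] at this
      rw [this, Pi.zero_apply]
      ring
  have hMan : ∀ x, AnalyticAt ℂ (fun x => M x) x := fun x => M.analyticAt x
  have hMan' : ∀ x k, AnalyticAt ℂ (fun x => M' x k) x := fun x k =>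
    ((ContinuousLinearMap.proj k).comp M' : (Fin n → ℂ) →L[ℂ] ℂ).analyticAt x
  have han : ∀ p, AnalyticOnNhd ℂ (d.fn M M' p) {x | M x ∈ d.O} := by
    intro p x hx
    rcases p with p | k
    · exact (d.an_f p (M x) hx).comp (hMan x)
    · exact ((d.an_h k (M x) hx).comp (hMan x)).sub (hMan' x k)
  -- the differential equations
  let δ' : Fin n → d.V ⊕ κ → MvPolynomial (d.V ⊕ κ) ℂ := fun s p =>
    Sum.elim (fun p => ∑ j, MvPolynomial.C (M (Pi.single s 1) j) * rename Sum.inl (d.δ j p))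
      (fun k => (∑ j, MvPolynomial.C (M (Pi.single s 1) j) * rename Sum.inl (d.ε j k)) -
        MvPolynomial.C (M' (Pi.single s 1) k)) p
  have hinl : Function.Injective (Sum.inl : d.V → d.V ⊕ κ) := Sum.inl_injective
  have hren : ∀ Q : MvPolynomial d.V ℂ, (∀ m, IsAlgebraic ℚ (Q.coeff m)) →
      ∀ m, IsAlgebraic ℚ ((rename (Sum.inl : d.V → d.V ⊕ κ) Q).coeff m) := by
    intro Q hQ m
    by_cases hm : ∃ m', Finsupp.mapDomain (Sum.inl : d.V → d.V ⊕ κ) m' = m
    · obtain ⟨m', rfl⟩ := hm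
      rw [coeff_rename_mapDomain _ hinl]
      exact hQ _
    · rw [coeff_rename_eq_zero]
      · exact isAlgebraic_zero
      · intro m' hm'
        exact absurd ⟨m', hm'⟩ hm
  have hsumalg : ∀ (s : Fin n) (Q : ι → MvPolynomial d.V ℂ),
      (∀ j m, IsAlgebraic ℚ ((Q j).coeff m)) → ∀ m, IsAlgebraic ℚ ((∑ j,
      MvPolynomial.C (M (Pi.single s 1) j) * rename (Sum.inl : d.V → d.V ⊕ κ) (Q j)).coeff m) := by
    intro s Q hQ m
    rw [coeff_sum]
    refine isAlgebraic_sum _ _ fun j _ => ?_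
    rw [coeff_C_mul]
    exact (hM s j).mul (hren _ (hQ j) m)
  have hsumdeg : ∀ (s : Fin n) (Q : ι → MvPolynomial d.V ℂ), (∀ j, (Q j).totalDegree ≤ 2) →
      (∑ j, MvPolynomial.C (M (Pi.single s 1) j) *
        rename (Sum.inl : d.V → d.V ⊕ κ) (Q j)).totalDegree ≤ 2 := by
    intro s Q hQ
    refine totalDegree_finsetSum_le fun j _ => ?_
    refine (totalDegree_mul _ _).trans ?_
    rw [totalDegree_C, zero_add]
    exact (totalDegree_rename_le _ _).trans (hQ j)
  have hdir : ∀ (s : Fin n) (F : (ι → ℂ) → ℂ) (z : ι → ℂ),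
      fderiv ℂ F z (M (Pi.single s 1)) =
        ∑ j, M (Pi.single s 1) j * fderiv ℂ F z (Pi.single j 1) := by
    intro s F z
    conv_lhs => rw [show M (Pi.single s 1) = ∑ j, M (Pi.single s 1) j • (Pi.single j 1 : ι → ℂ) from
      by
        funext i
        rw [Finset.sum_apply]
        simp [Pi.single_apply]]
    rw [map_sum]
    exact Finset.sum_congr rfl fun j _ => by rw [map_smul, smul_eq_mul]
  have hcomp : ∀ (F : (ι → ℂ) → ℂ) (x : Fin n → ℂ), AnalyticAt ℂ F (M x) → ∀ s,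
      fderiv ℂ (fun x => F (M x)) x (Pi.single s 1) = fderiv ℂ F (M x) (M (Pi.single s 1)) := by
    intro F x hF s
    have h1 : HasFDerivAt (fun x => F (M x)) ((fderiv ℂ F (M x)).comp M) x :=
      hF.differentiableAt.hasFDerivAt.comp x M.hasFDerivAt
    rw [h1.fderiv]
    rfl
  obtain ⟨P, hP, h⟩ := schneiderLang hn (d.fn M M') {x | M x ∈ d.O}
    (d.isOpen_O.preimage M.continuous) han U hU hO hval
    (by
      intro p
      rcases p with p | k
      · simp only [fn]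
        rw [map_zero]
        exact d.f_zero p
      · simp only [fn]
        rw [map_zero, map_zero, Pi.zero_apply, sub_zero]
        exact d.h_zero k)
    δ'
    (by
      intro s p m
      rcases p with p | k
      · exact hsumalg s _ (fun j m => d.δ_alg j p m) m
      · change IsAlgebraic ℚ (coeff m ((∑ j, MvPolynomial.C (M (Pi.single s 1) j) *
          rename Sum.inl (d.ε j k)) - MvPolynomial.C (M' (Pi.single s 1) k)))
        rw [coeff_sub]
        refine (hsumalg s _ (fun j m => d.ε_alg j k m) m).sub ?_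
        rw [coeff_C]
        split_ifs
        · exact hM' s k
        · exact isAlgebraic_zero)
    (by
      intro s p
      rcases p with p | k
      · exact hsumdeg s _ fun j => d.δ_deg j p
      · refine (totalDegree_sub _ _).trans ?_
        rw [totalDegree_C, max_eq_left (Nat.zero_le _)]
        exact hsumdeg s _ fun j => d.ε_deg j k)
    (by
      intro s p x hx
      rcases p with p | k
      · change fderiv ℂ (fun x => d.f p (M x)) x (Pi.single s 1) = _
        rw [hcomp _ _ (d.an_f p _ hx), hdir]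
        change _ = eval _ (∑ j, MvPolynomial.C (M (Pi.single s 1) j) * rename Sum.inl (d.δ j p))
        rw [map_sum]
        refine Finset.sum_congr rfl fun j _ => ?_
        rw [map_mul, eval_C, d.δ_D j p _ hx, eval_rename]
        rfl
      · change fderiv ℂ (fun x => d.h k (M x) - M' x k) x (Pi.single s 1) = _
        have h1 : fderiv ℂ (fun x => d.h k (M x) - M' x k) x (Pi.single s 1) =
            fderiv ℂ (fun x => d.h k (M x)) x (Pi.single s 1) - M' (Pi.single s 1) k := by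
          have h3 : DifferentiableAt ℂ (fun x => d.h k (M x)) x :=
            (AnalyticAt.comp (g := d.h k) (f := fun x => M x) (d.an_h k _ hx)
              (hMan x)).differentiableAt
          rw [fderiv_fun_sub h3 (hMan' x k).differentiableAt]
          rw [sub_apply]
          congr 1
          have h2 : fderiv ℂ (fun x => M' x k) x =
              ((ContinuousLinearMap.proj k).comp M' : (Fin n → ℂ) →L[ℂ] ℂ) :=
            ((ContinuousLinearMap.proj k).comp M' : (Fin n → ℂ) →L[ℂ] ℂ).fderiv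
          rw [h2]
          rfl
        rw [h1, hcomp _ _ (d.an_h k _ hx), hdir]
        change _ = eval _ ((∑ j, MvPolynomial.C (M (Pi.single s 1) j) *
          rename Sum.inl (d.ε j k)) - MvPolynomial.C (M' (Pi.single s 1) k))
        rw [map_sub, map_sum, eval_C]
        congr 1
        refine Finset.sum_congr rfl fun j _ => ?_
        rw [map_mul, eval_C, d.ε_D j k _ hx, eval_rename]
        rfl)
    hI b hb (fun i x => d.Th (b i) (M x))
    (fun i x => Sum.elim (fun p => d.A (Sum.inl p) (M x))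
      (fun k => d.A (Sum.inr k) (M x) - d.Th (Sum.inr k) (M x) * M' x k) (b i))
    (fun i x _ => (d.Th_ent (b i) _ (Set.mem_univ _)).comp (hMan x))
    (by
      intro i x _
      rcases b i with p | k
      · exact (d.A_ent (Sum.inl p) _ (Set.mem_univ _)).comp (hMan x)
      · exact ((d.A_ent (Sum.inr k) _ (Set.mem_univ _)).comp (hMan x)).sub
          (((d.Th_ent (Sum.inr k) _ (Set.mem_univ _)).comp (hMan x)).mul (hMan' x k)))
    (fun i => gr_comp (d.Th_gr _) M)
    (by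
      intro i
      rcases b i with p | k
      · exact gr_comp (d.A_gr _) M
      · have h1 : GrE (fun x => d.A (Sum.inr k) (M x) +
            (-1) * (d.Th (Sum.inr k) (M x) * M' x k)) :=
          GrE.add (gr_comp (d.A_gr _) M) (grE_const_mul (GrE.mul (gr_comp (d.Th_gr _) M)
            (grE_linear ((ContinuousLinearMap.proj k).comp M' : (Fin n → ℂ) →L[ℂ] ℂ))) (-1))
        have h2 : (fun x => d.A (Sum.inr k) (M x) + (-1) * (d.Th (Sum.inr k) (M x) * M' x k)) =
            fun x => d.A (Sum.inr k) (M x) - d.Th (Sum.inr k) (M x) * M' x k := by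
          funext x
          ring
        rw [h2] at h1
        exact h1)
    (by
      intro i x hx
      have h1 := fun q => d.Th_mul q (M x) hx
      rcases hbi : b i with p | k
      · have := h1 (Sum.inl p)
        simpa [fn] using this
      · have := h1 (Sum.inr k)
        simp only [Sum.elim_inr] at this ⊢
        simp only [fn]
        rw [mul_sub, this])
    (fun i s => d.Th_ne _ _ (hO s))
  exact ⟨P, hP, fun x hx => h x hx fun i => d.Th_ne _ _ hx⟩

end Dat

end Pool.Agent.Y102
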