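import Mathlib

set_option autoImplicit false
set_option linter.unusedSectionVars false

/-!
# The first fundamental theorem for products of groups `SL(2)` and `U(1)`, in real coordinates
-/

open Function

noncomputable section

namespace Pool.Agent.Y102.FT

/-- the imaginary part of `conj z * w` -/
def dt (z w : ℂ) : ℝ := z.re * w.im - z.im * w.re

/-- the real part of `conj z * w` -/
def rr (z w : ℂ) : ℝ := z.re * w.re + z.im * w.im

variable {κ Q : Type*} [DecidableEq κ] [DecidableEq Q]

/-- The function is linear in the positions in `S`, and independent of the other positions. -/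
structure ML (S : Finset κ) (F : (κ → ℂ) → ℝ) : Prop where
  lin : ∀ p ∈ S, ∀ (z : κ → ℂ) (a b : ℝ) (x y : ℂ),
    F (update z p (a • x + b • y)) = a * F (update z p x) + b * F (update z p y)
  indep : ∀ p ∉ S, ∀ (z : κ → ℂ) (x : ℂ), F (update z p x) = F z

/-- Invariance under the Lie algebras. -/
structure Iv (c : κ → Q) (cm : Q → Prop) (S : Finset κ) (F : (κ → ℂ) → ℝ) : Prop where
  sl : ∀ q, ¬ cm q → ∀ (a b : ℂ) (z : κ → ℂ), ∑ p ∈ S.filter (c · = q),
    (dt a (z p) * F (update z p b) + dt b (z p) * F (update z p a)) = 0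
  u1 : ∀ q, cm q → ∀ z : κ → ℂ, ∑ p ∈ S.filter (c · = q),
    F (update z p (Complex.I * z p)) = 0

/-- The products of the basic invariants over the perfect matchings of `S`. -/
inductive PM (c : κ → Q) (cm : Q → Prop) : ℕ → Finset κ → ((κ → ℂ) → ℝ) → Prop
  | nil : PM c cm 0 ∅ (fun _ => 1)
  | det (m : ℕ) (S : Finset κ) (f : (κ → ℂ) → ℝ) (p q : κ) (hf : PM c cm m S f) (hp : p ∉ S)
      (hq : q ∉ S) (hpq : p ≠ q) (hc : c p = c q) :
      PM c cm (m + 1) (insert p (insert q S)) (fun z => dt (z p) (z q) * f z)
  | re (m : ℕ) (S : Finset κ) (f : (κ → ℂ) → ℝ) (p q : κ) (hf : PM c cm m S f) (hp : p ∉ S)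
      (hq : q ∉ S) (hpq : p ≠ q) (hc : c p = c q) (hcm : cm (c p)) :
      PM c cm (m + 1) (insert p (insert q S)) (fun z => rr (z p) (z q) * f z)

/-- evaluation at two positions -/
def ev (p q : κ) (x y : ℂ) (F : (κ → ℂ) → ℝ) (z : κ → ℂ) : ℝ :=
  F (update (update z p x) q y)

variable {S : Finset κ} {F : (κ → ℂ) → ℝ}

theorem ML.expand (hF : ML S F) {p : κ} (hp : p ∈ S) (z : κ → ℂ) (x : ℂ) :
    F (update z p x) = x.re * F (update z p 1) + x.im * F (update z p Complex.I) := by
  have h := hF.lin p hp z x.re x.im 1 Complex.I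
  rw [← h]
  congr 2
  apply Complex.ext <;> simp

theorem ML.expand2 (hF : ML S F) {p q : κ} (hp : p ∈ S) (hq : q ∈ S) (hpq : p ≠ q) (z : κ → ℂ)
    (x y : ℂ) : ev p q x y F z =
      x.re * y.re * ev p q 1 1 F z + x.re * y.im * ev p q 1 Complex.I F z +
      x.im * y.re * ev p q Complex.I 1 F z + x.im * y.im * ev p q Complex.I Complex.I F z := by
  unfold ev
  have h1 : ∀ x' y', F (update (update z p x') q y') =
      y'.re * F (update (update z p x') q 1) + y'.im * F (update (update z p x') q Complex.I) :=
    fun x' y' => hF.expand hq _ _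
  have h2 : ∀ y', F (update (update z p x) q y') =
      x.re * F (update (update z p 1) q y') + x.im * F (update (update z p Complex.I) q y') := by
    intro y'
    rw [update_comm hpq, update_comm hpq, update_comm hpq]
    exact hF.expand hp _ _
  rw [h1, h2, h2]
  ring

theorem ML.ev (hF : ML S F) {p q : κ} (hpq : p ≠ q) (x y : ℂ) :
    ML ((S.erase p).erase q) (FT.ev p q x y F) := by
  refine ⟨fun r hr z a b u v => ?_, fun r hr z u => ?_⟩
  · have hrq : r ≠ q := Finset.ne_of_mem_erase hr
    have hr' := Finset.mem_of_mem_erase hr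
    have hrp : r ≠ p := Finset.ne_of_mem_erase hr'
    have hrS := Finset.mem_of_mem_erase hr'
    unfold FT.ev
    rw [update_comm hrp, update_comm hrq, update_comm hrp, update_comm hrq, update_comm hrp,
      update_comm hrq]
    exact hF.lin r hrS _ _ _ _ _
  · unfold FT.ev
    by_cases hrq : r = q
    · subst hrq
      rw [update_comm hpq.symm, update_idem]
    · by_cases hrp : r = p
      · subst hrp
        rw [update_idem]
      · rw [update_comm hrp, update_comm hrq]
        apply hF.indep
        intro h
        exact hr (Finset.mem_erase.2 ⟨hrq, Finset.mem_erase.2 ⟨hrp, h⟩⟩)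

theorem ML.add {F G : (κ → ℂ) → ℝ} (hF : ML S F) (hG : ML S G) : ML S (fun z => F z + G z) := by
  refine ⟨fun r hr z a b u v => ?_, fun r hr z u => ?_⟩
  · rw [hF.lin r hr, hG.lin r hr]
    ring
  · rw [hF.indep r hr, hG.indep r hr]

theorem ML.sub {F G : (κ → ℂ) → ℝ} (hF : ML S F) (hG : ML S G) : ML S (fun z => F z - G z) := by
  refine ⟨fun r hr z a b u v => ?_, fun r hr z u => ?_⟩
  · rw [hF.lin r hr, hG.lin r hr]
    ring
  · rw [hF.indep r hr, hG.indep r hr]

variable {c : κ → Q} {cm : Q → Prop}

theorem upd3 {p q r : κ} (hrp : r ≠ p) (hrq : r ≠ q) (z : κ → ℂ) (x y b : ℂ) :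
    update (update (update z p x) q y) r b = update (update (update z r b) p x) q y := by
  rw [update_comm (a := q) (b := r) hrq.symm, update_comm (a := p) (b := r) hrp.symm]

/-- The sums over the positions of a color, split in three parts. -/
theorem sum_split {p q : κ} (hp : p ∈ S) (hq : q ∈ S) (hpq : p ≠ q)
    (hc : c p = c q) (k : Q) (g : κ → ℝ) : ∑ r ∈ S.filter (c · = k), g r =
      ∑ r ∈ ((S.erase p).erase q).filter (c · = k), g r + (if c p = k then g p + g q else 0) := by
  have h1 : S = insert p (insert q ((S.erase p).erase q)) := by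
    rw [Finset.insert_erase (Finset.mem_erase.2 ⟨hpq.symm, hq⟩), Finset.insert_erase hp]
  by_cases h : c p = k
  · have h2 : S.filter (c · = k) = insert p (insert q (((S.erase p).erase q).filter (c · = k))) := by
      conv_lhs => rw [h1]
      rw [Finset.filter_insert, if_pos h, Finset.filter_insert, if_pos (hc ▸ h)]
    rw [h2, Finset.sum_insert, Finset.sum_insert, if_pos h]
    · ring
    · simp
    · simp [hpq]
  · have h2 : S.filter (c · = k) = ((S.erase p).erase q).filter (c · = k) := by
      conv_lhs => rw [h1]
      rw [Finset.filter_insert, if_neg h, Finset.filter_insert, if_neg (hc ▸ h)]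
    rw [h2, if_neg h, add_zero]

/-- Evaluation at two positions and sums over positions. -/
theorem ev_sl (hF : ML S F) (hI : Iv c cm S F) {p q : κ} (hp : p ∈ S) (hq : q ∈ S) (hpq : p ≠ q)
    (hc : c p = c q) (k : Q) (hk : ¬ cm k) (a b x y : ℂ) (z : κ → ℂ) :
    ∑ r ∈ ((S.erase p).erase q).filter (c · = k),
      (dt a (z r) * ev p q x y F (update z r b) + dt b (z r) * ev p q x y F (update z r a)) =
    -(if c p = k then dt a x * ev p q b y F z + dt b x * ev p q a y F z +
      (dt a y * ev p q x b F z + dt b y * ev p q x a F z) else 0) := by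
  have h1 := hI.sl k hk a b (update (update z p x) q y)
  rw [sum_split hp hq hpq hc k] at h1
  have h2 : ∀ r ∈ ((S.erase p).erase q).filter (c · = k),
      dt a (update (update z p x) q y r) * F (update (update (update z p x) q y) r b) +
        dt b (update (update z p x) q y r) * F (update (update (update z p x) q y) r a) =
      dt a (z r) * ev p q x y F (update z r b) + dt b (z r) * ev p q x y F (update z r a) := by
    intro r hr
    have hr0 := (Finset.mem_filter.1 hr).1
    have hrq : r ≠ q := Finset.ne_of_mem_erase hr0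
    have hrp : r ≠ p := Finset.ne_of_mem_erase (Finset.mem_of_mem_erase hr0)
    unfold ev
    rw [update_of_ne hrq, update_of_ne hrp, upd3 hrp hrq, upd3 hrp hrq]
  rw [Finset.sum_congr rfl h2] at h1
  have h3 : (update (update z p x) q y) p = x := by
    rw [update_of_ne hpq, update_self]
  have h4 : (update (update z p x) q y) q = y := update_self _ _ _
  rw [h3, h4] at h1
  have h5 : ∀ u, F (update (update (update z p x) q y) p u) = ev p q u y F z := by
    intro u
    unfold ev
    rw [update_comm hpq.symm, update_idem]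
  have h6 : ∀ u, F (update (update (update z p x) q y) q u) = ev p q x u F z := by
    intro u
    unfold ev
    rw [update_idem]
  rw [h5, h5, h6, h6] at h1
  linear_combination h1

theorem ev_u1 (hF : ML S F) (hI : Iv c cm S F) {p q : κ} (hp : p ∈ S) (hq : q ∈ S) (hpq : p ≠ q)
    (hc : c p = c q) (k : Q) (hk : cm k) (x y : ℂ) (z : κ → ℂ) :
    ∑ r ∈ ((S.erase p).erase q).filter (c · = k), ev p q x y F (update z r (Complex.I * z r)) =
    -(if c p = k then ev p q (Complex.I * x) y F z + ev p q x (Complex.I * y) F z else 0) := by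
  have h1 := hI.u1 k hk (update (update z p x) q y)
  rw [sum_split hp hq hpq hc k] at h1
  have h2 : ∀ r ∈ ((S.erase p).erase q).filter (c · = k),
      F (update (update (update z p x) q y) r (Complex.I * update (update z p x) q y r)) =
      ev p q x y F (update z r (Complex.I * z r)) := by
    intro r hr
    have hr0 := (Finset.mem_filter.1 hr).1
    have hrq : r ≠ q := Finset.ne_of_mem_erase hr0
    have hrp : r ≠ p := Finset.ne_of_mem_erase (Finset.mem_of_mem_erase hr0)
    unfold ev
    rw [update_of_ne hrq, update_of_ne hrp, upd3 hrp hrq]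
  rw [Finset.sum_congr rfl h2] at h1
  have h3 : (update (update z p x) q y) p = x := by
    rw [update_of_ne hpq, update_self]
  have h4 : (update (update z p x) q y) q = y := update_self _ _ _
  rw [h3, h4] at h1
  have h5 : ∀ u, F (update (update (update z p x) q y) p u) = ev p q u y F z := by
    intro u
    unfold ev
    rw [update_comm hpq.symm, update_idem]
  have h6 : ∀ u, F (update (update (update z p x) q y) q u) = ev p q x u F z := by
    intro u
    unfold ev
    rw [update_idem]
  rw [h5, h6] at h1
  linear_combination h1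

/-- the contraction with the determinant -/
def ct (p q : κ) (F : (κ → ℂ) → ℝ) (z : κ → ℂ) : ℝ :=
  ev p q 1 Complex.I F z - ev p q Complex.I 1 F z

/-- the contraction with the real part -/
def cr (p q : κ) (F : (κ → ℂ) → ℝ) (z : κ → ℂ) : ℝ :=
  ev p q 1 1 F z + ev p q Complex.I Complex.I F z

theorem ML.ct (hF : ML S F) {p q : κ} (hpq : p ≠ q) : ML ((S.erase p).erase q) (FT.ct p q F) :=
  (hF.ev hpq _ _).sub (hF.ev hpq _ _)

theorem ML.cr (hF : ML S F) {p q : κ} (hpq : p ≠ q) : ML ((S.erase p).erase q) (FT.cr p q F) :=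
  (hF.ev hpq _ _).add (hF.ev hpq _ _)

theorem Iv.ct (hI : Iv c cm S F) (hF : ML S F) {p q : κ} (hp : p ∈ S) (hq : q ∈ S) (hpq : p ≠ q)
    (hc : c p = c q) : Iv c cm ((S.erase p).erase q) (FT.ct p q F) := by
  constructor
  · intro k hk a b z
    have e1 := ev_sl hF hI hp hq hpq hc k hk a b 1 Complex.I z
    have e2 := ev_sl hF hI hp hq hpq hc k hk a b Complex.I 1 z
    have h1 : ∑ r ∈ ((S.erase p).erase q).filter (c · = k),
        (dt a (z r) * FT.ct p q F (update z r b) + dt b (z r) * FT.ct p q F (update z r a)) =
        ∑ r ∈ ((S.erase p).erase q).filter (c · = k),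
        (dt a (z r) * ev p q 1 Complex.I F (update z r b) +
          dt b (z r) * ev p q 1 Complex.I F (update z r a)) -
        ∑ r ∈ ((S.erase p).erase q).filter (c · = k),
        (dt a (z r) * ev p q Complex.I 1 F (update z r b) +
          dt b (z r) * ev p q Complex.I 1 F (update z r a)) := by
      rw [← Finset.sum_sub_distrib]
      refine Finset.sum_congr rfl fun r _ => ?_
      unfold FT.ct
      ring
    rw [h1, e1, e2]
    by_cases h : c p = k
    · simp only [if_pos h]
      rw [hF.expand2 hp hq hpq z b Complex.I, hF.expand2 hp hq hpq z a Complex.I,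
        hF.expand2 hp hq hpq z 1 b, hF.expand2 hp hq hpq z 1 a, hF.expand2 hp hq hpq z b 1,
        hF.expand2 hp hq hpq z a 1, hF.expand2 hp hq hpq z Complex.I b,
        hF.expand2 hp hq hpq z Complex.I a]
      simp only [dt, Complex.one_re, Complex.one_im, Complex.I_re, Complex.I_im]
      ring
    · simp only [if_neg h]
      ring
  · intro k hk z
    have e1 := ev_u1 hF hI hp hq hpq hc k hk 1 Complex.I z
    have e2 := ev_u1 hF hI hp hq hpq hc k hk Complex.I 1 z
    have h1 : ∑ r ∈ ((S.erase p).erase q).filter (c · = k),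
        FT.ct p q F (update z r (Complex.I * z r)) =
        ∑ r ∈ ((S.erase p).erase q).filter (c · = k),
          ev p q 1 Complex.I F (update z r (Complex.I * z r)) -
        ∑ r ∈ ((S.erase p).erase q).filter (c · = k),
          ev p q Complex.I 1 F (update z r (Complex.I * z r)) := by
      rw [← Finset.sum_sub_distrib]
      rfl
    rw [h1, e1, e2]
    by_cases h : c p = k
    · simp only [if_pos h]
      rw [hF.expand2 hp hq hpq z (Complex.I * 1) Complex.I,
        hF.expand2 hp hq hpq z 1 (Complex.I * Complex.I),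
        hF.expand2 hp hq hpq z (Complex.I * Complex.I) 1,
        hF.expand2 hp hq hpq z Complex.I (Complex.I * 1)]
      simp only [mul_one, Complex.I_mul_I, Complex.neg_re, Complex.neg_im, Complex.one_re,
        Complex.one_im, Complex.I_re, Complex.I_im]
      ring
    · simp only [if_neg h]
      ring

theorem Iv.cr (hI : Iv c cm S F) (hF : ML S F) {p q : κ} (hp : p ∈ S) (hq : q ∈ S) (hpq : p ≠ q)
    (hc : c p = c q) (hcm : cm (c p)) : Iv c cm ((S.erase p).erase q) (FT.cr p q F) := by
  constructor
  · intro k hk a b z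
    have e1 := ev_sl hF hI hp hq hpq hc k hk a b 1 1 z
    have e2 := ev_sl hF hI hp hq hpq hc k hk a b Complex.I Complex.I z
    have h1 : ∑ r ∈ ((S.erase p).erase q).filter (c · = k),
        (dt a (z r) * FT.cr p q F (update z r b) + dt b (z r) * FT.cr p q F (update z r a)) =
        ∑ r ∈ ((S.erase p).erase q).filter (c · = k),
        (dt a (z r) * ev p q 1 1 F (update z r b) +
          dt b (z r) * ev p q 1 1 F (update z r a)) +
        ∑ r ∈ ((S.erase p).erase q).filter (c · = k),
        (dt a (z r) * ev p q Complex.I Complex.I F (update z r b) +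
          dt b (z r) * ev p q Complex.I Complex.I F (update z r a)) := by
      rw [← Finset.sum_add_distrib]
      refine Finset.sum_congr rfl fun r _ => ?_
      unfold FT.cr
      ring
    rw [h1, e1, e2]
    have h : c p ≠ k := by
      rintro rfl
      exact hk hcm
    simp only [if_neg h]
    ring
  · intro k hk z
    have e1 := ev_u1 hF hI hp hq hpq hc k hk 1 1 z
    have e2 := ev_u1 hF hI hp hq hpq hc k hk Complex.I Complex.I z
    have h1 : ∑ r ∈ ((S.erase p).erase q).filter (c · = k),
        FT.cr p q F (update z r (Complex.I * z r)) =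
        ∑ r ∈ ((S.erase p).erase q).filter (c · = k),
          ev p q 1 1 F (update z r (Complex.I * z r)) +
        ∑ r ∈ ((S.erase p).erase q).filter (c · = k),
          ev p q Complex.I Complex.I F (update z r (Complex.I * z r)) := by
      rw [← Finset.sum_add_distrib]
      rfl
    rw [h1, e1, e2]
    by_cases h : c p = k
    · simp only [if_pos h]
      rw [hF.expand2 hp hq hpq z (Complex.I * 1) 1,
        hF.expand2 hp hq hpq z 1 (Complex.I * 1),
        hF.expand2 hp hq hpq z (Complex.I * Complex.I) Complex.I,
        hF.expand2 hp hq hpq z Complex.I (Complex.I * Complex.I)]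
      simp only [mul_one, Complex.I_mul_I, Complex.neg_re, Complex.neg_im, Complex.one_re,
        Complex.one_im, Complex.I_re, Complex.I_im]
      ring
    · simp only [if_neg h]
      ring

/-- The formula in the case of `SL(2)`. -/
theorem formula_sl (hF : ML S F) (hI : Iv c cm S F) {p : κ} (hp : p ∈ S) (hcm : ¬ cm (c p))
    (z : κ → ℂ) :
    ((((S.filter (c · = c p)).erase p).card : ℝ) + 3) * F z =
      2 * ∑ r ∈ (S.filter (c · = c p)).erase p, dt (z p) (z r) * ct p r F z := by
  have hpf : p ∈ S.filter (c · = c p) := Finset.mem_filter.2 ⟨hp, rfl⟩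
  have A1 := hI.sl (c p) hcm Complex.I (z p) (update z p 1)
  have A2 := hI.sl (c p) hcm 1 (z p) (update z p Complex.I)
  rw [← Finset.add_sum_erase _ _ hpf] at A1 A2
  rw [update_self, update_idem, update_idem, update_eq_self] at A1 A2
  have B1 : ∀ r ∈ (S.filter (c · = c p)).erase p,
      dt Complex.I (update z p 1 r) * F (update (update z p 1) r (z p)) +
        dt (z p) (update z p 1 r) * F (update (update z p 1) r Complex.I) -
      (dt 1 (update z p Complex.I r) * F (update (update z p Complex.I) r (z p)) +
        dt (z p) (update z p Complex.I r) * F (update (update z p Complex.I) r 1)) =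
      -F z + 2 * (dt (z p) (z r) * ct p r F z) := by
    intro r hr
    have hrp : r ≠ p := Finset.ne_of_mem_erase hr
    have hrS : r ∈ S := (Finset.mem_filter.1 (Finset.mem_of_mem_erase hr)).1
    rw [update_of_ne hrp, update_of_ne hrp]
    have h1 : ∀ x y, F (update (update z p x) r y) = ev p r x y F z := fun _ _ => rfl
    rw [h1, h1, h1, h1]
    have h2 : F z = ev p r (z p) (z r) F z := by
      unfold ev
      rw [update_eq_self, update_eq_self]
    rw [h2]
    unfold ct
    rw [hF.expand2 hp hrS hrp.symm z 1 (z p), hF.expand2 hp hrS hrp.symm z Complex.I (z p),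
      hF.expand2 hp hrS hrp.symm z (z p) (z r)]
    simp only [dt, Complex.one_re, Complex.one_im, Complex.I_re, Complex.I_im]
    ring
  have B2 := Finset.sum_congr rfl B1
  rw [Finset.sum_sub_distrib, Finset.sum_add_distrib (f := fun _ => -F z), Finset.sum_const,
    nsmul_eq_mul, ← Finset.mul_sum] at B2
  have B3 : F z = (z p).re * F (update z p 1) + (z p).im * F (update z p Complex.I) := by
    rw [← hF.expand hp, update_eq_self]
  have d1 : dt Complex.I 1 = -1 := by simp [dt]
  have d2 : dt 1 Complex.I = 1 := by simp [dt]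
  have d3 : dt (z p) 1 = -(z p).im := by simp [dt]
  have d4 : dt (z p) Complex.I = (z p).re := by simp [dt]
  rw [d1, d3] at A1
  rw [d2, d4] at A2
  linear_combination -A1 + A2 + B2 + B3

/-- The formula in the case of `U(1)`. -/
theorem formula_u1 (hF : ML S F) (hI : Iv c cm S F) {p : κ} (hp : p ∈ S) (hcm : cm (c p))
    (z : κ → ℂ) :
    ((((S.filter (c · = c p)).erase p).card : ℝ) + 1) * F z =
      ∑ r ∈ (S.filter (c · = c p)).erase p,
        (rr (z p) (z r) * cr p r F z + dt (z p) (z r) * ct p r F z) := by
  have hpf : p ∈ S.filter (c · = c p) := Finset.mem_filter.2 ⟨hp, rfl⟩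
  have A1 := hI.u1 (c p) hcm (update z p (Complex.I * z p))
  rw [← Finset.add_sum_erase _ _ hpf] at A1
  rw [update_self, update_idem] at A1
  have B0 : F (update z p (Complex.I * (Complex.I * z p))) = -F z := by
    rw [hF.expand hp]
    have h1 : F z = (z p).re * F (update z p 1) + (z p).im * F (update z p Complex.I) := by
      rw [← hF.expand hp, update_eq_self]
    rw [h1]
    simp
    ring
  rw [B0] at A1
  have B1 : ∀ r ∈ (S.filter (c · = c p)).erase p,
      F (update (update z p (Complex.I * z p)) r
        (Complex.I * update z p (Complex.I * z p) r)) =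
      -F z + (rr (z p) (z r) * cr p r F z + dt (z p) (z r) * ct p r F z) := by
    intro r hr
    have hrp : r ≠ p := Finset.ne_of_mem_erase hr
    have hrS : r ∈ S := (Finset.mem_filter.1 (Finset.mem_of_mem_erase hr)).1
    rw [update_of_ne hrp]
    have h1 : ∀ x y, F (update (update z p x) r y) = ev p r x y F z := fun _ _ => rfl
    rw [h1]
    have h2 : F z = ev p r (z p) (z r) F z := by
      unfold ev
      rw [update_eq_self, update_eq_self]
    rw [h2]
    unfold ct cr
    rw [hF.expand2 hp hrS hrp.symm z (Complex.I * z p) (Complex.I * z r),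
      hF.expand2 hp hrS hrp.symm z (z p) (z r)]
    simp only [dt, rr, Complex.mul_re, Complex.mul_im, Complex.I_re, Complex.I_im]
    ring
  rw [Finset.sum_congr rfl B1, Finset.sum_add_distrib (f := fun _ => -F z), Finset.sum_const,
    nsmul_eq_mul] at A1
  linear_combination -A1

variable [Fintype κ]

theorem const_of_indep (hF : ML (∅ : Finset κ) F) (z z' : κ → ℂ) : F z = F z' := by
  classical
  have key : ∀ T : Finset κ, F (T.piecewise z z') = F z' := by
    intro T
    induction T using Finset.induction_on with
    | empty => rw [Finset.piecewise_empty]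
    | insert a T ha ih =>
      rw [Finset.piecewise_insert, hF.indep a (Finset.notMem_empty a), ih]
  have h := key Finset.univ
  rwa [Finset.piecewise_univ] at h

/-- **The first fundamental theorem**, for products of groups `SL(2)` and `U(1)`. -/
theorem fft (c : κ → Q) (cm : Q → Prop) (m : ℕ) : ∀ (S : Finset κ) (F : (κ → ℂ) → ℝ),
    S.card = 2 * m → ML S F → Iv c cm S F →
    F ∈ Submodule.span ℝ {f : (κ → ℂ) → ℝ | PM c cm m S f} := by
  classical
  induction m with
  | zero =>
    intro S F hS hF _
    have hS0 : S = ∅ := Finset.card_eq_zero.1 (by omega)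
    subst hS0
    have h1 : F = F 0 • (fun _ : κ → ℂ => (1 : ℝ)) := by
      funext z
      rw [Pi.smul_apply, smul_eq_mul, mul_one]
      exact const_of_indep hF z 0
    rw [h1]
    exact Submodule.smul_mem _ _ (Submodule.subset_span PM.nil)
  | succ m ih =>
    intro S F hS hF hI
    obtain ⟨p, hp⟩ : S.Nonempty := Finset.card_pos.1 (by omega)
    -- the products with a basic invariant
    have hins : ∀ r ∈ (S.filter (c · = c p)).erase p,
        r ∈ S ∧ p ≠ r ∧ c p = c r ∧ insert p (insert r ((S.erase p).erase r)) = S ∧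
        ((S.erase p).erase r).card = 2 * m := by
      intro r hr
      have hrp : r ≠ p := Finset.ne_of_mem_erase hr
      have hrf := Finset.mem_filter.1 (Finset.mem_of_mem_erase hr)
      refine ⟨hrf.1, hrp.symm, hrf.2.symm, ?_, ?_⟩
      · rw [Finset.insert_erase (Finset.mem_erase.2 ⟨hrp, hrf.1⟩), Finset.insert_erase hp]
      · rw [Finset.card_erase_of_mem (Finset.mem_erase.2 ⟨hrp, hrf.1⟩),
          Finset.card_erase_of_mem hp]
        omega
    have hdt : ∀ r ∈ (S.filter (c · = c p)).erase p, ∀ G ∈ Submodule.span ℝ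
        {f : (κ → ℂ) → ℝ | PM c cm m ((S.erase p).erase r) f},
        (fun z => dt (z p) (z r) * G z) ∈
          Submodule.span ℝ {f : (κ → ℂ) → ℝ | PM c cm (m + 1) S f} := by
      intro r hr G hG
      obtain ⟨hrS, hpr, hc, hS', -⟩ := hins r hr
      let L : ((κ → ℂ) → ℝ) →ₗ[ℝ] ((κ → ℂ) → ℝ) :=
        { toFun := fun G z => dt (z p) (z r) * G z
          map_add' := fun _ _ => by funext z; simp [mul_add]
          map_smul' := fun a G => by
            funext z
            simp only [Pi.smul_apply, smul_eq_mul, RingHom.id_apply]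
            ring }
      have h1 : L G ∈ Submodule.map L (Submodule.span ℝ
        {f : (κ → ℂ) → ℝ | PM c cm m ((S.erase p).erase r) f}) := Submodule.mem_map_of_mem hG
      rw [Submodule.map_span] at h1
      refine Submodule.span_mono ?_ h1
      rintro _ ⟨f, hf, rfl⟩
      have h2 := PM.det m _ f p r hf (by simp) (by simp) hpr hc
      rw [hS'] at h2
      exact h2
    have hrr : cm (c p) → ∀ r ∈ (S.filter (c · = c p)).erase p, ∀ G ∈ Submodule.span ℝ
        {f : (κ → ℂ) → ℝ | PM c cm m ((S.erase p).erase r) f},
        (fun z => rr (z p) (z r) * G z) ∈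
          Submodule.span ℝ {f : (κ → ℂ) → ℝ | PM c cm (m + 1) S f} := by
      intro hcm r hr G hG
      obtain ⟨hrS, hpr, hc, hS', -⟩ := hins r hr
      let L : ((κ → ℂ) → ℝ) →ₗ[ℝ] ((κ → ℂ) → ℝ) :=
        { toFun := fun G z => rr (z p) (z r) * G z
          map_add' := fun _ _ => by funext z; simp [mul_add]
          map_smul' := fun a G => by
            funext z
            simp only [Pi.smul_apply, smul_eq_mul, RingHom.id_apply]
            ring }
      have h1 : L G ∈ Submodule.map L (Submodule.span ℝ
        {f : (κ → ℂ) → ℝ | PM c cm m ((S.erase p).erase r) f}) := Submodule.mem_map_of_mem hG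
      rw [Submodule.map_span] at h1
      refine Submodule.span_mono ?_ h1
      rintro _ ⟨f, hf, rfl⟩
      have h2 := PM.re m _ f p r hf (by simp) (by simp) hpr hc hcm
      rw [hS'] at h2
      exact h2
    by_cases hcm : cm (c p)
    · have hpos : ((((S.filter (c · = c p)).erase p).card : ℝ) + 1) ≠ 0 := by positivity
      have h1 : F = ((((S.filter (c · = c p)).erase p).card : ℝ) + 1)⁻¹ •
          ∑ r ∈ (S.filter (c · = c p)).erase p,
            ((fun z => rr (z p) (z r) * cr p r F z) + fun z => dt (z p) (z r) * ct p r F z) := by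
        funext z
        have h2 := formula_u1 hF hI hp hcm z
        rw [Pi.smul_apply, Finset.sum_apply, smul_eq_mul, eq_inv_mul_iff_mul_eq₀ hpos, h2]
        rfl
      rw [h1]
      refine Submodule.smul_mem _ _ (Submodule.sum_mem _ fun r hr => ?_)
      obtain ⟨hrS, hpr, hc, hS', hcard⟩ := hins r hr
      exact Submodule.add_mem _
        (hrr hcm r hr _ (ih _ _ hcard (hF.cr hpr) (hI.cr hF hp hrS hpr hc hcm)))
        (hdt r hr _ (ih _ _ hcard (hF.ct hpr) (hI.ct hF hp hrS hpr hc)))
    · have hpos : ((((S.filter (c · = c p)).erase p).card : ℝ) + 3) ≠ 0 := by positivity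
      have h1 : F = (((((S.filter (c · = c p)).erase p).card : ℝ) + 3)⁻¹ * 2) •
          ∑ r ∈ (S.filter (c · = c p)).erase p, (fun z => dt (z p) (z r) * ct p r F z) := by
        funext z
        have h2 := formula_sl hF hI hp hcm z
        rw [Pi.smul_apply, Finset.sum_apply, smul_eq_mul, mul_assoc,
          eq_inv_mul_iff_mul_eq₀ hpos, h2]
      rw [h1]
      refine Submodule.smul_mem _ _ (Submodule.sum_mem _ fun r hr => ?_)
      obtain ⟨hrS, hpr, hc, hS', hcard⟩ := hins r hr
      exact hdt r hr _ (ih _ _ hcard (hF.ct hpr) (hI.ct hF hp hrS hpr hc))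

end Pool.Agent.Y102.FT
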