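import Pool.Agent.H86.CMLib.Y102.Dat

set_option autoImplicit false

/-!
# Subspaces of the rational homology on which the periods satisfy algebraic linear relations
-/

open Filter Topology Module MvPolynomial

noncomputable section

namespace Pool.Agent.Y102

namespace Dat

variable {ι κ : Type} [Fintype ι] [Fintype κ] [DecidableEq ι] [DecidableEq κ] {W : Type}
  [AddCommGroup W] [Module ℚ W] (d : Dat ι κ W)

/-- Functions with linearly independent differentials on a subspace. -/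
theorem exists_indep (S : Submodule ℂ (ι → ℂ)) {m : ℕ} (hm : finrank ℂ S = m) :
    ∃ J : Fin m → d.V, Function.Injective J ∧ ∀ P : MvPolynomial (Fin m) ℂ,
      (∀ᶠ z in 𝓝 (0 : ι → ℂ), z ∈ S → eval (fun i => d.f (J i) z) P = 0) → P = 0 := by
  obtain ⟨J, hJ, hJi⟩ := exists_J
    (fun p : d.V => (fderiv ℂ (d.f p) 0).toLinearMap.comp S.subtype)
    (fun v hv => Subtype.ext (d.imm v fun p => hv p)) hm
  refine ⟨J, hJ, fun P hP => ?_⟩
  have hcomp : ∀ i, (fun z : S => d.f (J i) (z : ι → ℂ)) = fun z : S => d.f (J i) (S.subtypeL z) :=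
    fun i => rfl
  have han : ∀ i, AnalyticAt ℂ (d.f (J i)) (S.subtypeL 0) := fun i => by
    rw [map_zero]
    exact d.an_f _ _ d.zero_mem
  refine poly_zero_of_indep (E := S) (by rw [hm, Fintype.card_fin])
    (fun i z => d.f (J i) (z : ι → ℂ)) (fun i => ?_) (fun v hv => ?_) P ?_
  · rw [hcomp]
    exact (han i).comp (S.subtypeL.analyticAt 0)
  · refine hJi v fun i => ?_
    have h1 := hv i
    rw [hcomp] at h1
    have h2 : HasFDerivAt (fun z : S => d.f (J i) (S.subtypeL z))
        ((fderiv ℂ (d.f (J i)) (S.subtypeL 0)).comp S.subtypeL) 0 :=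
      (han i).differentiableAt.hasFDerivAt.comp 0 S.subtypeL.hasFDerivAt
    rw [h2.fderiv, map_zero] at h1
    exact h1
  · have h1 : Tendsto (fun z : S => (z : ι → ℂ)) (𝓝 0) (𝓝 0) :=
      continuous_subtype_val.tendsto (0 : S)
    filter_upwards [h1.eventually hP] with z hz
    exact hz z.2

/-- A subspace of dimension `n` on which the periods and quasi-periods satisfy algebraic linear
relations. -/
structure Sb (n : ℕ) where
  pos : 0 < n
  M : (Fin n → ℂ) →L[ℂ] (ι → ℂ)
  M' : (Fin n → ℂ) →L[ℂ] (κ → ℂ)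
  hM : ∀ s i, IsAlgebraic ℚ (M (Pi.single s 1) i)
  hM' : ∀ s k, IsAlgebraic ℚ (M' (Pi.single s 1) k)
  U : Fin n → Fin n → ℂ
  hU : LinearIndependent ℂ U
  w : Fin n → W
  hw : ∀ k, w k ∈ d.Λ
  hMU : ∀ k, M (U k) = d.per (w k)
  hMU' : ∀ k, M' (U k) = d.eta (w k)
  inj : ∀ x, M x = 0 → M' x = 0 → x = 0

variable {d} {n : ℕ} (b : d.Sb n)

namespace Sb

/-- the complex space spanned by the periods -/
def T : Submodule ℂ (ι → ℂ) := LinearMap.range b.M.toLinearMap

/-- the kernel -/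
def N : Submodule ℂ (Fin n → ℂ) := LinearMap.ker b.M.toLinearMap

theorem dim_add : finrank ℂ b.T + finrank ℂ b.N = n := by
  have h := LinearMap.finrank_range_add_finrank_ker b.M.toLinearMap
  rw [Module.finrank_fin_fun] at h
  exact h

/-- coordinates on the kernel -/
theorem exists_Z : ∃ Z : Fin (finrank ℂ b.N) → κ, Function.Injective Z ∧
    (∀ x, b.M x = 0 → (∀ i, b.M' x (Z i) = 0) → x = 0) ∧
    ∀ y : Fin (finrank ℂ b.N) → ℂ, ∃ x, b.M x = 0 ∧ ∀ i, b.M' x (Z i) = y i := by
  obtain ⟨Z, hZ, hZi⟩ := exists_J (E := b.N)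
    (fun k : κ => ((LinearMap.proj k).comp b.M'.toLinearMap).comp b.N.subtype)
    (fun v hv => Subtype.ext (b.inj v v.2 (funext fun k => hv k))) rfl
  refine ⟨Z, hZ, fun x hx hx' => ?_, ?_⟩
  · have h1 := hZi ⟨x, hx⟩ fun i => hx' i
    exact congrArg Subtype.val h1
  · let Ψ : b.N →ₗ[ℂ] (Fin (finrank ℂ b.N) → ℂ) := LinearMap.pi fun i =>
      ((LinearMap.proj (Z i)).comp b.M'.toLinearMap).comp b.N.subtype
    have hinj : Function.Injective Ψ := by
      rw [injective_iff_map_eq_zero]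
      intro v hv
      exact hZi v fun i => congrFun hv i
    have hsurj : Function.Surjective Ψ :=
      (LinearMap.injective_iff_surjective_of_finrank_eq_finrank (by
        rw [Module.finrank_fin_fun])).1 hinj
    intro y
    obtain ⟨x, hx⟩ := hsurj y
    exact ⟨x, x.2, fun i => congrFun hx i⟩

/-- A nonzero polynomial has a nonzero value. -/
theorem exists_ne {σ : Type} {P : MvPolynomial σ ℂ} (hP : P ≠ 0) : ∃ x, eval x P ≠ 0 := by
  by_contra hcon
  push Not at hcon
  exact hP (MvPolynomial.funext fun x => by rw [hcon, map_zero])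

/-- **First relation.** More functions than the dimension of the space of periods are dependent
on it. -/
theorem relA (J : Fin (finrank ℂ b.T + 1) → d.V) (hJ : Function.Injective J) :
    ∃ P : MvPolynomial (Fin (finrank ℂ b.T + 1)) ℂ, P ≠ 0 ∧
      ∀ z ∈ b.T, z ∈ d.O → eval (fun i => d.f (J i) z) P = 0 := by
  obtain ⟨Z, hZ, -, hZs⟩ := b.exists_Z
  obtain ⟨P, hP, h⟩ := d.sl b.pos b.M b.M' b.hM b.hM' b.U b.hU b.w b.hw b.hMU b.hMU'
    (I := Fin (finrank ℂ b.T + 1) ⊕ Fin (finrank ℂ b.N))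
    (by rw [Fintype.card_sum, Fintype.card_fin, Fintype.card_fin]; have := b.dim_add; omega)
    (Sum.map J Z) (Sum.map_injective.2 ⟨hJ, hZ⟩)
  obtain ⟨x, hx⟩ := exists_ne hP
  let φ : MvPolynomial (Fin (finrank ℂ b.T + 1) ⊕ Fin (finrank ℂ b.N)) ℂ →ₐ[ℂ]
      MvPolynomial (Fin (finrank ℂ b.T + 1)) ℂ :=
    MvPolynomial.aeval (Sum.elim X fun j => C (x (Sum.inr j)))
  have hφ : ∀ y : Fin (finrank ℂ b.T + 1) → ℂ,
      eval y (φ P) = eval (Sum.elim y fun j => x (Sum.inr j)) P := by
    intro y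
    have h1 : ((MvPolynomial.aeval y : MvPolynomial (Fin (finrank ℂ b.T + 1)) ℂ →ₐ[ℂ] ℂ).comp φ) =
        MvPolynomial.aeval (Sum.elim y fun j => x (Sum.inr j)) := by
      apply MvPolynomial.algHom_ext
      rintro (i | j)
      · simp [φ]
      · simp [φ]
    have h2 := congrArg (fun F => F P) h1
    simpa [MvPolynomial.aeval_eq_eval] using h2
  refine ⟨φ P, ?_, ?_⟩
  · intro h0
    have h1 := hφ fun i => x (Sum.inl i)
    rw [h0, map_zero] at h1
    apply hx
    rw [h1]
    congr 2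
    funext i
    rcases i with i | j <;> rfl
  · rintro z ⟨x₀, hx₀⟩ hz
    rw [hφ]
    have hx₀' : b.M x₀ = z := hx₀
    obtain ⟨k, hk, hk'⟩ := hZs fun j => d.h (Z j) z - b.M' x₀ (Z j) - x (Sum.inr j)
    have hMx : b.M (x₀ + k) = z := by rw [map_add, hk, hx₀', add_zero]
    have h1 := h (x₀ + k) (by rw [hMx]; exact hz)
    rw [← h1]
    congr 2
    funext i
    rcases i with i | j
    · simp only [Sum.elim_inl, Sum.map_inl, fn, hMx]
    · simp only [Sum.elim_inr, Sum.map_inr, fn, hMx]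
      rw [map_add, Pi.add_apply, hk']
      ring

/-- The polynomial relation on the space of periods extends to limits of translates. -/
theorem relA_line (w : ι → ℂ) (hwT : w ∉ b.T)
    (hw : ∀ s : ℝ, s • w ∈ closure {z : ι → ℂ | ∃ t ∈ b.T, ∃ v ∈ d.Λ, z = t + d.per v}) :
    False := by
  classical
  set T' : Submodule ℂ (ι → ℂ) := b.T ⊔ Submodule.span ℂ {w} with hT'
  -- the dimension
  obtain ⟨φ₀, hφw, hφT⟩ := Submodule.exists_le_ker_of_notMem hwT
  set φ : (ι → ℂ) →ₗ[ℂ] ℂ := (φ₀ w)⁻¹ • φ₀ with hφ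
  have hφ1 : φ w = 1 := by
    rw [hφ, LinearMap.smul_apply, smul_eq_mul, inv_mul_cancel₀ hφw]
  have hφ0 : ∀ t ∈ b.T, φ t = 0 := by
    intro t ht
    rw [hφ, LinearMap.smul_apply, LinearMap.mem_ker.1 (hφT ht), smul_zero]
  have hdim : finrank ℂ T' = finrank ℂ b.T + 1 := by
    have h1 : Disjoint b.T (Submodule.span ℂ {w}) := by
      rw [Submodule.disjoint_def]
      intro x hx hx'
      obtain ⟨c, rfl⟩ := Submodule.mem_span_singleton.1 hx'
      have h2 := hφ0 _ hx
      rw [map_smul, hφ1, smul_eq_mul, mul_one] at h2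
      rw [h2, zero_smul]
    have h2 := Submodule.finrank_sup_add_finrank_inf_eq b.T (Submodule.span ℂ {w})
    rw [h1.eq_bot, finrank_bot, add_zero] at h2
    rw [h2, finrank_span_singleton]
    intro h0
    apply hwT
    rw [h0]
    exact b.T.zero_mem
  obtain ⟨J, hJ, hJP⟩ := d.exists_indep T' hdim
  obtain ⟨P, hP, h⟩ := b.relA J hJ
  apply hP
  apply hJP
  -- the values
  set G : (ι → ℂ) → ℂ := fun z => eval (fun i => d.f (J i) z) P with hG
  have hGan : ∀ z ∈ d.O, AnalyticAt ℂ G z := by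
    intro z hz
    have h1 := AnalyticAt.aeval_mvPolynomial (𝕜 := ℂ) (f := fun z i => d.f (J i) z)
      (fun i => d.an_f (J i) z hz) P
    simpa [MvPolynomial.aeval_eq_eval] using h1
  have hGper : ∀ v ∈ d.Λ, ∀ z ∈ d.O, G (z + d.per v) = G z := by
    intro v hv z hz
    simp only [hG]
    congr 2
    funext i
    exact d.f_per v hv z hz _
  have hcl : ∀ t ∈ b.T, ∀ s : ℝ, t + s • w ∈ d.O → G (t + s • w) = 0 := by
    intro t ht s hts
    have h1 : t + s • w ∈ closure {z : ι → ℂ | ∃ t ∈ b.T, ∃ v ∈ d.Λ, z = t + d.per v} := by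
      have h2 : Continuous fun z : ι → ℂ => t + z := continuous_const.add continuous_id
      refine closure_mono ?_ (image_closure_subset_closure_image h2 ⟨s • w, hw s, rfl⟩)
      rintro _ ⟨_, ⟨t', ht', v, hv, rfl⟩, rfl⟩
      exact ⟨t + t', b.T.add_mem ht ht', v, hv, (add_assoc _ _ _).symm⟩
    by_contra hne
    have h3 : ∀ᶠ z in 𝓝 (t + s • w), z ∈ d.O ∧ G z ≠ 0 :=
      Filter.Eventually.and (d.isOpen_O.mem_nhds hts)
        ((hGan _ hts).continuousAt.eventually_ne hne)
    obtain ⟨z, ⟨hz, hz'⟩, t', ht', v, hv, rfl⟩ := mem_closure_iff_nhds.1 h1 _ h3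
    have h4 : t' ∈ d.O := by
      have := d.add_mem (-v) (d.Λ.neg_mem hv) _ hz
      rwa [map_neg, add_neg_cancel_right] at this
    apply hz'
    rw [hGper v hv t' h4]
    exact h t' ht' h4
  -- analytic continuation
  obtain ⟨r, hr, hball⟩ := Metric.isOpen_iff.1 d.isOpen_O 0 d.zero_mem
  let φc : (ι → ℂ) →L[ℂ] ℂ := LinearMap.toContinuousLinearMap φ
  have hφc : ∀ z, φc z = φ z := fun z => rfl
  have hw0 : 0 < ‖w‖ := norm_pos_iff.2 (fun h0 => hwT (by rw [h0]; exact b.T.zero_mem))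
  set R : ℝ := r / (2 * ‖w‖) with hR
  have hRpos : 0 < R := by positivity
  have hev1 : ∀ᶠ z in 𝓝 (0 : ι → ℂ), ‖φc z‖ < R := by
    have h1 : ContinuousAt (fun z => ‖φc z‖) 0 := φc.continuous.norm.continuousAt
    have h2 : ‖φc 0‖ < R := by rw [map_zero, norm_zero]; exact hRpos
    exact h1.eventually_lt_const h2
  have hev2 : ∀ᶠ z in 𝓝 (0 : ι → ℂ), ‖z - φc z • w‖ < r / 2 := by
    have h1 : ContinuousAt (fun z => ‖z - φc z • w‖) 0 :=
      (continuous_id.sub (φc.continuous.smul continuous_const)).norm.continuousAt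
    have h2 : ‖(0 : ι → ℂ) - φc 0 • w‖ < r / 2 := by
      rw [map_zero, zero_smul, sub_zero, norm_zero]
      positivity
    exact h1.eventually_lt_const h2
  filter_upwards [hev1, hev2] with z hz1 hz2 hzT
  -- decomposition
  set t := z - φc z • w with ht
  have htT : t ∈ b.T := by
    obtain ⟨a, ha, c, hc, rfl⟩ := Submodule.mem_sup.1 hzT
    obtain ⟨c, rfl⟩ := Submodule.mem_span_singleton.1 hc
    rw [ht, hφc, map_add, hφ0 a ha, map_smul, hφ1, zero_add, smul_eq_mul, mul_one,
      add_sub_cancel_right]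
    exact ha
  have hin : ∀ s ∈ Metric.ball (0 : ℂ) R, t + s • w ∈ d.O := by
    intro s hs
    apply hball
    rw [mem_ball_zero_iff] at hs ⊢
    calc ‖t + s • w‖ ≤ ‖t‖ + ‖s‖ * ‖w‖ := (norm_add_le _ _).trans (by rw [norm_smul])
      _ < r / 2 + R * ‖w‖ := by
          have : ‖s‖ * ‖w‖ < R * ‖w‖ := mul_lt_mul_of_pos_right hs hw0
          linarith
      _ = r := by
          rw [hR]
          field_simp
          ring
  have hgan : AnalyticOnNhd ℂ (fun s : ℂ => G (t + s • w)) (Metric.ball 0 R) := by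
    intro s hs
    have h1 : AnalyticAt ℂ (fun s : ℂ => t + s • w) s :=
      analyticAt_const.add (analyticAt_id.smul analyticAt_const)
    exact AnalyticAt.comp (g := G) (f := fun s : ℂ => t + s • w) (hGan _ (hin s hs)) h1
  have hfreq : ∃ᶠ s in 𝓝[≠] (0 : ℂ), G (t + s • w) = 0 := by
    have h1 : Tendsto (fun k : ℕ => ((1 / ((k : ℝ) + 1) : ℝ) : ℂ)) atTop (𝓝[≠] 0) := by
      rw [tendsto_nhdsWithin_iff]
      constructor
      · have := (Complex.continuous_ofReal.tendsto 0).comp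
          (tendsto_one_div_add_atTop_nhds_zero_nat (𝕜 := ℝ))
        rw [Complex.ofReal_zero] at this
        exact this
      · refine Eventually.of_forall fun k => ?_
        rw [Set.mem_compl_iff, Set.mem_singleton_iff, Complex.ofReal_eq_zero]
        positivity
    refine h1.frequently (Eventually.frequently ?_)
    have h2 : ∀ᶠ k : ℕ in atTop, ((1 / ((k : ℝ) + 1) : ℝ) : ℂ) ∈ Metric.ball (0 : ℂ) R :=
      (h1.mono_right nhdsWithin_le_nhds).eventually (Metric.ball_mem_nhds _ hRpos)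
    filter_upwards [h2] with k hk
    have h3 := hcl t htT (1 / ((k : ℝ) + 1)) (by
      have := hin _ hk
      rwa [Complex.coe_smul] at this)
    rw [Complex.coe_smul]
    exact h3
  have hzero := hgan.eqOn_zero_of_preconnected_of_frequently_eq_zero
    (Metric.isPreconnected_ball) (Metric.mem_ball_self hRpos) hfreq
  have h5 : φc z ∈ Metric.ball (0 : ℂ) R := by
    rw [mem_ball_zero_iff]
    exact hz1
  have h6 := hzero h5
  simp only [Pi.zero_apply, ht, sub_add_cancel] at h6
  exact h6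

end Sb

end Dat

end Pool.Agent.Y102
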