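import Pool.Agent.H86.CMLib.Y102.Sub

set_option autoImplicit false

/-!
# Such subspaces are complex: dimensions
-/

open Filter Topology Module MvPolynomial

noncomputable section

namespace Pool.Agent.Y102

namespace Dat

variable {ι κ : Type} [Fintype ι] [Fintype κ] [DecidableEq ι] [DecidableEq κ] {W : Type}
  [AddCommGroup W] [Module ℚ W] {d : Dat ι κ W} {n : ℕ} (b : d.Sb n)

namespace Sb

/-- the rational vectors with periods in `T` -/
def W' : Submodule ℚ W := (b.T.restrictScalars ℚ).comap d.per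

theorem mem_W' {v : W} : v ∈ b.W' ↔ d.per v ∈ b.T := Iff.rfl

/-- The space of periods is spanned over the real numbers by rational vectors. -/
theorem two_le [FiniteDimensional ℚ W] (hdim : finrank ℚ W = 2 * Fintype.card ι) :
    2 * finrank ℂ b.T ≤ finrank ℚ b.W' := by
  classical
  by_contra hcon
  push Not at hcon
  set q := Fintype.card ι - finrank ℂ b.T with hq
  have htle : finrank ℂ b.T ≤ Fintype.card ι := by
    have := Submodule.finrank_le b.T
    rwa [Module.finrank_fintype_fun_eq_card] at this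
  have hfq : finrank ℂ ((ι → ℂ) ⧸ b.T) = q := by
    have := Submodule.finrank_quotient_add_finrank b.T
    rw [Module.finrank_fintype_fun_eq_card] at this
    omega
  let e : ((ι → ℂ) ⧸ b.T) ≃ₗ[ℂ] (Fin q → ℂ) := LinearEquiv.ofFinrankEq _ _ (by
    rw [hfq, Module.finrank_fin_fun])
  let π : (ι → ℂ) →ₗ[ℂ] (Fin q → ℂ) := e.toLinearMap.comp b.T.mkQ
  have hπs : LinearMap.range π = ⊤ := by
    rw [LinearMap.range_eq_top]
    exact e.surjective.comp b.T.mkQ_surjective
  have hπk : ∀ z, π z = 0 ↔ z ∈ b.T := by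
    intro z
    rw [LinearMap.comp_apply, LinearEquiv.coe_coe, map_eq_zero_iff _ e.injective,
      Submodule.mkQ_apply, Submodule.Quotient.mk_eq_zero]
  obtain ⟨σ, hσ⟩ := π.exists_rightInverse_of_surjective hπs
  have hσ' : ∀ y, π (σ y) = y := fun y => by
    have := congrArg (fun F => F y) hσ
    exact this
  let ψ : W →ₗ[ℚ] (Fin q → ℂ) := (π.restrictScalars ℚ).comp d.per
  have hψk : LinearMap.ker ψ = b.W' := by
    ext v
    rw [LinearMap.mem_ker, b.mem_W']
    exact hπk _
  obtain ⟨C, hC⟩ := Submodule.exists_isCompl b.W'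
  have hCdim : finrank ℚ C = 2 * Fintype.card ι - finrank ℚ b.W' := by
    have := Submodule.finrank_add_eq_of_isCompl hC
    omega
  let c := Module.finBasis ℚ C
  have hψc : LinearIndependent ℚ (fun i => ψ (c i : W)) := by
    have h1 : LinearIndependent ℚ (fun i => (c i : W)) :=
      c.linearIndependent.map' C.subtype C.ker_subtype
    refine h1.map (f := ψ) ?_
    rw [hψk]
    refine hC.symm.disjoint.mono_left ?_
    rw [Submodule.span_le]
    rintro _ ⟨i, rfl⟩
    exact (c i).2
  choose m hm hmΛ using fun i => d.full (c i : W)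
  have hψy : LinearIndependent ℚ (fun i => ψ (m i • (c i : W))) := by
    have h1 := hψc.units_smul fun i => Units.mk0 (m i : ℚ) (by exact_mod_cast (hm i).ne')
    convert h1 using 1
    funext i
    rw [map_nsmul]
    change m i • ψ (c i : W) = (m i : ℚ) • ψ (c i : W)
    rw [Nat.cast_smul_eq_nsmul]
  let G : AddSubgroup (Fin q → ℂ) := d.Λ.map ψ.toAddMonoidHom
  have hfr : finrank ℝ (Fin q → ℂ) = 2 * q := by
    rw [Module.finrank_pi_fintype]
    simp [Complex.finrank_real_complex, mul_comm]
  have hsmall : ∀ ε : ℝ, 0 < ε → ∃ x ∈ G, x ≠ 0 ∧ ‖x‖ < ε := by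
    refine exists_small G (fun i => ψ (m i • (c i : W))) (fun i => ?_)
      (hψy.restrict_scalars (by
        intro x y hxy
        have h2 : ((x : ℤ) : ℚ) = (y : ℚ) := by simpa using hxy
        exact_mod_cast h2)) ?_
    · exact ⟨_, hmΛ i, rfl⟩
    · rw [hfr, hCdim]
      omega
  obtain ⟨w', hw0, hw⟩ := exists_line G hsmall
  refine b.relA_line (σ w') ?_ ?_
  · intro h
    rw [← hπk, hσ'] at h
    exact hw0 h
  · intro s
    have hcont : Continuous σ := LinearMap.continuous_of_finiteDimensional σ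
    have h1 := image_closure_subset_closure_image hcont ⟨s • w', hw s, rfl⟩
    have h2 : σ (s • w') = s • σ w' := by
      rw [← Complex.coe_smul, map_smul, Complex.coe_smul]
    rw [h2] at h1
    refine closure_mono ?_ h1
    rintro _ ⟨_, ⟨v, hv, rfl⟩, rfl⟩
    refine ⟨σ (π (d.per v)) - d.per v, ?_, v, hv, ?_⟩
    · rw [← hπk, map_sub, hσ', sub_self]
    · rw [sub_add_cancel]
      rfl

/-- **Second relation.** The quasi-periods of the rational vectors with periods in `T` are
linear functions of `n - t` of them and of the periods. -/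
theorem relB (Z : Fin (finrank ℂ b.N) → κ) (hZ : Function.Injective Z)
    (hZi : ∀ x, b.M x = 0 → (∀ i, b.M' x (Z i) = 0) → x = 0)
    (hZs : ∀ y : Fin (finrank ℂ b.N) → ℂ, ∃ x, b.M x = 0 ∧ ∀ i, b.M' x (Z i) = y i) (k₀ : κ) :
    ∃ (a : Fin (finrank ℂ b.N) → ℂ) (l : (ι → ℂ) →ₗ[ℂ] ℂ), ∀ v ∈ b.W',
      d.eta v k₀ = ∑ j, a j * d.eta v (Z j) + l (d.per v) := by
  classical
  by_cases hk₀ : ∃ j, Z j = k₀
  · obtain ⟨j, rfl⟩ := hk₀
    refine ⟨Pi.single j 1, 0, fun v _ => ?_⟩
    rw [LinearMap.zero_apply, add_zero, Finset.sum_eq_single j]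
    · rw [Pi.single_eq_same, one_mul]
    · intro i _ hi
      rw [Pi.single_eq_of_ne hi, zero_mul]
    · intro h
      exact absurd (Finset.mem_univ _) h
  push Not at hk₀
  choose xx hxx hxxZ using fun j => hZs (Pi.single j 1)
  set a : Fin (finrank ℂ b.N) → ℂ := fun j => b.M' (xx j) k₀ with ha
  let φ : (Fin n → ℂ) →ₗ[ℂ] ℂ := ((LinearMap.proj k₀).comp b.M'.toLinearMap) -
    ∑ j, a j • ((LinearMap.proj (Z j)).comp b.M'.toLinearMap)
  have hφ : ∀ x, φ x = b.M' x k₀ - ∑ j, a j * b.M' x (Z j) := by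
    intro x
    simp only [φ, LinearMap.sub_apply, LinearMap.sum_apply, LinearMap.smul_apply, smul_eq_mul]
    rfl
  have hφN : ∀ x, b.M x = 0 → φ x = 0 := by
    intro x hx
    have h1 : x = ∑ j, b.M' x (Z j) • xx j := by
      rw [← sub_eq_zero]
      apply hZi
      · rw [map_sub, map_sum, hx, zero_sub, neg_eq_zero]
        refine Finset.sum_eq_zero fun j _ => ?_
        rw [map_smul, hxx, smul_zero]
      · intro i
        rw [map_sub, map_sum, Pi.sub_apply, Finset.sum_apply, Finset.sum_eq_single i]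
        · rw [map_smul, Pi.smul_apply, hxxZ, Pi.single_eq_same, smul_eq_mul, mul_one, sub_self]
        · intro j _ hj
          rw [map_smul, Pi.smul_apply, hxxZ, Pi.single_eq_of_ne (Ne.symm hj), smul_zero]
        · intro h
          exact absurd (Finset.mem_univ _) h
    rw [hφ]
    conv_lhs => enter [1]; rw [h1]
    rw [map_sum, Finset.sum_apply, sub_eq_zero]
    refine Finset.sum_congr rfl fun j _ => ?_
    rw [map_smul, Pi.smul_apply, smul_eq_mul, mul_comm]
  obtain ⟨l, hl⟩ : ∃ l : (ι → ℂ) →ₗ[ℂ] ℂ, ∀ x, l (b.M x) = φ x := by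
    have h1 : φ ∈ LinearMap.range b.M.toLinearMap.dualMap := by
      rw [LinearMap.range_dualMap_eq_dualAnnihilator_ker, Submodule.mem_dualAnnihilator]
      intro x hx
      exact hφN x hx
    obtain ⟨l, hl⟩ := h1
    exact ⟨l, fun x => congrArg (fun F => F x) hl⟩
  refine ⟨a, l, ?_⟩
  -- the defect
  let dk : W →ₗ[ℚ] ℂ := (LinearMap.proj k₀).comp d.eta -
    ((∑ j, a j • (LinearMap.proj (Z j) : (κ → ℂ) →ₗ[ℂ] ℂ)).restrictScalars ℚ).comp d.eta -
    (l.restrictScalars ℚ).comp d.per
  have hdk : ∀ v, dk v = d.eta v k₀ - ∑ j, a j * d.eta v (Z j) - l (d.per v) := by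
    intro v
    simp only [dk, LinearMap.sub_apply, LinearMap.comp_apply, LinearMap.restrictScalars_apply,
      LinearMap.sum_apply, LinearMap.smul_apply, smul_eq_mul]
    rfl
  suffices hmain : ∀ v ∈ d.Λ, d.per v ∈ b.T → dk v = 0 by
    intro v hv
    obtain ⟨m, hm, hmv⟩ := d.full v
    have h1 := hmain (m • v) hmv (by rw [map_nsmul]; exact b.T.smul_of_tower_mem m hv)
    rw [map_nsmul, nsmul_eq_mul, mul_eq_zero] at h1
    have h2 := h1.resolve_left (by exact_mod_cast hm.ne')
    rw [hdk] at h2
    linear_combination h2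
  intro v hv hvT
  by_contra hne
  obtain ⟨J, hJ, hJP⟩ := d.exists_indep b.T rfl
  obtain ⟨P, hP, h⟩ := d.sl b.pos b.M b.M' b.hM b.hM' b.U b.hU b.w b.hw b.hMU b.hMU'
    (I := Fin (finrank ℂ b.T) ⊕ (Fin (finrank ℂ b.N) ⊕ Unit))
    (by
      rw [Fintype.card_sum, Fintype.card_sum, Fintype.card_fin, Fintype.card_fin,
        Fintype.card_unit]
      have := b.dim_add
      omega)
    (Sum.map J (Sum.elim Z fun _ => k₀)) (Sum.map_injective.2 ⟨hJ, by
      rintro (i | i) (j | j) hij
      · exact congrArg _ (hZ hij)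
      · exact absurd hij (hk₀ i)
      · exact absurd hij.symm (hk₀ j)
      · rfl⟩)
  obtain ⟨x, hx⟩ := exists_ne hP
  set A : ℂ := ∑ j, a j * x (Sum.inr (Sum.inl j)) with hA
  set c₀ : ℂ := x (Sum.inr (Sum.inr ())) - A with hc₀
  -- the value of the polynomial
  have key : ∀ z ∈ b.T, z ∈ d.O → eval (Sum.elim (fun i => d.f (J i) z)
      (Sum.elim (fun j => x (Sum.inr (Sum.inl j))) fun _ => d.h k₀ z -
        ∑ j, a j * d.h (Z j) z - l z + A)) P = 0 := by
    rintro z ⟨x₀, hx₀⟩ hz
    have hx₀' : b.M x₀ = z := hx₀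
    obtain ⟨k, hk, hk'⟩ := hZs fun j => d.h (Z j) z - b.M' x₀ (Z j) - x (Sum.inr (Sum.inl j))
    have hMx : b.M (x₀ + k) = z := by rw [map_add, hk, hx₀', add_zero]
    have hZx : ∀ j, b.M' (x₀ + k) (Z j) = d.h (Z j) z - x (Sum.inr (Sum.inl j)) := by
      intro j
      rw [map_add, Pi.add_apply, hk']
      ring
    have h1 := h (x₀ + k) (by rw [hMx]; exact hz)
    rw [← h1]
    congr 2
    funext i
    rcases i with i | (j | j)
    · simp only [Sum.elim_inl, Sum.map_inl, fn, hMx]
    · simp only [Sum.elim_inr, Sum.elim_inl, Sum.map_inr, fn, hMx]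
      rw [hZx]
      ring
    · simp only [Sum.elim_inr, Sum.map_inr, fn, hMx]
      have h2 := hl (x₀ + k)
      rw [hMx, hφ] at h2
      simp only [hZx] at h2
      have h3 : ∑ j, a j * (d.h (Z j) z - x (Sum.inr (Sum.inl j))) =
          ∑ j, a j * d.h (Z j) z - A := by
        rw [hA, ← Finset.sum_sub_distrib]
        exact Finset.sum_congr rfl fun j _ => by ring
      rw [h3] at h2
      linear_combination (-1 : ℂ) * h2
  -- translation
  have hO' : ∀ z ∈ d.O, ∀ m : ℕ, z + d.per (m • v) ∈ d.O := fun z hz m =>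
    d.add_mem _ (AddSubgroup.nsmul_mem _ hv m) z hz
  have key2 : ∀ z ∈ b.T, z ∈ d.O → ∀ c : ℂ, eval (Sum.elim (fun i => d.f (J i) z)
      (Sum.elim (fun j => x (Sum.inr (Sum.inl j))) fun _ => c + A)) P = 0 := by
    intro z hz hzO c
    let p : Polynomial ℂ := MvPolynomial.aeval (Sum.elim (fun i => Polynomial.C (d.f (J i) z))
      (Sum.elim (fun j => Polynomial.C (x (Sum.inr (Sum.inl j)))) fun _ =>
        Polynomial.X + Polynomial.C A)) P
    have hp : ∀ c, Polynomial.eval c p = eval (Sum.elim (fun i => d.f (J i) z)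
      (Sum.elim (fun j => x (Sum.inr (Sum.inl j))) fun _ => c + A)) P := by
      intro c
      have h1 : ((Polynomial.aeval c : Polynomial ℂ →ₐ[ℂ] ℂ).comp
          (MvPolynomial.aeval (Sum.elim (fun i => Polynomial.C (d.f (J i) z))
          (Sum.elim (fun j => Polynomial.C (x (Sum.inr (Sum.inl j)))) fun _ =>
          Polynomial.X + Polynomial.C A)))) =
          (MvPolynomial.aeval (Sum.elim (fun i => d.f (J i) z)
            (Sum.elim (fun j => x (Sum.inr (Sum.inl j))) fun _ => c + A)) :
            MvPolynomial (Fin (finrank ℂ b.T) ⊕ (Fin (finrank ℂ b.N) ⊕ Unit)) ℂ →ₐ[ℂ] ℂ) := by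
        apply MvPolynomial.algHom_ext
        rintro (i | (j | j)) <;> simp
      have h2 := congrArg (fun F => F P) h1
      simpa [MvPolynomial.aeval_eq_eval, Polynomial.coe_aeval_eq_eval] using h2
    have hp0 : p = 0 := by
      have hroot : ∀ m : ℕ, Polynomial.IsRoot p
          ((d.h k₀ z - ∑ j, a j * d.h (Z j) z - l z) + m * dk v) := by
        intro m
        rw [Polynomial.IsRoot, hp]
        have h1 := key (z + d.per (m • v)) (b.T.add_mem hz (by
          rw [map_nsmul]; exact b.T.smul_of_tower_mem m hvT)) (hO' z hzO m)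
        have hm : m • v ∈ d.Λ := AddSubgroup.nsmul_mem _ hv m
        have h2 : (fun i => d.f (J i) (z + d.per (m • v))) = fun i => d.f (J i) z :=
          funext fun i => d.f_per _ hm z hzO _
        have h3 : d.h k₀ (z + d.per (m • v)) - ∑ j, a j * d.h (Z j) (z + d.per (m • v)) -
            l (z + d.per (m • v)) + A =
            (d.h k₀ z - ∑ j, a j * d.h (Z j) z - l z) + m * dk v + A := by
          rw [d.h_per _ hm z hzO]
          simp only [d.h_per _ hm z hzO]
          have h4 : (m : ℂ) * dk v = d.eta (m • v) k₀ - ∑ j, a j * d.eta (m • v) (Z j) -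
              l (d.per (m • v)) := by
            rw [← hdk, map_nsmul, nsmul_eq_mul]
          rw [h4, map_add]
          have h5 : ∑ j, a j * (d.h (Z j) z + d.eta (m • v) (Z j)) =
              ∑ j, a j * d.h (Z j) z + ∑ j, a j * d.eta (m • v) (Z j) := by
            rw [← Finset.sum_add_distrib]
            exact Finset.sum_congr rfl fun j _ => by ring
          rw [h5]
          ring
        rw [h2, h3] at h1
        exact h1
      refine Polynomial.eq_zero_of_infinite_isRoot p ?_
      refine Set.Infinite.mono (s := Set.range fun m : ℕ =>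
        (d.h k₀ z - ∑ j, a j * d.h (Z j) z - l z) + m * dk v) ?_ ?_
      · rintro _ ⟨m, rfl⟩
        exact hroot m
      · apply Set.infinite_range_of_injective
        intro m m' hmm
        have h1 : (m : ℂ) * dk v = m' * dk v := add_left_cancel hmm
        have h2 := mul_right_cancel₀ hne h1
        exact_mod_cast h2
    rw [← hp, hp0, Polynomial.eval_zero]
  -- the polynomial in the functions `f`
  let ψ : MvPolynomial (Fin (finrank ℂ b.T) ⊕ (Fin (finrank ℂ b.N) ⊕ Unit)) ℂ →ₐ[ℂ]
      MvPolynomial (Fin (finrank ℂ b.T)) ℂ :=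
    MvPolynomial.aeval (Sum.elim X (Sum.elim (fun j => C (x (Sum.inr (Sum.inl j))))
      fun _ => C (c₀ + A)))
  have hψ : ∀ y : Fin (finrank ℂ b.T) → ℂ, eval y (ψ P) = eval (Sum.elim y
      (Sum.elim (fun j => x (Sum.inr (Sum.inl j))) fun _ => c₀ + A)) P := by
    intro y
    have h1 : ((MvPolynomial.aeval y : MvPolynomial (Fin (finrank ℂ b.T)) ℂ →ₐ[ℂ] ℂ).comp ψ) =
        (MvPolynomial.aeval (Sum.elim y
          (Sum.elim (fun j => x (Sum.inr (Sum.inl j))) fun _ => c₀ + A)) :
          MvPolynomial (Fin (finrank ℂ b.T) ⊕ (Fin (finrank ℂ b.N) ⊕ Unit)) ℂ →ₐ[ℂ] ℂ) := by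
      apply MvPolynomial.algHom_ext
      rintro (i | (j | j)) <;> simp [ψ]
    have h2 := congrArg (fun F => F P) h1
    simpa [MvPolynomial.aeval_eq_eval] using h2
  have hψP : ψ P ≠ 0 := by
    intro h0
    have h1 := hψ fun i => x (Sum.inl i)
    rw [h0, map_zero] at h1
    apply hx
    rw [h1]
    congr 2
    funext i
    rcases i with i | (j | j)
    · rfl
    · rfl
    · simp only [Sum.elim_inr, hc₀]
      ring
  apply hψP
  apply hJP
  filter_upwards [d.isOpen_O.mem_nhds d.zero_mem] with z hzO hzT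
  rw [hψ]
  exact key2 z hzT hzO c₀

/-- **Such a subspace is complex.** -/
theorem main [FiniteDimensional ℚ W] (hdim : finrank ℚ W = 2 * Fintype.card ι)
    (hR : ∀ (m : ℕ) (w : Fin m → W), LinearIndependent ℚ w →
      LinearIndependent ℝ (fun i => d.per (w i)))
    (hC : ∀ (m : ℕ) (w : Fin m → W), LinearIndependent ℚ w →
      LinearIndependent ℂ (fun i => (d.per (w i), d.eta (w i)))) :
    n = 2 * finrank ℂ b.T ∧ finrank ℚ b.W' = n ∧ b.W' = Submodule.span ℚ (Set.range b.w) := by
  classical
  have h1 := b.two_le hdim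
  obtain ⟨Z, hZ, hZi, hZs⟩ := b.exists_Z
  choose a l hal using b.relB Z hZ hZi hZs
  have hdimNT := b.dim_add
  -- `dim W' ≤ n`
  let c := Module.finBasis ℚ b.W'
  have hcW : LinearIndependent ℚ (fun i => (c i : W)) :=
    c.linearIndependent.map' b.W'.subtype b.W'.ker_subtype
  have h2 : finrank ℚ b.W' ≤ n := by
    let v : Fin (finrank ℚ b.W') → b.T × (Fin (finrank ℂ b.N) → ℂ) := fun i =>
      (⟨d.per (c i : W), (c i).2⟩, fun j => d.eta (c i : W) (Z j))
    have hv : LinearIndependent ℂ v := by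
      rw [Fintype.linearIndependent_iff]
      intro g hg
      have hg1 : ∑ i, g i • d.per (c i : W) = 0 := by
        have := congrArg (fun p => ((p.1 : b.T) : ι → ℂ)) hg
        simpa [v, Prod.fst_sum] using this
      have hg2 : ∀ j, ∑ i, g i * d.eta (c i : W) (Z j) = 0 := by
        intro j
        have := congrArg (fun p => p.2 j) hg
        simpa [v, Prod.snd_sum] using this
      refine Fintype.linearIndependent_iff.1 (hC _ _ hcW) g ?_
      rw [Prod.ext_iff]
      refine ⟨?_, ?_⟩
      · rw [Prod.fst_sum]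
        exact hg1
      · rw [Prod.snd_sum]
        funext k
        rw [Finset.sum_apply]
        simp only [Prod.smul_snd, Pi.smul_apply, smul_eq_mul, Pi.zero_apply, Prod.snd_zero]
        have h3 : ∀ i, g i * d.eta (c i : W) k =
            ∑ j, a k j * (g i * d.eta (c i : W) (Z j)) + l k (g i • d.per (c i : W)) := by
          intro i
          rw [hal k _ (c i).2, mul_add, Finset.mul_sum, map_smul, smul_eq_mul]
          congr 1
          exact Finset.sum_congr rfl fun j _ => by ring
        rw [Finset.sum_congr rfl fun i _ => h3 i, Finset.sum_add_distrib, ← map_sum, hg1, map_zero,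
          add_zero, Finset.sum_comm]
        refine Finset.sum_eq_zero fun j _ => ?_
        rw [← Finset.mul_sum, hg2, mul_zero]
    have h3 := hv.fintype_card_le_finrank
    rw [Fintype.card_fin, Module.finrank_prod, Module.finrank_fin_fun] at h3
    omega
  -- `n ≤ dim W'`
  have hwli : LinearIndependent ℚ b.w := by
    rw [Fintype.linearIndependent_iff]
    intro g hg
    have h3 : ∑ k, (g k : ℂ) • b.U k = 0 := by
      apply b.inj
      · rw [map_sum]
        have := congrArg d.per hg
        rw [map_sum, map_zero] at this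
        rw [← this]
        refine Finset.sum_congr rfl fun k _ => ?_
        rw [map_smul, b.hMU, map_smul]
        exact Rat.cast_smul_eq_qsmul ℂ _ _
      · rw [map_sum]
        have := congrArg d.eta hg
        rw [map_sum, map_zero] at this
        rw [← this]
        refine Finset.sum_congr rfl fun k _ => ?_
        rw [map_smul, b.hMU', map_smul]
        exact Rat.cast_smul_eq_qsmul ℂ _ _
    intro k
    have h4 := Fintype.linearIndependent_iff.1 b.hU (fun k => (g k : ℂ)) h3 k
    exact_mod_cast h4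
  have hspan : Submodule.span ℚ (Set.range b.w) ≤ b.W' := by
    rw [Submodule.span_le]
    rintro _ ⟨k, rfl⟩
    rw [SetLike.mem_coe, b.mem_W', ← b.hMU]
    exact ⟨_, rfl⟩
  have hspandim : finrank ℚ (Submodule.span ℚ (Set.range b.w)) = n := by
    rw [finrank_span_eq_card hwli, Fintype.card_fin]
  have h3 : n ≤ finrank ℚ b.W' := hspandim.symm.le.trans (Submodule.finrank_mono hspan)
  have h4 : finrank ℚ b.W' = n := le_antisymm h2 h3
  -- `dim W' ≤ 2 dim T`
  have h5 : finrank ℚ b.W' ≤ 2 * finrank ℂ b.T := by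
    have hli : LinearIndependent ℝ (fun i => (⟨d.per (c i : W), (c i).2⟩ : b.T)) := by
      have h6 := hR _ _ hcW
      exact LinearIndependent.of_comp (b.T.subtype.restrictScalars ℝ) h6
    have h6 := hli.fintype_card_le_finrank
    rw [Fintype.card_fin] at h6
    have h7 : finrank ℝ b.T = 2 * finrank ℂ b.T := by
      rw [← Module.finrank_mul_finrank ℝ ℂ b.T, Complex.finrank_real_complex]
    rw [h7] at h6
    exact h6
  refine ⟨by omega, h4, ?_⟩
  exact (Submodule.eq_of_le_of_finrank_eq hspan (by rw [hspandim, h4])).symm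

end Sb

end Dat

end Pool.Agent.Y102
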