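import Mathlib

set_option autoImplicit false
set_option linter.unusedSectionVars false
set_option linter.unusedSimpArgs false

/-!
# Goursat's lemma for subalgebras of a product of copies of `sl(2)`
-/

open Matrix

noncomputable section

namespace Pool.Agent.Y102.TA

/-- the matrices of size two -/
abbrev S : Type := Matrix (Fin 2) (Fin 2) ℂ

/-- the matrix with trace zero -/
def mk (a b c : ℂ) : S := !![a, b; c, -a]

theorem eq_mk {x : S} (h : x.trace = 0) : x = mk (x 0 0) (x 0 1) (x 1 0) := by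
  have h1 : x 0 0 + x 1 1 = 0 := by rwa [Matrix.trace_fin_two] at h
  ext i j
  fin_cases i <;> fin_cases j <;> simp [mk]
  linear_combination h1

theorem trace_mk (a b c : ℂ) : (mk a b c).trace = 0 := by
  simp [mk, Matrix.trace_fin_two]

theorem trace_br (x y : S) : (x * y - y * x).trace = 0 := by
  rw [Matrix.trace_sub, Matrix.trace_mul_comm, sub_self]

def H : S := mk 1 0 0
def E : S := mk 0 1 0
def F : S := mk 0 0 1

theorem mk_eq (a b c : ℂ) : mk a b c = a • H + b • E + c • F := by
  ext i j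
  fin_cases i <;> fin_cases j <;> simp [mk, H, E, F]

theorem br_HE : H * E - E * H = (2 : ℂ) • E := by
  ext i j
  fin_cases i <;> fin_cases j <;> simp [mk, H, E, Matrix.mul_apply, Fin.sum_univ_two]
  norm_num

theorem br_HF : H * F - F * H = (-2 : ℂ) • F := by
  ext i j
  fin_cases i <;> fin_cases j <;> simp [mk, H, F, Matrix.mul_apply, Fin.sum_univ_two]
  norm_num

theorem br_EF : E * F - F * E = H := by
  ext i j
  fin_cases i <;> fin_cases j <;> simp [mk, H, E, F, Matrix.mul_apply, Fin.sum_univ_two]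

/-- A subspace with `H`, `E`, `F`. -/
theorem all_of {N : Submodule ℂ S} (hH : H ∈ N) (hE : E ∈ N) (hF : F ∈ N) {x : S}
    (hx : x.trace = 0) : x ∈ N := by
  rw [eq_mk hx, mk_eq]
  exact N.add_mem (N.add_mem (N.smul_mem _ hH) (N.smul_mem _ hE)) (N.smul_mem _ hF)

theorem all_of_E {N : Submodule ℂ S} (hst : ∀ y : S, y.trace = 0 → ∀ x ∈ N, y * x - x * y ∈ N)
    (hE : E ∈ N) {x : S} (hx : x.trace = 0) : x ∈ N := by
  have hH : H ∈ N := by
    have h1 := hst F (trace_mk _ _ _) _ hE
    have h2 : H = -(F * E - E * F) := by rw [neg_sub, br_EF]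
    rw [h2]
    exact N.neg_mem h1
  have hF : F ∈ N := by
    have h1 := hst F (trace_mk _ _ _) _ hH
    have h2 : F = (2⁻¹ : ℂ) • (F * H - H * F) := by
      have h3 : F * H - H * F = (2 : ℂ) • F := by
        have h4 := congrArg Neg.neg br_HF
        rw [neg_sub] at h4
        rw [h4]
        module
      rw [h3, smul_smul]
      norm_num
    rw [h2]
    exact N.smul_mem _ h1
  exact all_of hH hE hF hx

theorem all_of_F {N : Submodule ℂ S} (hst : ∀ y : S, y.trace = 0 → ∀ x ∈ N, y * x - x * y ∈ N)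
    (hF : F ∈ N) {x : S} (hx : x.trace = 0) : x ∈ N := by
  have hH : H ∈ N := by
    have h1 := hst E (trace_mk _ _ _) _ hF
    rwa [br_EF] at h1
  have hE : E ∈ N := by
    have h1 := hst E (trace_mk _ _ _) _ hH
    have h2 : E = (-(2⁻¹) : ℂ) • (E * H - H * E) := by
      have h3 : E * H - H * E = (-2 : ℂ) • E := by
        have h4 := congrArg Neg.neg br_HE
        rw [neg_sub] at h4
        rw [h4]
        module
      rw [h3, smul_smul]
      norm_num
    rw [h2]
    exact N.smul_mem _ h1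
  exact all_of hH hE hF hx

/-- **Simplicity of `sl(2)`**. -/
theorem simple (N : Submodule ℂ S) (h0 : ∀ x ∈ N, x.trace = 0)
    (hst : ∀ y : S, y.trace = 0 → ∀ x ∈ N, y * x - x * y ∈ N) :
    N = ⊥ ∨ ∀ x : S, x.trace = 0 → x ∈ N := by
  by_cases hN : N = ⊥
  · exact Or.inl hN
  right
  intro w hw
  obtain ⟨x, hx, hx0⟩ := Submodule.exists_mem_ne_zero_of_ne_bot hN
  have hxe := eq_mk (h0 x hx)
  obtain ⟨p, hp⟩ : ∃ p, p = x 0 0 := ⟨_, rfl⟩
  obtain ⟨q, hq⟩ : ∃ q, q = x 0 1 := ⟨_, rfl⟩
  obtain ⟨r, hr⟩ : ∃ r, r = x 1 0 := ⟨_, rfl⟩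
  rw [← hp, ← hq, ← hr] at hxe
  by_cases hr0 : r = 0
  · by_cases hq0 : q = 0
    · have hp0 : p ≠ 0 := by
        intro h
        apply hx0
        rw [hxe, h, hq0, hr0]
        ext i j
        fin_cases i <;> fin_cases j <;> simp [mk]
      have h1 := hst E (trace_mk _ _ _) _ hx
      have h2 : E = (-(2 * p)⁻¹) • (E * x - x * E) := by
        rw [hxe, hq0, hr0]
        ext i j
        fin_cases i <;> fin_cases j <;> simp [mk, E, Matrix.mul_apply, Fin.sum_univ_two]
        field_simp
        norm_num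
      refine all_of_E hst ?_ hw
      rw [h2]
      exact N.smul_mem _ h1
    · have h1 := hst F (trace_mk _ _ _) _ (hst F (trace_mk _ _ _) _ hx)
      have h2 : F = (-(2 * q)⁻¹) • (F * (F * x - x * F) - (F * x - x * F) * F) := by
        rw [hxe]
        ext i j
        fin_cases i <;> fin_cases j <;> simp [mk, F, Matrix.mul_apply, Fin.sum_univ_two]
        field_simp
        ring
      refine all_of_F hst ?_ hw
      rw [h2]
      exact N.smul_mem _ h1
  · have h1 := hst E (trace_mk _ _ _) _ (hst E (trace_mk _ _ _) _ hx)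
    have h2 : E = (-(2 * r)⁻¹) • (E * (E * x - x * E) - (E * x - x * E) * E) := by
      rw [hxe]
      ext i j
      fin_cases i <;> fin_cases j <;> simp [mk, E, Matrix.mul_apply, Fin.sum_univ_two]
      field_simp
      ring
    refine all_of_E hst ?_ hw
    rw [h2]
    exact N.smul_mem _ h1

theorem br_br {s u v : S} (hs : s.trace = 0) (hu : u.trace = 0) (hv : v.trace = 0) :
    s * (u * v - v * u) - (u * v - v * u) * s =
      (2 * (s * u).trace) • v - (2 * (s * v).trace) • u := by
  rw [eq_mk hs, eq_mk hu, eq_mk hv]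
  ext i j
  fin_cases i <;> fin_cases j <;>
    simp [mk, Matrix.mul_apply, Fin.sum_univ_two, Matrix.trace_fin_two] <;> ring

/-- The centralizer of a nonzero element. -/
theorem centralizer {s w : S} (hs : s.trace = 0) (hs0 : s ≠ 0) (hw : w.trace = 0)
    (h : s * w - w * s = 0) : ∃ c : ℂ, w = c • s := by
  have hse := eq_mk hs
  have hwe := eq_mk hw
  obtain ⟨p, hp⟩ : ∃ p, p = s 0 0 := ⟨_, rfl⟩
  obtain ⟨q, hq⟩ : ∃ q, q = s 0 1 := ⟨_, rfl⟩
  obtain ⟨r, hr⟩ : ∃ r, r = s 1 0 := ⟨_, rfl⟩
  obtain ⟨a, ha⟩ : ∃ a, a = w 0 0 := ⟨_, rfl⟩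
  obtain ⟨b, hb⟩ : ∃ b, b = w 0 1 := ⟨_, rfl⟩
  obtain ⟨c, hc⟩ : ∃ c, c = w 1 0 := ⟨_, rfl⟩
  rw [← hp, ← hq, ← hr] at hse
  rw [← ha, ← hb, ← hc] at hwe
  rw [hse, hwe] at h
  have h1 := congrFun (congrFun h 0) 0
  have h2 := congrFun (congrFun h 0) 1
  have h3 := congrFun (congrFun h 1) 0
  simp only [mk, Matrix.sub_apply, Matrix.mul_apply, Fin.sum_univ_two, Matrix.of_apply,
    Matrix.cons_val', Matrix.cons_val_zero, Matrix.cons_val_one, Matrix.zero_apply,
    Matrix.cons_val_fin_one] at h1 h2 h3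
  by_cases hp0 : p = 0
  · by_cases hq0 : q = 0
    · have hr0 : r ≠ 0 := by
        intro h
        apply hs0
        rw [hse, h, hq0, hp0]
        ext i j
        fin_cases i <;> fin_cases j <;> simp [mk]
      refine ⟨c / r, ?_⟩
      rw [hse, hwe]
      have e1 : a = 0 := by
        have : r * a = 0 := by rw [hp0] at h3; linear_combination h3 / 2
        exact (mul_eq_zero.1 this).resolve_left hr0
      have e2 : b = 0 := by
        have : r * b = 0 := by rw [hp0, hq0] at h1; linear_combination -h1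
        exact (mul_eq_zero.1 this).resolve_left hr0
      rw [e1, e2, hp0, hq0]
      ext i j
      fin_cases i <;> fin_cases j <;> simp [mk]
      field_simp
    · refine ⟨b / q, ?_⟩
      rw [hse, hwe]
      have e1 : a = 0 := by
        have : q * a = 0 := by rw [hp0] at h2; linear_combination -h2 / 2
        exact (mul_eq_zero.1 this).resolve_left hq0
      have e2 : c = b / q * r := by
        field_simp
        linear_combination h1
      rw [e1, hp0]
      ext i j
      fin_cases i <;> fin_cases j <;> simp [mk]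
      · field_simp
      · exact e2
  · refine ⟨a / p, ?_⟩
    rw [hse, hwe]
    have e1 : b = a / p * q := by
      field_simp
      linear_combination h2 / 2
    have e2 : c = a / p * r := by
      field_simp
      linear_combination -h3 / 2
    ext i j
    fin_cases i <;> fin_cases j <;> simp [mk]
    · field_simp
    · exact e1
    · exact e2
    · field_simp

/-- A perfect subalgebra of `sl(2)`. -/
theorem perfect (P : Submodule ℂ S) (h0 : ∀ x ∈ P, x.trace = 0)
    (hP : P ≤ Submodule.span ℂ {z | ∃ x ∈ P, ∃ y ∈ P, z = x * y - y * x}) :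
    P = ⊥ ∨ ∀ x : S, x.trace = 0 → x ∈ P := by
  by_cases hall : ∀ x : S, x.trace = 0 → x ∈ P
  · exact Or.inr hall
  left
  push Not at hall
  obtain ⟨x₀, hx₀, hx₀P⟩ := hall
  obtain ⟨f, hf1, hf2⟩ := Submodule.exists_dual_map_eq_bot_of_notMem hx₀P inferInstance
  have hf0 : ∀ x ∈ P, f x = 0 := by
    intro x hx
    have h3 : f x ∈ Submodule.map f P := Submodule.mem_map_of_mem hx
    rwa [hf2, Submodule.mem_bot] at h3
  let s : S := mk (f H / 2) (f F) (f E)
  have hs : s.trace = 0 := trace_mk _ _ _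
  have hsf : ∀ x : S, x.trace = 0 → (s * x).trace = f x := by
    intro x hx
    rw [eq_mk hx, mk_eq (x 0 0)]
    simp only [map_add, map_smul, smul_eq_mul, s, mul_add, Matrix.mul_smul, Matrix.trace_add,
      Matrix.trace_smul]
    have e1 : (mk (f H / 2) (f F) (f E) * H).trace = f H := by
      simp [mk, H, Matrix.mul_apply, Fin.sum_univ_two, Matrix.trace_fin_two]
    have e2 : (mk (f H / 2) (f F) (f E) * E).trace = f E := by
      simp [mk, E, Matrix.mul_apply, Fin.sum_univ_two, Matrix.trace_fin_two]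
    have e3 : (mk (f H / 2) (f F) (f E) * F).trace = f F := by
      simp [mk, F, Matrix.mul_apply, Fin.sum_univ_two, Matrix.trace_fin_two]
    rw [e1, e2, e3]
  have hs0 : s ≠ 0 := by
    intro h
    apply hf1
    rw [← hsf x₀ hx₀, h, zero_mul, Matrix.trace_zero]
  have hbr : ∀ x ∈ P, ∀ y ∈ P, ∃ c : ℂ, x * y - y * x = c • s := by
    intro x hx y hy
    refine centralizer hs hs0 (trace_br x y) ?_
    rw [br_br hs (h0 x hx) (h0 y hy), hsf x (h0 x hx), hsf y (h0 y hy), hf0 x hx, hf0 y hy]
    simp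
  have hPs : ∀ x ∈ P, ∃ c : ℂ, x = c • s := by
    intro x hx
    have h1 : Submodule.span ℂ {z | ∃ x ∈ P, ∃ y ∈ P, z = x * y - y * x} ≤
        Submodule.span ℂ {s} := by
      rw [Submodule.span_le]
      rintro _ ⟨x, hx, y, hy, rfl⟩
      obtain ⟨c, hc⟩ := hbr x hx y hy
      exact Submodule.mem_span_singleton.2 ⟨c, hc.symm⟩
    obtain ⟨c, hc⟩ := Submodule.mem_span_singleton.1 (h1 (hP hx))
    exact ⟨c, hc.symm⟩
  rw [eq_bot_iff]
  refine hP.trans ?_
  rw [Submodule.span_le]
  rintro _ ⟨x, hx, y, hy, rfl⟩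
  obtain ⟨c, rfl⟩ := hPs x hx
  obtain ⟨d, rfl⟩ := hPs y hy
  rw [SetLike.mem_coe, Submodule.mem_bot, smul_mul_smul_comm, smul_mul_smul_comm, mul_comm c d,
    sub_self]

end Pool.Agent.Y102.TA
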