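import Pool.Agent.H86.CMLib.Y102.T2

set_option autoImplicit false
set_option linter.unusedSectionVars false
set_option linter.unusedSimpArgs false

/-!
# Lie algebras of type `A_1` and their subalgebras with the same commutant
-/

open Matrix

noncomputable section

namespace Pool.Agent.Y102.TA

variable {R : Type} [Ring R] [Algebra ℂ R] {I : Type} [Fintype I] [DecidableEq I]

theorem E_ne : E ≠ 0 := by
  intro h4
  have h7 := congrFun (congrFun h4 0) 1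
  simp [E, mk] at h7

theorem H_ne : H ≠ 0 := by
  intro h4
  have h7 := congrFun (congrFun h4 0) 0
  simp [H, mk] at h7

/-- central with respect to `M` -/
def Cen (M : Submodule ℂ R) (z : R) : Prop := ∀ Y ∈ M, z * Y = Y * z

/-- `X` is the sum of the `φ_i (ξ_i)` and a central element. -/
def Dec (φ : I → S →ₗ[ℂ] R) (M : Submodule ℂ R) (X : R) (ξ : I → S) : Prop :=
  (∀ i, (ξ i).trace = 0) ∧ Cen M (X - ∑ i, φ i (ξ i))

/-- A Lie algebra of type `A_1` in separated position. -/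
structure TypeA (φ : I → S →ₗ[ℂ] R) (M : Submodule ℂ R) : Prop where
  mul : ∀ i a b, φ i (a * b) = φ i a * φ i b
  comm : ∀ i k, i ≠ k → ∀ a b, φ i a * φ k b = φ k b * φ i a
  one : ∀ i, φ i 1 ≠ 0
  mem : ∀ i (x : S), x.trace = 0 → φ i x ∈ M
  dec : ∀ X ∈ M, ∃ ξ, Dec φ M X ξ
  pair : ∀ i k, i ≠ k → φ i 1 * φ k 1 ≠ 0 ∨ ∃ N : R, N ≠ 0 ∧ φ i 1 * N = N ∧ N * φ k 1 = N ∧
    (∀ l, l ≠ i → l ≠ k → ∀ a, N * φ l a = φ l a * N) ∧ ∀ z ∈ M, Cen M z → N * z = z * N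

theorem Cen.add {M : Submodule ℂ R} {z w : R} (hz : Cen M z) (hw : Cen M w) : Cen M (z + w) :=
  fun Y hY => by rw [add_mul, mul_add, hz Y hY, hw Y hY]

theorem Cen.smul {M : Submodule ℂ R} {z : R} (c : ℂ) (hz : Cen M z) : Cen M (c • z) :=
  fun Y hY => by rw [smul_mul_assoc, mul_smul_comm, hz Y hY]

theorem Cen.zero {M : Submodule ℂ R} : Cen M (0 : R) := fun Y _ => by rw [zero_mul, mul_zero]

theorem Cen.sub {M : Submodule ℂ R} {z w : R} (hz : Cen M z) (hw : Cen M w) : Cen M (z - w) :=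
  fun Y hY => by rw [sub_mul, mul_sub, hz Y hY, hw Y hY]

section Dec

variable {φ : I → S →ₗ[ℂ] R} {M : Submodule ℂ R}

theorem Dec.add {X Y : R} {ξ η : I → S} (h1 : Dec φ M X ξ) (h2 : Dec φ M Y η) :
    Dec φ M (X + Y) (ξ + η) := by
  refine ⟨fun i => by rw [Pi.add_apply, Matrix.trace_add, h1.1, h2.1, add_zero], ?_⟩
  have h3 := h1.2.add h2.2
  have h4 : X + Y - ∑ i, φ i ((ξ + η) i) = X - ∑ i, φ i (ξ i) + (Y - ∑ i, φ i (η i)) := by
    simp only [Pi.add_apply, map_add, Finset.sum_add_distrib]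
    abel
  rwa [h4]

theorem Dec.smul {X : R} {ξ : I → S} (c : ℂ) (h1 : Dec φ M X ξ) : Dec φ M (c • X) (c • ξ) := by
  refine ⟨fun i => by rw [Pi.smul_apply, Matrix.trace_smul, h1.1, smul_zero], ?_⟩
  have h3 := h1.2.smul c
  have h4 : c • X - ∑ i, φ i ((c • ξ) i) = c • (X - ∑ i, φ i (ξ i)) := by
    simp only [Pi.smul_apply, map_smul, smul_sub, Finset.smul_sum]
  rwa [h4]

theorem Dec.zero : Dec φ M (0 : R) 0 := by
  refine ⟨fun i => by rw [Pi.zero_apply, Matrix.trace_zero], ?_⟩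
  have h4 : (0 : R) - ∑ i, φ i ((0 : I → S) i) = 0 := by simp
  rw [h4]
  exact Cen.zero

/-- the components -/
def XX (φ : I → S →ₗ[ℂ] R) (M L : Submodule ℂ R) : Submodule ℂ (I → S) where
  carrier := {ξ | ∃ X ∈ L, Dec φ M X ξ}
  zero_mem' := ⟨0, L.zero_mem, Dec.zero⟩
  add_mem' := fun ⟨X, h1, h2⟩ ⟨Y, h3, h4⟩ => ⟨X + Y, L.add_mem h1 h3, h2.add h4⟩
  smul_mem' := fun c _ ⟨X, h1, h2⟩ => ⟨c • X, L.smul_mem c h1, h2.smul c⟩

end Dec

namespace TypeA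

variable {φ : I → S →ₗ[ℂ] R} {M : Submodule ℂ R} (h : TypeA φ M)
include h

theorem U00_ne (i : I) : φ i (U 0 0) ≠ 0 := by
  intro h1
  apply h.one i
  have h2 : φ i (U 1 1) = 0 := by
    have h3 : U 1 1 = U 1 0 * (U 0 0 * U 0 1) := by rw [U_mul, if_pos rfl, U_mul, if_pos rfl]
    rw [h3, h.mul, h.mul, h1, zero_mul, mul_zero]
  rw [← U_one, map_add, h1, h2, add_zero]

theorem inj {i : I} {a : S} (ha : φ i a = 0) : a = 0 := by
  by_contra hne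
  obtain ⟨r, s, hrs⟩ : ∃ r s, a r s ≠ 0 := by
    by_contra hcon
    push Not at hcon
    exact hne (Matrix.ext fun r s => hcon r s)
  have h1 : U 0 r * a * U s 0 = a r s • U 0 0 := by
    ext i j
    simp only [U, Matrix.mul_apply, Matrix.single, Matrix.of_apply, Matrix.smul_apply, smul_eq_mul,
      Fin.sum_univ_two]
    fin_cases i <;> fin_cases j <;> fin_cases r <;> fin_cases s <;> simp
  have h2 : φ i (U 0 r * a * U s 0) = 0 := by rw [h.mul, h.mul, ha, mul_zero, zero_mul]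
  rw [h1, map_smul] at h2
  exact h.U00_ne i ((smul_eq_zero.1 h2).resolve_left hrs)

/-- Central elements commute with all the matrices. -/
theorem cen_phi {z : R} (hz : Cen M z) (i : I) (a : S) : z * φ i a = φ i a * z := by
  have h1 : ∀ x : S, x.trace = 0 → z * φ i x = φ i x * z := fun x hx => hz _ (h.mem i x hx)
  have h2 : z * φ i 1 = φ i 1 * z := by
    have h3 : (1 : S) = E * F + F * E := by rw [EF_eq, FE_eq, U_one]
    rw [h3, map_add, h.mul, h.mul, mul_add, add_mul, ← mul_assoc, ← mul_assoc,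
      h1 E (trace_mk _ _ _), h1 F (trace_mk _ _ _), mul_assoc, mul_assoc, h1 E (trace_mk _ _ _),
      h1 F (trace_mk _ _ _)]
    simp only [mul_assoc]
  have h3 : a = (a - (a.trace / 2) • (1 : S)) + (a.trace / 2) • (1 : S) := by abel
  have h4 : (a - (a.trace / 2) • (1 : S)).trace = 0 := by
    rw [Matrix.trace_sub, Matrix.trace_smul, Matrix.trace_one, Fintype.card_fin, smul_eq_mul]
    push_cast
    ring
  rw [h3, map_add, mul_add, add_mul, h1 _ h4, map_smul, mul_smul_comm, smul_mul_assoc, h2]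

theorem sum_mem {ξ : I → S} (hξ : ∀ i, (ξ i).trace = 0) : ∑ i, φ i (ξ i) ∈ M :=
  M.sum_mem fun i _ => h.mem i _ (hξ i)

/-- The bracket of elements. -/
theorem br {X Y : R} {ξ η : I → S} (hX : X ∈ M) (hY : Y ∈ M) (h1 : Dec φ M X ξ)
    (h2 : Dec φ M Y η) : X * Y - Y * X = ∑ i, φ i (ξ i * η i - η i * ξ i) := by
  classical
  obtain ⟨P, hP⟩ : ∃ P, P = ∑ i, φ i (ξ i) := ⟨_, rfl⟩
  obtain ⟨Q, hQ⟩ : ∃ Q, Q = ∑ i, φ i (η i) := ⟨_, rfl⟩
  have hPM : P ∈ M := hP ▸ h.sum_mem h1.1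
  have hQM : Q ∈ M := hQ ▸ h.sum_mem h2.1
  obtain ⟨z, hz⟩ : ∃ z, z = X - P := ⟨_, rfl⟩
  obtain ⟨w, hw⟩ : ∃ w, w = Y - Q := ⟨_, rfl⟩
  have hzc : Cen M z := by rw [hz, hP]; exact h1.2
  have hwc : Cen M w := by rw [hw, hQ]; exact h2.2
  have hwM : w ∈ M := hw ▸ M.sub_mem hY hQM
  have e1 := hzc Q hQM
  have e2 := hzc w hwM
  have e3 := hwc P hPM
  have hXe : X = P + z := by rw [hz]; abel
  have hYe : Y = Q + w := by rw [hw]; abel
  have h3 : X * Y - Y * X = P * Q - Q * P := by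
    rw [hXe, hYe, add_mul, mul_add, mul_add, add_mul, mul_add, mul_add, e1, e2, e3]
    abel
  rw [h3, hP, hQ, Finset.sum_mul_sum, Finset.sum_mul_sum, Finset.sum_comm, ← Finset.sum_sub_distrib]
  refine Finset.sum_congr rfl fun i _ => ?_
  rw [← Finset.sum_sub_distrib, Finset.sum_eq_single i]
  · rw [map_sub, h.mul, h.mul]
  · intro k _ hk
    rw [h.comm k i hk, sub_self]
  · intro h4
    exact absurd (Finset.mem_univ _) h4

theorem dec_br {X Y : R} {ξ η : I → S} (hX : X ∈ M) (hY : Y ∈ M) (h1 : Dec φ M X ξ)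
    (h2 : Dec φ M Y η) : Dec φ M (X * Y - Y * X) (fun i => ξ i * η i - η i * ξ i) := by
  refine ⟨fun i => trace_br _ _, ?_⟩
  rw [h.br hX hY h1 h2, sub_self]
  exact Cen.zero

theorem eq_zero_of_comm {a : S} (ha : a.trace = 0) {i : I}
    (h1 : ∀ x : S, x.trace = 0 → φ i a * φ i x = φ i x * φ i a) : a = 0 := by
  have h2 : ∀ x : S, x.trace = 0 → a * x - x * a = 0 := by
    intro x hx
    apply h.inj (i := i)
    rw [map_sub, h.mul, h.mul, h1 x hx, sub_self]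
  by_contra hne
  have e1 := h2 E (trace_mk _ _ _)
  have e2 := h2 F (trace_mk _ _ _)
  obtain ⟨c, hc⟩ : ∃ c : ℂ, E = c • a := centralizer ha hne (trace_mk 0 1 0 : E.trace = 0) e1
  obtain ⟨d, hd⟩ : ∃ d : ℂ, F = d • a := centralizer ha hne (trace_mk 0 0 1 : F.trace = 0) e2
  have hH := br_EF
  rw [hc, hd] at hH
  rw [smul_mul_smul_comm, smul_mul_smul_comm, mul_comm c d, sub_self] at hH
  exact H_ne hH.symm

/-- Uniqueness of the components. -/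
theorem uniq {X : R} {ξ η : I → S} (h1 : Dec φ M X ξ) (h2 : Dec φ M X η) : ξ = η := by
  classical
  funext i
  have h3 := h2.2.sub h1.2
  have h4 : X - ∑ i, φ i (η i) - (X - ∑ i, φ i (ξ i)) = ∑ i, φ i (ξ i - η i) := by
    simp only [map_sub, Finset.sum_sub_distrib]
    abel
  rw [h4] at h3
  rw [← sub_eq_zero]
  refine h.eq_zero_of_comm (i := i) (by rw [Matrix.trace_sub, h1.1, h2.1, sub_zero]) fun x hx => ?_
  have h5 := h3 _ (h.mem i x hx)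
  rw [Finset.sum_mul, Finset.mul_sum, ← Finset.add_sum_erase _ _ (Finset.mem_univ i),
    ← Finset.add_sum_erase _ _ (Finset.mem_univ i)] at h5
  have h6 : ∑ l ∈ Finset.univ.erase i, φ l (ξ l - η l) * φ i x =
      ∑ l ∈ Finset.univ.erase i, φ i x * φ l (ξ l - η l) :=
    Finset.sum_congr rfl fun l hl => h.comm l i (Finset.ne_of_mem_erase hl) _ _
  rw [h6] at h5
  exact add_right_cancel h5

section Sub

variable {L D : Submodule ℂ R} (hLM : L ≤ M) (hDL : D ≤ L)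
  (hLbr : ∀ X ∈ L, ∀ Y ∈ L, X * Y - Y * X ∈ L)
  (hperf : D ≤ Submodule.span ℂ {Z | ∃ X ∈ D, ∃ Y ∈ D, Z = X * Y - Y * X})
  (hdec : ∀ X ∈ L, ∃ Z ∈ L, ∃ d ∈ D, X = Z + d ∧ ∀ Y ∈ L, Z * Y = Y * Z)
  (hcom : ∀ T : R, (∀ X ∈ L, T * X = X * T) → ∀ X ∈ M, T * X = X * T)

include hLM hDL hLbr hperf in
theorem perfect_or (i : I) : (∀ ξ ∈ XX φ M D, ξ i = 0) ∨
    ∀ x : S, x.trace = 0 → ∃ ξ ∈ XX φ M D, ξ i = x := by
  have hDM : D ≤ M := hDL.trans hLM
  let P : Submodule ℂ S := Submodule.map (LinearMap.proj i) (XX φ M D)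
  have hP : ∀ y, y ∈ P ↔ ∃ ξ ∈ XX φ M D, ξ i = y := by
    intro y
    simp only [P, Submodule.mem_map, LinearMap.proj_apply]
  have key : ∀ Z ∈ Submodule.span ℂ {Z | ∃ X ∈ D, ∃ Y ∈ D, Z = X * Y - Y * X}, Z ∈ M ∧
      ∀ ξ, Dec φ M Z ξ → ξ i ∈ Submodule.span ℂ {z | ∃ x ∈ P, ∃ y ∈ P, z = x * y - y * x} := by
    intro Z hZ
    induction hZ using Submodule.span_induction with
    | mem Z hZ =>
      obtain ⟨X, hX, Y, hY, rfl⟩ := hZ
      obtain ⟨ξ, hξ⟩ := h.dec X (hDM hX)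
      obtain ⟨η, hη⟩ := h.dec Y (hDM hY)
      refine ⟨hLM (hLbr X (hDL hX) Y (hDL hY)), fun ζ hζ => ?_⟩
      · have h1 := h.dec_br (hDM hX) (hDM hY) hξ hη
        rw [h.uniq hζ h1]
        exact Submodule.subset_span ⟨ξ i, (hP _).2 ⟨ξ, ⟨X, hX, hξ⟩, rfl⟩, η i,
          (hP _).2 ⟨η, ⟨Y, hY, hη⟩, rfl⟩, rfl⟩
    | zero =>
      refine ⟨M.zero_mem, fun ζ hζ => ?_⟩
      rw [h.uniq hζ Dec.zero]
      exact Submodule.zero_mem _
    | add a b _ _ ha hb =>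
      refine ⟨M.add_mem ha.1 hb.1, fun ζ hζ => ?_⟩
      obtain ⟨ξ, hξ⟩ := h.dec a ha.1
      obtain ⟨η, hη⟩ := h.dec b hb.1
      rw [h.uniq hζ (hξ.add hη)]
      exact Submodule.add_mem _ (ha.2 ξ hξ) (hb.2 η hη)
    | smul c a _ ha =>
      refine ⟨M.smul_mem c ha.1, fun ζ hζ => ?_⟩
      obtain ⟨ξ, hξ⟩ := h.dec a ha.1
      rw [h.uniq hζ (hξ.smul c)]
      exact Submodule.smul_mem _ _ (ha.2 ξ hξ)
  rcases perfect P (fun x hx => by
      obtain ⟨ξ, ⟨X, _, h2⟩, h3⟩ := (hP x).1 hx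
      rw [← h3]
      exact h2.1 i) (fun x hx => by
      obtain ⟨ξ, ⟨X, h1, h2⟩, h3⟩ := (hP x).1 hx
      rw [← h3]
      exact (key X (hperf h1)).2 ξ h2) with h1 | h1
  · left
    intro ξ hξ
    have h2 : ξ i ∈ P := (hP _).2 ⟨ξ, hξ, rfl⟩
    rwa [h1, Submodule.mem_bot] at h2
  · right
    intro x hx
    exact (hP x).1 (h1 x hx)

include hLM hDL hLbr hperf hdec hcom in
/-- The projections are surjective. -/
theorem sur (i : I) (x : S) (hx : x.trace = 0) : ∃ ξ ∈ XX φ M L, ξ i = x := by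
  classical
  rcases h.perfect_or hLM hDL hLbr hperf i with h1 | h1
  swap
  · obtain ⟨ξ, ⟨X, h2, h3⟩, h4⟩ := h1 x hx
    exact ⟨ξ, ⟨X, hDL h2, h3⟩, h4⟩
  exfalso
  have hab : ∀ ξ ∈ XX φ M L, ∀ η ∈ XX φ M L, ξ i * η i - η i * ξ i = 0 := by
    rintro ξ ⟨X, hX, hξ⟩ η ⟨Y, hY, hη⟩
    obtain ⟨Z, hZ, d, hd, hXZ, hZc⟩ := hdec X hX
    obtain ⟨ζ, hζ⟩ := h.dec Z (hLM hZ)
    obtain ⟨δ, hδ⟩ := h.dec d (hLM (hDL hd))
    have h2 : ξ = ζ + δ := h.uniq hξ (hXZ ▸ hζ.add hδ)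
    have h3 : ξ i = ζ i := by
      rw [h2, Pi.add_apply, h1 δ ⟨d, hd, hδ⟩, add_zero]
    have h4 := h.dec_br (hLM hZ) (hLM hY) hζ hη
    rw [hZc Y hY, sub_self] at h4
    have h5 := congrFun (h.uniq h4 Dec.zero) i
    rw [h3]
    exact h5
  obtain ⟨a, ha, ha0, hac⟩ : ∃ a : S, a.trace = 0 ∧ a ≠ 0 ∧ ∀ ξ ∈ XX φ M L, a * ξ i = ξ i * a := by
    by_cases hall : ∀ ξ ∈ XX φ M L, ξ i = 0
    · refine ⟨E, trace_mk _ _ _, fun h2 => ?_, fun ξ hξ => by rw [hall ξ hξ, mul_zero, zero_mul]⟩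
      exact E_ne h2
    · push Not at hall
      obtain ⟨ξ, hξ, hne⟩ := hall
      refine ⟨ξ i, ?_, hne, fun η hη => sub_eq_zero.1 (hab ξ hξ η hη)⟩
      obtain ⟨X, _, h2⟩ := hξ
      exact h2.1 i
  apply ha0
  refine h.eq_zero_of_comm ha (i := i) fun x hx => ?_
  refine hcom (φ i a) (fun X hX => ?_) _ (h.mem i x hx)
  obtain ⟨ξ, hξ⟩ := h.dec X (hLM hX)
  have h2 : X = (X - ∑ i, φ i (ξ i)) + ∑ i, φ i (ξ i) := by abel
  have h3 : φ i a * (X - ∑ i, φ i (ξ i)) = (X - ∑ i, φ i (ξ i)) * φ i a :=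
    (h.cen_phi hξ.2 i a).symm
  have h4 : φ i a * ∑ i, φ i (ξ i) = (∑ i, φ i (ξ i)) * φ i a := by
    rw [Finset.mul_sum, Finset.sum_mul]
    refine Finset.sum_congr rfl fun l _ => ?_
    by_cases hl : l = i
    · subst hl
      rw [← h.mul, ← h.mul, hac ξ ⟨X, hX, hξ⟩]
    · exact (h.comm l i hl _ _).symm
  rw [h2, mul_add, add_mul, h3, h4]

end Sub

end TypeA

end Pool.Agent.Y102.TA
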