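import Pool.Agent.H86.CMLib.Y102.T5

set_option autoImplicit false
set_option linter.unusedSectionVars false
set_option linter.unusedSimpArgs false
set_option linter.unusedVariables false

/-!
# The Casimir class for the Lie algebra of the classes which are Hodge and de Rham-Betti
-/

open Module Function TensorProduct

noncomputable section

namespace Pool.Agent.Y102

open Pool.Agent.W516.DR Pool.Agent.H204R3.GP Pool.Agent.W516.KC Pool.Agent.H204R3.SP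

namespace AbVar

variable {g : ℕ} (A : AbVar g)

theorem NA_split {Z : Module.End ℚ A.H1} (hZ : Z ∈ A.NA) (hk : Kills Z A.cas) :
    ∃ Y ∈ A.LA, Z - Y ∈ A.CN := by
  obtain ⟨Y, hY, hcomm⟩ := Pool.Agent.W516.KC2.mem_of_kills_casimir A.LA A.trace_LA A.om
    (fun X hX Y hY => A.LA_bracket hX hY) (fun u hu => A.om_nondeg hu) (A.NA_skew hZ) hk
  have h1 : Z - Y ∈ A.EA := hcomm
  exact ⟨Y, hY, A.NA.sub_mem hZ (A.LA_le_NA hY), fun X hX => A.NA_comm hX h1⟩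

theorem NA_le_of_cas (hcas : IsHodgeTensor (A.per : A.H1 →+ (Fin g → ℂ)) A.cas) :
    A.NA ≤ A.LA ⊔ A.CN := by
  intro Z hZ
  obtain ⟨Y, hY, h1⟩ := A.NA_split hZ (hZ 2 _ hcas A.cas_drb)
  exact Submodule.mem_sup.2 ⟨Y, hY, _, h1, add_sub_cancel _ _⟩

theorem hodge_of_le (h : A.NA ≤ A.LA ⊔ A.CN) {m : ℕ}
    {ψ : MultilinearMap ℚ (fun _ : Fin m × Fin 2 => A.H1) ℚ}
    (hψ : IsDeRhamBettiForm QBar A.dR tau m ψ) (hz : ∀ X ∈ A.CN, Kills X ψ) :
    IsHodgeTensor (A.per : A.H1 →+ (Fin g → ℂ)) ψ := by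
  refine hodge_of_kills _ A.isRationalStructure ψ fun Z hZ => ?_
  obtain ⟨Y, hY, Z', hZ', rfl⟩ := Submodule.mem_sup.1 (h (A.MA_le_NA hZ))
  exact A.kills_sum (hY m ψ hψ) (hz _ hZ')

/-- The Casimir class is killed by the centre. -/
theorem cas_killed {X : Module.End ℚ A.H1} (hX : X ∈ A.CN) : Kills X A.cas :=
  A.cas_kills (A.NA_skew hX.1) fun Y hY => by
    rw [← hX.2 Y (A.LA_le_NA hY), sub_self]
    exact A.LA.zero_mem

theorem cas_hodge {n : ℕ} {φ : Fin n → TA.S →ₗ[ℂ] Module.End ℂ (ℂ ⊗[ℚ] A.H1)}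
    (h : TA.TypeA φ (cx A.NA)) : IsHodgeTensor (A.per : A.H1 →+ (Fin g → ℂ)) A.cas :=
  A.hodge_of_le (A.NA_le_of_typeA h) A.cas_drb fun X hX => A.cas_killed hX

end AbVar

end Pool.Agent.Y102
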