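import Pool.Agent.H86.CMLib.Y102.Theta1

set_option autoImplicit false
set_option linter.unusedSectionVars false

/-!
# The growth of theta functions
-/

open Module Filter Topology

noncomputable section

namespace Pool.Agent.Y102

theorem gr_of_le {ι : Type} [Fintype ι] {f : (ι → ℂ) → ℂ} (B C : ℝ)
    (h : ∀ z, ‖f z‖ ≤ B * Real.exp (C * (1 + ‖z‖ ^ 3))) : Gr f := by
  refine ⟨|B| + |C|, by positivity, fun z => (h z).trans ?_⟩
  have h0 : 0 ≤ 1 + ‖z‖ ^ 3 := by positivity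
  have h1 : B ≤ Real.exp (|B| * (1 + ‖z‖ ^ 3)) := by
    have h2 := Real.add_one_le_exp (|B| * (1 + ‖z‖ ^ 3))
    have h3 : 0 ≤ |B| * ‖z‖ ^ 3 := by positivity
    have h4 := le_abs_self B
    nlinarith
  have h2 : Real.exp (C * (1 + ‖z‖ ^ 3)) ≤ Real.exp (|C| * (1 + ‖z‖ ^ 3)) :=
    Real.exp_le_exp.2 (mul_le_mul_of_nonneg_right (le_abs_self C) h0)
  calc B * Real.exp (C * (1 + ‖z‖ ^ 3)) ≤
      Real.exp (|B| * (1 + ‖z‖ ^ 3)) * Real.exp (|C| * (1 + ‖z‖ ^ 3)) :=
        mul_le_mul h1 h2 (Real.exp_nonneg _) (Real.exp_nonneg _)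
    _ = _ := by
        rw [← Real.exp_add]
        congr 1
        ring

/-- The derivatives of functions of moderate growth. -/
theorem gr_pd {g : ℕ} {f : (Fin g → ℂ) → ℂ} (hf : AnalyticOnNhd ℂ f Set.univ) (h : Gr f)
    (k : Fin g) : Gr (pd k f) := by
  obtain ⟨C, hC, h⟩ := h
  refine ⟨8 * C, by positivity, fun z => ?_⟩
  let F : ℂ → ℂ := fun t => f (z + t • Pi.single k 1)
  have hline : ∀ t : ℂ, HasDerivAt (fun t : ℂ => z + t • (Pi.single k 1 : Fin g → ℂ))
      (Pi.single k 1) t := by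
    intro t
    have h1 := ((hasDerivAt_id t).smul_const (Pi.single k 1 : Fin g → ℂ)).const_add z
    simpa using h1
  have hd : ∀ t, HasDerivAt F (fderiv ℂ f (z + t • Pi.single k 1) (Pi.single k 1)) t := by
    intro t
    exact ((hf _ trivial).differentiableAt.hasFDerivAt).comp_hasDerivAt t (hline t)
  have hdiff : Differentiable ℂ F := fun t => (hd t).differentiableAt
  have hd0 : deriv F 0 = pd k f z := by
    rw [(hd 0).deriv, zero_smul, add_zero]
    rfl
  have hsph : ∀ t ∈ Metric.sphere (0 : ℂ) 1, ‖F t‖ ≤ Real.exp (8 * C * (1 + ‖z‖ ^ 3)) := by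
    intro t ht
    refine (h _).trans (Real.exp_le_exp.2 ?_)
    have h1 : ‖z + t • (Pi.single k 1 : Fin g → ℂ)‖ ≤ ‖z‖ + 1 := by
      refine (norm_add_le _ _).trans (add_le_add le_rfl ?_)
      rw [norm_smul, mem_sphere_zero_iff_norm.1 ht, one_mul]
      refine (pi_norm_le_iff_of_nonneg zero_le_one).2 fun i => ?_
      by_cases hi : i = k
      · subst hi; simp
      · rw [Pi.single_eq_of_ne hi]; simp
    have h2 : ‖z + t • (Pi.single k 1 : Fin g → ℂ)‖ ^ 3 ≤ (‖z‖ + 1) ^ 3 :=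
      pow_le_pow_left₀ (norm_nonneg _) h1 3
    have h3 : 1 + (‖z‖ + 1) ^ 3 ≤ 8 * (1 + ‖z‖ ^ 3) := by
      have hz := norm_nonneg z
      nlinarith [mul_nonneg hz (sq_nonneg (‖z‖ - 1)), sq_nonneg (‖z‖ - 1)]
    calc C * (1 + ‖z + t • (Pi.single k 1 : Fin g → ℂ)‖ ^ 3) ≤ C * (8 * (1 + ‖z‖ ^ 3)) :=
          mul_le_mul_of_nonneg_left (by linarith) hC
      _ = _ := by ring
  have h1 := Complex.norm_deriv_le_of_forall_mem_sphere_norm_le zero_lt_one
    hdiff.diffContOnCl hsph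
  rw [hd0, div_one] at h1
  exact h1

namespace AbVar

variable {g : ℕ} (A : AbVar g)

/-- a linear function -/
def ell : (Fin g → ℂ) →ₗ[ℝ] ℝ :=
  A.lam.constr ℝ fun j => (A.c j).re - (∑ k, A.η j k * A.lam j k).re / 2

theorem ell_lam (j : Fin (2 * g)) :
    A.ell (A.lam j) = (A.c j).re - (∑ k, A.η j k * A.lam j k).re / 2 :=
  A.lam.constr_basis ℝ _ _

/-- the logarithm of the size of the theta functions -/
def psi (z : Fin g → ℂ) : ℝ := (∑ k, A.etaR z k * z k).re / 2 + A.ell z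

theorem psi_add (j : Fin (2 * g)) (z : Fin g → ℂ) :
    A.psi (z + A.lam j) = A.psi z + (∑ k, A.η j k * z k + A.c j).re := by
  have h1 : (∑ k, A.etaR z k * A.lam j k).re = (∑ k, A.η j k * z k).re := by
    have h2 := A.E_coe z (A.lam j)
    rw [riemannForm_eq, etaR_lam, eq_div_iff pi_ne, Finset.sum_sub_distrib] at h2
    have h3 := congrArg Complex.re h2
    have h4 : (((A.E z (A.lam j) : ℝ) : ℂ) * (2 * Real.pi * Complex.I)).re = 0 := by
      simp
    rw [h4, Complex.sub_re] at h3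
    linarith
  unfold psi
  rw [map_add, map_add, ell_lam, etaR_lam]
  have h5 : ∑ k, (A.etaR z + A.η j) k * (z + A.lam j) k =
      ∑ k, A.etaR z k * z k + ∑ k, A.etaR z k * A.lam j k + ∑ k, A.η j k * z k +
        ∑ k, A.η j k * A.lam j k := by
    rw [← Finset.sum_add_distrib, ← Finset.sum_add_distrib, ← Finset.sum_add_distrib]
    refine Finset.sum_congr rfl fun k _ => ?_
    rw [Pi.add_apply, Pi.add_apply]
    ring
  rw [h5, Complex.add_re, Complex.add_re, Complex.add_re, Complex.add_re, h1]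
  ring

theorem continuous_psi : Continuous A.psi := by
  unfold psi
  have h1 : Continuous A.etaR := LinearMap.continuous_of_finiteDimensional _
  have h2 : Continuous A.ell := LinearMap.continuous_of_finiteDimensional _
  have h3 : Continuous fun z : Fin g → ℂ => (∑ k, A.etaR z k * z k) :=
    continuous_finsetSum _ fun k _ => ((continuous_apply k).comp h1).mul (continuous_apply k)
  exact ((Complex.continuous_re.comp h3).div_const 2).add h2

theorem psi_le : ∃ C : ℝ, ∀ z, A.psi z ≤ C * (1 + ‖z‖ ^ 3) := by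
  let e := LinearMap.toContinuousLinearMap A.etaR
  let l := LinearMap.toContinuousLinearMap A.ell
  refine ⟨g * ‖e‖ + ‖l‖, fun z => ?_⟩
  have h1 : ∀ k, ‖A.etaR z k * z k‖ ≤ ‖e‖ * ‖z‖ ^ 2 := by
    intro k
    rw [norm_mul]
    have h2 : ‖A.etaR z k‖ ≤ ‖e‖ * ‖z‖ := (norm_le_pi_norm _ k).trans (e.le_opNorm z)
    calc ‖A.etaR z k‖ * ‖z k‖ ≤ (‖e‖ * ‖z‖) * ‖z‖ :=
          mul_le_mul h2 (norm_le_pi_norm _ k) (norm_nonneg _) (by positivity)
      _ = _ := by ring
  have h2 : (∑ k, A.etaR z k * z k).re ≤ g * (‖e‖ * ‖z‖ ^ 2) := by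
    refine (Complex.re_le_norm _).trans ((norm_sum_le _ _).trans ?_)
    refine (Finset.sum_le_card_nsmul _ _ _ fun k _ => h1 k).trans ?_
    rw [Finset.card_univ, Fintype.card_fin, nsmul_eq_mul]
  have h3 : A.ell z ≤ ‖l‖ * ‖z‖ := (le_abs_self _).trans (l.le_opNorm z)
  have hz := norm_nonneg z
  have h4 : ‖z‖ ≤ 1 + ‖z‖ ^ 3 := by
    nlinarith [mul_nonneg hz (sq_nonneg (‖z‖ - 1)), sq_nonneg (‖z‖ - 1)]
  have h5 : ‖z‖ ^ 2 ≤ 1 + ‖z‖ ^ 3 := by
    nlinarith [mul_nonneg hz (sq_nonneg (‖z‖ - 1)), sq_nonneg (‖z‖ - 1)]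
  unfold psi
  have h6 : 0 ≤ (g : ℝ) * (‖e‖ * ‖z‖ ^ 2) := by positivity
  have h7 : (g : ℝ) * (‖e‖ * ‖z‖ ^ 2) ≤ g * (‖e‖ * (1 + ‖z‖ ^ 3)) := by
    gcongr
  have h8 : ‖l‖ * ‖z‖ ≤ ‖l‖ * (1 + ‖z‖ ^ 3) := by
    gcongr
  calc (∑ k, A.etaR z k * z k).re / 2 + A.ell z ≤
      g * (‖e‖ * (1 + ‖z‖ ^ 3)) + ‖l‖ * (1 + ‖z‖ ^ 3) := by linarith
    _ = _ := by ring

/-- The theta functions are of moderate growth. -/
theorem gr_theta (i : Fin (A.N + 1)) : Gr (A.θ i) := by
  let G : (Fin g → ℂ) → ℝ := fun z => ‖A.θ i z‖ * Real.exp (-A.psi z)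
  have hG1 : ∀ j z, G (z + A.lam j) = G z := by
    intro j z
    simp only [G]
    rw [A.quasiperiodic, norm_mul, Complex.norm_exp, A.psi_add]
    rw [mul_comm (Real.exp _), mul_assoc, ← Real.exp_add]
    congr 2
    ring
  have hG2 : ∀ v ∈ Submodule.span ℤ (Set.range A.lam), ∀ z, G (z + v) = G z := by
    intro v hv
    induction hv using Submodule.span_induction with
    | mem v hv =>
      obtain ⟨j, rfl⟩ := hv
      exact hG1 j
    | zero => intro z; rw [add_zero]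
    | add a b _ _ ha hb => intro z; rw [← add_assoc, hb, ha]
    | smul n a _ ha =>
      have h1 : ∀ (m : ℕ) z, G (z + m • a) = G z := by
        intro m
        induction m with
        | zero => intro z; rw [zero_smul, add_zero]
        | succ m ih => intro z; rw [succ_nsmul, ← add_assoc, ha, ih]
      intro z
      rcases Int.eq_nat_or_neg n with ⟨m, rfl | rfl⟩
      · rw [natCast_zsmul]; exact h1 m z
      · have h2 := h1 m (z + (-(m : ℤ)) • a)
        rw [neg_smul, natCast_zsmul, neg_add_cancel_right] at h2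
        rw [neg_smul, natCast_zsmul]
        exact h2.symm
  have hGc : Continuous G := by
    have h1 : Continuous (A.θ i) := continuous_iff_continuousAt.2 fun z =>
      (A.entire i z trivial).continuousAt
    exact h1.norm.mul (Real.continuous_exp.comp A.continuous_psi.neg)
  obtain ⟨B, hB⟩ : ∃ B, ∀ z, G z ≤ B := by
    have hcomp : IsCompact (closure (ZSpan.fundamentalDomain A.lam)) :=
      (ZSpan.fundamentalDomain_isBounded A.lam).isCompact_closure
    obtain ⟨B, hB⟩ := hcomp.exists_bound_of_continuousOn hGc.continuousOn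
    refine ⟨B, fun z => ?_⟩
    have h1 := hG2 _ (ZSpan.floor A.lam z).2 (ZSpan.fract A.lam z)
    rw [ZSpan.fract_apply, sub_add_cancel] at h1
    rw [h1, ← ZSpan.fract_apply]
    exact (le_abs_self _).trans (hB _ (subset_closure (ZSpan.fract_mem_fundamentalDomain _ _)))
  obtain ⟨C, hC⟩ := A.psi_le
  refine gr_of_le |B| C fun z => ?_
  have h1 : ‖A.θ i z‖ = G z * Real.exp (A.psi z) := by
    simp only [G]
    rw [mul_assoc, ← Real.exp_add, neg_add_cancel, Real.exp_zero, mul_one]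
  rw [h1]
  exact mul_le_mul ((hB z).trans (le_abs_self B)) (Real.exp_le_exp.2 (hC z)) (Real.exp_nonneg _)
    (abs_nonneg _)

end AbVar

end Pool.Agent.Y102
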