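import Pool.Agent.H86.CMLib.Y102.Theta2

set_option autoImplicit false
set_option linter.unusedSectionVars false

/-!
# The abstract data given by an abelian variety
-/

open Module Filter Topology MvPolynomial

noncomputable section

namespace Pool.Agent.Y102

theorem fderiv_quot {g : ℕ} {f h : (Fin g → ℂ) → ℂ} {z : Fin g → ℂ} (hf : DifferentiableAt ℂ f z)
    (hh : DifferentiableAt ℂ h z) (h0 : h z ≠ 0) (v : Fin g → ℂ) :
    fderiv ℂ (fun z => f z / h z) z v =
      (h z * fderiv ℂ f z v - f z * fderiv ℂ h z v) / h z ^ 2 := by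
  have h1 := hf.hasFDerivAt.mul ((hasDerivAt_inv h0).comp_hasFDerivAt z hh.hasFDerivAt)
  have h2 : fderiv ℂ (fun z => f z / h z) z = f z • (-(h z ^ 2)⁻¹ • fderiv ℂ h z) +
      (h z)⁻¹ • fderiv ℂ f z := by
    have h3 : (fun z => f z / h z) = fun z => f z * (Inv.inv ∘ h) z := by
      funext z
      rw [div_eq_mul_inv]
      rfl
    rw [h3]
    exact h1.fderiv
  rw [h2, add_apply, smul_apply,
    smul_apply, smul_apply]
  simp only [smul_eq_mul]
  field_simp
  ring

theorem analytic_pd {g : ℕ} {f : (Fin g → ℂ) → ℂ} (hf : AnalyticOnNhd ℂ f Set.univ) (k : Fin g) :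
    AnalyticOnNhd ℂ (pd k f) Set.univ := by
  intro z _
  exact (((ContinuousLinearMap.apply ℂ ℂ (Pi.single k 1 : Fin g → ℂ)).analyticAt _).comp
    (hf z trivial).fderiv)

/-- a quadratic form -/
def quad {V : Type} [Fintype V] (a : V → V → ℂ) : MvPolynomial V ℂ :=
  ∑ p, ∑ q, C (a p q) * (X p * X q)

theorem eval_quad {V : Type} [Fintype V] (a : V → V → ℂ) (x : V → ℂ) :
    eval x (quad a) = ∑ p, ∑ q, a p q * (x p * x q) := by
  unfold quad
  simp only [map_sum, map_mul, eval_C, eval_X]

theorem coeff_quad {V : Type} [Fintype V] [DecidableEq V] {a : V → V → ℂ}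
    (ha : ∀ p q, IsAlgebraic ℚ (a p q)) (m : V →₀ ℕ) : IsAlgebraic ℚ ((quad a).coeff m) := by
  unfold quad
  rw [coeff_sum]
  refine isAlgebraic_sum _ _ fun p _ => ?_
  rw [coeff_sum]
  refine isAlgebraic_sum _ _ fun q _ => ?_
  have h1 : C (a p q) * (X p * X q : MvPolynomial V ℂ) =
      monomial (Finsupp.single p 1 + Finsupp.single q 1) (a p q) := by
    rw [X, X, monomial_mul, C_mul_monomial, one_mul, mul_one]
  rw [h1, coeff_monomial]
  split_ifs
  · exact ha p q
  · exact isAlgebraic_zero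

theorem degree_quad {V : Type} [Fintype V] (a : V → V → ℂ) : (quad a).totalDegree ≤ 2 := by
  unfold quad
  refine totalDegree_finsetSum_le fun p _ => totalDegree_finsetSum_le fun q _ => ?_
  refine (totalDegree_mul _ _).trans ?_
  rw [totalDegree_C, zero_add]
  refine (totalDegree_mul _ _).trans ?_
  rw [totalDegree_X, totalDegree_X]

namespace AbVar

variable {g : ℕ} (A : AbVar g)

theorem pd_add (i : Fin (A.N + 1)) {v η' : Fin g → ℂ} {c : ℂ}
    (h : ∀ z, A.θ i (z + v) = Complex.exp (∑ k, η' k * z k + c) * A.θ i z) (k : Fin g)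
    (z : Fin g → ℂ) : pd k (A.θ i) (z + v) =
      Complex.exp (∑ k, η' k * z k + c) * (η' k * A.θ i z + pd k (A.θ i) z) := by
  have h1 : fderiv ℂ (fun z => A.θ i (z + v)) z = fderiv ℂ (A.θ i) (z + v) := by
    rw [fderiv_comp_add_right]
  have h2 : (fun z => A.θ i (z + v)) = fun z => Complex.exp (∑ k, η' k * z k + c) * A.θ i z :=
    funext h
  let l : (Fin g → ℂ) →L[ℂ] ℂ := ∑ k, η' k • ContinuousLinearMap.proj k
  have hl : ∀ z, l z = ∑ k, η' k * z k := by
    intro z
    simp only [l, sum_apply, smul_apply,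
      ContinuousLinearMap.proj_apply, smul_eq_mul]
  have h3 : HasFDerivAt (fun z : Fin g → ℂ => Complex.exp (∑ k, η' k * z k + c))
      (Complex.exp (∑ k, η' k * z k + c) • l) z := by
    have h4 : HasFDerivAt (fun z : Fin g → ℂ => ∑ k, η' k * z k + c) l z := by
      have h5 := (l.hasFDerivAt (x := z)).add_const c
      have h6 : (fun z => l z + c) = fun z : Fin g → ℂ => ∑ k, η' k * z k + c := by
        funext z
        rw [hl]
      rwa [h6] at h5
    exact h4.cexp
  have h4 := h3.mul (A.entire i z trivial).differentiableAt.hasFDerivAt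
  have h5 : fderiv ℂ (fun z => A.θ i (z + v)) z = Complex.exp (∑ k, η' k * z k + c) •
      fderiv ℂ (A.θ i) z + A.θ i z • (Complex.exp (∑ k, η' k * z k + c) • l) := by
    rw [h2]
    exact h4.fderiv
  unfold pd
  rw [← h1, h5, add_apply, smul_apply,
    smul_apply, smul_apply, hl]
  have h6 : ∑ j, η' j * (Pi.single k 1 : Fin g → ℂ) j = η' k := by
    rw [Finset.sum_eq_single k]
    · rw [Pi.single_eq_same, mul_one]
    · intro j _ hj
      rw [Pi.single_eq_of_ne hj, mul_zero]
    · intro h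
      exact absurd (Finset.mem_univ _) h
  rw [h6]
  simp only [smul_eq_mul]
  ring

/-- the lattice in the rational homology -/
def lat : AddSubgroup A.H1 := AddSubgroup.closure (Set.range A.bas)

theorem quasi_lat {w : A.H1} (hw : w ∈ A.lat) : ∃ c : ℂ, ∀ i z,
    A.θ i (z + A.per w) = Complex.exp (∑ k, A.eta w k * z k + c) * A.θ i z := by
  induction hw using AddSubgroup.closure_induction with
  | mem w hw =>
    obtain ⟨j, rfl⟩ := hw
    refine ⟨A.c j, fun i z => ?_⟩
    rw [per_bas, eta_bas]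
    exact A.quasiperiodic i j z
  | zero =>
    refine ⟨0, fun i z => ?_⟩
    simp
  | add a b _ _ ha hb =>
    obtain ⟨c, hc⟩ := ha
    obtain ⟨c', hc'⟩ := hb
    refine ⟨∑ k, A.eta b k * A.per a k + c + c', fun i z => ?_⟩
    rw [map_add, ← add_assoc, hc', hc, ← mul_assoc, ← Complex.exp_add]
    congr 2
    rw [map_add]
    have h1 : ∑ k, A.eta b k * (z + A.per a) k =
        ∑ k, A.eta b k * z k + ∑ k, A.eta b k * A.per a k := by
      rw [← Finset.sum_add_distrib]
      exact Finset.sum_congr rfl fun k _ => by rw [Pi.add_apply]; ring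
    have h2 : ∑ k, (A.eta a + A.eta b) k * z k =
        ∑ k, A.eta a k * z k + ∑ k, A.eta b k * z k := by
      rw [← Finset.sum_add_distrib]
      exact Finset.sum_congr rfl fun k _ => by rw [Pi.add_apply]; ring
    rw [h1, h2]
    ring
  | neg a _ ha =>
    obtain ⟨c, hc⟩ := ha
    refine ⟨∑ k, A.eta a k * A.per a k - c, fun i z => ?_⟩
    have h1 := hc i (z + A.per (-a))
    rw [map_neg, neg_add_cancel_right] at h1
    rw [h1, map_neg, map_neg, ← mul_assoc, ← Complex.exp_add]
    have h2 : ∑ k, (-A.eta a) k * z k + (∑ k, A.eta a k * A.per a k - c) +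
        (∑ k, A.eta a k * (z + -A.per a) k + c) = 0 := by
      have h3 : ∑ k, A.eta a k * (z + -A.per a) k =
          ∑ k, A.eta a k * z k - ∑ k, A.eta a k * A.per a k := by
        rw [← Finset.sum_sub_distrib]
        exact Finset.sum_congr rfl fun k _ => by rw [Pi.add_apply, Pi.neg_apply]; ring
      have h4 : ∑ k, (-A.eta a) k * z k = -∑ k, A.eta a k * z k := by
        rw [← Finset.sum_neg_distrib]
        exact Finset.sum_congr rfl fun k _ => by rw [Pi.neg_apply]; ring
      rw [h3, h4]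
      ring
    rw [h2, Complex.exp_zero, one_mul]

theorem full_lat (w : A.H1) : ∃ m : ℕ, 0 < m ∧ m • w ∈ A.lat := by
  refine ⟨∏ j, (w j).den, Finset.prod_pos fun j _ => (w j).den_pos, ?_⟩
  have h1 : (∏ j, (w j).den) • w = ∑ j, ((∏ i ∈ Finset.univ.erase j, (w i).den : ℕ) *
      (w j).num : ℤ) • A.bas j := by
    funext i
    rw [Finset.sum_apply, Finset.sum_eq_single i]
    · simp only [bas, Pi.basisFun_apply, Pi.smul_apply, Pi.single_eq_same]
      have h2 : (∏ j, (w j).den) = (w i).den * ∏ j ∈ Finset.univ.erase i, (w j).den :=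
        (Finset.mul_prod_erase _ _ (Finset.mem_univ i)).symm
      rw [h2, nsmul_eq_mul, zsmul_eq_mul, mul_one]
      push_cast
      have h3 : ((w i).den : ℚ) * w i = (w i).num := Rat.den_mul_eq_num (w i)
      rw [mul_right_comm, h3]
      ring
    · intro j _ hj
      simp only [bas, Pi.basisFun_apply, Pi.smul_apply]
      rw [Pi.single_eq_of_ne hj.symm, smul_zero]
    · intro h
      exact absurd (Finset.mem_univ _) h
  rw [h1]
  exact sum_mem fun j _ => AddSubgroup.zsmul_mem _ (AddSubgroup.subset_closure (Set.mem_range_self j)) _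

theorem quot_alg (k : Fin g) (i : Fin (A.N + 1)) : ∃ a : Fin (A.N + 1) → Fin (A.N + 1) → ℂ,
    (∀ p q, IsAlgebraic ℚ (a p q)) ∧ ∀ z, A.θ 0 z ≠ 0 →
      fderiv ℂ (fun z => A.θ i z / A.θ 0 z) z (Pi.single k 1) =
        eval (fun q => A.θ q z / A.θ 0 z) (quad a) := by
  obtain ⟨a, ha, h⟩ := A.first k i
  refine ⟨a, ha, fun z hz => ?_⟩
  rw [fderiv_quot (A.entire i z trivial).differentiableAt (A.entire 0 z trivial).differentiableAt
    hz, eval_quad]
  have h1 := h z
  unfold pd at h1
  rw [h1, Finset.sum_div]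
  refine Finset.sum_congr rfl fun p _ => ?_
  rw [Finset.sum_div]
  refine Finset.sum_congr rfl fun q _ => ?_
  field_simp

theorem quot_alg' (k l : Fin g) : ∃ a : Fin (A.N + 1) → Fin (A.N + 1) → ℂ,
    (∀ p q, IsAlgebraic ℚ (a p q)) ∧ ∀ z, A.θ 0 z ≠ 0 →
      fderiv ℂ (fun z => pd k (A.θ 0) z / A.θ 0 z) z (Pi.single l 1) =
        eval (fun q => A.θ q z / A.θ 0 z) (quad a) := by
  obtain ⟨a, ha, h⟩ := A.second k l
  refine ⟨a, ha, fun z hz => ?_⟩
  rw [fderiv_quot (analytic_pd (A.entire 0) k z trivial).differentiableAt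
    (A.entire 0 z trivial).differentiableAt hz, eval_quad]
  have h1 := h z
  have h2 : A.θ 0 z * fderiv ℂ (pd k (A.θ 0)) z (Pi.single l 1) -
      pd k (A.θ 0) z * fderiv ℂ (A.θ 0) z (Pi.single l 1) =
      A.θ 0 z * pd l (pd k (A.θ 0)) z - pd l (A.θ 0) z * pd k (A.θ 0) z := by
    unfold pd
    ring
  rw [h2, h1, Finset.sum_div]
  refine Finset.sum_congr rfl fun p _ => ?_
  rw [Finset.sum_div]
  refine Finset.sum_congr rfl fun q _ => ?_
  field_simp

/-- **The data of an abelian variety.** -/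
def dat : Dat (Fin g) (Fin g) A.H1 where
  per := A.per
  eta := A.eta
  Λ := A.lat
  full := A.full_lat
  V := Fin (A.N + 1)
  f p z := A.θ p z / A.θ 0 z
  h k z := pd k (A.θ 0) z / A.θ 0 z
  O := {z | A.θ 0 z ≠ 0}
  isOpen_O := by
    have h1 : Continuous (A.θ 0) := continuous_iff_continuousAt.2 fun z =>
      (A.entire 0 z trivial).continuousAt
    exact isOpen_ne_fun h1 continuous_const
  zero_mem := by
    rw [Set.mem_ofPred_eq, A.origin.1]
    exact one_ne_zero
  add_mem := by
    intro w hw z hz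
    obtain ⟨c, hc⟩ := A.quasi_lat hw
    rw [Set.mem_ofPred_eq, hc]
    exact mul_ne_zero (Complex.exp_ne_zero _) hz
  an_f p z hz := (A.entire p z trivial).div (A.entire 0 z trivial) hz
  an_h k z hz := (analytic_pd (A.entire 0) k z trivial).div (A.entire 0 z trivial) hz
  f_per := by
    intro w hw z hz p
    obtain ⟨c, hc⟩ := A.quasi_lat hw
    rw [hc, hc, mul_div_mul_left _ _ (Complex.exp_ne_zero _)]
  h_per := by
    intro w hw z hz k
    obtain ⟨c, hc⟩ := A.quasi_lat hw
    rw [hc, A.pd_add 0 (hc 0) k z, mul_div_mul_left _ _ (Complex.exp_ne_zero _)]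
    have hz' : A.θ 0 z ≠ 0 := hz
    field_simp
    ring
  δ k i := quad (A.quot_alg k i).choose
  δ_alg k i := coeff_quad (A.quot_alg k i).choose_spec.1
  δ_deg k i := degree_quad _
  δ_D k i := (A.quot_alg k i).choose_spec.2
  ε l k := quad (A.quot_alg' k l).choose
  ε_alg l k := coeff_quad (A.quot_alg' k l).choose_spec.1
  ε_deg l k := degree_quad _
  ε_D l k := (A.quot_alg' k l).choose_spec.2
  f_zero p := by
    rw [A.origin.1, div_one]
    exact A.origin.2.1 p
  h_zero k := by
    rw [A.origin.1, div_one]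
    exact A.origin.2.2 k
  Th _ := A.θ 0
  A := Sum.elim (fun p => A.θ p) (fun k => pd k (A.θ 0))
  Th_ent _ := A.entire 0
  A_ent := by
    rintro (p | k)
    · exact A.entire p
    · exact analytic_pd (A.entire 0) k
  Th_gr _ := A.gr_theta 0
  A_gr := by
    rintro (p | k)
    · exact A.gr_theta p
    · exact gr_pd (A.entire 0) (A.gr_theta 0) k
  Th_ne _ z hz := hz
  Th_mul := by
    rintro (p | k) z hz
    · simp only [Sum.elim_inl]
      have hz' : A.θ 0 z ≠ 0 := hz
      field_simp
    · simp only [Sum.elim_inr]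
      have hz' : A.θ 0 z ≠ 0 := hz
      field_simp
  imm := by
    intro v hv
    apply A.immersion v
    intro i
    have h0 : A.θ 0 0 ≠ 0 := by rw [A.origin.1]; exact one_ne_zero
    have h1 := hv i
    rw [fderiv_quot (A.entire i 0 trivial).differentiableAt
      (A.entire 0 0 trivial).differentiableAt h0, div_eq_zero_iff] at h1
    rcases h1 with h1 | h1
    · exact sub_eq_zero.1 h1
    · exact absurd h1 (pow_ne_zero 2 h0)

theorem dat_pp : A.dat.pp = A.dR := rfl

end AbVar

end Pool.Agent.Y102
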