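import Pool.Agent.H86.CMLib.Y102.V8
import Pool.Agent.H86.CMLib.Y102.V9
import Pool.Agent.H86.CMLib.Y102.T7

set_option autoImplicit false
set_option linter.unusedSectionVars false
set_option linter.unusedSimpArgs false
set_option linter.unusedVariables false

/-!
# Abelian varieties whose Hodge group is `SL_4`, acting by the standard representation and its dual
-/

open Module Function TensorProduct

noncomputable section

namespace Pool.Agent.Y102

open Pool.Agent.W516.DR Pool.Agent.H204R3.GP Pool.Agent.W516.KC Pool.Agent.H204R3.SP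

section Ext

variable {W : Type} [AddCommGroup W] [Module ℚ W] [FiniteDimensional ℚ W]

theorem bc_adjoin {S : Submodule ℚ (Module.End ℚ W)} {X : Module.End ℚ W}
    (hX : X ∈ Algebra.adjoin ℚ (S : Set (Module.End ℚ W))) :
    (X.baseChange ℂ : Module.End ℂ (ℂ ⊗[ℚ] W)) ∈
      Algebra.adjoin ℂ (cx S : Set (Module.End ℂ (ℂ ⊗[ℚ] W))) := by
  refine Algebra.adjoin_induction (p := fun X _ => (X.baseChange ℂ : Module.End ℂ (ℂ ⊗[ℚ] W)) ∈
      Algebra.adjoin ℂ (cx S : Set (Module.End ℂ (ℂ ⊗[ℚ] W)))) ?_ ?_ ?_ ?_ hX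
  · intro X hX
    exact Algebra.subset_adjoin (bc_mem hX)
  · intro c
    have h1 : ((algebraMap ℚ (Module.End ℚ W) c).baseChange ℂ : Module.End ℂ (ℂ ⊗[ℚ] W)) =
        algebraMap ℂ (Module.End ℂ (ℂ ⊗[ℚ] W)) (c : ℂ) := by
      refine LinearMap.ext fun v => ?_
      induction v using TensorProduct.induction_on with
      | zero => rw [map_zero, map_zero]
      | tmul a w =>
        rw [LinearMap.baseChange_tmul, Module.algebraMap_end_apply, Module.algebraMap_end_apply,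
          TensorProduct.tmul_smul, TensorProduct.smul_tmul', TensorProduct.smul_tmul']
        congr 1
      | add a b ha hb => rw [map_add, map_add, ha, hb]
    rw [h1]
    exact Subalgebra.algebraMap_mem _ _
  · intro a b _ _ ha hb
    rw [LinearMap.baseChange_add]
    exact Subalgebra.add_mem _ ha hb
  · intro a b _ _ ha hb
    rw [bc_mul]
    exact Subalgebra.mul_mem _ ha hb

end Ext

namespace AbVar

variable {g : ℕ} (A : AbVar g)

theorem NA_adjoin {X : Module.End ℚ A.H1} (hX : X ∈ A.NA) :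
    X ∈ Algebra.adjoin ℚ (A.LA : Set (Module.End ℚ A.H1)) :=
  mem_adjoin_of_comm A.semi_LA fun P hP => by
    refine A.NA_comm hX ?_
    intro Y hY
    exact hP Y hY

/-- The two Lie algebras have the same enveloping algebra. -/
theorem cx_adjoin : ∀ X ∈ cx A.NA, X ∈ Algebra.adjoin ℂ (cx A.LA : Set _) := by
  intro X hX
  induction hX using Submodule.span_induction with
  | mem X hX =>
    obtain ⟨P, hP, rfl⟩ := hX
    exact bc_adjoin (A.NA_adjoin hP)
  | zero => exact Subalgebra.zero_mem _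
  | add a b _ _ ha hb => exact Subalgebra.add_mem _ ha hb
  | smul c a _ ha => exact Subalgebra.smul_mem _ ha c

theorem NA_le_of_typeD {φ ψ : S4.M4 →ₗ[ℂ] Module.End ℂ (ℂ ⊗[ℚ] A.H1)}
    (h : S4.TypeD φ ψ (cx A.NA)) : A.NA ≤ A.LA := by
  intro X hX
  refine mem_of_bc (h.le (cx_mono A.LA_le_NA) ?_ A.cx_adjoin (bc_mem hX))
  exact cx_br fun X hX Y hY => by rw [← bc_br]; exact bc_mem (A.LA_bracket hX hY)

/-- All de Rham-Betti classes are Hodge classes. -/
theorem hodge_of_typeD {φ ψ : S4.M4 →ₗ[ℂ] Module.End ℂ (ℂ ⊗[ℚ] A.H1)}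
    (h : S4.TypeD φ ψ (cx A.NA)) {m : ℕ}
    {ξ : MultilinearMap ℚ (fun _ : Fin m × Fin 2 => A.H1) ℚ}
    (hξ : IsDeRhamBettiForm QBar A.dR tau m ξ) :
    IsHodgeTensor (A.per : A.H1 →+ (Fin g → ℂ)) ξ :=
  hodge_of_kills _ A.isRationalStructure ξ fun Z hZ =>
    A.NA_le_of_typeD h (A.MA_le_NA hZ) m ξ hξ

end AbVar

theorem S4.TypeD.map {R R' : Type} [Ring R] [Algebra ℂ R] [Ring R'] [Algebra ℂ R']
    (e : R' ≃ₐ[ℂ] R) {φ ψ : S4.M4 →ₗ[ℂ] R'} {M : Submodule ℂ R'} (h : S4.TypeD φ ψ M) :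
    S4.TypeD (e.toLinearMap ∘ₗ φ) (e.toLinearMap ∘ₗ ψ) (M.map e.toLinearMap) := by
  have he : ∀ x, e.toLinearMap x = e x := fun _ => rfl
  have hφ : ∀ a, (e.toLinearMap ∘ₗ φ) a = e (φ a) := fun _ => rfl
  have hψ : ∀ a, (e.toLinearMap ∘ₗ ψ) a = e (ψ a) := fun _ => rfl
  refine ⟨fun a b => ?_, fun a b => ?_, ?_, ?_, ?_, ?_, fun x hx => ?_, ?_⟩
  · rw [hφ, hφ, hφ, ← map_mul, h.mulφ]
  · rw [hψ, hψ, hψ, ← map_mul, h.mulψ]
  · rw [hφ]
    exact fun h1 => h.oneφ ((map_eq_zero_iff e e.injective).1 h1)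
  · rw [hψ]
    exact fun h1 => h.oneψ ((map_eq_zero_iff e e.injective).1 h1)
  · rw [hφ, hψ, ← map_mul, h.orth, map_zero]
  · rw [hφ, hψ, ← map_mul, h.orth', map_zero]
  · exact ⟨_, h.mem x hx, by rw [hφ, hψ, he, map_sub]⟩
  · rintro _ ⟨X, hX, rfl⟩
    obtain ⟨x, hx, h1⟩ := h.dec X hX
    exact ⟨x, hx, by rw [he, h1, map_sub, hφ, hψ]⟩

theorem AbVar.hodge_of_typeD' {g : ℕ} (A : AbVar g)
    {φ ψ : S4.M4 →ₗ[ℂ] Matrix (Fin (2 * g)) (Fin (2 * g)) ℂ}
    (h : S4.TypeD φ ψ (Submodule.span ℂ {Y | ∃ X ∈ A.NA, Y = toC X})) {m : ℕ}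
    {ξ : MultilinearMap ℚ (fun _ : Fin m × Fin 2 => A.H1) ℚ}
    (hξ : IsDeRhamBettiForm QBar A.dR tau m ξ) :
    IsHodgeTensor (A.per : A.H1 →+ (Fin g → ℂ)) ξ := by
  have h1 := h.map (matE (2 * g))
  rw [map_lie] at h1
  exact A.hodge_of_typeD h1 hξ

end Pool.Agent.Y102
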