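import Pool.Agent.H86.CMLib.Y102.V10

set_option autoImplicit false
set_option linter.unusedSectionVars false
set_option linter.unusedSimpArgs false
set_option linter.unusedVariables false

/-!
# The centre of the Lie algebra: the central elements annihilate the de Rham-Betti classes, if the
centre is rigid
-/

open Module Function TensorProduct

noncomputable section

namespace Pool.Agent.Y102

open Pool.Agent.W516.DR Pool.Agent.H204R3.GP Pool.Agent.W516.KC Pool.Agent.H204R3.SP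

/-- Relations between the eigenvalues of `X` hold for the eigenvalues of `Y`. -/
def Dom {W : Type} [AddCommGroup W] [Module ℚ W] (X Y : Module.End ℚ W) : Prop :=
  ∀ (r : ℕ) (v : Fin r → ℂ ⊗[ℚ] W) (x y : Fin r → ℂ), (∀ k, v k ≠ 0) →
    (∀ k, X.baseChange ℂ (v k) = x k • v k) → (∀ k, Y.baseChange ℂ (v k) = y k • v k) →
    ∑ k, x k = 0 → ∑ k, y k = 0

namespace AbVar

variable {g : ℕ} (A : AbVar g)

theorem CL_le_ZA : A.CL ≤ A.ZA := fun X hX =>
  ⟨fun Y hY => hX.2 Y hY, A.LA_skew hX.1, fun Q hQ => hQ X hX.1⟩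

theorem CN_le_ZA : A.CN ≤ A.ZA := fun X hX =>
  ⟨fun Y hY => hX.2 Y (A.LA_le_NA hY), A.NA_skew hX.1, fun Q hQ => A.NA_comm hX.1 hQ⟩

theorem CL_le_CN : A.CL ≤ A.CN := fun X hX => ⟨A.LA_le_NA hX.1, fun Y hY =>
  A.NA_comm hY (A.CL_le_ZA hX).1⟩

/-- There is a generic element. -/
theorem exists_generic_CL {n : ℕ} {b : Basis (Fin n) ℂ (ℂ ⊗[ℚ] A.H1)}
    {χ : Fin n → (A.ZA →ₗ[ℚ] ℂ)}
    (hb : ∀ k (R : A.ZA), (R : Module.End ℚ A.H1).baseChange ℂ (b k) = χ k R • b k) :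
    ∃ R : A.ZA, (R : Module.End ℚ A.H1) ∈ A.CL ∧ ∀ i j, χ i R = χ j R →
      ∀ R' : A.ZA, (R' : Module.End ℚ A.H1) ∈ A.CL → χ i R' = χ j R' := by
  classical
  obtain ⟨P, hP⟩ : ∃ P : Fin n → Fin n → Prop, ∀ i j, P i j ↔
      ¬∀ R' : A.ZA, (R' : Module.End ℚ A.H1) ∈ A.CL → χ i R' = χ j R' := ⟨_, fun i j => Iff.rfl⟩
  obtain ⟨K, hKdef⟩ : ∃ K : {p : Fin n × Fin n // P p.1 p.2} → Subspace ℚ A.CL,
      ∀ p (R : A.CL), R ∈ K p ↔
        χ p.1.1 ⟨R, A.CL_le_ZA R.2⟩ = χ p.1.2 ⟨R, A.CL_le_ZA R.2⟩ :=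
    ⟨fun p => LinearMap.ker ((χ p.1.1 - χ p.1.2) ∘ₗ Submodule.inclusion A.CL_le_ZA),
      fun p R => sub_eq_zero⟩
  have hK : ∀ p, K p ≠ ⊤ := by
    rintro ⟨⟨i, j⟩, hij⟩ htop
    refine (hP i j).1 hij fun R hR => ?_
    have h2 : (⟨R, hR⟩ : A.CL) ∈ K ⟨⟨i, j⟩, hij⟩ := by rw [htop]; trivial
    exact (hKdef _ _).1 h2
  by_contra hne
  push Not at hne
  have hcov : ⋃ p, (K p : Set A.CL) = Set.univ := by
    rw [Set.eq_univ_iff_forall]
    intro R
    obtain ⟨i, j, h1, R', h2, h3⟩ := hne ⟨R.1, A.CL_le_ZA R.2⟩ R.2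
    exact Set.mem_iUnion.2 ⟨⟨(i, j), (hP i j).2 fun h4 => h3 (h4 R' h2)⟩, (hKdef _ _).2 h1⟩
  obtain ⟨p, hp⟩ := Subspace.exists_eq_top_of_iUnion_eq_univ (k := ℚ) (E := A.CL) (p := K) hcov
  exact hK p hp

/-- Endomorphisms which commute with the generic element commute with the centre. -/
theorem comm_of_generic {n : ℕ} {b : Basis (Fin n) ℂ (ℂ ⊗[ℚ] A.H1)}
    {χ : Fin n → (A.ZA →ₗ[ℚ] ℂ)}
    (hb : ∀ k (R : A.ZA), (R : Module.End ℚ A.H1).baseChange ℂ (b k) = χ k R • b k)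
    {X R : A.ZA} (hX : ∀ i j, χ i X = χ j X → χ i R = χ j R) {T : Module.End ℚ A.H1}
    (hT : T * X = X * T) : T * R = R * T := by
  have hrepr : ∀ (R : A.ZA) v i, b.repr ((R : Module.End ℚ A.H1).baseChange ℂ v) i =
      χ i R * b.repr v i := by
    intro R v i
    have h3 : (Finsupp.lapply i ∘ₗ b.repr.toLinearMap) ∘ₗ
        ((R : Module.End ℚ A.H1).baseChange ℂ) =
        (χ i R) • (Finsupp.lapply i ∘ₗ b.repr.toLinearMap) := by
      refine b.ext fun l => ?_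
      rw [LinearMap.comp_apply, hb, map_smul, LinearMap.smul_apply, LinearMap.comp_apply,
        LinearEquiv.coe_coe, Basis.repr_self, Finsupp.lapply_apply, Finsupp.single_apply,
        smul_eq_mul, smul_eq_mul]
      by_cases hl : l = i
      · rw [if_pos hl, hl]
      · rw [if_neg hl, mul_zero, mul_zero]
    exact congrArg (fun F : ℂ ⊗[ℚ] A.H1 →ₗ[ℂ] ℂ => F v) h3
  have h1 : T.baseChange ℂ * (R : Module.End ℚ A.H1).baseChange ℂ =
      (R : Module.End ℚ A.H1).baseChange ℂ * T.baseChange ℂ := by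
    refine b.ext fun i => ?_
    rw [Module.End.mul_apply, Module.End.mul_apply, hb i R, map_smul]
    apply b.ext_elem
    intro l
    rw [hrepr R, map_smul, Finsupp.smul_apply, smul_eq_mul]
    by_cases hl : b.repr (T.baseChange ℂ (b i)) l = 0
    · rw [hl, mul_zero, mul_zero]
    · have h2 : T.baseChange ℂ ((X : Module.End ℚ A.H1).baseChange ℂ (b i)) =
          (X : Module.End ℚ A.H1).baseChange ℂ (T.baseChange ℂ (b i)) := by
        rw [← LinearMap.comp_apply, ← LinearMap.comp_apply, ← LinearMap.baseChange_comp,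
          ← LinearMap.baseChange_comp]
        have h3 : T ∘ₗ (X : Module.End ℚ A.H1) = (X : Module.End ℚ A.H1) ∘ₗ T := hT
        rw [h3]
      have h3 := congrArg (fun v => b.repr v l) h2
      rw [hb, map_smul] at h3
      change b.repr (χ i X • _) l = b.repr _ l at h3
      rw [map_smul, Finsupp.smul_apply, smul_eq_mul, hrepr] at h3
      rw [hX i l (mul_right_cancel₀ hl h3)]
  have h2 := (comm_iff (L := ℂ) (R : Module.End ℚ A.H1) (T.baseChange ℂ)).2 h1
  obtain ⟨lam, hlam⟩ := exists_lam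
  have h3 : Pool.Agent.W516.DR.cmpE lam (T.baseChange ℂ) = T := by
    refine LinearMap.ext fun w => ?_
    rw [Pool.Agent.W516.DR.cmpE_apply, LinearMap.baseChange_tmul,
      Pool.Agent.W516.DR.cmp_tmul, hlam, one_smul]
  have h4 := h2 lam
  rwa [h3] at h4

/-- Central elements which satisfy the relations of an element that kills a form kill the form. -/
theorem kills_of_dom {X Y : Module.End ℚ A.H1} (hX : X ∈ A.ZA) (hY : Y ∈ A.ZA) (hdom : Dom X Y)
    {m : ℕ} {φ : MultilinearMap ℚ (fun _ : Fin m × Fin 2 => A.H1) ℚ} (hk : Kills X φ) :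
    Kills Y φ := by
  classical
  obtain ⟨n, b, χ, hb⟩ := A.exists_basis
  let β := Module.finBasis ℚ A.H1
  have hcmp : ∀ (lam : ℂ →ₗ[ℚ] ℚ) (Y : Module.End ℚ A.H1),
      Pool.Agent.W516.DR.cmpE lam (Y.baseChange ℂ) = lam 1 • Y := by
    intro lam Y
    refine LinearMap.ext fun w => ?_
    rw [Pool.Agent.W516.DR.cmpE_apply, LinearMap.baseChange_tmul, Pool.Agent.W516.DR.cmp_tmul,
      LinearMap.smul_apply]
  have h1 : Kills (X.baseChange ℂ) (bcm (Ω := ℂ) β φ) :=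
    (kills_bcm_iff β φ _).2 fun lam => by
      rw [hcmp]
      intro v
      have h2 := hk v
      rw [← mul_zero (lam 1), ← h2, Finset.mul_sum]
      refine Finset.sum_congr rfl fun k _ => ?_
      rw [LinearMap.smul_apply, MultilinearMap.map_update_smul, smul_eq_mul]
  have h2 : Kills (Y.baseChange ℂ) (bcm (Ω := ℂ) β φ) := by
    refine kills_of_basis b _ _ fun I => ?_
    have h3 : ∀ (R : A.ZA), ∑ k, bcm (Ω := ℂ) β φ (update (fun l => b (I l)) k
        ((R : Module.End ℚ A.H1).baseChange ℂ (b (I k)))) =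
        (∑ k, χ (I k) R) * bcm (Ω := ℂ) β φ (fun l => b (I l)) := by
      intro R
      rw [Finset.sum_mul]
      refine Finset.sum_congr rfl fun k _ => ?_
      rw [hb, MultilinearMap.map_update_smul, smul_eq_mul]
      congr 2
      exact update_eq_self k (fun l => b (I l))
    rw [h3 ⟨Y, hY⟩]
    by_cases h0 : bcm (Ω := ℂ) β φ (fun l => b (I l)) = 0
    · rw [h0, mul_zero]
    · have h4 := h1 (fun l => b (I l))
      rw [h3 ⟨X, hX⟩] at h4
      have h5 := (mul_eq_zero.1 h4).resolve_right h0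
      let e : Fin m × Fin 2 ≃ Fin (Fintype.card (Fin m × Fin 2)) := Fintype.equivFin _
      have h6 := hdom _ (fun k => b (I (e.symm k))) (fun k => χ (I (e.symm k)) ⟨X, hX⟩)
        (fun k => χ (I (e.symm k)) ⟨Y, hY⟩) (fun k => b.ne_zero _) (fun k => hb _ ⟨X, hX⟩)
        (fun k => hb _ ⟨Y, hY⟩) (by
          rw [← h5]
          exact Equiv.sum_comp e.symm fun k => χ (I k) ⟨X, hX⟩)
      have h7 : ∑ k, χ (I k) ⟨Y, hY⟩ = 0 := by
        rw [← h6]
        exact (Equiv.sum_comp e.symm fun k => χ (I k) ⟨Y, hY⟩).symm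
      rw [h7, zero_mul]
  obtain ⟨lam, hlam⟩ := exists_lam
  have h3 := (kills_bcm_iff β φ _).1 h2 lam
  rwa [hcmp, hlam, one_smul] at h3

/-- **Theorem**: if the centre of the Lie algebra is rigid, it annihilates all de Rham-Betti
classes. -/
theorem centre_le (hrig : ∀ X ∈ A.CN, (∀ T : Module.End ℚ A.H1,
      (∀ Y ∈ A.NA, ∀ Z ∈ A.NA, T * (Y * Z - Z * Y) = (Y * Z - Z * Y) * T) → T * X = X * T →
      ∀ Z ∈ A.CN, T * Z = Z * T) → ∀ Y ∈ A.CN, Dom X Y) : A.CN ≤ A.LA := by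
  obtain ⟨n, b, χ, hb⟩ := A.exists_basis
  obtain ⟨X, hXC, hX⟩ := A.exists_generic_CL hb
  intro Y hY m φ hφ
  refine A.kills_of_dom X.2 (A.CN_le_ZA hY) (hrig X (A.CL_le_CN hXC) (fun T hT hTX Z hZ => ?_) Y hY)
    (hXC.1 m φ hφ)
  have h0 : ∀ d ∈ A.DA, T * d = d * T := by
    intro d hd
    unfold DA at hd
    induction hd using Submodule.span_induction with
    | mem z hz =>
      obtain ⟨x, hx, y, hy, rfl⟩ := hz
      exact hT x (A.LA_le_NA hx) y (A.LA_le_NA hy)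
    | zero => rw [mul_zero, zero_mul]
    | add a b _ _ ha hb => rw [mul_add, add_mul, ha, hb]
    | smul c a _ ha => rw [mul_smul_comm, smul_mul_assoc, ha]
  have h1 : T ∈ A.EA := by
    intro P hP
    obtain ⟨Z', hZ', d, hd, h⟩ := Submodule.mem_sup.1 (A.LA_le_sup hP)
    have e1 : T * Z' = Z' * T :=
      A.comm_of_generic hb (X := X) (R := ⟨Z', A.CL_le_ZA hZ'⟩)
        (fun i j hij => hX i j hij ⟨Z', A.CL_le_ZA hZ'⟩ hZ') hTX
    rw [← h, add_mul, mul_add, e1, h0 d hd]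
  exact (A.NA_comm hZ.1 h1).symm

end AbVar

end Pool.Agent.Y102
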