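import Pool.Agent.H86.CMLib.Y102.V11

set_option autoImplicit false
set_option linter.unusedSectionVars false
set_option linter.unusedSimpArgs false
set_option linter.unusedVariables false

/-!
# Full subalgebras of the Lie algebra
-/

open Module Function TensorProduct

noncomputable section

namespace Pool.Agent.Y102

open Pool.Agent.W516.DR Pool.Agent.H204R3.GP Pool.Agent.W516.KC Pool.Agent.H204R3.SP

/-- the derived algebra -/
def der {W : Type} [AddCommGroup W] [Module ℚ W] (𝔥 : Submodule ℚ (Module.End ℚ W)) :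
    Submodule ℚ (Module.End ℚ W) :=
  Submodule.span ℚ {Z | ∃ X ∈ 𝔥, ∃ Y ∈ 𝔥, Z = X * Y - Y * X}

namespace AbVar

variable {g : ℕ} (A : AbVar g)

/-- A subalgebra of the Lie algebra which acts semisimply and has the same commutant. -/
structure Full (𝔥 : Submodule ℚ (Module.End ℚ A.H1)) : Prop where
  le : 𝔥 ≤ A.NA
  br : ∀ X ∈ 𝔥, ∀ Y ∈ 𝔥, X * Y - Y * X ∈ 𝔥
  semi : Semi 𝔥
  comm : ∀ P : Module.End ℚ A.H1, (∀ X ∈ 𝔥, X * P = P * X) → ∀ X ∈ A.NA, X * P = P * X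

theorem full_LA : A.Full A.LA where
  le := A.LA_le_NA
  br := fun X hX Y hY => A.LA_bracket hX hY
  semi := A.semi_LA
  comm := fun P hP X hX => A.NA_comm hX hP

variable {A} {𝔥 : Submodule ℚ (Module.End ℚ A.H1)}

namespace Full

variable (h : A.Full 𝔥)
include h

theorem pos {X : Module.End ℚ A.H1} (hX : X ∈ 𝔥) (hc : ∀ Y ∈ 𝔥, Y * X = X * Y)
    (htr : LinearMap.trace ℚ A.H1 (X * X) = 0) : X = 0 :=
  A.NA_pos (h.le hX) (h.comm X hc) htr

theorem trace : Pool.Agent.W516.KC2.TraceNondeg 𝔥 := by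
  intro X hX htr
  have h1 := central_of_trace 𝔥 h.semi h.br hX htr
  exact h.pos hX h1 (htr X hX)

theorem dec {X : Module.End ℚ A.H1} (hX : X ∈ 𝔥) : ∃ Z ∈ 𝔥, ∃ d ∈ der 𝔥, X = Z + d ∧
    ∀ Y ∈ 𝔥, Z * Y = Y * Z := by
  let C : Submodule ℚ (Module.End ℚ A.H1) :=
    { carrier := {X | X ∈ 𝔥 ∧ ∀ Y ∈ 𝔥, Y * X = X * Y}
      zero_mem' := ⟨𝔥.zero_mem, fun Y _ => by rw [mul_zero, zero_mul]⟩
      add_mem' := fun {P Q} hP hQ => ⟨𝔥.add_mem hP.1 hQ.1, fun X hX => by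
        rw [mul_add, add_mul, hP.2 X hX, hQ.2 X hX]⟩
      smul_mem' := fun c P hP => ⟨𝔥.smul_mem c hP.1, fun X hX => by
        rw [mul_smul_comm, smul_mul_assoc, hP.2 X hX]⟩ }
  have h1 : 𝔥 ≤ C ⊔ der 𝔥 := by
    refine le_of_trace 𝔥 h.trace h.br (fun X hX hc htr => h.pos hX hc htr) ?_ ?_
    · intro X hX Y hY
      exact Submodule.mem_sup_right (Submodule.subset_span ⟨X, hX, Y, hY, rfl⟩)
    · intro X hX hc
      exact Submodule.mem_sup_left ⟨hX, hc⟩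
  obtain ⟨Z, hZ, d, hd, h2⟩ := Submodule.mem_sup.1 (h1 hX)
  exact ⟨Z, hZ.1, d, hd, h2.symm, fun Y hY => (hZ.2 Y hY).symm⟩

theorem der_le : der 𝔥 ≤ 𝔥 := by
  unfold der
  rw [Submodule.span_le]
  rintro _ ⟨X, hX, Y, hY, rfl⟩
  exact h.br X hX Y hY

theorem perfect : der 𝔥 ≤ Submodule.span ℚ {Z | ∃ X ∈ der 𝔥, ∃ Y ∈ der 𝔥, Z = X * Y - Y * X} := by
  conv_lhs => unfold der
  rw [Submodule.span_le]
  rintro _ ⟨X, hX, Y, hY, rfl⟩
  obtain ⟨Z, hZ, d, hd, rfl, hZc⟩ := h.dec hX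
  obtain ⟨Z', hZ', d', hd', rfl, hZc'⟩ := h.dec hY
  refine Submodule.subset_span ⟨d, hd, d', hd', ?_⟩
  have e1 := hZc Z' hZ'
  have e2 := hZc d' (h.der_le hd')
  have e3 := hZc' d (h.der_le hd)
  rw [add_mul, mul_add, mul_add, add_mul, mul_add, mul_add, e1, e2, ← e3]
  abel

theorem cx_perfect : cx (der 𝔥) ≤
    Submodule.span ℂ {Z | ∃ X ∈ cx (der 𝔥), ∃ Y ∈ cx (der 𝔥), Z = X * Y - Y * X} := by
  have key : ∀ P ∈ Submodule.span ℚ {Z | ∃ X ∈ der 𝔥, ∃ Y ∈ der 𝔥, Z = X * Y - Y * X},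
      P.baseChange ℂ ∈
        Submodule.span ℂ {Z | ∃ X ∈ cx (der 𝔥), ∃ Y ∈ cx (der 𝔥), Z = X * Y - Y * X} := by
    intro P hP
    induction hP using Submodule.span_induction with
    | mem P hP =>
      obtain ⟨X, hX, Y, hY, rfl⟩ := hP
      exact Submodule.subset_span ⟨_, bc_mem hX, _, bc_mem hY, bc_br X Y⟩
    | zero => rw [LinearMap.baseChange_zero]; exact Submodule.zero_mem _
    | add a b _ _ ha hb => rw [LinearMap.baseChange_add]; exact Submodule.add_mem _ ha hb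
    | smul c a _ ha =>
      have h1 : (c • a).baseChange ℂ = (c : ℂ) • a.baseChange ℂ := by
        rw [LinearMap.baseChange_smul]
        exact (Rat.cast_smul_eq_qsmul ℂ c _).symm
      rw [h1]
      exact Submodule.smul_mem _ _ ha
  refine Submodule.span_le.2 ?_
  rintro _ ⟨P, hP, rfl⟩
  exact key P (h.perfect hP)

theorem cx_dec : ∀ X ∈ cx 𝔥, ∃ Z ∈ cx 𝔥, ∃ d ∈ cx (der 𝔥), X = Z + d ∧
    ∀ Y ∈ cx 𝔥, Z * Y = Y * Z := by
  intro X hX
  induction hX using Submodule.span_induction with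
  | mem X hX =>
    obtain ⟨P, hP, rfl⟩ := hX
    obtain ⟨Z, hZ, d, hd, h, hc⟩ := h.dec hP
    refine ⟨_, bc_mem hZ, _, bc_mem hd, ?_, cx_comm fun Y hY => ?_⟩
    · rw [← LinearMap.baseChange_add, ← h]
    · rw [← bc_mul, ← bc_mul, hc Y hY]
  | zero => exact ⟨0, Submodule.zero_mem _, 0, Submodule.zero_mem _, (add_zero _).symm, fun Y _ => by
      rw [zero_mul, mul_zero]⟩
  | add a b _ _ ha hb =>
    obtain ⟨Z, hZ, d, hd, h, hc⟩ := ha
    obtain ⟨Z', hZ', d', hd', h', hc'⟩ := hb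
    refine ⟨Z + Z', Submodule.add_mem _ hZ hZ', d + d', Submodule.add_mem _ hd hd', ?_,
      fun Y hY => by rw [add_mul, mul_add, hc Y hY, hc' Y hY]⟩
    rw [h, h']
    abel
  | smul c a _ ha =>
    obtain ⟨Z, hZ, d, hd, h, hc⟩ := ha
    refine ⟨c • Z, Submodule.smul_mem _ c hZ, c • d, Submodule.smul_mem _ c hd, ?_,
      fun Y hY => by rw [smul_mul_assoc, mul_smul_comm, hc Y hY]⟩
    rw [h, smul_add]

theorem cx_com (T : Module.End ℂ (ℂ ⊗[ℚ] A.H1)) (hT : ∀ X ∈ cx 𝔥, T * X = X * T) :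
    ∀ X ∈ cx A.NA, T * X = X * T := by
  refine cx_comm fun X hX => ?_
  rw [← comm_iff]
  intro lam
  exact (h.comm _ (fun Y hY => (((comm_iff Y T).2 (hT _ (bc_mem hY))) lam).symm) X hX).symm

theorem cx_br' : ∀ X ∈ cx 𝔥, ∀ Y ∈ cx 𝔥, X * Y - Y * X ∈ cx 𝔥 :=
  cx_br fun X hX Y hY => by rw [← bc_br]; exact bc_mem (h.br X hX Y hY)

theorem of_typeA {n : ℕ} {φ : Fin n → TA.S →ₗ[ℂ] Module.End ℂ (ℂ ⊗[ℚ] A.H1)}
    (ht : TA.TypeA φ (cx A.NA)) {X Y : Module.End ℚ A.H1} (hX : X ∈ A.NA) (hY : Y ∈ A.NA) :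
    X * Y - Y * X ∈ 𝔥 := by
  refine mem_of_bc ?_
  rw [bc_br]
  exact ht.br_mem (cx_mono h.le) (cx_mono h.der_le) h.cx_br' h.cx_perfect h.cx_dec h.cx_com
    (bc_mem hX) (bc_mem hY)

theorem adjoin {X : Module.End ℚ A.H1} (hX : X ∈ A.NA) :
    X ∈ Algebra.adjoin ℚ (𝔥 : Set (Module.End ℚ A.H1)) :=
  mem_adjoin_of_comm h.semi fun P hP => h.comm P hP X hX

/-- The two Lie algebras have the same enveloping algebra. -/
theorem cx_adjoin : ∀ X ∈ cx A.NA, X ∈ Algebra.adjoin ℂ (cx 𝔥 : Set _) := by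
  intro X hX
  induction hX using Submodule.span_induction with
  | mem X hX =>
    obtain ⟨P, hP, rfl⟩ := hX
    exact bc_adjoin (h.adjoin hP)
  | zero => exact Subalgebra.zero_mem _
  | add a b _ _ ha hb => exact Subalgebra.add_mem _ ha hb
  | smul c a _ ha => exact Subalgebra.smul_mem _ ha c

theorem of_typeD {φ ψ : S4.M4 →ₗ[ℂ] Module.End ℂ (ℂ ⊗[ℚ] A.H1)}
    (ht : S4.TypeD φ ψ (cx A.NA)) : A.NA ≤ 𝔥 := fun X hX =>
  mem_of_bc (ht.le (cx_mono h.le) h.cx_br' h.cx_adjoin (bc_mem hX))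

end Full

/-- If the Lie algebra is rigid, it is the sum of its centre and of the Lie algebra of the
de Rham-Betti classes. -/
theorem NA_le_of_rigid (hr : ∀ X ∈ A.NA, ∀ Y ∈ A.NA, X * Y - Y * X ∈ A.LA) :
    A.NA ≤ A.LA ⊔ A.CN :=
  le_of_trace A.NA A.trace_NA (fun X hX Y hY => A.NA_bracket hX hY)
    (fun X hX hc htr => A.NA_pos hX hc htr)
    (fun X hX Y hY => Submodule.mem_sup_left (hr X hX Y hY))
    fun X hX hc => Submodule.mem_sup_right ⟨hX, hc⟩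

theorem cas_hodge_of_rigid (hr : ∀ X ∈ A.NA, ∀ Y ∈ A.NA, X * Y - Y * X ∈ A.LA) :
    IsHodgeTensor (A.per : A.H1 →+ (Fin g → ℂ)) A.cas :=
  A.hodge_of_le (A.NA_le_of_rigid hr) A.cas_drb fun X hX => A.cas_killed hX

end AbVar

end Pool.Agent.Y102
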