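import Pool.Agent.H86.CMLib.Y102.V5

set_option autoImplicit false
set_option linter.unusedSectionVars false
set_option linter.unusedSimpArgs false
set_option linter.unusedVariables false

/-!
# Irreducible Lie algebras of endomorphisms of a space of dimension four without invariant forms
-/

open Module LieAlgebra LieModule LieAlgebra.IsKilling Matrix

namespace Pool.Agent.Y102.S4

attribute [local instance 100] LieRing.ofAssociativeRing

variable {U : Type} [AddCommGroup U] [Module ℂ U] [FiniteDimensional ℂ U]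
variable {L : Submodule ℂ (Module.End ℂ U)}
variable {h e f : Module.End ℂ U} {t : IsSl2Triple h e f} {v : U} {n : ℕ}

theorem ch_h (P : t.HasPrimitiveVectorWith v (n : ℂ)) (k : ℕ) :
    h ((f ^ k) v) = ((n : ℂ) - 2 * k) • (f ^ k) v := P.lie_h_pow_toEnd_f k

theorem ch_e (P : t.HasPrimitiveVectorWith v (n : ℂ)) (k : ℕ) :
    e ((f ^ (k + 1)) v) = (((k : ℂ) + 1) * (n - k)) • (f ^ k) v := P.lie_e_pow_succ_toEnd_f k

theorem ch_ne (P : t.HasPrimitiveVectorWith v (n : ℂ)) {k : ℕ} (hk : k ≤ n) : (f ^ k) v ≠ 0 :=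
  P.pow_toEnd_f_ne_zero_of_eq_nat rfl hk

theorem ch_zero (P : t.HasPrimitiveVectorWith v (n : ℂ)) : (f ^ (n + 1)) v = 0 :=
  P.pow_toEnd_f_eq_zero_of_eq_nat rfl

theorem ch_li (P : t.HasPrimitiveVectorWith v (n : ℂ)) :
    LinearIndependent ℂ (fun i : Fin (n + 1) => (f ^ (i : ℕ)) v) := by
  refine Module.End.eigenvectors_linearIndependent' h (fun i : Fin (n + 1) => (n : ℂ) - 2 * (i : ℕ))
    (fun i j hij => ?_) _ fun i => ?_
  · have h1 : (n : ℂ) - 2 * (i : ℕ) = (n : ℂ) - 2 * (j : ℕ) := hij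
    have h2 : ((i : ℕ) : ℂ) = ((j : ℕ) : ℂ) := by linear_combination (-1 / 2) * h1
    exact Fin.ext (Nat.cast_injective h2)
  · exact ⟨Module.End.mem_eigenspace_iff.2 (ch_h P i), ch_ne P (Nat.lt_succ_iff.1 i.2)⟩

theorem le_three (P : t.HasPrimitiveVectorWith v (n : ℂ)) (hU : finrank ℂ U = 4) : n ≤ 3 := by
  have h1 := (ch_li P).fintype_card_le_finrank
  rw [Fintype.card_fin, hU] at h1
  omega

theorem flip {w : U} (P : t.symm.HasPrimitiveVectorWith w (n : ℂ)) :
    ∃ v : U, t.HasPrimitiveVectorWith v (n : ℂ) := by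
  refine ⟨(e ^ n) w, ch_ne P le_rfl, ?_, ?_⟩
  · have h1 := ch_h P n
    rw [LinearMap.neg_apply] at h1
    have h2 : h ((e ^ n) w) = (n : ℂ) • (e ^ n) w := by
      rw [← neg_neg (h ((e ^ n) w)), h1, ← neg_smul]
      congr 1
      ring
    exact h2
  · have h1 := ch_zero P
    rw [pow_succ', Module.End.mul_apply] at h1
    exact h1

/-- all eigenvalues are integers, bounded by the weights of primitive vectors -/
theorem eig_int (t : IsSl2Triple h e f) {u : U} (hu : u ≠ 0) {μ : ℂ} (hμ : h u = μ • u) :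
    ∃ n n' k k' : ℕ, (∃ v : U, t.HasPrimitiveVectorWith v (n : ℂ)) ∧
      (∃ v : U, t.HasPrimitiveVectorWith v (n' : ℂ)) ∧ μ = n - 2 * k ∧ n + n' = 2 * (k + k') := by
  obtain ⟨n, k, v, P, h1⟩ := exists_prim t hu hμ
  obtain ⟨n', k', v', P', h2⟩ := exists_prim t.symm hu (μ := -μ) (by
    rw [LinearMap.neg_apply, hμ, neg_smul])
  refine ⟨n, n', k, k', ⟨v, P⟩, flip P', h1, ?_⟩
  have h3 : (n : ℂ) + n' = 2 * (k + k') := by linear_combination -h1 - h2
  exact_mod_cast h3

theorem eig_bound (t : IsSl2Triple h e f)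
    (hmax : ∀ (n : ℕ) (v : U), t.HasPrimitiveVectorWith v (n : ℂ) → n ≤ 1) {u : U} (hu : u ≠ 0)
    {μ : ℂ} (hμ : h u = μ • u) : μ = -1 ∨ μ = 0 ∨ μ = 1 := by
  obtain ⟨n, n', k, k', ⟨v, P⟩, ⟨v', P'⟩, h1, h2⟩ := eig_int t hu hμ
  have h3 := hmax n v P
  have h4 := hmax n' v' P'
  have h5 : (n = 0 ∧ k = 0) ∨ (n = 1 ∧ k = 0) ∨ (n = 1 ∧ k = 1) := by omega
  rcases h5 with ⟨rfl, rfl⟩ | ⟨rfl, rfl⟩ | ⟨rfl, rfl⟩
  · right; left; rw [h1]; norm_num
  · right; right; rw [h1]; norm_num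
  · left; rw [h1]; norm_num

/-- Some primitive vector has positive weight. -/
theorem exists_pos (hL : Good L) (t : IsSl2Triple h e f) (hD : DecU L h e f) [Nontrivial U] :
    ∃ (n : ℕ) (v : U), t.HasPrimitiveVectorWith v (n : ℂ) ∧ 1 ≤ n := by
  have h1 : LinearMap.ker h ≠ ⊤ := by
    intro h2
    exact t.h_ne_zero (LinearMap.ker_eq_top.1 h2)
  obtain ⟨u, hu, μ, hμ⟩ := hL.span_eig t hD _ h1
  have hu0 : u ≠ 0 := by
    rintro rfl
    exact hu (Submodule.zero_mem _)
  obtain ⟨n, n', k, k', ⟨v, P⟩, ⟨v', P'⟩, h1, h2⟩ := eig_int t hu0 hμ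
  by_contra hcon
  push Not at hcon
  have h3 := hcon n v P
  have h4 := hcon n' v' P'
  have h5 : n = 0 ∧ k = 0 := by omega
  apply hu
  rw [LinearMap.mem_ker, hμ, h1, h5.1, h5.2]
  simp

/-- a basis made of four independent vectors -/
theorem exists_basis (hU : finrank ℂ U = 4) {w : Fin 4 → U} (hw : LinearIndependent ℂ w) :
    ∃ b : Basis (Fin 4) ℂ U, ∀ i, b i = w i := by
  refine ⟨basisOfLinearIndependentOfCardEqFinrank hw (by rw [Fintype.card_fin, hU]), fun i => ?_⟩
  rw [coe_basisOfLinearIndependentOfCardEqFinrank]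

theorem toM_eq (b : Basis (Fin 4) ℂ U) (T : Module.End ℂ U) (M : M4)
    (hT : ∀ j, T (b j) = ∑ i, M i j • b i) : LinearMap.toMatrix b b T = M := by
  ext i j
  exact col b T j (fun i => M i j) (hT j) i

theorem toM_diag (b : Basis (Fin 4) ℂ U) (T : Module.End ℂ U) (d : Fin 4 → ℂ)
    (hT : ∀ j, T (b j) = d j • b j) : LinearMap.toMatrix b b T = Matrix.diagonal d := by
  refine toM_eq b T _ fun j => ?_
  rw [hT, Finset.sum_eq_single j]
  · rw [Matrix.diagonal_apply_eq]
  · intro i _ hij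
    rw [Matrix.diagonal_apply_ne _ hij, zero_smul]
  · intro hj
    exact absurd (Finset.mem_univ j) hj

theorem sum_eig (hL : Good L) (hh : h ∈ L) (b : Basis (Fin 4) ℂ U) (d : Fin 4 → ℂ)
    (hT : ∀ j, h (b j) = d j • b j) : d 0 + d 1 + d 2 + d 3 = 0 := by
  have h1 := hL.tr h hh
  rw [LinearMap.trace_eq_matrix_trace ℂ b, toM_diag b h d hT, Matrix.trace_diagonal,
    Fin.sum_univ_four] at h1
  exact h1

/-- the matrix of `e` has degree two -/
theorem ent_two {d : Fin 4 → ℂ} {x : M4} {c : ℂ}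
    (hx : diagonal d * x - x * diagonal d = c • x) {i j : Fin 4}
    (hne : d i - d j ≠ c) : x i j = 0 := by
  have h1 : (d i - d j) * x i j = c * x i j := by rw [← diag_br, hx]; rfl
  have h2 : (d i - d j - c) * x i j = 0 := by linear_combination h1
  exact (mul_eq_zero.1 h2).resolve_left (sub_ne_zero.2 hne)

theorem no_three (hL : Good L) (hU : finrank ℂ U = 4) (he : e ∈ L) (hD : DecU L h e f)
    (P : t.HasPrimitiveVectorWith v ((3 : ℕ) : ℂ)) : False := by
  obtain ⟨b, hb⟩ := exists_basis hU (ch_li P)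
  have hb0 : b 0 = v := by rw [hb]; simp
  have hb1 : b 1 = f v := by rw [hb]; simp
  have hb2 : b 2 = (f ^ 2) v := by rw [hb]; simp
  have hb3 : b 3 = (f ^ 3) v := by rw [hb]; simp
  have e0 : e v = 0 := P.lie_e
  have e1 : e (f v) = (3 : ℂ) • v := by
    have := ch_e P 0
    simp only [zero_add, pow_one, pow_zero, Module.End.one_apply] at this
    rw [this]; norm_num
  have e2 : e ((f ^ 2) v) = (4 : ℂ) • f v := by
    have := ch_e P 1
    simp only [pow_one] at this
    rw [this]; norm_num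
  have e3 : e ((f ^ 3) v) = (3 : ℂ) • (f ^ 2) v := by
    have := ch_e P 2
    rw [this]; norm_num
  have f1 : f (f v) = (f ^ 2) v := by rw [pow_two]; rfl
  have f2 : f ((f ^ 2) v) = (f ^ 3) v := by rw [pow_succ' f 2]; rfl
  have f3 : f ((f ^ 3) v) = 0 := by
    have := ch_zero P
    rw [pow_succ' f 3] at this
    exact this
  have hH : LinearMap.toMatrix b b h = Matrix.diagonal ![3, 1, -1, -3] := by
    refine toM_diag b h _ fun j => ?_
    rw [hb, ch_h P]
    congr 1
    fin_cases j <;> norm_num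
  have hE : LinearMap.toMatrix b b e = !![0, 3, 0, 0; 0, 0, 4, 0; 0, 0, 0, 3; 0, 0, 0, 0] := by
    refine toM_eq b e _ fun j => ?_
    rw [Fin.sum_univ_four]
    fin_cases j <;> simp [hb0, hb1, hb2, hb3, e0, e1, e2, e3]
  have hF : LinearMap.toMatrix b b f = !![0, 0, 0, 0; 1, 0, 0, 0; 0, 1, 0, 0; 0, 0, 1, 0] := by
    refine toM_eq b f _ fun j => ?_
    rw [Fin.sum_univ_four]
    fin_cases j <;> simp [hb0, hb1, hb2, hb3, f1, f2, f3]
  have h1 := decM b hD
  have h2 := toM_mem (b := b) he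
  rw [hE] at h2
  rw [hH, hE, hF] at h1
  exact case3 (goodM b hL) h2 h1

theorem br_e (t : IsSl2Triple h e f) (b : Basis (Fin 4) ℂ U) {d : Fin 4 → ℂ}
    (hH : LinearMap.toMatrix b b h = Matrix.diagonal d) :
    Matrix.diagonal d * LinearMap.toMatrix b b e - LinearMap.toMatrix b b e * Matrix.diagonal d =
      (2 : ℂ) • LinearMap.toMatrix b b e := by
  have h1 : h * e - e * h = (2 : ℂ) • e := t.lie_h_e_smul ℂ
  rw [← hH, ← toM_mul, ← toM_mul, ← map_sub, h1, map_smul]

theorem br_f (t : IsSl2Triple h e f) (b : Basis (Fin 4) ℂ U) {d : Fin 4 → ℂ}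
    (hH : LinearMap.toMatrix b b h = Matrix.diagonal d) :
    Matrix.diagonal d * LinearMap.toMatrix b b f - LinearMap.toMatrix b b f * Matrix.diagonal d =
      (-2 : ℂ) • LinearMap.toMatrix b b f := by
  have h1 : h * f - f * h = -((2 : ℂ) • f) := t.lie_lie_smul_f ℂ
  rw [← hH, ← toM_mul, ← toM_mul, ← map_sub, h1, ← neg_smul, map_smul]

theorem span_ne_top {m : ℕ} (hU : finrank ℂ U = 4) {w : Fin m → U} (hw : LinearIndependent ℂ w)
    (hm : m < 4) : Submodule.span ℂ (Set.range w) ≠ ⊤ := by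
  intro h1
  have h2 := finrank_span_eq_card hw
  rw [h1, finrank_top, hU, Fintype.card_fin] at h2
  omega

theorem no_two (hL : Good L) (hU : finrank ℂ U = 4) (hh : h ∈ L) (hf : f ∈ L) (hD : DecU L h e f)
    (P : t.HasPrimitiveVectorWith v ((2 : ℕ) : ℂ)) : False := by
  have : Nontrivial U := Module.nontrivial_of_finrank_pos (R := ℂ) (by rw [hU]; norm_num)
  obtain ⟨x, hx, lam, hlam⟩ := hL.span_eig t hD _ (span_ne_top hU (ch_li P) (by norm_num))
  obtain ⟨b, hb⟩ := exists_basis hU ((ch_li P).finSnoc hx)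
  have hb0 : b 0 = v := by rw [hb]; simp [Fin.snoc]
  have hb1 : b 1 = f v := by rw [hb]; simp [Fin.snoc]
  have hb2 : b 2 = (f ^ 2) v := by rw [hb]; simp [Fin.snoc]
  have hb3 : b 3 = x := by rw [hb]; simp [Fin.snoc]
  have e0 : e v = 0 := P.lie_e
  have e1 : e (f v) = (2 : ℂ) • v := by
    have := ch_e P 0
    simp only [zero_add, pow_one, pow_zero, Module.End.one_apply] at this
    rw [this]; norm_num
  have e2 : e ((f ^ 2) v) = (2 : ℂ) • f v := by
    have := ch_e P 1
    simp only [pow_one] at this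
    rw [this]; norm_num
  have f1 : f (f v) = (f ^ 2) v := by rw [pow_two]; rfl
  have f2 : f ((f ^ 2) v) = 0 := by
    have := ch_zero P
    rw [pow_succ' f 2] at this
    exact this
  have hd : ∀ j, h (b j) = (![2, 0, -2, lam] : Fin 4 → ℂ) j • b j := by
    intro j
    fin_cases j
    · have := ch_h P 0
      simp at this
      simp [hb0, this]
    · have := ch_h P 1
      simp at this
      simp [hb1, this]
    · have := ch_h P 2
      simp only [Nat.cast_ofNat] at this
      simp only [Fin.reduceFinMk, hb2, Matrix.cons_val]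
      rw [this]
      norm_num
    · simp [hb3, hlam]
  have hlam0 : lam = 0 := by
    have := sum_eig hL hh b _ hd
    simp at this
    exact this
  subst hlam0
  have hH := toM_diag b h _ hd
  have hE : LinearMap.toMatrix b b e = !![0, 2, 0, LinearMap.toMatrix b b e 0 3; 0, 0, 2, 0;
      0, 0, 0, 0; 0, 0, 0, 0] := by
    have c0 := col b e 0 ![0, 0, 0, 0] (by rw [Fin.sum_univ_four]; simp [hb0, hb1, hb2, e0])
    have c1 := col b e 1 ![2, 0, 0, 0] (by rw [Fin.sum_univ_four]; simp [hb0, hb1, hb2, e1])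
    have c2 := col b e 2 ![0, 2, 0, 0] (by rw [Fin.sum_univ_four]; simp [hb0, hb1, hb2, e2])
    have c3 : ∀ i, (![2, 0, -2, 0] : Fin 4 → ℂ) i - ![2, 0, -2, 0] 3 ≠ 2 →
        LinearMap.toMatrix b b e i 3 = 0 := fun i hi => ent_two (br_e t b hH) hi
    have c31 := c3 1 (by simp)
    have c32 := c3 2 (by simp <;> norm_num)
    have c33 := c3 3 (by simp)
    ext i j
    fin_cases j
    · fin_cases i <;> simp [c0]
    · fin_cases i <;> simp [c1]
    · fin_cases i <;> simp [c2]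
    · fin_cases i <;> simp [c31, c32, c33]
  have hF : LinearMap.toMatrix b b f = !![0, 0, 0, 0; 1, 0, 0, 0; 0, 1, 0,
      LinearMap.toMatrix b b f 2 3; 0, 0, 0, 0] := by
    have c0 := col b f 0 ![0, 1, 0, 0] (by rw [Fin.sum_univ_four]; simp [hb0, hb1, hb2])
    have c1 := col b f 1 ![0, 0, 1, 0] (by rw [Fin.sum_univ_four]; simp [hb0, hb1, hb2, f1])
    have c2 := col b f 2 ![0, 0, 0, 0] (by rw [Fin.sum_univ_four]; simp [hb0, hb1, hb2, f2])
    have c3 : ∀ i, (![2, 0, -2, 0] : Fin 4 → ℂ) i - ![2, 0, -2, 0] 3 ≠ -2 →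
        LinearMap.toMatrix b b f i 3 = 0 := fun i hi => ent_two (br_f t b hH) hi
    have c30 := c3 0 (by simp <;> norm_num)
    have c31 := c3 1 (by simp)
    have c33 := c3 3 (by simp)
    ext i j
    fin_cases j
    · fin_cases i <;> simp [c0]
    · fin_cases i <;> simp [c1]
    · fin_cases i <;> simp [c2]
    · fin_cases i <;> simp [c30, c31, c33]
  have h1 := decM b hD
  have h2 := toM_mem (b := b) hf
  rw [hF] at h2
  rw [hH, hE, hF] at h1
  exact case2 (goodM b hL) h2 h1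

end Pool.Agent.Y102.S4
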