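import Pool.Agent.H86.CMLib.Y102.V6

set_option autoImplicit false
set_option linter.unusedSectionVars false
set_option linter.unusedSimpArgs false
set_option linter.unusedVariables false

/-!
# Irreducible Lie algebras of endomorphisms of a space of dimension four without invariant forms
-/

open Module LieAlgebra LieModule LieAlgebra.IsKilling Matrix

namespace Pool.Agent.Y102.S4

attribute [local instance 100] LieRing.ofAssociativeRing

variable {U : Type} [AddCommGroup U] [Module ℂ U] [FiniteDimensional ℂ U]
variable {L : Submodule ℂ (Module.End ℂ U)}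
variable {h e f : Module.End ℂ U} {t : IsSl2Triple h e f} {v : U} {n : ℕ}

theorem no_pair (hL : Good L) (hU : finrank ℂ U = 4) (he : e ∈ L) (hD : DecU L h e f)
    (P : t.HasPrimitiveVectorWith v ((1 : ℕ) : ℂ)) {x : U}
    (P' : t.HasPrimitiveVectorWith x ((1 : ℕ) : ℂ)) (hx : x ∉ Submodule.span ℂ {v}) : False := by
  have e0 : e v = 0 := P.lie_e
  have e0' : e x = 0 := P'.lie_e
  have e1 : e (f v) = v := by
    have := ch_e P 0
    simp only [zero_add, pow_one, pow_zero, Module.End.one_apply] at this
    rw [this]; simp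
  have e1' : e (f x) = x := by
    have := ch_e P' 0
    simp only [zero_add, pow_one, pow_zero, Module.End.one_apply] at this
    rw [this]; simp
  have f1 : f (f v) = 0 := by
    have := ch_zero P
    rw [pow_succ' f 1, pow_one] at this
    exact this
  have f1' : f (f x) = 0 := by
    have := ch_zero P'
    rw [pow_succ' f 1, pow_one] at this
    exact this
  have h0 : h v = v := by
    have := ch_h P 0
    simpa using this
  have h0' : h x = x := by
    have := ch_h P' 0
    simpa using this
  have h1 : h (f v) = -f v := by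
    have := ch_h P 1
    simp only [pow_one] at this
    rw [this, ← neg_one_smul ℂ (f v)]
    congr 1
    norm_num
  have h1' : h (f x) = -f x := by
    have := ch_h P' 1
    simp only [pow_one] at this
    rw [this, ← neg_one_smul ℂ (f x)]
    congr 1
    norm_num
  have two : ∀ a c : ℂ, a • v + c • x = 0 → a = 0 ∧ c = 0 := by
    intro a c hac
    have hc : c = 0 := by
      by_contra hc
      apply hx
      rw [Submodule.mem_span_singleton]
      refine ⟨-c⁻¹ * a, ?_⟩
      have h2 : c • x = -(a • v) := by rw [← sub_eq_zero, sub_neg_eq_add, add_comm]; exact hac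
      have h3 : x = c⁻¹ • (c • x) := by rw [smul_smul, inv_mul_cancel₀ hc, one_smul]
      rw [h3, h2, smul_neg, smul_smul, neg_mul, neg_smul]
    rw [hc, zero_smul, add_zero] at hac
    exact ⟨(smul_eq_zero.1 hac).resolve_right P.ne_zero, hc⟩
  have li : LinearIndependent ℂ ![v, x, f v, f x] := by
    rw [Fintype.linearIndependent_iff]
    intro g hg
    rw [Fin.sum_univ_four] at hg
    simp only [Matrix.cons_val] at hg
    have hg2 := congrArg h hg
    simp only [map_add, map_smul, map_zero, h0, h0', h1, h1', smul_neg] at hg2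
    have k1 : (g 0 + g 0) • v + (g 1 + g 1) • x = 0 := by
      have := congrArg₂ (· + ·) hg hg2
      simp only [add_zero] at this
      rw [← this, add_smul, add_smul]
      abel
    obtain ⟨k2, k3⟩ := two _ _ k1
    have g0 : g 0 = 0 := by linear_combination (1 / 2) * k2
    have g1 : g 1 = 0 := by linear_combination (1 / 2) * k3
    rw [g0, g1, zero_smul, zero_smul, zero_add, zero_add] at hg
    have hg3 := congrArg e hg
    simp only [map_add, map_smul, map_zero, e1, e1'] at hg3
    obtain ⟨g2, g3⟩ := two _ _ hg3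
    intro i
    fin_cases i
    · exact g0
    · exact g1
    · exact g2
    · exact g3
  obtain ⟨b, hb⟩ := exists_basis hU li
  have hb0 : b 0 = v := by rw [hb]; simp
  have hb1 : b 1 = x := by rw [hb]; simp
  have hb2 : b 2 = f v := by rw [hb]; simp
  have hb3 : b 3 = f x := by rw [hb]; simp
  have hH : LinearMap.toMatrix b b h = Matrix.diagonal ![1, 1, -1, -1] := by
    refine toM_diag b h _ fun j => ?_
    fin_cases j <;> simp [hb0, hb1, hb2, hb3, h0, h0', h1, h1']
  have hE : LinearMap.toMatrix b b e = !![0, 0, 1, 0; 0, 0, 0, 1; 0, 0, 0, 0; 0, 0, 0, 0] := by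
    refine toM_eq b e _ fun j => ?_
    rw [Fin.sum_univ_four]
    fin_cases j <;> simp [hb0, hb1, hb2, hb3, e0, e0', e1, e1']
  have hF : LinearMap.toMatrix b b f = !![0, 0, 0, 0; 0, 0, 0, 0; 1, 0, 0, 0; 0, 1, 0, 0] := by
    refine toM_eq b f _ fun j => ?_
    rw [Fin.sum_univ_four]
    fin_cases j <;> simp [hb0, hb1, hb2, hb3, f1, f1']
  have h1 := decM b hD
  have h2 := toM_mem (b := b) he
  rw [hE] at h2
  rw [hH, hE, hF] at h1
  exact case1 (goodM b hL) h2 h1

/-- **Theorem**: an irreducible Lie algebra of endomorphisms of trace zero of a complex vector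
space of dimension four, which leaves no nonzero bilinear form invariant, consists of all
endomorphisms of trace zero. -/
theorem Good.all (hL : Good L) (hU : finrank ℂ U = 4) (x : Module.End ℂ U)
    (hx : LinearMap.trace ℂ U x = 0) : x ∈ L := by
  have : Nontrivial U := Module.nontrivial_of_finrank_pos (R := ℂ) (by rw [hU]; norm_num)
  obtain ⟨h, e, f, hh, he, hf, t, hD⟩ := hL.exists_triple hU
  have n3 : ∀ v : U, ¬t.HasPrimitiveVectorWith v ((3 : ℕ) : ℂ) := fun v P =>
    no_three hL hU he hD P
  have n2 : ∀ v : U, ¬t.HasPrimitiveVectorWith v ((2 : ℕ) : ℂ) := fun v P =>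
    no_two hL hU hh hf hD P
  have hmax : ∀ (n : ℕ) (v : U), t.HasPrimitiveVectorWith v (n : ℂ) → n ≤ 1 := by
    intro n v P
    have h1 := le_three P hU
    by_contra h2
    have h3 : n = 2 ∨ n = 3 := by omega
    rcases h3 with rfl | rfl
    · exact n2 v P
    · exact n3 v P
  obtain ⟨n, v, P, hn⟩ := exists_pos hL t hD
  have hn1 : n = 1 := le_antisymm (hmax n v P) hn
  subst hn1
  -- eigenvectors of eigenvalue one
  have hone : ∀ x : U, h x = x → x ∈ Submodule.span ℂ {v} := by
    intro x hx1
    by_contra hx2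
    have hx0 : x ≠ 0 := by
      rintro rfl
      exact hx2 (Submodule.zero_mem _)
    refine no_pair hL hU he hD P (x := x) ⟨hx0, ?_, ?_⟩ hx2
    · have : h x = ((1 : ℕ) : ℂ) • x := by rw [Nat.cast_one, one_smul]; exact hx1
      exact this
    · have h4 : e x = 0 := by
        by_contra hne
        have h5 : h * e - e * h = (2 : ℂ) • e := t.lie_h_e_smul ℂ
        have h6 := LinearMap.congr_fun h5 x
        rw [LinearMap.sub_apply, Module.End.mul_apply, Module.End.mul_apply, hx1,
          LinearMap.smul_apply, sub_eq_iff_eq_add] at h6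
        have h7 : h (e x) = (3 : ℂ) • e x := by
          rw [h6]
          nth_rewrite 2 [← one_smul ℂ (e x)]
          rw [← add_smul]
          norm_num
        rcases eig_bound t hmax hne h7 with h8 | h8 | h8 <;> norm_num at h8
      exact h4
  obtain ⟨x₂, hx2, lam, hlam⟩ := hL.span_eig t hD _ (span_ne_top hU (ch_li P) (by norm_num))
  obtain ⟨x₃, hx3, mu, hmu⟩ := hL.span_eig t hD _
    (span_ne_top hU ((ch_li P).finSnoc hx2) (by norm_num))
  obtain ⟨b, hb⟩ := exists_basis hU (((ch_li P).finSnoc hx2).finSnoc hx3)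
  have hb0 : b 0 = v := by rw [hb]; simp [Fin.snoc]
  have hb1 : b 1 = f v := by rw [hb]; simp [Fin.snoc]
  have hb2 : b 2 = x₂ := by rw [hb]; simp [Fin.snoc]
  have hb3 : b 3 = x₃ := by rw [hb]; simp [Fin.snoc]
  have e0 : e v = 0 := P.lie_e
  have e1 : e (f v) = v := by
    have := ch_e P 0
    simp only [zero_add, pow_one, pow_zero, Module.End.one_apply] at this
    rw [this]; simp
  have f1 : f (f v) = 0 := by
    have := ch_zero P
    rw [pow_succ' f 1, pow_one] at this
    exact this
  have h0 : h v = v := by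
    have := ch_h P 0
    simpa using this
  have h1 : h (f v) = -f v := by
    have := ch_h P 1
    simp only [pow_one] at this
    rw [this, ← neg_one_smul ℂ (f v)]
    congr 1
    norm_num
  have hd : ∀ j, h (b j) = (![1, -1, lam, mu] : Fin 4 → ℂ) j • b j := by
    intro j
    fin_cases j <;> simp [hb0, hb1, hb2, hb3, h0, h1, hlam, hmu]
  have hsum : lam + mu = 0 := by
    have := sum_eig hL hh b _ hd
    simp at this
    exact this
  have nv : ∀ i : Fin 4, i ≠ 0 → h (b i) ≠ b i := by
    intro i hi h2
    have h3 := hone _ h2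
    rw [Submodule.mem_span_singleton, ← hb0] at h3
    obtain ⟨c, hc⟩ := h3
    have h4 := congrArg (fun w => b.repr w i) hc
    simp [Finsupp.single_apply, hi.symm] at h4
  have hl1 : lam ≠ 1 := by
    rintro rfl
    refine nv 2 (by decide) ?_
    rw [hb2, hlam, one_smul]
  have hm1 : mu ≠ 1 := by
    rintro rfl
    refine nv 3 (by decide) ?_
    rw [hb3, hmu, one_smul]
  have hlb := eig_bound t hmax (hb2 ▸ b.ne_zero 2) hlam
  have hmb := eig_bound t hmax (hb3 ▸ b.ne_zero 3) hmu
  have hl0 : lam = 0 := by
    rcases hlb with h2 | h2 | h2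
    · exfalso
      apply hm1
      rw [h2] at hsum
      linear_combination hsum
    · exact h2
    · exact absurd h2 hl1
  have hm0 : mu = 0 := by
    rw [hl0, zero_add] at hsum
    exact hsum
  subst hl0 hm0
  have hH := toM_diag b h _ hd
  have hE : LinearMap.toMatrix b b e = E := by
    have c0 := col b e 0 ![0, 0, 0, 0] (by rw [Fin.sum_univ_four]; simp [hb0, hb1, e0])
    have c1 := col b e 1 ![1, 0, 0, 0] (by rw [Fin.sum_univ_four]; simp [hb0, hb1, e1])
    have cc : ∀ i j, (![1, -1, 0, 0] : Fin 4 → ℂ) i - ![1, -1, 0, 0] j ≠ 2 →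
        LinearMap.toMatrix b b e i j = 0 := fun i j hi => ent_two (br_e t b hH) hi
    have c2 : ∀ i, LinearMap.toMatrix b b e i 2 = 0 := fun i => cc i 2 (by
      fin_cases i <;> simp <;> norm_num)
    have c3 : ∀ i, LinearMap.toMatrix b b e i 3 = 0 := fun i => cc i 3 (by
      fin_cases i <;> simp <;> norm_num)
    ext i j
    fin_cases j
    · fin_cases i <;> simp [c0, E]
    · fin_cases i <;> simp [c1, E]
    · fin_cases i <;> simp [c2, E]
    · fin_cases i <;> simp [c3, E]
  have hF : LinearMap.toMatrix b b f = F := by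
    have c0 := col b f 0 ![0, 1, 0, 0] (by rw [Fin.sum_univ_four]; simp [hb0, hb1])
    have c1 := col b f 1 ![0, 0, 0, 0] (by rw [Fin.sum_univ_four]; simp [hb0, hb1, f1])
    have cc : ∀ i j, (![1, -1, 0, 0] : Fin 4 → ℂ) i - ![1, -1, 0, 0] j ≠ -2 →
        LinearMap.toMatrix b b f i j = 0 := fun i j hi => ent_two (br_f t b hH) hi
    have c2 : ∀ i, LinearMap.toMatrix b b f i 2 = 0 := fun i => cc i 2 (by
      fin_cases i <;> simp <;> norm_num)
    have c3 : ∀ i, LinearMap.toMatrix b b f i 3 = 0 := fun i => cc i 3 (by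
      fin_cases i <;> simp <;> norm_num)
    ext i j
    fin_cases j
    · fin_cases i <;> simp [c0, F]
    · fin_cases i <;> simp [c1, F]
    · fin_cases i <;> simp [c2, F]
    · fin_cases i <;> simp [c3, F]
  have hdec : Dec4 (Lm b L) := by
    have := decM b hD
    rw [hH, hE, hF] at this
    exact this
  have hE' : E ∈ Lm b L := by rw [← hE]; exact toM_mem he
  have hF' : F ∈ Lm b L := by rw [← hF]; exact toM_mem hf
  have h2 := caseC hF' hE' (goodM b hL) hdec (LinearMap.toMatrix b b x) (by
    rw [← LinearMap.trace_eq_matrix_trace ℂ b]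
    exact hx)
  rw [mem_Lm, Matrix.toLin_toMatrix] at h2
  exact h2

end Pool.Agent.Y102.S4
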