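import Pool.Agent.H86.CMLib.Y102.T5

set_option autoImplicit false
set_option linter.unusedSectionVars false
set_option linter.unusedSimpArgs false
set_option linter.unusedVariables false

/-!
# The double commutant of a semisimple set of endomorphisms
-/

open Module

noncomputable section

namespace Pool.Agent.Y102

open Pool.Agent.W516.KC Pool.Agent.H204R3.SP Pool.Agent.W516.DR

section Dens

variable {V : Type} [AddCommGroup V] [Module ℚ V] [FiniteDimensional ℚ V]

/-- **Double commutant.** -/
theorem mem_adjoin_of_comm {S : Submodule ℚ (Module.End ℚ V)} (hS : Semi S)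
    {T : Module.End ℚ V} (hT : ∀ P : Module.End ℚ V, (∀ X ∈ S, X * P = P * X) → T * P = P * T) :
    T ∈ Algebra.adjoin ℚ (S : Set (Module.End ℚ V)) := by
  set R := Algebra.adjoin ℚ (S : Set (Module.End ℚ V)) with hR
  have hsm : ∀ (r : R) (v : V), r • v = r.1 v := fun r v => rfl
  have hss : IsSemisimpleModule R V := by
    rw [isSemisimpleModule_iff]
    refine ⟨fun N => ?_⟩
    let N' : Submodule ℚ V :=
      { carrier := N
        zero_mem' := N.zero_mem
        add_mem' := fun {a b} ha hb => N.add_mem ha hb
        smul_mem' := fun c v hv => by
          have h1 := N.smul_mem (algebraMap ℚ R c) hv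
          have h2 : (algebraMap ℚ R c) • v = c • v := by
            rw [hsm]
            rfl
          rw [← h2]
          exact h1 }
    obtain ⟨U', hU', hc⟩ := hS N' fun X hX u hu => by
      have h1 := N.smul_mem (⟨X, Algebra.subset_adjoin hX⟩ : R) hu
      exact h1
    have stab : ∀ r ∈ R, ∀ v ∈ U', r v ∈ U' := by
      intro r hr
      refine Algebra.adjoin_induction (p := fun r _ => ∀ v ∈ U', r v ∈ U') ?_ ?_ ?_ ?_ hr
      · intro X hX v hv
        exact hU' X hX v hv
      · intro c v hv
        exact U'.smul_mem c hv
      · intro a b _ _ ha hb v hv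
        exact U'.add_mem (ha v hv) (hb v hv)
      · intro a b _ _ ha hb v hv
        exact ha _ (hb v hv)
    let M : Submodule R V :=
      { carrier := U'
        zero_mem' := U'.zero_mem
        add_mem' := fun {a b} ha hb => U'.add_mem ha hb
        smul_mem' := fun r v hv => stab r.1 r.2 v hv }
    refine ⟨M, ?_⟩
    rw [isCompl_iff, disjoint_iff, codisjoint_iff, eq_bot_iff, eq_top_iff]
    constructor
    · rintro v ⟨hv, hv'⟩
      have h1 : v ∈ N' ⊓ U' := ⟨hv, hv'⟩
      rw [hc.inf_eq_bot, Submodule.mem_bot] at h1
      rw [h1]
      exact Submodule.zero_mem _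
    · intro v _
      have h1 : v ∈ N' ⊔ U' := by rw [hc.sup_eq_top]; exact Submodule.mem_top
      obtain ⟨a, ha, b, hb, rfl⟩ := Submodule.mem_sup.1 h1
      exact Submodule.add_mem _ (Submodule.mem_sup_left ha) (Submodule.mem_sup_right hb)
  let f : Module.End (Module.End R V) V :=
    { toFun := T
      map_add' := fun a b => map_add T a b
      map_smul' := fun g m => by
        let P : Module.End ℚ V :=
          { toFun := g
            map_add' := fun a b => map_add g a b
            map_smul' := fun c v => by
              have h1 := g.map_smul (algebraMap ℚ R c) v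
              have h2 : ∀ w : V, (algebraMap ℚ R c) • w = c • w := fun w => by
                rw [hsm]
                rfl
              rw [h2, h2] at h1
              exact h1 }
        have h1 := hT P fun X hX => by
          refine LinearMap.ext fun v => ?_
          have h2 := g.map_smul (⟨X, Algebra.subset_adjoin hX⟩ : R) v
          exact h2.symm
        exact LinearMap.congr_fun h1 m }
  obtain ⟨s, hs⟩ := Module.Finite.fg_top (R := ℚ) (M := V)
  obtain ⟨r, hr⟩ := jacobson_density f s
  have h1 : T = r.1 := by
    refine LinearMap.ext fun v => ?_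
    have hv : v ∈ Submodule.span ℚ (s : Set V) := by rw [hs]; exact Submodule.mem_top
    induction hv using Submodule.span_induction with
    | mem x hx => exact hr x hx
    | zero => rw [map_zero, map_zero]
    | add a b _ _ ha hb => rw [map_add, map_add, ha, hb]
    | smul c a _ ha => rw [map_smul, map_smul, ha]
  rw [h1]
  exact r.2

end Dens

end Pool.Agent.Y102
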